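import Pool.Agent.N282.GC.Stm

/-!
# Project GC: products of the values at random signs (helper300)
-/

set_option autoImplicit false

open MeasureTheory Filter Topology Classical ProbabilityTheory

namespace Pool.Agent.N282.GC

theorem Rnd_fs {s : ℕ → ℝ} {n N : ℕ} (hn : Squarefree n) (hN : N ≠ 0) (hd : n ∣ N) :
    fs s n = ((ArithmeticFunction.moebius n : ℤ) : ℝ) * ∏ p ∈ N.primeFactors, s p ^ n.factorization p := by
  unfold fs
  congr 1
  have h1 : n.primeFactors ⊆ N.primeFactors := Nat.primeFactors_mono hd hN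
  rw [← Finset.prod_subset h1 (f := fun p => s p ^ n.factorization p) (fun p _ hp => by
    rw [Finsupp.notMem_support_iff.1 (by rwa [Nat.support_factorization]), pow_zero])]
  apply Finset.prod_congr rfl
  intro p hp
  have h2 : n.factorization p = 1 := by
    have h3 := hn.natFactorization_le_one p
    have h4 : n.factorization p ≠ 0 := by
      rw [← Finsupp.mem_support_iff, Nat.support_factorization]
      exact hp
    omega
  rw [h2, pow_one]

theorem Rnd_odd {N : ℕ} (hN : N ≠ 0) (h : ¬ IsSquare N) : ∃ p ∈ N.primeFactors, Odd (N.factorization p) := by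
  by_contra hcon
  push Not at hcon
  apply h
  refine ⟨∏ p ∈ N.primeFactors, p ^ (N.factorization p / 2), ?_⟩
  rw [← Finset.prod_mul_distrib]
  conv_lhs => rw [← Nat.prod_factorization_pow_eq_self hN]
  rw [Finsupp.prod, Nat.support_factorization]
  apply Finset.prod_congr rfl
  intro p hp
  have h1 := Nat.not_odd_iff_even.1 (hcon p hp)
  rw [← pow_add]
  congr 1
  obtain ⟨m, hm⟩ := h1
  omega

theorem Rnd_pow {x : ℝ} (hx : x = 1 ∨ x = -1) {a : ℕ} (ha : Odd a) : x ^ a = x := by
  rcases hx with rfl | rfl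
  · exact one_pow _
  · exact ha.neg_one_pow

theorem t_RND : S_RND := by
  intro Ω _ P _ s hsm hs1 hs0 hind k n m hn hm hsq
  set N : ℕ := (∏ i, n i) * ∏ i, m i with hN
  have hn0 : ∏ i, n i ≠ 0 := Finset.prod_ne_zero_iff.2 fun i _ => (hn i).ne_zero
  have hm0 : ∏ i, m i ≠ 0 := Finset.prod_ne_zero_iff.2 fun i _ => (hm i).ne_zero
  have hN0 : N ≠ 0 := mul_ne_zero hn0 hm0
  obtain ⟨p0, hp0, hodd⟩ := Rnd_odd hN0 hsq
  have hdn : ∀ i, n i ∣ N := fun i => (Finset.dvd_prod_of_mem n (Finset.mem_univ i)).mul_right _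
  have hdm : ∀ i, m i ∣ N := fun i => (Finset.dvd_prod_of_mem m (Finset.mem_univ i)).mul_left _
  set c : ℝ := (∏ i, ((ArithmeticFunction.moebius (n i) : ℤ) : ℝ)) *
    ∏ i, ((ArithmeticFunction.moebius (m i) : ℤ) : ℝ) with hc
  have hfac : ∀ p, N.factorization p = ∑ i, (n i).factorization p + ∑ i, (m i).factorization p := by
    intro p
    rw [hN, Nat.factorization_mul hn0 hm0, Finsupp.add_apply,
      Nat.factorization_prod (fun i _ => (hn i).ne_zero), Nat.factorization_prod (fun i _ => (hm i).ne_zero),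
      Finsupp.finsetSum_apply, Finsupp.finsetSum_apply]
  have hprod : ∀ ω, (∏ i, fs (fun p => s p ω) (n i)) * ∏ i, fs (fun p => s p ω) (m i) =
      c * ∏ p ∈ N.primeFactors, s p ω ^ N.factorization p := by
    intro ω
    rw [Finset.prod_congr rfl fun i _ => Rnd_fs (s := fun p => s p ω) (hn i) hN0 (hdn i),
      Finset.prod_congr rfl fun i _ => Rnd_fs (s := fun p => s p ω) (hm i) hN0 (hdm i),
      Finset.prod_mul_distrib, Finset.prod_mul_distrib, hc]
    rw [Finset.prod_comm (s := Finset.univ) (t := N.primeFactors) (f := fun i p => s p ω ^ (n i).factorization p),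
      Finset.prod_comm (s := Finset.univ) (t := N.primeFactors) (f := fun i p => s p ω ^ (m i).factorization p)]
    rw [mul_mul_mul_comm, ← Finset.prod_mul_distrib (s := N.primeFactors)]
    congr 1
    apply Finset.prod_congr rfl
    intro p _
    rw [Finset.prod_pow_eq_pow_sum, Finset.prod_pow_eq_pow_sum, ← pow_add, hfac]
  rw [integral_congr_ae (Eventually.of_forall hprod), integral_const_mul]
  have hind' : iIndepFun (fun p : N.primeFactors => s p) P := hind.precomp Subtype.val_injective
  have key : ∫ ω, ∏ p ∈ N.primeFactors, s p ω ^ N.factorization p ∂P =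
      ∏ p : N.primeFactors, ∫ ω, s p ω ^ N.factorization p ∂P := by
    have h2 := iIndepFun.integral_fun_prod_comp (ι := N.primeFactors) (X := fun p : N.primeFactors => s p)
      (f := fun (p : N.primeFactors) (x : ℝ) => x ^ N.factorization (p : ℕ)) hind'
      (fun p => (hsm p).aemeasurable) (fun p => (measurable_id.pow_const _).aestronglyMeasurable)
    rw [← h2]
    apply integral_congr_ae
    apply Eventually.of_forall
    intro ω
    exact (Finset.prod_coe_sort N.primeFactors fun p => s p ω ^ N.factorization p).symm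
  rw [key, Finset.prod_eq_zero (Finset.mem_univ (⟨p0, hp0⟩ : N.primeFactors)), mul_zero]
  have h1 : ∀ ω, s p0 ω ^ N.factorization p0 = s p0 ω := fun ω => Rnd_pow (hs1 p0 ω) hodd
  simp only [h1]
  exact hs0 p0

end Pool.Agent.N282.GC
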