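import Pool.Agent.N282.GC.Stm
import Pool.Agent.Helper919.Char

/-!
# JAC: sums of Jacobi symbols over the lower entry

The bound is the one of the starting library (`Pool.Agent.Helper919.XX_sum_bound`).
-/

set_option autoImplicit false

open MeasureTheory Filter Topology Classical

namespace Pool.Agent.N282.GC

theorem t_JAC : S_JAC := by
  intro N D hN hsq
  have hsq' : ¬ IsSquare (N : ℤ) := fun h => hsq (Int.isSquare_natCast_iff.1 h)
  have h := Pool.Agent.Helper919.XX_sum_bound (N : ℤ) (by exact_mod_cast hN.ne') hsq' D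
  have e1 : ∑ d ∈ (Finset.Icc 1 D).filter (fun d => Odd d), ((jacobiSym N d : ℤ) : ℝ) =
      ∑ d ∈ Finset.Ioc 0 D, Pool.Agent.Helper919.XX (N : ℤ) d := by
    rw [Finset.sum_filter]
    have e2 : Finset.Icc 1 D = Finset.Ioc 0 D := by
      ext x
      simp only [Finset.mem_Icc, Finset.mem_Ioc]
      omega
    rw [e2]
    refine Finset.sum_congr rfl fun d _ => ?_
    rw [Pool.Agent.Helper919.XX_apply]
  rw [e1]
  simpa using h

end Pool.Agent.N282.GC
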