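import Pool.Agent.N282.GC.Stm

/-!
# Windows of nearly the same length (project GC of helper282)

Author: helper291.
-/

set_option autoImplicit false

open MeasureTheory Filter Topology

namespace Pool.Agent.N282.GC

/-- the sum of the values at the integers less than `t` -/
noncomputable def CH_P (F : ℕ → ℝ) (t : ℝ) : ℝ := ∑ n ∈ Finset.range ⌈t⌉₊, F n

lemma CH_P_sub (F : ℕ → ℝ) {a b : ℝ} (hab : a ≤ b) :
    CH_P F b - CH_P F a = ∑ n ∈ Finset.Ico ⌈a⌉₊ ⌈b⌉₊, F n :=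
  (Finset.sum_Ico_eq_sub _ (Nat.ceil_mono hab)).symm

lemma CH_P_le {F : ℕ → ℝ} (hF : ∀ n, |F n| ≤ 1) {a b : ℝ} (h0 : 0 ≤ a) (hab : a ≤ b) :
    |CH_P F b - CH_P F a| ≤ b - a + 1 := by
  rw [CH_P_sub F hab]
  calc |∑ n ∈ Finset.Ico ⌈a⌉₊ ⌈b⌉₊, F n| ≤ ∑ n ∈ Finset.Ico ⌈a⌉₊ ⌈b⌉₊, |F n| :=
        Finset.abs_sum_le_sum_abs _ _
    _ ≤ ∑ n ∈ Finset.Ico ⌈a⌉₊ ⌈b⌉₊, (1 : ℝ) := Finset.sum_le_sum fun n _ => hF n
    _ = (⌈b⌉₊ : ℝ) - ⌈a⌉₊ := by
        rw [Finset.sum_const, Nat.card_Ico, nsmul_eq_mul, mul_one,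
          Nat.cast_sub (Nat.ceil_mono hab)]
    _ ≤ b - a + 1 := by
        have h1 := Nat.ceil_lt_add_one (h0.trans hab)
        have h2 := Nat.le_ceil a
        linarith

lemma CH_P_bd {F : ℕ → ℝ} (hF : ∀ n, |F n| ≤ 1) (t : ℝ) : |CH_P F t| ≤ |t| + 1 := by
  unfold CH_P
  calc |∑ n ∈ Finset.range ⌈t⌉₊, F n| ≤ ∑ n ∈ Finset.range ⌈t⌉₊, |F n| :=
        Finset.abs_sum_le_sum_abs _ _
    _ ≤ ∑ n ∈ Finset.range ⌈t⌉₊, (1 : ℝ) := Finset.sum_le_sum fun n _ => hF n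
    _ = (⌈t⌉₊ : ℝ) := by
        rw [Finset.sum_const, Finset.card_range, nsmul_eq_mul, mul_one]
    _ ≤ |t| + 1 := by
        have h1 : ⌈t⌉₊ ≤ ⌈|t|⌉₊ := Nat.ceil_mono (le_abs_self t)
        have h2 := Nat.ceil_lt_add_one (abs_nonneg t)
        have h3 : (⌈t⌉₊ : ℝ) ≤ ⌈|t|⌉₊ := by exact_mod_cast h1
        linarith

lemma CH_P_meas (F : ℕ → ℝ) : Measurable (CH_P F) :=
  (measurable_from_nat (f := fun k : ℕ => ∑ n ∈ Finset.range k, F n)).comp Nat.measurable_ceil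

/-- a difference of two sums -/
noncomputable def CH_D (F : ℕ → ℝ) (b a x : ℝ) : ℝ := CH_P F (x + b) - CH_P F (x + a)

lemma CH_D_meas (F : ℕ → ℝ) (b a : ℝ) : Measurable (CH_D F b a) := by
  unfold CH_D
  exact ((CH_P_meas F).comp (measurable_id.add_const b)).sub
    ((CH_P_meas F).comp (measurable_id.add_const a))

lemma CH_D_add (F : ℕ → ℝ) (a b c x : ℝ) : CH_D F c a x = CH_D F b a x + CH_D F c b x := by
  unfold CH_D
  ring

lemma CH_D_bd {F : ℕ → ℝ} (hF : ∀ n, |F n| ≤ 1) (b a x : ℝ) :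
    |CH_D F b a x| ≤ 2 * |x| + |a| + |b| + 2 := by
  unfold CH_D
  have h1 := CH_P_bd hF (x + b)
  have h2 := CH_P_bd hF (x + a)
  have h3 := abs_sub (CH_P F (x + b)) (CH_P F (x + a))
  have h4 := abs_add_le x b
  have h5 := abs_add_le x a
  linarith

lemma CH_int {g : ℝ → ℝ} (hg : Measurable g) (K u v : ℝ) (hK : ∀ x, |x| ≤ max |u| |v| → |g x| ≤ K) :
    IntervalIntegrable g volume u v := by
  rw [intervalIntegrable_iff]
  refine Measure.integrableOn_of_bounded (M := K) ?_ hg.aestronglyMeasurable ?_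
  · rw [Set.uIoc]
    exact (measure_Ioc_lt_top).ne
  · rw [ae_restrict_iff' measurableSet_uIoc]
    refine Eventually.of_forall fun x hx => ?_
    rw [Real.norm_eq_abs]
    apply hK
    rw [Set.uIoc, Set.mem_Ioc] at hx
    rw [abs_le]
    rcases le_total u v with h | h
    · rw [min_eq_left h, max_eq_right h] at hx
      constructor
      · have := neg_abs_le u
        have := le_max_left |u| |v|
        linarith
      · have := le_abs_self v
        have := le_max_right |u| |v|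
        linarith
    · rw [min_eq_right h, max_eq_left h] at hx
      constructor
      · have := neg_abs_le v
        have := le_max_right |u| |v|
        linarith
      · have := le_abs_self u
        have := le_max_left |u| |v|
        linarith

lemma CH_D_int {F : ℕ → ℝ} (hF : ∀ n, |F n| ≤ 1) (b a b' a' u v : ℝ) :
    IntervalIntegrable (fun x => CH_D F b a x * CH_D F b' a' x) volume u v := by
  refine CH_int ((CH_D_meas F b a).mul (CH_D_meas F b' a'))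
    ((2 * max |u| |v| + |a| + |b| + 2) * (2 * max |u| |v| + |a'| + |b'| + 2)) u v ?_
  intro x hx
  rw [Pi.mul_apply, abs_mul]
  have h1 := CH_D_bd hF b a x
  have h2 := CH_D_bd hF b' a' x
  refine mul_le_mul (by linarith) (by linarith) (abs_nonneg _) ?_
  have := abs_nonneg (CH_D F b a x)
  linarith

lemma CH_M_ae (F : ℕ → ℝ) {H : ℝ} (hH : 0 ≤ H) :
    ∀ᵐ x : ℝ, M F x H = CH_D F (H / 2) (-(H / 2)) x := by
  have h1 : ∀ᵐ x : ℝ, x ∉ Set.range fun n : ℕ => (n : ℝ) + H / 2 :=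
    (Set.countable_range _).ae_notMem volume
  filter_upwards [h1] with x hx
  unfold M CH_D
  rw [CH_P_sub F (by linarith)]
  refine Finset.sum_congr ?_ fun _ _ => rfl
  ext n
  unfold win
  rw [Finset.mem_filter, Finset.mem_range, Finset.mem_Ico, Nat.ceil_le, Nat.lt_ceil, abs_lt]
  constructor
  · rintro ⟨_, h2, h3⟩
    constructor <;> linarith
  · rintro ⟨h2, h3⟩
    refine ⟨?_, ?_, by linarith⟩
    · have : n < ⌈x + H⌉₊ := by
        rw [Nat.lt_ceil]
        linarith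
      omega
    · have h4 : x + -(H / 2) ≠ n := by
        intro h
        exact hx ⟨n, by linarith⟩
      have h5 := lt_of_le_of_ne h2 h4
      linarith

/-- Minkowski -/
lemma CH_mink {f g : ℝ → ℝ} {u v α β : ℝ} (huv : u ≤ v) (hα : 0 < α) (hβ : 0 < β)
    (hf : IntervalIntegrable (fun x => f x ^ 2) volume u v)
    (hg : IntervalIntegrable (fun x => g x ^ 2) volume u v)
    (hfg : IntervalIntegrable (fun x => (f x + g x) ^ 2) volume u v)
    (h1 : ∫ x in u..v, f x ^ 2 ≤ α ^ 2) (h2 : ∫ x in u..v, g x ^ 2 ≤ β ^ 2) :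
    ∫ x in u..v, (f x + g x) ^ 2 ≤ (α + β) ^ 2 := by
  have h3 : ∫ x in u..v, (f x + g x) ^ 2 ≤
      ∫ x in u..v, ((1 + β / α) * f x ^ 2 + (1 + α / β) * g x ^ 2) := by
    refine intervalIntegral.integral_mono_on huv hfg
      ((hf.const_mul _).add (hg.const_mul _)) fun x _ => ?_
    have h4 : 2 * (f x * g x) ≤ β / α * f x ^ 2 + α / β * g x ^ 2 := by
      have h5 : 0 ≤ (β * f x - α * g x) ^ 2 / (α * β) := by positivity
      have h6 : (β * f x - α * g x) ^ 2 / (α * β) =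
          β / α * f x ^ 2 + α / β * g x ^ 2 - 2 * (f x * g x) := by
        field_simp
        ring
      linarith
    nlinarith [h4]
  rw [intervalIntegral.integral_add (hf.const_mul _) (hg.const_mul _),
    intervalIntegral.integral_const_mul, intervalIntegral.integral_const_mul] at h3
  have h4 : (1 + β / α) * ∫ x in u..v, f x ^ 2 ≤ (1 + β / α) * α ^ 2 :=
    mul_le_mul_of_nonneg_left h1 (by positivity)
  have h5 : (1 + α / β) * ∫ x in u..v, g x ^ 2 ≤ (1 + α / β) * β ^ 2 :=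
    mul_le_mul_of_nonneg_left h2 (by positivity)
  have h6 : (1 + β / α) * α ^ 2 + (1 + α / β) * β ^ 2 = (α + β) ^ 2 := by
    field_simp
    ring
  linarith

lemma CH_nt_pos (q i : ℕ) : 0 < nt q i := Real.rpow_pos_of_pos two_pos _

lemma CH_nt_mono (q : ℕ) : Monotone (nt q) := by
  intro i j hij
  unfold nt
  apply Real.rpow_le_rpow_of_exponent_le one_le_two
  have : (i : ℝ) ≤ j := by exact_mod_cast hij
  exact div_le_div_of_nonneg_right this (Nat.cast_nonneg q)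

lemma CH_nt_lt {q : ℕ} (hq : 1 ≤ q) (i : ℕ) : nt q i < nt q (i + 1) := by
  unfold nt
  apply Real.rpow_lt_rpow_of_exponent_lt one_lt_two
  have hq0 : (0 : ℝ) < q := by exact_mod_cast hq
  push_cast
  exact div_lt_div_of_pos_right (by linarith) hq0

lemma CH_nt_pow {q : ℕ} (hq : 1 ≤ q) (a : ℕ) : nt q (a * q) = 2 ^ a := by
  unfold nt
  have hq0 : (q : ℝ) ≠ 0 := by
    have : (0 : ℝ) < q := by exact_mod_cast hq
    exact this.ne'
  push_cast
  rw [mul_div_cancel_right₀ _ hq0, Real.rpow_natCast]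

lemma CH_cover {q : ℕ} (hq : 1 ≤ q) {X : ℝ} (hX : 2 ≤ X) : ∃ i0 i1 : ℕ, i0 ≤ i1 ∧
    nt q i0 ≤ X / 2 ∧ X / 4 ≤ nt q i0 ∧ 4 * X ≤ nt q i1 ∧ nt q i1 ≤ 8 * X := by
  have hq0 : (0 : ℝ) < q := by exact_mod_cast hq
  have hq1 : (1 : ℝ) ≤ q := by exact_mod_cast hq
  have hl : 0 ≤ Real.logb 2 (X / 2) := Real.logb_nonneg one_lt_two (by linarith)
  have hl' : 0 ≤ Real.logb 2 (4 * X) := Real.logb_nonneg one_lt_two (by linarith)
  have e1 : nt q ⌊q * Real.logb 2 (X / 2)⌋₊ ≤ X / 2 := by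
    unfold nt
    rw [← Real.le_logb_iff_rpow_le one_lt_two (by linarith), div_le_iff₀ hq0, mul_comm]
    exact Nat.floor_le (by positivity)
  have e2 : X / 4 ≤ nt q ⌊q * Real.logb 2 (X / 2)⌋₊ := by
    unfold nt
    rw [← Real.logb_le_iff_le_rpow one_lt_two (by linarith), le_div_iff₀ hq0]
    have h1 := Nat.lt_floor_add_one (q * Real.logb 2 (X / 2))
    have h2 : Real.logb 2 (X / 4) = Real.logb 2 (X / 2) - 1 := by
      have : X / 4 = X / 2 / 2 := by ring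
      rw [this, Real.logb_div (by positivity) (by norm_num),
        Real.logb_self_eq_one (by norm_num)]
    rw [h2]
    nlinarith
  have e3 : 4 * X ≤ nt q ⌈q * Real.logb 2 (4 * X)⌉₊ := by
    unfold nt
    rw [← Real.logb_le_iff_le_rpow one_lt_two (by linarith), le_div_iff₀ hq0, mul_comm]
    exact Nat.le_ceil _
  have e4 : nt q ⌈q * Real.logb 2 (4 * X)⌉₊ ≤ 8 * X := by
    unfold nt
    rw [← Real.le_logb_iff_rpow_le one_lt_two (by linarith), div_le_iff₀ hq0]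
    have h1 := Nat.ceil_lt_add_one (a := q * Real.logb 2 (4 * X)) (by positivity)
    have h2 : Real.logb 2 (8 * X) = Real.logb 2 (4 * X) + 1 := by
      have : 8 * X = 4 * X * 2 := by ring
      rw [this, Real.logb_mul (by positivity) (by norm_num),
        Real.logb_self_eq_one (by norm_num)]
    rw [h2]
    nlinarith
  refine ⟨_, _, ?_, e1, e2, e3, e4⟩
  by_contra hcon
  push Not at hcon
  have := CH_nt_mono q hcon.le
  linarith

lemma CH_net {F : ℕ → ℝ} {ρ : ℝ} {q : ℕ} (hq : 1 ≤ q) {ε X1 Y : ℝ} (hρ : ρ ≤ 1)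
    (hN : Net F ρ q 2 ε 1 X1 Y) (i a : ℕ) (h1 : X1 ≤ nt q i) (h2 : nt q (i + 1) ≤ Y)
    (h3 : nt q i ^ ε ≤ 2 ^ a) (h4 : (2 : ℝ) ^ a ≤ nt q i ^ (1 - ε)) :
    ∫ y in nt q i..nt q (i + 1), CH_D F (2 ^ a / 2) (-(2 ^ a / 2)) y ^ 2 ≤
      2 * 2 ^ a * (nt q (i + 1) - nt q i) := by
  have h5 := hN i (a * q) h1 h2 (by rw [CH_nt_pow hq]; exact h3) (by rw [CH_nt_pow hq]; exact h4)
  rw [CH_nt_pow hq] at h5
  have hgm : gm 2 = 1 := by simp [gm]
  have h22 : (((2 : ℕ) : ℝ) / 2) = 1 := by norm_num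
  rw [hgm, h22, Real.rpow_one, Real.rpow_one, one_mul, one_mul] at h5
  have h6 := (abs_le.1 h5).2
  have hp : (0 : ℝ) < 2 ^ a := by positivity
  have h7 : mom F 2 (nt q i) (nt q (i + 1)) (2 ^ a) ≤ 2 * 2 ^ a := by nlinarith
  unfold mom at h7
  have hd : 0 < nt q (i + 1) - nt q i := sub_pos.2 (CH_nt_lt hq i)
  rw [one_div, inv_mul_le_iff₀ hd] at h7
  have h8 : ∫ y in nt q i..nt q (i + 1), CH_D F (2 ^ a / 2) (-(2 ^ a / 2)) y ^ 2 =
      ∫ y in nt q i..nt q (i + 1), M F y (2 ^ a) ^ 2 := by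
    refine intervalIntegral.integral_congr_ae ?_
    filter_upwards [CH_M_ae F hp.le] with y hy _
    rw [hy]
  rw [h8]
  linarith

lemma CH_D_int2 {F : ℕ → ℝ} (hF : ∀ n, |F n| ≤ 1) (b a u v : ℝ) :
    IntervalIntegrable (fun x => CH_D F b a x ^ 2) volume u v := by
  have h : (fun x => CH_D F b a x ^ 2) = fun x => CH_D F b a x * CH_D F b a x := by
    funext x
    ring
  rw [h]
  exact CH_D_int hF b a b a u v

/-- the mean square of a block -/
lemma CH_block {F : ℕ → ℝ} (hF : ∀ n, |F n| ≤ 1) {ρ : ℝ} {q : ℕ} (hq : 1 ≤ q) {ε X1 Y : ℝ}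
    (hε : 0 < ε) (hε1 : ε < 1) (hρ : ρ ≤ 1) (hN : Net F ρ q 2 ε 1 X1 Y) {X : ℝ} (hX : 2 ≤ X)
    (hX1 : X1 ≤ X / 4) (hY : 8 * X ≤ Y) (a : ℕ) (o : ℝ) (ho : -(X / 2) ≤ o)
    (ho' : o + 2 ^ a ≤ X) (h1 : (8 * X) ^ ε ≤ 2 ^ a) (h2 : (2 : ℝ) ^ a ≤ (X / 4) ^ (1 - ε)) :
    ∫ x in X..2 * X, CH_D F (o + 2 ^ a) o x ^ 2 ≤ 16 * X * 2 ^ a := by
  obtain ⟨i0, i1, h01, e1, e2, e3, e4⟩ := CH_cover hq hX
  have hp : (0 : ℝ) < 2 ^ a := by positivity
  have h3 : ∀ x, CH_D F (o + 2 ^ a) o x =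
      CH_D F (2 ^ a / 2) (-(2 ^ a / 2)) (x + (o + 2 ^ a / 2)) := by
    intro x
    unfold CH_D
    congr 2 <;> ring
  have h4 : ∫ x in X..2 * X, CH_D F (o + 2 ^ a) o x ^ 2 =
      ∫ y in X + (o + 2 ^ a / 2)..2 * X + (o + 2 ^ a / 2),
        CH_D F (2 ^ a / 2) (-(2 ^ a / 2)) y ^ 2 := by
    rw [← intervalIntegral.integral_comp_add_right
      (fun y => CH_D F (2 ^ a / 2) (-(2 ^ a / 2)) y ^ 2)]
    refine intervalIntegral.integral_congr fun x _ => ?_
    simp only [h3]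
  have h5 : ∫ y in X + (o + 2 ^ a / 2)..2 * X + (o + 2 ^ a / 2),
        CH_D F (2 ^ a / 2) (-(2 ^ a / 2)) y ^ 2 ≤
      ∫ y in nt q i0..nt q i1, CH_D F (2 ^ a / 2) (-(2 ^ a / 2)) y ^ 2 := by
    refine intervalIntegral.integral_mono_interval (by linarith) (by linarith) (by linarith)
      (Eventually.of_forall fun x => sq_nonneg _) (CH_D_int2 hF _ _ _ _)
  have h6 : ∑ i ∈ Finset.Ico i0 i1, ∫ y in nt q i..nt q (i + 1),
      CH_D F (2 ^ a / 2) (-(2 ^ a / 2)) y ^ 2 =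
      ∫ y in nt q i0..nt q i1, CH_D F (2 ^ a / 2) (-(2 ^ a / 2)) y ^ 2 :=
    intervalIntegral.sum_integral_adjacent_intervals_Ico h01
      fun k _ => CH_D_int2 hF _ _ _ _
  have h7 : ∑ i ∈ Finset.Ico i0 i1, ∫ y in nt q i..nt q (i + 1),
      CH_D F (2 ^ a / 2) (-(2 ^ a / 2)) y ^ 2 ≤
      ∑ i ∈ Finset.Ico i0 i1, 2 * 2 ^ a * (nt q (i + 1) - nt q i) := by
    refine Finset.sum_le_sum fun i hi => ?_
    rw [Finset.mem_Ico] at hi
    have h8 : X / 4 ≤ nt q i := e2.trans (CH_nt_mono q hi.1)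
    have h9 : nt q i ≤ 8 * X := (CH_nt_mono q hi.2.le).trans e4
    refine CH_net hq hρ hN i a (hX1.trans h8) (((CH_nt_mono q hi.2).trans e4).trans hY) ?_ ?_
    · exact (Real.rpow_le_rpow (CH_nt_pos q i).le h9 hε.le).trans h1
    · exact h2.trans (Real.rpow_le_rpow (by linarith) h8 (by linarith))
  rw [← Finset.mul_sum, Finset.sum_Ico_sub (fun i => nt q i) h01] at h7
  rw [h4]
  have h8 := (CH_nt_pos q i0).le
  calc _ ≤ _ := h5
    _ = _ := h6.symm
    _ ≤ _ := h7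
    _ ≤ 2 * 2 ^ a * (8 * X) := by
        apply mul_le_mul_of_nonneg_left _ (by positivity)
        linarith
    _ = 16 * X * 2 ^ a := by ring

lemma CH_sqrt {u v : ℝ} (hv : 0 ≤ v) (huv : v ≤ u) :
    4 * Real.sqrt u + 10 * Real.sqrt v ≤ 10 * Real.sqrt (u + v) := by
  have hu : 0 ≤ u := hv.trans huv
  have h1 := Real.sqrt_nonneg u
  have h2 := Real.sqrt_nonneg v
  have h3 : Real.sqrt v ≤ Real.sqrt u := Real.sqrt_le_sqrt huv
  have h4 := Real.sq_sqrt hu
  have h5 := Real.sq_sqrt hv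
  have h6 : (4 * Real.sqrt u + 10 * Real.sqrt v) / 10 ≤ Real.sqrt (u + v) := by
    apply Real.le_sqrt_of_sq_le
    nlinarith [mul_nonneg h1 h2, mul_nonneg h1 (sub_nonneg.2 h3)]
  linarith

/-- the trivial estimate -/
lemma CH_triv {F : ℕ → ℝ} (hF : ∀ n, |F n| ≤ 1) {X o m K : ℝ} (hX : 0 ≤ X) (ho : -X ≤ o)
    (hm : 0 ≤ m) (hK : m + 1 ≤ K) : ∫ x in X..2 * X, CH_D F (o + m) o x ^ 2 ≤ X * K ^ 2 := by
  have h1 : ∫ x in X..2 * X, CH_D F (o + m) o x ^ 2 ≤ ∫ x in X..2 * X, K ^ 2 := by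
    refine intervalIntegral.integral_mono_on (by linarith) (CH_D_int2 hF _ _ _ _)
      intervalIntegrable_const fun x hx => ?_
    have h2 : |CH_D F (o + m) o x| ≤ K := by
      unfold CH_D
      have h3 := CH_P_le hF (a := x + o) (b := x + (o + m)) (by linarith [hx.1]) (by linarith)
      linarith
    rw [← sq_abs]
    exact pow_le_pow_left₀ (abs_nonneg _) h2 2
  rw [intervalIntegral.integral_const, smul_eq_mul] at h1
  linarith

/-- the mean square of the sums over intervals of integral length -/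
lemma CH_chain {F : ℕ → ℝ} (hF : ∀ n, |F n| ≤ 1) {ρ : ℝ} {q : ℕ} (hq : 1 ≤ q) {ε X1 Y : ℝ}
    (hε : 0 < ε) (hε1 : ε < 1) (hρ : ρ ≤ 1) (hN : Net F ρ q 2 ε 1 X1 Y) {X : ℝ} (hX : 2 ≤ X)
    (hX1 : X1 ≤ X / 4) (hY : 8 * X ≤ Y) (m : ℕ) : ∀ o : ℝ, -(X / 2) ≤ o → o + m ≤ X →
    (m : ℝ) ≤ (X / 4) ^ (1 - ε) →
    ∫ x in X..2 * X, CH_D F (o + m) o x ^ 2 ≤
      X * (10 * Real.sqrt m + 2 * (8 * X) ^ ε + 1) ^ 2 := by
  induction m using Nat.strong_induction_on with
  | _ m ih =>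
    intro o ho ho' hm
    have hL : 0 < (8 * X) ^ ε := Real.rpow_pos_of_pos (by linarith) _
    have hX0 : 0 < X := by linarith
    rcases Nat.eq_zero_or_pos m with h0 | h0
    · subst h0
      refine CH_triv hF hX0.le (by linarith) (by simp) ?_
      have := Real.sqrt_nonneg ((0 : ℕ) : ℝ)
      push_cast at this ⊢
      linarith
    · obtain ⟨a, ha⟩ : ∃ a, a = Nat.log 2 m := ⟨_, rfl⟩
      have h1 : 2 ^ a ≤ m := by
        rw [ha]
        exact Nat.pow_log_le_self 2 h0.ne'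
      have h2 : m < 2 ^ (a + 1) := by
        rw [ha]
        exact Nat.lt_pow_succ_log_self (by norm_num) m
      have h1' : (2 : ℝ) ^ a ≤ m := by exact_mod_cast h1
      have h2' : (m : ℝ) < 2 * 2 ^ a := by
        have : (m : ℝ) < 2 ^ (a + 1) := by exact_mod_cast h2
        rw [pow_succ] at this
        linarith
      by_cases h3 : (8 * X) ^ ε ≤ 2 ^ a
      · -- a long block and the rest
        obtain ⟨m', hm'⟩ : ∃ m', m = 2 ^ a + m' := ⟨m - 2 ^ a, by omega⟩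
        have hpos : 0 < 2 ^ a := by positivity
        have hm'r : (m : ℝ) = 2 ^ a + m' := by
          rw [hm']
          push_cast
          ring
        have h4 := ih m' (by omega) (o + 2 ^ a) (by
          have : (0 : ℝ) < 2 ^ a := by positivity
          linarith) (by linarith) (by
          have : (0 : ℝ) < 2 ^ a := by positivity
          linarith)
        have h5 := CH_block hF hq hε hε1 hρ hN hX hX1 hY a o ho (by linarith) h3 (h1'.trans hm)
        have hs1 : 0 < Real.sqrt X := Real.sqrt_pos.2 hX0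
        have hs2 : Real.sqrt X ^ 2 = X := Real.sq_sqrt hX0.le
        have hp : (0 : ℝ) < 2 ^ a := by positivity
        have hs3 : 0 < Real.sqrt (2 ^ a) := Real.sqrt_pos.2 hp
        have hs4 : Real.sqrt (2 ^ a) ^ 2 = 2 ^ a := Real.sq_sqrt hp.le
        have hs5 := Real.sqrt_nonneg (m' : ℝ)
        have h6 : ∫ x in X..2 * X, CH_D F (o + 2 ^ a) o x ^ 2 ≤
            (Real.sqrt X * (4 * Real.sqrt (2 ^ a))) ^ 2 := by
          have : (Real.sqrt X * (4 * Real.sqrt (2 ^ a))) ^ 2 = 16 * X * 2 ^ a := by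
            calc (Real.sqrt X * (4 * Real.sqrt (2 ^ a))) ^ 2 =
                16 * Real.sqrt X ^ 2 * Real.sqrt (2 ^ a) ^ 2 := by ring
              _ = _ := by rw [hs2, hs4]
          rw [this]
          exact h5
        have h7 : ∫ x in X..2 * X, CH_D F (o + 2 ^ a + m') (o + 2 ^ a) x ^ 2 ≤
            (Real.sqrt X * (10 * Real.sqrt m' + 2 * (8 * X) ^ ε + 1)) ^ 2 := by
          rw [mul_pow, hs2]
          exact h4
        have hfun : ∀ x, CH_D F (o + m) o x =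
            CH_D F (o + 2 ^ a) o x + CH_D F (o + 2 ^ a + m') (o + 2 ^ a) x := by
          intro x
          rw [← CH_D_add, hm'r, add_assoc]
        have h8 := CH_mink (f := CH_D F (o + 2 ^ a) o)
          (g := CH_D F (o + 2 ^ a + m') (o + 2 ^ a)) (u := X) (v := 2 * X) (by linarith)
          (by positivity) (by positivity) (CH_D_int2 hF _ _ _ _) (CH_D_int2 hF _ _ _ _) (by
            have := CH_D_int2 hF (o + m) o X (2 * X)
            simp only [hfun] at this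
            exact this) h6 h7
        have h9 : ∫ x in X..2 * X, CH_D F (o + m) o x ^ 2 ≤
            (Real.sqrt X * (4 * Real.sqrt (2 ^ a)) +
              Real.sqrt X * (10 * Real.sqrt m' + 2 * (8 * X) ^ ε + 1)) ^ 2 := by
          simp only [hfun]
          exact h8
        refine h9.trans ?_
        have h10 : X * (10 * Real.sqrt m + 2 * (8 * X) ^ ε + 1) ^ 2 =
            (Real.sqrt X * (10 * Real.sqrt m + 2 * (8 * X) ^ ε + 1)) ^ 2 := by
          rw [mul_pow, hs2]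
        rw [h10]
        refine pow_le_pow_left₀ (by positivity) ?_ 2
        rw [← mul_add]
        apply mul_le_mul_of_nonneg_left _ hs1.le
        have h11 := CH_sqrt (u := 2 ^ a) (v := m') (Nat.cast_nonneg _) (by linarith)
        rw [← hm'r] at h11
        linarith
      · push Not at h3
        refine CH_triv hF hX0.le (by linarith) (Nat.cast_nonneg _) ?_
        have := Real.sqrt_nonneg (m : ℝ)
        linarith

/-- the mean square of the sums over intervals of any length -/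
lemma CH_piece {F : ℕ → ℝ} (hF : ∀ n, |F n| ≤ 1) {ρ : ℝ} {q : ℕ} (hq : 1 ≤ q) {ε X1 Y : ℝ}
    (hε : 0 < ε) (hε1 : ε < 1) (hρ : ρ ≤ 1) (hN : Net F ρ q 2 ε 1 X1 Y) {X : ℝ} (hX : 2 ≤ X)
    (hX1 : X1 ≤ X / 4) (hY : 8 * X ≤ Y) (l : ℝ) (hl : 0 ≤ l) (o : ℝ) (ho : -(X / 2) ≤ o)
    (ho' : o + l ≤ X) (hlX : l ≤ (X / 4) ^ (1 - ε)) :
    ∫ x in X..2 * X, CH_D F (o + l) o x ^ 2 ≤
      (Real.sqrt X * (10 * Real.sqrt l + 5 * (8 * X) ^ ε)) ^ 2 := by
  obtain ⟨m, hm⟩ : ∃ m, m = ⌊l⌋₊ := ⟨_, rfl⟩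
  have h1 : (m : ℝ) ≤ l := by
    rw [hm]
    exact Nat.floor_le hl
  have h2 : l < m + 1 := by
    rw [hm]
    exact Nat.lt_floor_add_one l
  have hX0 : 0 < X := by linarith
  have hs1 : 0 < Real.sqrt X := Real.sqrt_pos.2 hX0
  have hs2 : Real.sqrt X ^ 2 = X := Real.sq_sqrt hX0.le
  have hL : 1 ≤ (8 * X) ^ ε := Real.one_le_rpow (by linarith) hε.le
  have h3 := CH_chain hF hq hε hε1 hρ hN hX hX1 hY m o ho (by linarith) (h1.trans hlX)
  have h4 : ∫ x in X..2 * X, CH_D F (o + m + (l - m)) (o + m) x ^ 2 ≤ X * 2 ^ 2 :=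
    CH_triv hF hX0.le (by
      have : (0 : ℝ) ≤ m := Nat.cast_nonneg _
      linarith) (by linarith) (by linarith)
  have hsm := Real.sqrt_nonneg (m : ℝ)
  have h5 : ∫ x in X..2 * X, CH_D F (o + m) o x ^ 2 ≤
      (Real.sqrt X * (10 * Real.sqrt m + 2 * (8 * X) ^ ε + 1)) ^ 2 := by
    rw [mul_pow, hs2]
    exact h3
  have h6 : ∫ x in X..2 * X, CH_D F (o + m + (l - m)) (o + m) x ^ 2 ≤ (Real.sqrt X * 2) ^ 2 := by
    rw [mul_pow, hs2]
    exact h4
  have hfun : ∀ x, CH_D F (o + l) o x =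
      CH_D F (o + m) o x + CH_D F (o + m + (l - m)) (o + m) x := by
    intro x
    rw [← CH_D_add, add_add_sub_cancel]
  have h8 := CH_mink (f := CH_D F (o + m) o)
    (g := CH_D F (o + m + (l - m)) (o + m)) (u := X) (v := 2 * X) (by linarith)
    (by positivity) (by positivity) (CH_D_int2 hF _ _ _ _) (CH_D_int2 hF _ _ _ _) (by
      have := CH_D_int2 hF (o + l) o X (2 * X)
      simp only [hfun] at this
      exact this) h5 h6
  have h9 : ∫ x in X..2 * X, CH_D F (o + l) o x ^ 2 ≤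
      (Real.sqrt X * (10 * Real.sqrt m + 2 * (8 * X) ^ ε + 1) + Real.sqrt X * 2) ^ 2 := by
    simp only [hfun]
    exact h8
  refine h9.trans ?_
  refine pow_le_pow_left₀ (by positivity) ?_ 2
  rw [← mul_add]
  apply mul_le_mul_of_nonneg_left _ hs1.le
  have h10 : Real.sqrt m ≤ Real.sqrt l := Real.sqrt_le_sqrt h1
  linarith

theorem t_CH : S_CH := by
  intro ε hε hε2
  refine ⟨600, by norm_num, fun q hq X1 => ?_⟩
  have hq0 : (0 : ℝ) < q := by exact_mod_cast hq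
  have hq1 : (1 : ℝ) ≤ q := by exact_mod_cast hq
  have hev : ∀ᶠ X : ℝ in atTop, 2 ≤ X ∧ 4 * X1 ≤ X ∧ 4 ≤ X ^ ε ∧ 4 ≤ X ^ (7 * ε / 8) ∧
      2 * (q : ℝ) ≤ X ^ (3 * ε / 4) := by
    refine (eventually_ge_atTop 2).and ((eventually_ge_atTop (4 * X1)).and
      (((tendsto_rpow_atTop hε).eventually_ge_atTop 4).and
      (((tendsto_rpow_atTop (by positivity)).eventually_ge_atTop 4).and
      ((tendsto_rpow_atTop (by positivity)).eventually_ge_atTop _))))
  obtain ⟨X2, hX2⟩ := eventually_atTop.1 hev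
  refine ⟨max X2 1, le_max_right _ _, ?_⟩
  intro Y F ρ hF _ hρ1 hN X H H' hX hXY hH1 hH2 hHH hHH'
  obtain ⟨c1, c2, c3, c4, c5⟩ := hX2 X ((le_max_left _ _).trans hX)
  have hX0 : 0 < X := by linarith
  have hH0 : 0 < H := (Real.rpow_pos_of_pos hX0 _).trans_le hH1
  -- the size of `H'`
  have hHX : 4 * H ≤ X := by
    have h1 : X ^ (1 - ε) * X ^ ε = X := by
      rw [← Real.rpow_add hX0]
      norm_num
    have h2 : X ^ (1 - ε) * 4 ≤ X ^ (1 - ε) * X ^ ε :=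
      mul_le_mul_of_nonneg_left c3 (Real.rpow_nonneg hX0.le _)
    linarith
  have hHq : H' - H ≤ H / q := by
    have : (1 + 1 / (q : ℝ)) * H = H + H / q := by ring
    linarith
  have hHq1 : H / q ≤ H := div_le_self hH0.le hq1
  obtain ⟨l, hl⟩ : ∃ l, l = (H' - H) / 2 := ⟨_, rfl⟩
  have hl0 : 0 ≤ l := by
    rw [hl]
    linarith
  have hlH : 2 * l ≤ H / q := by
    rw [hl]
    linarith
  have hlX : l ≤ (X / 4) ^ (1 - ε / 8) := by
    have h1 : (X / 4) ^ (1 - ε / 8) = X ^ (1 - ε / 8) / 4 ^ (1 - ε / 8) :=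
      Real.div_rpow hX0.le (by norm_num) _
    have h2 : (4 : ℝ) ^ (1 - ε / 8) ≤ 4 := by
      calc (4 : ℝ) ^ (1 - ε / 8) ≤ 4 ^ (1 : ℝ) :=
            Real.rpow_le_rpow_of_exponent_le (by norm_num) (by linarith)
        _ = 4 := Real.rpow_one 4
    have h3 : X ^ (1 - ε / 8) = X ^ (1 - ε) * X ^ (7 * ε / 8) := by
      rw [← Real.rpow_add hX0]
      congr 1
      ring
    have h4 : (0 : ℝ) < 4 ^ (1 - ε / 8) := Real.rpow_pos_of_pos (by norm_num) _
    have h5 : H ≤ (X / 4) ^ (1 - ε / 8) := by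
      rw [h1, le_div_iff₀ h4, h3]
      have h6 : H * 4 ^ (1 - ε / 8) ≤ H * 4 := mul_le_mul_of_nonneg_left h2 hH0.le
      have h7 : H * 4 ≤ X ^ (1 - ε) * X ^ (7 * ε / 8) :=
        mul_le_mul hH2 c4 (by norm_num) (Real.rpow_nonneg hX0.le _)
      linarith
    linarith
  obtain ⟨L, hL⟩ : ∃ L, L = (8 * X) ^ (ε / 8) := ⟨_, rfl⟩
  have hL1 : 1 ≤ L := by
    rw [hL]
    exact Real.one_le_rpow (by linarith) (by linarith)
  have hL2 : L ^ 2 ≤ H / q := by
    have h1 : L ^ 2 = (8 * X) ^ (ε / 4) := by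
      rw [hL, ← Real.rpow_natCast, ← Real.rpow_mul (by linarith)]
      congr 1
      push_cast
      ring
    have h2 : (8 : ℝ) ^ (ε / 4) ≤ 2 := by
      calc (8 : ℝ) ^ (ε / 4) ≤ 8 ^ ((1 : ℝ) / 3) :=
            Real.rpow_le_rpow_of_exponent_le (by norm_num) (by linarith)
        _ = ((2 : ℝ) ^ (3 : ℝ)) ^ ((1 : ℝ) / 3) := by
            congr 1
            norm_num
        _ = 2 := by
            rw [← Real.rpow_mul (by norm_num)]
            norm_num
    have h3 : X ^ ε = X ^ (3 * ε / 4) * X ^ (ε / 4) := by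
      rw [← Real.rpow_add hX0]
      congr 1
      ring
    rw [h1, le_div_iff₀ hq0, Real.mul_rpow (by norm_num) hX0.le]
    have h4 : 0 ≤ X ^ (ε / 4) := Real.rpow_nonneg hX0.le _
    calc (8 : ℝ) ^ (ε / 4) * X ^ (ε / 4) * q ≤ 2 * X ^ (ε / 4) * q := by
          apply mul_le_mul_of_nonneg_right _ hq0.le
          exact mul_le_mul_of_nonneg_right h2 h4
      _ = 2 * q * X ^ (ε / 4) := by ring
      _ ≤ X ^ (3 * ε / 4) * X ^ (ε / 4) := mul_le_mul_of_nonneg_right c5 h4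
      _ = X ^ ε := h3.symm
      _ ≤ H := hH1
  have hs1 : 0 < Real.sqrt X := Real.sqrt_pos.2 hX0
  have hs2 : Real.sqrt X ^ 2 = X := Real.sq_sqrt hX0.le
  have hsl := Real.sqrt_nonneg l
  have hsl2 : Real.sqrt l ^ 2 = l := Real.sq_sqrt hl0
  -- the two pieces
  have p1 := CH_piece hF hq (by positivity) (by linarith) hρ1 hN c1 (by linarith) (by linarith) l
    hl0 (H / 2) (by linarith) (by linarith) hlX
  have p2 := CH_piece hF hq (by positivity) (by linarith) hρ1 hN c1 (by linarith) (by linarith) l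
    hl0 (-(H' / 2)) (by linarith) (by linarith) hlX
  rw [← hL] at p1 p2
  have hpos : 0 < Real.sqrt X * (10 * Real.sqrt l + 5 * L) := by positivity
  have hae : ∀ᵐ x : ℝ, M F x H' - M F x H =
      CH_D F (H / 2 + l) (H / 2) x + CH_D F (-(H' / 2) + l) (-(H' / 2)) x := by
    filter_upwards [CH_M_ae F hH0.le, CH_M_ae F (hH0.le.trans hHH)] with x h1 h2
    rw [h1, h2]
    have e1 : H / 2 + l = H' / 2 := by rw [hl]; ring
    have e2 : -(H' / 2) + l = -(H / 2) := by rw [hl]; ring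
    rw [e1, e2]
    unfold CH_D
    ring
  have hint : IntervalIntegrable (fun x => (CH_D F (H / 2 + l) (H / 2) x +
      CH_D F (-(H' / 2) + l) (-(H' / 2)) x) ^ 2) volume X (2 * X) := by
    have h1 := (CH_D_int2 hF (H / 2 + l) (H / 2) X (2 * X)).add
      (((CH_D_int hF (H / 2 + l) (H / 2) (-(H' / 2) + l) (-(H' / 2)) X (2 * X)).const_mul 2).add
        (CH_D_int2 hF (-(H' / 2) + l) (-(H' / 2)) X (2 * X)))
    have h2 : (fun x => (CH_D F (H / 2 + l) (H / 2) x +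
        CH_D F (-(H' / 2) + l) (-(H' / 2)) x) ^ 2) = fun x => CH_D F (H / 2 + l) (H / 2) x ^ 2 +
        (2 * (CH_D F (H / 2 + l) (H / 2) x * CH_D F (-(H' / 2) + l) (-(H' / 2)) x) +
          CH_D F (-(H' / 2) + l) (-(H' / 2)) x ^ 2) := by
      funext x
      ring
    rw [h2]
    exact h1
  have hmk := CH_mink (f := CH_D F (H / 2 + l) (H / 2)) (g := CH_D F (-(H' / 2) + l) (-(H' / 2)))
    (u := X) (v := 2 * X) (by linarith) hpos hpos (CH_D_int2 hF _ _ _ _) (CH_D_int2 hF _ _ _ _)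
    hint p1 p2
  have hI : ∫ x in X..2 * X, (M F x H' - M F x H) ^ 2 =
      ∫ x in X..2 * X, (CH_D F (H / 2 + l) (H / 2) x +
        CH_D F (-(H' / 2) + l) (-(H' / 2)) x) ^ 2 := by
    refine intervalIntegral.integral_congr_ae ?_
    filter_upwards [hae] with x hx _
    rw [hx]
  rw [hI, one_div, inv_mul_le_iff₀ hX0]
  refine hmk.trans ?_
  have h1 : (Real.sqrt X * (10 * Real.sqrt l + 5 * L) +
      Real.sqrt X * (10 * Real.sqrt l + 5 * L)) ^ 2 =
      4 * Real.sqrt X ^ 2 * (10 * Real.sqrt l + 5 * L) ^ 2 := by ring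
  rw [h1, hs2]
  have h2 : (10 * Real.sqrt l + 5 * L) ^ 2 ≤ 2 * (100 * l + 25 * L ^ 2) := by
    nlinarith [sq_nonneg (10 * Real.sqrt l - 5 * L)]
  have h3 : 100 * l + 25 * L ^ 2 ≤ 75 * (H / q) := by linarith
  calc 4 * X * (10 * Real.sqrt l + 5 * L) ^ 2 ≤ 4 * X * (2 * (75 * (H / q))) := by
        apply mul_le_mul_of_nonneg_left _ (by positivity)
        linarith
    _ = X * (600 * H / q) := by ring

end Pool.Agent.N282.GC
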