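import Pool.Agent.N282.GC.Stm
import Pool.Agent.Helper112.Arith

/-!
# Project GC: the counting lemma, assembly (helper763)
-/

set_option autoImplicit false

open Classical

namespace Pool.Agent.N282.GC

/-- an equivalence with two prescribed values -/
theorem CL_equiv {α β : Type} (σ : α ≃ β) {a0 a1 : α} {b0 b1 : β} (ha : a0 ≠ a1) (hb : b0 ≠ b1) :
    ∃ τ : α ≃ β, τ a0 = b0 ∧ τ a1 = b1 := by
  set σ1 : α ≃ β := σ.trans (Equiv.swap (σ a0) b0) with h1
  have h2 : σ1 a0 = b0 := by rw [h1]; simp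
  refine ⟨σ1.trans (Equiv.swap (σ1 a1) b1), ?_, by simp⟩
  rw [Equiv.trans_apply, h2]
  refine Equiv.swap_apply_of_ne_of_ne ?_ hb
  rw [← h2]
  exact fun h => ha (σ1.injective h)

theorem CL_rpow {X : ℝ} (hX : 4 ≤ X) {k : ℕ} (hk : 1 ≤ k) :
    X ^ (1 / (4 * k : ℝ)) ≤ (X / 2) ^ (1 / (2 * k : ℝ)) := by
  have hk0 : (0 : ℝ) < k := by exact_mod_cast hk
  have h1 : X ≤ (X / 2) ^ (2 : ℝ) := by
    rw [Real.rpow_two]
    nlinarith
  have h2 : (X / 2) ^ (1 / (2 * k : ℝ)) = ((X / 2) ^ (2 : ℝ)) ^ (1 / (4 * k : ℝ)) := by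
    rw [← Real.rpow_mul (by linarith)]
    congr 1
    field_simp
    norm_num
  rw [h2]
  exact Real.rpow_le_rpow (by linarith) h1 (by positivity)

/-- the bound for one set of tuples -/
theorem CL_one (hW : S_W) (hR : S_RAD) (hP : S_PRD) (k : ℕ) (ε : ℝ) (hk : 1 ≤ k) (hε : 0 < ε) :
    ∃ C : ℝ, 0 < C ∧ ∀ X H : ℝ, 4 ≤ X → X ^ ε ≤ H → H ≤ X ^ (1 - ε) →
      ∀ (E : Finset (Fin (2 * k) → ℕ)) (f1 f2 i0 i1 : Fin (2 * k)) (g : Fin (2 * k) → Fin (2 * k)),
      f1 ≠ f2 → (∀ i, i ≠ f1 → i ≠ f2 → g i < i) → i0 < i1 → (∀ j, j < i1 → j = i0) →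
      (∀ e ∈ E, (∀ i, X / 2 ≤ e i ∧ (e i : ℝ) ≤ 3 * X ∧ Squarefree (e i)) ∧ IsSquare (∏ i, e i) ∧
        (∀ i, i ≠ f1 → i ≠ f2 → |(e i : ℝ) - e (g i)| ≤ H) ∧
        (X / 2) ^ (1 / (2 * k : ℝ)) ≤ Nat.gcd (e i1) (e i0) ∧
        (i1 = f2 ∨ (e i1 ≠ e i0 ∧ |(e i1 : ℝ) - e i0| ≤ H))) →
      (E.card : ℝ) * H ^ 2 ≤ C * X ^ (2 - min ε (1 / (4 * k : ℝ)) / 2) * H ^ k := by
  have hk0 : (0 : ℝ) < k := by exact_mod_cast hk
  set c0 : ℝ := min ε (1 / (4 * k : ℝ)) with hc0
  have hc0p : 0 < c0 := lt_min hε (by positivity)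
  have hc01 : c0 ≤ 1 := by
    refine (min_le_right _ _).trans ?_
    rw [div_le_one (by positivity)]
    have : (1 : ℝ) ≤ k := by exact_mod_cast hk
    linarith
  obtain ⟨C1, hC1, hC1'⟩ := hP k ε (1 / (4 * k : ℝ)) hk hε (by positivity)
  set κ : ℝ := c0 / (8 * k ^ 2) with hκ
  have hκ0 : 0 < κ := by positivity
  obtain ⟨C2, hC2, hC2'⟩ := Pool.Agent.Helper112.divisor_bound κ hκ0
  set M : ℝ := max 1 C2 with hM
  have hM1 : 1 ≤ M := le_max_left _ _
  refine ⟨C1 * (M ^ (2 * k) * 3), by positivity, ?_⟩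
  intro X H hX hH1 hH2 E f1 f2 i0 i1 g hf hg h01 hi1 hE
  have hX0 : 0 < X := by linarith
  have hH0 : 0 < H := lt_of_lt_of_le (Real.rpow_pos_of_pos hX0 _) hH1
  set T : ℝ := M * ((3 * X) ^ (2 * k)) ^ κ with hT
  have h3X : 1 ≤ 3 * X := by linarith
  have h3Xk : (1 : ℝ) ≤ (3 * X) ^ (2 * k) := one_le_pow₀ h3X
  have hT1 : 1 ≤ T := by
    have h1 : (1 : ℝ) ≤ ((3 * X) ^ (2 * k)) ^ κ := Real.one_le_rpow h3Xk hκ0.le
    rw [hT]
    nlinarith
  set L : Fin (2 * k) → ℝ := fun i => if i = f1 ∨ i = f2 then 3 * X else 2 * H with hL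
  have hLpos : ∀ i, 0 < L i := by
    intro i
    simp only [hL]
    split_ifs
    · linarith
    · linarith
  set u : Fin (2 * k) → (Fin (2 * k) → ℕ) → ℝ := fun i e =>
    if i = f1 ∨ i = f2 then 0 else (e (g i) : ℝ) - H with hu
  have hpos : ∀ e ∈ E, ∀ i, 1 ≤ e i := by
    intro e he i
    have h1 := ((hE e he).1 i).1
    have h2 : (0 : ℝ) < e i := by linarith
    exact_mod_cast h2
  have hgd1 : ∀ e ∈ E, ∀ i, 1 ≤ gd e i := by
    intro e he i
    exact Nat.gcd_pos_of_pos_left _ (hpos e he i)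
  have hgd2 : ∀ e ∈ E, ∀ i, (gd e i : ℝ) ≤ 3 * X := by
    intro e he i
    have h1 : gd e i ≤ e i := Nat.le_of_dvd (hpos e he i) (Nat.gcd_dvd_left _ _)
    have h2 : (gd e i : ℝ) ≤ e i := by exact_mod_cast h1
    exact h2.trans ((hE e he).1 i).2.1
  have hsum := hW (2 * k) T L E u hT1 hLpos ?_ ?_
  · -- the lower bound for each term
    set B : ℝ := C1 * X ^ (2 - c0) * H ^ k with hB
    have hB0 : 0 < B := by
      have : 0 < X ^ (2 - c0) := Real.rpow_pos_of_pos hX0 _
      positivity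
    have hterm : ∀ e ∈ E, H ^ 2 / B ≤ ∏ i, (L i / (gd e i : ℝ) + 1)⁻¹ := by
      intro e he
      obtain ⟨hE1, hE2, hE3, hE4, hE5⟩ := hE e he
      have hgdi : gd e i1 = Nat.gcd (e i1) (e i0) := by
        unfold gd
        congr 1
        have h1 : Finset.univ.filter (fun j : Fin (2 * k) => j < i1) = {i0} := by
          ext j
          rw [Finset.mem_filter, Finset.mem_singleton]
          constructor
          · rintro ⟨-, h⟩
            exact hi1 j h
          · rintro rfl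
            exact ⟨Finset.mem_univ _, h01⟩
        rw [h1, Finset.prod_singleton]
      have hprod : (∏ i, (L i / (gd e i : ℝ) + 1)) * H ^ 2 ≤ B := by
        refine hC1' X H (by linarith) hH1 hH2 (fun i => (gd e i : ℝ)) L f1 f2 i1 hf ?_ ?_ ?_ ?_ ?_ ?_
        · intro i
          exact ⟨by exact_mod_cast hgd1 e he i, hgd2 e he i⟩
        · intro i hi
          simp only [hL]
          rw [if_pos hi]
        · intro i h1 h2
          simp only [hL]
          rw [if_neg (by tauto)]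
        · -- the product of the gcds
          have h1 := hR (2 * k) e (fun i => (hE1 i).2.2) hE2
          have h2 : ((X / 2) ^ k) ^ 2 ≤ (∏ i, (gd e i : ℝ)) ^ 2 := by
            have h3 : ((∏ i, e i : ℕ) : ℝ) ≤ (((∏ i, gd e i) ^ 2 : ℕ) : ℝ) := by exact_mod_cast h1
            push_cast at h3
            refine le_trans ?_ h3
            rw [← pow_mul, mul_comm k 2]
            calc (X / 2) ^ (2 * k) = ∏ _i : Fin (2 * k), X / 2 := by
                  rw [Finset.prod_const, Finset.card_univ, Fintype.card_fin]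
              _ ≤ ∏ i, (e i : ℝ) := by
                  refine Finset.prod_le_prod (fun i _ => by linarith) fun i _ => (hE1 i).1
          exact le_of_sq_le_sq h2 (Finset.prod_nonneg fun i _ => Nat.cast_nonneg _)
        · rcases hE5 with h5 | ⟨h5, h6⟩
          · exact Or.inr (Or.inl h5)
          · right; right
            rw [hgdi]
            have h7 : ((Nat.gcd (e i1) (e i0) : ℕ) : ℤ) ∣ (e i1 : ℤ) - e i0 :=
              dvd_sub (by exact_mod_cast Nat.gcd_dvd_left _ _) (by exact_mod_cast Nat.gcd_dvd_right _ _)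
            have h8 : (e i1 : ℤ) - e i0 ≠ 0 := by
              intro h
              apply h5
              have : (e i1 : ℤ) = e i0 := by linarith
              exact_mod_cast this
            have h9 : ((Nat.gcd (e i1) (e i0) : ℕ) : ℤ) ≤ |(e i1 : ℤ) - e i0| :=
              Int.le_of_dvd (abs_pos.2 h8) ((dvd_abs _ _).2 h7)
            have h10 : ((Nat.gcd (e i1) (e i0) : ℕ) : ℝ) ≤ |(e i1 : ℝ) - e i0| := by
              exact_mod_cast h9
            linarith
        · rw [hgdi]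
          exact (CL_rpow hX hk).trans hE4
      have hPpos : 0 < ∏ i, (L i / (gd e i : ℝ) + 1) := by
        refine Finset.prod_pos fun i _ => ?_
        have h1 : (0 : ℝ) ≤ gd e i := Nat.cast_nonneg _
        have h2 := div_nonneg (hLpos i).le h1
        linarith
      rw [Finset.prod_inv_distrib, div_le_iff₀ hB0, ← div_eq_inv_mul, le_div_iff₀ hPpos]
      linarith
    have h1 : (E.card : ℝ) * (H ^ 2 / B) ≤ T ^ (2 * k) := by
      refine le_trans ?_ hsum
      rw [← nsmul_eq_mul]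
      exact Finset.card_nsmul_le_sum _ _ _ hterm
    have h2 : (E.card : ℝ) * H ^ 2 ≤ T ^ (2 * k) * B := by
      rw [← mul_div_assoc, div_le_iff₀ hB0] at h1
      exact h1
    have h3 : T ^ (2 * k) ≤ M ^ (2 * k) * 3 * X ^ (c0 / 2) := by
      rw [hT, mul_pow]
      have h4 : (((3 * X) ^ (2 * k)) ^ κ) ^ (2 * k) = (3 * X) ^ (c0 / 2) := by
        rw [← Real.rpow_natCast, ← Real.rpow_mul (by positivity), ← Real.rpow_natCast,
          ← Real.rpow_mul (by positivity)]
        congr 1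
        rw [hκ]
        push_cast
        field_simp
        ring
      rw [h4, Real.mul_rpow (by norm_num) hX0.le, mul_assoc]
      refine mul_le_mul_of_nonneg_left ?_ (by positivity)
      refine mul_le_mul_of_nonneg_right ?_ (Real.rpow_nonneg hX0.le _)
      calc (3 : ℝ) ^ (c0 / 2) ≤ 3 ^ (1 : ℝ) :=
            Real.rpow_le_rpow_of_exponent_le (by norm_num) (by linarith)
        _ = 3 := Real.rpow_one _
    have h5 : X ^ (c0 / 2) * X ^ (2 - c0) = X ^ (2 - c0 / 2) := by
      rw [← Real.rpow_add hX0]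
      congr 1
      ring
    calc (E.card : ℝ) * H ^ 2 ≤ T ^ (2 * k) * B := h2
      _ ≤ (M ^ (2 * k) * 3 * X ^ (c0 / 2)) * B := mul_le_mul_of_nonneg_right h3 hB0.le
      _ = C1 * (M ^ (2 * k) * 3) * (X ^ (c0 / 2) * X ^ (2 - c0)) * H ^ k := by rw [hB]; ring
      _ = C1 * (M ^ (2 * k) * 3) * X ^ (2 - c0 / 2) * H ^ k := by rw [h5]
  · intro i e e' hee
    simp only [hu]
    split_ifs with h
    · rfl
    · rw [hee (g i) (hg i (by tauto) (by tauto))]
  · intro e he i
    obtain ⟨hE1, hE2, hE3, hE4, hE5⟩ := hE e he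
    refine ⟨hpos e he i, ?_, ?_, ?_⟩
    · simp only [hu]
      split_ifs with h
      · exact Nat.cast_nonneg _
      · have := abs_le.1 (hE3 i (by tauto) (by tauto))
        linarith [this.1]
    · simp only [hu, hL]
      split_ifs with h
      · linarith [(hE1 i).2.1]
      · have := abs_le.1 (hE3 i (by tauto) (by tauto))
        linarith [this.2]
    · have h1 : 1 ≤ ∏ j ∈ Finset.univ.filter (· < i), e j :=
        Nat.succ_le_of_lt (Finset.prod_pos fun j _ => hpos e he j)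
      refine (hC2' _ h1).trans ?_
      rw [hT]
      refine mul_le_mul (le_max_right _ _) ?_ (by positivity) (by positivity)
      refine Real.rpow_le_rpow (Nat.cast_nonneg _) ?_ hκ0.le
      push_cast
      calc ∏ j ∈ Finset.univ.filter (· < i), (e j : ℝ) ≤ ∏ j : Fin (2 * k), (e j : ℝ) := by
            have h2 : ∏ j ∈ Finset.univ.filter (· < i), e j ≤ ∏ j : Fin (2 * k), e j :=
              Finset.prod_le_prod_of_subset_of_one_le' (Finset.filter_subset _ _)
                fun j _ _ => hpos e he j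
            exact_mod_cast h2
        _ ≤ ∏ _j : Fin (2 * k), 3 * X := by
            refine Finset.prod_le_prod (fun j _ => Nat.cast_nonneg _) fun j _ => (hE1 j).2.1
        _ = (3 * X) ^ (2 * k) := by
            rw [Finset.prod_const, Finset.card_univ, Fintype.card_fin]

/-- the bound for the pairs of tuples with a given equivalence -/
theorem CL_two (hW : S_W) (hR : S_RAD) (hP : S_PRD) (k : ℕ) (ε : ℝ) (hk : 1 ≤ k) (hε : 0 < ε) :
    ∃ C : ℝ, 0 < C ∧ ∀ X H : ℝ, 4 ≤ X → X ^ ε ≤ H → H ≤ X ^ (1 - ε) →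
      ∀ (u : Fin k) (w : Fin k ⊕ Fin k) (T : Finset ((Fin k → ℕ) × (Fin k → ℕ))),
      Sum.inl u ≠ w →
      (∀ t ∈ T, (∀ i, X / 2 ≤ t.1 i ∧ (t.1 i : ℝ) ≤ 3 * X ∧ Squarefree (t.1 i)) ∧
        (∀ i, X / 2 ≤ t.2 i ∧ (t.2 i : ℝ) ≤ 3 * X ∧ Squarefree (t.2 i)) ∧
        (∀ i j, |(t.1 i : ℝ) - t.1 j| ≤ H) ∧ (∀ i j, |(t.2 i : ℝ) - t.2 j| ≤ H) ∧
        IsSquare ((∏ i, t.1 i) * ∏ i, t.2 i) ∧
        (X / 2) ^ (1 / (2 * k : ℝ)) ≤ Nat.gcd (Sum.elim t.1 t.2 w) (t.1 u) ∧
        (∀ v, w = Sum.inl v → t.1 v ≠ t.1 u)) →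
      (T.card : ℝ) * H ^ 2 ≤ C * X ^ (2 - min ε (1 / (4 * k : ℝ)) / 2) * H ^ k := by
  obtain ⟨C, hC, hone⟩ := CL_one hW hR hP k ε hk hε
  refine ⟨C, hC, ?_⟩
  intro X H hX hH1 hH2 u w T huw hT
  set i0 : Fin (2 * k) := ⟨0, by omega⟩ with hi0
  set i1 : Fin (2 * k) := ⟨1, by omega⟩ with hi1
  have h01 : i0 ≠ i1 := by
    rw [hi0, hi1]
    intro h
    have := congrArg Fin.val h
    simp at this
  have hbase : Fintype.card (Fin (2 * k)) = Fintype.card (Fin k ⊕ Fin k) := by
    rw [Fintype.card_sum, Fintype.card_fin, Fintype.card_fin]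
    ring
  obtain ⟨σ, hσ0, hσ1⟩ := CL_equiv (Fintype.equivOfCardEq hbase) h01 huw
  -- the first index of the second group
  obtain ⟨f2, hf2, hmin⟩ : ∃ f2, (σ f2).isRight = true ∧ ∀ i, (σ i).isRight = true → f2 ≤ i := by
    have hne : (Finset.univ.filter fun i => (σ i).isRight = true).Nonempty := by
      refine ⟨σ.symm (Sum.inr ⟨0, by omega⟩), ?_⟩
      rw [Finset.mem_filter]
      exact ⟨Finset.mem_univ _, by simp⟩
    refine ⟨(Finset.univ.filter fun i => (σ i).isRight = true).min' hne, ?_, ?_⟩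
    · have := Finset.min'_mem _ hne
      rw [Finset.mem_filter] at this
      exact this.2
    · intro i hi
      exact Finset.min'_le _ _ (by rw [Finset.mem_filter]; exact ⟨Finset.mem_univ _, hi⟩)
  set g : Fin (2 * k) → Fin (2 * k) := fun i => if (σ i).isRight = true then f2 else i0 with hg
  have hf12 : i0 ≠ f2 := by
    intro h
    rw [← h, hσ0] at hf2
    simp at hf2
  set e : ((Fin k → ℕ) × (Fin k → ℕ)) → (Fin (2 * k) → ℕ) := fun t i => Sum.elim t.1 t.2 (σ i)
    with he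
  have hinj : Function.Injective e := by
    intro t t' h
    refine Prod.ext (funext fun i => ?_) (funext fun i => ?_)
    · have := congrFun h (σ.symm (Sum.inl i))
      simpa [he] using this
    · have := congrFun h (σ.symm (Sum.inr i))
      simpa [he] using this
  have hcard : (T.image e).card = T.card := Finset.card_image_of_injective _ hinj
  rw [← hcard]
  refine hone X H hX hH1 hH2 (T.image e) i0 f2 i0 i1 g hf12 ?_ ?_ ?_ ?_
  · intro i h1 h2
    simp only [hg]
    split_ifs with h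
    · exact lt_of_le_of_ne (hmin i h) h2.symm
    · rw [Fin.lt_def]
      have : (i : ℕ) ≠ 0 := fun h => h1 (Fin.ext h)
      show 0 < (i : ℕ)
      omega
  · rw [Fin.lt_def]
    show 0 < 1
    norm_num
  · intro j hj
    rw [Fin.lt_def] at hj
    apply Fin.ext
    change (j : ℕ) < 1 at hj
    show (j : ℕ) = 0
    omega
  · intro e' he'
    obtain ⟨t, ht, rfl⟩ := Finset.mem_image.1 he'
    obtain ⟨ht1, ht2, ht3, ht4, ht5, ht6, ht7⟩ := hT t ht
    refine ⟨?_, ?_, ?_, ?_, ?_⟩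
    · intro i
      simp only [he]
      rcases h : σ i with a | a
      · exact ht1 a
      · exact ht2 a
    · have h1 : ∏ i, e t i = (∏ i, t.1 i) * ∏ i, t.2 i := by
        simp only [he]
        rw [Equiv.prod_comp σ (fun a => Sum.elim t.1 t.2 a), Fintype.prod_sum_type]
        rfl
      rw [h1]
      exact ht5
    · intro i h1 h2
      simp only [he, hg]
      rcases h : σ i with a | a
      · simp only [Sum.isRight_inl, Bool.false_eq_true, if_false, hσ0, Sum.elim_inl]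
        exact ht3 a u
      · simp only [Sum.isRight_inr, if_true]
        rcases h' : σ f2 with a' | a'
        · rw [h'] at hf2
          simp at hf2
        · simp only [Sum.elim_inr]
          exact ht4 a a'
    · simp only [he, hσ0, hσ1, Sum.elim_inl]
      exact ht6
    · rcases hw : w with v | v
      · right
        simp only [he, hσ0, hσ1, hw, Sum.elim_inl]
        exact ⟨ht7 v hw, ht3 v u⟩
      · left
        have h1 : f2 ≤ i1 := hmin i1 (by rw [hσ1, hw]; rfl)
        have h2 : (f2 : ℕ) ≠ 0 := fun h => hf12 (Fin.ext h.symm)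
        apply Fin.ext
        rw [Fin.le_def] at h1
        change (f2 : ℕ) ≤ 1 at h1
        show 1 = (f2 : ℕ)
        omega

theorem t_CL (h1 : S_W) (h2 : S_RAD) (h3 : S_PRD) (h4 : S_PAIR) : S_CL := by
  intro k ε hk hε hε2
  obtain ⟨C, hC, htwo⟩ := CL_two h1 h2 h3 k ε hk hε
  have hk0 : (0 : ℝ) < k := by exact_mod_cast hk
  set c0 : ℝ := min ε (1 / (4 * k : ℝ)) with hc0
  have hc0p : 0 < c0 := lt_min hε (by positivity)
  set D : ℝ := 2 * (k : ℝ) ^ 2 * C with hD
  have hD0 : 0 < D := by positivity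
  refine ⟨c0 / 4, max 4 (D ^ (4 / c0)), by positivity, by
    exact le_trans (by norm_num) (le_max_left _ _), ?_⟩
  intro X H hX hH1 hH2 T hT
  have hX4 : 4 ≤ X := (le_max_left _ _).trans hX
  have hXD : D ^ (4 / c0) ≤ X := (le_max_right _ _).trans hX
  have hX0 : 0 < X := by linarith
  have hH0 : 0 < H := lt_of_lt_of_le (Real.rpow_pos_of_pos hX0 _) hH1
  set Bd : ℝ := C * X ^ (2 - c0 / 2) * H ^ k with hBd
  have hBd0 : 0 ≤ Bd := by
    have : 0 ≤ X ^ (2 - c0 / 2) := Real.rpow_nonneg hX0.le _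
    positivity
  -- the pieces
  set P : (Fin k × (Fin k ⊕ Fin k)) → ((Fin k → ℕ) × (Fin k → ℕ)) → Prop := fun a t =>
    Sum.inl a.1 ≠ a.2 ∧ (X / 2) ^ (1 / (2 * k : ℝ)) ≤ Nat.gcd (Sum.elim t.1 t.2 a.2) (t.1 a.1) ∧
      ∀ v, a.2 = Sum.inl v → t.1 v ≠ t.1 a.1 with hPdef
  have hcov : T ⊆ Finset.univ.biUnion fun a => T.filter (P a) := by
    intro t ht
    obtain ⟨ht1, ht2, ht3, ht4, ht5, ht6⟩ := hT t ht
    rw [Finset.mem_biUnion]
    obtain ⟨u, hu⟩ := h4 k X t.1 t.2 (by linarith) (fun i => (ht1 i).1) (fun i => (ht2 i).1)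
      (fun i => (ht1 i).2.2) (fun i => (ht2 i).2.2) ht5 ht6
    rcases hu with ⟨v, hv1, hv2⟩ | ⟨v, hv⟩
    · refine ⟨(u, Sum.inl v), Finset.mem_univ _, ?_⟩
      rw [Finset.mem_filter]
      refine ⟨ht, ?_, ?_, ?_⟩
      · intro h
        have h' : u = v := Sum.inl.inj h
        exact hv1 (by rw [h'])
      · rw [Nat.gcd_comm]
        exact hv2
      · intro v' hv'
        have h' : v = v' := Sum.inl.inj hv'
        rw [← h']
        exact hv1
    · refine ⟨(u, Sum.inr v), Finset.mem_univ _, ?_⟩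
      rw [Finset.mem_filter]
      refine ⟨ht, ?_, ?_, ?_⟩
      · intro h
        cases h
      · rw [Nat.gcd_comm]
        exact hv
      · intro v' hv'
        cases hv'
  have hpiece : ∀ a, ((T.filter (P a)).card : ℝ) * H ^ 2 ≤ Bd := by
    intro a
    by_cases ha : Sum.inl a.1 = a.2
    · have h0 : T.filter (P a) = ∅ := by
        rw [Finset.filter_eq_empty_iff]
        intro t _ h
        exact h.1 ha
      rw [h0, Finset.card_empty, Nat.cast_zero, zero_mul]
      exact hBd0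
    · refine htwo X H hX4 hH1 hH2 a.1 a.2 _ ha ?_
      intro t ht
      rw [Finset.mem_filter] at ht
      obtain ⟨ht0, hp1, hp2, hp3⟩ := ht
      obtain ⟨ht1, ht2, ht3, ht4, ht5, ht6⟩ := hT t ht0
      exact ⟨ht1, ht2, ht3, ht4, ht5, hp2, hp3⟩
  have hcard : (T.card : ℝ) ≤ ∑ a, ((T.filter (P a)).card : ℝ) := by
    have h := (Finset.card_le_card hcov).trans Finset.card_biUnion_le
    exact_mod_cast h
  have hmain : (T.card : ℝ) * H ^ 2 ≤ (2 * (k : ℝ) ^ 2) * Bd := by
    calc (T.card : ℝ) * H ^ 2 ≤ (∑ a, ((T.filter (P a)).card : ℝ)) * H ^ 2 :=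
          mul_le_mul_of_nonneg_right hcard (by positivity)
      _ = ∑ a, ((T.filter (P a)).card : ℝ) * H ^ 2 := by rw [Finset.sum_mul]
      _ ≤ ∑ _a : Fin k × (Fin k ⊕ Fin k), Bd := Finset.sum_le_sum fun a _ => hpiece a
      _ = (2 * (k : ℝ) ^ 2) * Bd := by
          rw [Finset.sum_const, Finset.card_univ, Fintype.card_prod, Fintype.card_sum,
            Fintype.card_fin, nsmul_eq_mul]
          push_cast
          ring
  refine hmain.trans ?_
  have hDX : D ≤ X ^ (c0 / 4) := by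
    have h5 : D = (D ^ (4 / c0)) ^ (c0 / 4) := by
      rw [← Real.rpow_mul hD0.le]
      have : 4 / c0 * (c0 / 4) = 1 := by field_simp
      rw [this, Real.rpow_one]
    rw [h5]
    exact Real.rpow_le_rpow (Real.rpow_nonneg hD0.le _) hXD (by positivity)
  have h6 : X ^ (c0 / 4) * X ^ (2 - c0 / 2) = X ^ (2 - c0 / 4) := by
    rw [← Real.rpow_add hX0]
    congr 1
    ring
  calc (2 * (k : ℝ) ^ 2) * Bd = D * X ^ (2 - c0 / 2) * H ^ k := by rw [hBd, hD]; ring
    _ ≤ X ^ (c0 / 4) * X ^ (2 - c0 / 2) * H ^ k := by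
        refine mul_le_mul_of_nonneg_right (mul_le_mul_of_nonneg_right hDX ?_) (by positivity)
        exact Real.rpow_nonneg hX0.le _
    _ = X ^ (2 - c0 / 4) * H ^ k := by rw [h6]

end Pool.Agent.N282.GC
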