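import Pool.Agent.N282.GC.Stm

/-!
# Project GC, part CN: the net for almost all odd `d` (helper271)
-/

set_option autoImplicit false

open MeasureTheory Filter Topology Classical

namespace Pool.Agent.N282.GC

/-! ### The uniform probability on a finite set of integers -/

/-- the uniform probability measure on `S` -/
noncomputable def CN_P (S : Finset ℕ) : Measure ℕ := (S.card : ENNReal)⁻¹ • ∑ d ∈ S, Measure.dirac d

theorem CN_prob {S : Finset ℕ} (hS : S.Nonempty) : IsProbabilityMeasure (CN_P S) := by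
  constructor
  unfold CN_P
  rw [Measure.smul_apply, Measure.finsetSum_apply]
  simp only [Measure.dirac_apply_of_mem (Set.mem_univ _), Finset.sum_const, nsmul_eq_mul, mul_one,
    smul_eq_mul]
  exact ENNReal.inv_mul_cancel (by simpa using hS.ne_empty) (by simp)

theorem CN_int (S : Finset ℕ) (f : ℕ → ℝ) : ∫ ω, f ω ∂(CN_P S) = (S.card : ℝ)⁻¹ * ∑ d ∈ S, f d := by
  unfold CN_P
  rw [integral_smul_measure, integral_finsetSum_measure]
  · simp
  · intro d _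
    exact integrable_dirac (by simp)

/-- Markov -/
theorem CN_markov (S : Finset ℕ) (f : ℕ → ℝ) (t : ℝ) (ht : 0 ≤ t) :
    ((S.filter fun d => t < |f d|).card : ℝ) * t ^ 2 ≤ ∑ d ∈ S, f d ^ 2 := by
  calc ((S.filter fun d => t < |f d|).card : ℝ) * t ^ 2 = ∑ d ∈ S.filter fun d => t < |f d|, t ^ 2 := by
        rw [Finset.sum_const, nsmul_eq_mul]
    _ ≤ ∑ d ∈ S.filter fun d => t < |f d|, f d ^ 2 := by
        refine Finset.sum_le_sum fun d hd => ?_
        have := (Finset.mem_filter.1 hd).2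
        rw [← sq_abs (f d)]
        exact pow_le_pow_left₀ ht this.le 2
    _ ≤ ∑ d ∈ S, f d ^ 2 :=
        Finset.sum_le_sum_of_subset_of_nonneg (Finset.filter_subset _ _) fun _ _ _ => sq_nonneg _

/-! ### The functions -/

theorem CN_fj_abs (d n : ℕ) : |fj d n| ≤ 1 := by
  unfold fj
  rw [abs_mul]
  have h1 : |((ArithmeticFunction.moebius n : ℤ) : ℝ)| ≤ 1 := by
    have := ArithmeticFunction.abs_moebius_le_one (n := n)
    exact_mod_cast this
  have h2 : |((jacobiSym n d : ℤ) : ℝ)| ≤ 1 := by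
    rcases jacobiSym.trichotomy n d with h | h | h <;> rw [h] <;> norm_num
  exact mul_le_one₀ h1 (abs_nonneg _) h2

theorem CN_fj_zero (d n : ℕ) (h : ¬ Squarefree n) : fj d n = 0 := by
  unfold fj
  rw [ArithmeticFunction.moebius_eq_zero_of_not_squarefree h]
  simp

theorem CN_fj_sq (d n : ℕ) (hd : 0 < d) :
    fj d n ^ 2 = if Squarefree n ∧ Nat.Coprime n d then 1 else 0 := by
  by_cases h1 : Squarefree n
  · by_cases h2 : Nat.Coprime n d
    · rw [if_pos ⟨h1, h2⟩]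
      unfold fj
      rw [mul_pow]
      have e1 := ArithmeticFunction.moebius_sq_eq_one_of_squarefree h1
      have e2 : jacobiSym n d ^ 2 = 1 := jacobiSym.sq_one (by
        rw [Int.gcd_natCast_natCast]; exact h2)
      have e1' : ((ArithmeticFunction.moebius n : ℤ) : ℝ) ^ 2 = 1 := by exact_mod_cast e1
      have e2' : ((jacobiSym n d : ℤ) : ℝ) ^ 2 = 1 := by exact_mod_cast e2
      rw [e1', e2', mul_one]
    · rw [if_neg (fun h => h2 h.2)]
      have : NeZero d := ⟨by omega⟩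
      have e2 : jacobiSym n d = 0 := jacobiSym.eq_zero_iff_not_coprime.2 (by
        rw [Int.gcd_natCast_natCast]; exact h2)
      unfold fj
      rw [e2]
      simp
  · rw [if_neg (fun h => h1 h.1), CN_fj_zero d n h1]
    simp

theorem CN_jac_prod {ι : Type} (s : Finset ι) (n : ι → ℕ) (d : ℕ) :
    ((jacobiSym ((∏ i ∈ s, n i : ℕ) : ℤ) d : ℤ) : ℝ) = ∏ i ∈ s, ((jacobiSym (n i : ℤ) d : ℤ) : ℝ) := by
  induction s using Finset.induction_on with
  | empty => simp [jacobiSym.one_left]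
  | insert a s ha ih =>
    rw [Finset.prod_insert ha, Finset.prod_insert ha, ← ih]
    push_cast
    rw [jacobiSym.mul_left]
    push_cast
    rfl

/-- the product over the two tuples -/
theorem CN_prod (k : ℕ) (n m : Fin k → ℕ) (d : ℕ) :
    (∏ i, fj d (n i)) * ∏ i, fj d (m i) =
      ((∏ i, ((ArithmeticFunction.moebius (n i) : ℤ) : ℝ)) * ∏ i, ((ArithmeticFunction.moebius (m i) : ℤ) : ℝ)) *
        ((jacobiSym (((∏ i, n i) * ∏ i, m i : ℕ) : ℤ) d : ℤ) : ℝ) := by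
  rw [Nat.cast_mul, jacobiSym.mul_left]
  push_cast
  have e1 := CN_jac_prod Finset.univ n d
  have e2 := CN_jac_prod Finset.univ m d
  push_cast at e1 e2
  rw [e1, e2]
  unfold fj
  rw [Finset.prod_mul_distrib, Finset.prod_mul_distrib]
  ring

theorem CN_mu_prod (k : ℕ) (n : Fin k → ℕ) :
    |∏ i, ((ArithmeticFunction.moebius (n i) : ℤ) : ℝ)| ≤ 1 := by
  rw [Finset.abs_prod]
  refine Finset.prod_le_one (fun _ _ => abs_nonneg _) fun i _ => ?_
  have := ArithmeticFunction.abs_moebius_le_one (n := n i)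
  exact_mod_cast this

/-- the odd integers up to `D` -/
noncomputable def CN_S (D : ℕ) : Finset ℕ := (Finset.Icc 1 D).filter fun d => Odd d

theorem CN_S_card (D : ℕ) : (D : ℝ) / 2 ≤ (CN_S D).card ∧ ((CN_S D).card : ℝ) ≤ D := by
  constructor
  · have h1 : (Finset.range ((D + 1) / 2)).card ≤ (CN_S D).card := by
      apply Finset.card_le_card_of_injOn (fun i => 2 * i + 1)
      · intro i hi
        have hi' := Finset.mem_range.1 (Finset.mem_coe.1 hi)
        show 2 * i + 1 ∈ CN_S D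
        unfold CN_S
        rw [Finset.mem_filter, Finset.mem_Icc]
        exact ⟨by omega, ⟨i, rfl⟩⟩
      · intro i _ j _ hij
        simp only at hij
        omega
    rw [Finset.card_range] at h1
    have h2 : D ≤ 2 * (CN_S D).card := by omega
    have h3 : (D : ℝ) ≤ 2 * (CN_S D).card := by exact_mod_cast h2
    linarith
  · have h1 : (CN_S D).card ≤ (Finset.Icc 1 D).card := Finset.card_filter_le _ _
    rw [Nat.card_Icc] at h1
    have h2 : (CN_S D).card ≤ D := by omega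
    exact_mod_cast h2

theorem CN_S_nonempty {D : ℕ} (hD : 1 ≤ D) : (CN_S D).Nonempty :=
  ⟨1, by unfold CN_S; rw [Finset.mem_filter, Finset.mem_Icc]; exact ⟨⟨le_rfl, hD⟩, odd_one⟩⟩

/-- near orthogonality -/
theorem CN_orth (hJ : S_JAC) {k D : ℕ} (hD : 1 ≤ D) {X : ℝ} (hX : 1 ≤ X) (n m : Fin k → ℕ)
    (hn : ∀ i, (n i : ℝ) ≤ 3 * X) (hm : ∀ i, (m i : ℝ) ≤ 3 * X) (sn : ∀ i, Squarefree (n i))
    (sm : ∀ i, Squarefree (m i)) (hsq : ¬ IsSquare ((∏ i, n i) * ∏ i, m i)) :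
    |∫ ω, (∏ i, fj ω (n i)) * ∏ i, fj ω (m i) ∂(CN_P (CN_S D))| ≤ 8 * (3 * X) ^ (2 * k) / D := by
  rw [CN_int]
  obtain ⟨N, hN⟩ : ∃ N, N = (∏ i, n i) * ∏ i, m i := ⟨_, rfl⟩
  rw [← hN] at hsq
  have hN0 : 0 < N := by
    rw [hN]
    apply Nat.mul_pos
    · exact Finset.prod_pos fun i _ => Nat.pos_of_ne_zero (sn i).ne_zero
    · exact Finset.prod_pos fun i _ => Nat.pos_of_ne_zero (sm i).ne_zero
  have hNX : (N : ℝ) ≤ (3 * X) ^ (2 * k) := by
    rw [hN]
    push_cast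
    have e : ∀ n : Fin k → ℕ, (∀ i, (n i : ℝ) ≤ 3 * X) → ∏ i, (n i : ℝ) ≤ (3 * X) ^ k := by
      intro n hn
      calc ∏ i, (n i : ℝ) ≤ ∏ _i : Fin k, (3 * X) :=
            Finset.prod_le_prod (fun _ _ => Nat.cast_nonneg _) fun i _ => hn i
        _ = (3 * X) ^ k := by simp
    calc (∏ i, (n i : ℝ)) * ∏ i, (m i : ℝ) ≤ (3 * X) ^ k * (3 * X) ^ k :=
          mul_le_mul (e n hn) (e m hm) (Finset.prod_nonneg fun _ _ => Nat.cast_nonneg _) (by positivity)
      _ = (3 * X) ^ (2 * k) := by rw [← pow_add]; congr 1; ring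
  have h1 := hJ N D hN0 hsq
  have e1 : ∑ d ∈ CN_S D, (∏ i, fj d (n i)) * ∏ i, fj d (m i) =
      ((∏ i, ((ArithmeticFunction.moebius (n i) : ℤ) : ℝ)) * ∏ i, ((ArithmeticFunction.moebius (m i) : ℤ) : ℝ)) *
        ∑ d ∈ CN_S D, ((jacobiSym N d : ℤ) : ℝ) := by
    rw [Finset.mul_sum]
    refine Finset.sum_congr rfl fun d _ => ?_
    rw [CN_prod, hN]
  have hD0 : (0 : ℝ) < D := by exact_mod_cast hD
  have hc := (CN_S_card D).1
  have hc0 : (0 : ℝ) < (CN_S D).card := by linarith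
  rw [e1, abs_mul, abs_mul, abs_of_pos (by positivity : (0 : ℝ) < ((CN_S D).card : ℝ)⁻¹)]
  have h2 : |(∏ i, ((ArithmeticFunction.moebius (n i) : ℤ) : ℝ)) *
      ∏ i, ((ArithmeticFunction.moebius (m i) : ℤ) : ℝ)| ≤ 1 := by
    rw [abs_mul]
    exact mul_le_one₀ (CN_mu_prod k n) (abs_nonneg _) (CN_mu_prod k m)
  have h3 : ((CN_S D).card : ℝ)⁻¹ ≤ 2 / D := by
    rw [inv_le_comm₀ hc0 (by positivity), inv_div]
    exact hc
  calc ((CN_S D).card : ℝ)⁻¹ * (|(∏ i, ((ArithmeticFunction.moebius (n i) : ℤ) : ℝ)) *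
      ∏ i, ((ArithmeticFunction.moebius (m i) : ℤ) : ℝ)| * |∑ d ∈ CN_S D, ((jacobiSym N d : ℤ) : ℝ)|)
      ≤ (2 / D) * (1 * (4 * N)) := by
        apply mul_le_mul h3 _ (by positivity) (by positivity)
        exact mul_le_mul h2 h1 (abs_nonneg _) (by norm_num)
    _ ≤ (2 / D) * (1 * (4 * (3 * X) ^ (2 * k))) := by
        apply mul_le_mul_of_nonneg_left _ (by positivity)
        linarith
    _ = 8 * (3 * X) ^ (2 * k) / D := by ring

/-! ### The net -/

theorem CN_nt_pos (q i : ℕ) : 0 < nt q i := by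
  unfold nt
  positivity

theorem CN_nt_succ (q i : ℕ) : nt q (i + 1) = nt q i * (2 : ℝ) ^ ((1 : ℝ) / q) := by
  unfold nt
  rw [← Real.rpow_add (by norm_num)]
  congr 1
  push_cast
  ring

theorem CN_root {q : ℕ} (hq : 1 ≤ q) : (2 : ℝ) ^ ((1 : ℝ) / q) ≤ 2 ∧ 1 + 1 / (4 * (q : ℝ)) ≤ (2 : ℝ) ^ ((1 : ℝ) / q) := by
  have hq1 : (1 : ℝ) ≤ q := by exact_mod_cast hq
  constructor
  · calc (2 : ℝ) ^ ((1 : ℝ) / q) ≤ 2 ^ (1 : ℝ) := by
          apply Real.rpow_le_rpow_of_exponent_le (by norm_num)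
          rw [div_le_one (by linarith)]
          exact hq1
      _ = 2 := Real.rpow_one _
  · rw [Real.rpow_def_of_pos (by norm_num)]
    have h1 := Real.add_one_le_exp (Real.log 2 * (1 / q))
    have h2 := Real.log_two_gt_d9
    have h3 : 1 / (4 * (q : ℝ)) ≤ Real.log 2 * (1 / q) := by
      rw [one_div, mul_inv, one_div]
      apply mul_le_mul_of_nonneg_right _ (by positivity)
      linarith
    linarith

theorem CN_nt_mono {q i j : ℕ} (hq : 1 ≤ q) : nt q i ≤ nt q j ↔ i ≤ j := by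
  have hq1 : (0 : ℝ) < q := by exact_mod_cast hq
  unfold nt
  rw [Real.rpow_le_rpow_left_iff (by norm_num), div_le_div_iff_of_pos_right hq1]
  exact Nat.cast_le

theorem CN_nt_unb {q : ℕ} (hq : 1 ≤ q) (Y : ℝ) : ∃ N : ℕ, ∀ i, nt q i ≤ Y → i < N := by
  have hq1 : (0 : ℝ) < q := by exact_mod_cast hq
  have h1 : Tendsto (fun i : ℕ => (2 : ℝ) ^ ((i : ℝ) / q)) atTop atTop := by
    have h2 : Tendsto (fun i : ℕ => (i : ℝ) / q) atTop atTop :=
      tendsto_natCast_atTop_atTop.atTop_div_const hq1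
    exact (tendsto_rpow_atTop_of_base_gt_one _ (by norm_num)).comp h2
  obtain ⟨N, hN⟩ := eventually_atTop.1 (h1.eventually_gt_atTop Y)
  refine ⟨N, fun i hi => ?_⟩
  by_contra hc
  have := hN i (not_lt.1 hc)
  unfold nt at hi
  linarith

/-- the tails of the sum over the net -/
theorem CN_tail {q : ℕ} (hq : 1 ≤ q) {c A η : ℝ} (hc : 0 < c) (hA : 0 ≤ A) (hη : 0 < η) :
    ∃ i1 : ℕ, ∀ N : ℕ, ∑ i ∈ Finset.Ico i1 N, ((i : ℝ) + 1) * (A * nt q i ^ (-c)) ≤ η := by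
  have hq1 : (0 : ℝ) < q := by exact_mod_cast hq
  obtain ⟨r, hr⟩ : ∃ r : ℝ, r = (2 : ℝ) ^ (-c / q) := ⟨_, rfl⟩
  have hr0 : 0 < r := by rw [hr]; positivity
  have hr1 : r < 1 := by
    rw [hr]
    apply Real.rpow_lt_one_of_one_lt_of_neg (by norm_num)
    apply div_neg_of_neg_of_pos (by linarith) hq1
  have e : ∀ i : ℕ, nt q i ^ (-c) = r ^ i := by
    intro i
    unfold nt
    rw [hr, ← Real.rpow_mul (by norm_num), ← Real.rpow_natCast, ← Real.rpow_mul (by norm_num)]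
    congr 1
    ring
  have hs : Summable (fun i : ℕ => ((i : ℝ) + 1) * (A * nt q i ^ (-c))) := by
    have h1 := summable_pow_mul_geometric_of_norm_lt_one (R := ℝ) 1 (r := r) (by
      rw [Real.norm_eq_abs, abs_of_pos hr0]; exact hr1)
    have h0 := summable_pow_mul_geometric_of_norm_lt_one (R := ℝ) 0 (r := r) (by
      rw [Real.norm_eq_abs, abs_of_pos hr0]; exact hr1)
    have h2 := (h1.add h0).mul_left A
    refine h2.congr fun i => ?_
    rw [e]
    simp only [pow_one, pow_zero]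
    ring
  have ht := tendsto_sum_nat_add (fun i : ℕ => ((i : ℝ) + 1) * (A * nt q i ^ (-c)))
  obtain ⟨i1, hi1⟩ := (ht.eventually (gt_mem_nhds hη)).exists
  refine ⟨i1, fun N => ?_⟩
  rw [Finset.sum_Ico_eq_sum_range]
  have hs' : Summable (fun k : ℕ => (((k + i1 : ℕ) : ℝ) + 1) * (A * nt q (k + i1) ^ (-c))) :=
    (summable_nat_add_iff i1).2 hs
  have h3 := hs'.sum_le_tsum (Finset.range (N - i1)) (by
    intro i _
    have := CN_nt_pos q (i + i1)
    positivity)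
  refine le_trans (le_of_eq ?_) (h3.trans hi1.le)
  refine Finset.sum_congr rfl fun k _ => ?_
  rw [add_comm i1 k]

/-! ### The exceptional set of one pair of points of the net -/

theorem CN_one (hJ : S_JAC) {q k : ℕ} {ε δ c X0 Y : ℝ} (hq : 1 ≤ q) (hε : 0 < ε) (hδ : 0 < δ)
    (hc : 0 < c)
    (hL : ∀ X H a b : ℝ, X0 ≤ X → X ^ ε ≤ H → H ≤ X ^ (1 - ε) → X ≤ a → a ≤ b → b ≤ 2 * X →
      ∀ (Ω : Type) (_ : MeasurableSpace Ω) (P : Measure Ω) (_ : IsProbabilityMeasure P) (F : Ω → ℕ → ℝ) (δ : ℝ),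
      0 ≤ δ → (∀ n, Measurable fun ω => F ω n) → (∀ ω n, |F ω n| ≤ 1) → (∀ ω n, ¬ Squarefree n → F ω n = 0) →
      (∀ n m : Fin k → ℕ, (∀ i, (n i : ℝ) ≤ 3 * X) → (∀ i, (m i : ℝ) ≤ 3 * X) →
        (∀ i, Squarefree (n i)) → (∀ i, Squarefree (m i)) →
        ¬ IsSquare ((∏ i, n i) * ∏ i, m i) → |∫ ω, (∏ i, F ω (n i)) * ∏ i, F ω (m i) ∂P| ≤ δ) →
      ∫ ω, J (F ω) k a b H ^ 2 ∂P ≤ X ^ (2 - c) * H ^ k + δ * X ^ 2 * (2 * H) ^ (2 * k))
    {D : ℕ} (hD : 1 ≤ D) {i j : ℕ} (hX0 : X0 ≤ nt q i) (h1 : nt q i ^ ε ≤ nt q j)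
    (h2 : nt q j ≤ nt q i ^ (1 - ε)) (hY : nt q i ≤ Y) (hYD : Y ^ (3 * (k : ℝ) + c) ≤ D) :
    (((CN_S D).filter fun d => (δ / 2) * ((nt q (i + 1) - nt q i) * nt q j ^ ((k : ℝ) / 2)) <
      |J (fj d) k (nt q i) (nt q (i + 1)) (nt q j)|).card : ℝ) ≤
      (64 * q ^ 2 / δ ^ 2 * (1 + 8 * 36 ^ k)) * nt q i ^ (-c) * D := by
  obtain ⟨a, ha⟩ : ∃ a, a = nt q i := ⟨_, rfl⟩
  obtain ⟨b, hb⟩ : ∃ b, b = nt q (i + 1) := ⟨_, rfl⟩
  obtain ⟨h, hh⟩ : ∃ h, h = nt q j := ⟨_, rfl⟩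
  have hbs := CN_nt_succ q i
  rw [← ha, ← hb] at hbs
  rw [← ha, ← hh] at h1 h2
  rw [← ha] at hX0 hY
  rw [← ha, ← hb, ← hh]
  have hq1 : (1 : ℝ) ≤ q := by exact_mod_cast hq
  have ha1 : 1 ≤ a := by
    rw [ha]
    unfold nt
    exact Real.one_le_rpow (by norm_num) (by positivity)
  have hh1 : 1 ≤ h := by
    rw [hh]
    unfold nt
    exact Real.one_le_rpow (by norm_num) (by positivity)
  have ha0 : 0 < a := by linarith
  have hh0 : 0 < h := by linarith
  have hha : h ≤ a := by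
    calc h ≤ a ^ (1 - ε) := h2
      _ ≤ a ^ (1 : ℝ) := Real.rpow_le_rpow_of_exponent_le ha1 (by linarith)
      _ = a := Real.rpow_one a
  obtain ⟨r1, r2⟩ := CN_root hq
  have hb2 : b ≤ 2 * a := by
    rw [hbs]
    nlinarith
  have hba : a / (4 * q) ≤ b - a := by
    rw [hbs]
    have e1 : a / (4 * q) = a * (1 / (4 * (q : ℝ))) := by ring
    rw [e1]
    have := mul_le_mul_of_nonneg_left r2 ha0.le
    linarith
  have hab : a ≤ b := by
    have : 0 ≤ a / (4 * q) := by positivity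
    linarith
  have hDr : (1 : ℝ) ≤ D := by exact_mod_cast hD
  have hD0 : (0 : ℝ) < D := by linarith
  have hδX : 0 ≤ 8 * (3 * a) ^ (2 * k) / (D : ℝ) := by positivity
  have hm := hL a h a b hX0 h1 h2 le_rfl hab hb2 ℕ inferInstance (CN_P (CN_S D))
    (CN_prob (CN_S_nonempty hD)) (fun d => fj d) (8 * (3 * a) ^ (2 * k) / D) hδX
    (fun n => measurable_from_top) CN_fj_abs CN_fj_zero
    (fun n m hn hm sn sm hsq => CN_orth hJ hD ha1 n m hn hm sn sm hsq)
  rw [CN_int] at hm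
  have hc1 := (CN_S_card D).2
  have hc2 := (CN_S_card D).1
  have hc0 : (0 : ℝ) < (CN_S D).card := by linarith
  rw [inv_mul_le_iff₀ hc0] at hm
  have hak : a ^ (3 * (k : ℝ) + c) ≤ D :=
    (Real.rpow_le_rpow ha0.le hY (by positivity)).trans hYD
  have hsum : ∑ d ∈ CN_S D, J (fj d) k a b h ^ 2 ≤ D * (a ^ 2 * h ^ k * ((1 + 8 * 36 ^ k) * a ^ (-c))) := by
    refine hm.trans (mul_le_mul hc1 ?_ (by positivity) hD0.le)
    have e1 : a ^ (2 - c) = a ^ 2 * a ^ (-c) := by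
      rw [← Real.rpow_two, ← Real.rpow_add ha0]
      congr 1
    have e2 : 8 * (3 * a) ^ (2 * k) / D * a ^ 2 * (2 * h) ^ (2 * k) =
        a ^ 2 * h ^ k * (8 * 36 ^ k * (a ^ (2 * k) * h ^ k / D)) := by
      have e3 : (3 * a) ^ (2 * k) = 9 ^ k * a ^ (2 * k) := by
        rw [mul_pow, pow_mul]; norm_num
      have e4 : (2 * h) ^ (2 * k) = 4 ^ k * h ^ k * h ^ k := by
        rw [mul_pow, pow_mul, two_mul k, pow_add]; norm_num; ring
      have e5 : (36 : ℝ) ^ k = 9 ^ k * 4 ^ k := by rw [← mul_pow]; norm_num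
      rw [e3, e4, e5]
      ring
    have e6 : a ^ (2 * k) * h ^ k / D ≤ a ^ (-c) := by
      rw [div_le_iff₀ hD0]
      calc a ^ (2 * k) * h ^ k ≤ a ^ (2 * k) * a ^ k :=
            mul_le_mul_of_nonneg_left (pow_le_pow_left₀ hh0.le hha k) (by positivity)
        _ = a ^ (-c) * a ^ (3 * (k : ℝ) + c) := by
            rw [← Real.rpow_add ha0, ← pow_add, ← Real.rpow_natCast]
            congr 1
            push_cast
            ring
        _ ≤ a ^ (-c) * D := mul_le_mul_of_nonneg_left hak (by positivity)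
    rw [e1, e2]
    have e7 : 8 * 36 ^ k * (a ^ (2 * k) * h ^ k / D) ≤ 8 * 36 ^ k * a ^ (-c) :=
      mul_le_mul_of_nonneg_left e6 (by positivity)
    have e8 := mul_le_mul_of_nonneg_left e7 (show (0 : ℝ) ≤ a ^ 2 * h ^ k by positivity)
    linarith
  have hMk := CN_markov (CN_S D) (fun d => J (fj d) k a b h) ((δ / 2) * ((b - a) * h ^ ((k : ℝ) / 2)))
    (by
      have : 0 ≤ b - a := by linarith
      positivity)
  have hsq : (h ^ ((k : ℝ) / 2)) ^ 2 = h ^ k := by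
    rw [← Real.rpow_natCast, ← Real.rpow_mul hh0.le, ← Real.rpow_natCast]
    congr 1
    push_cast
    ring
  have hlow : δ ^ 2 / (64 * q ^ 2) * (a ^ 2 * h ^ k) ≤ ((δ / 2) * ((b - a) * h ^ ((k : ℝ) / 2))) ^ 2 := by
    have e1 : ((δ / 2) * ((b - a) * h ^ ((k : ℝ) / 2))) ^ 2 = δ ^ 2 / 4 * ((b - a) ^ 2 * h ^ k) := by
      rw [mul_pow, mul_pow, hsq]
      ring
    rw [e1]
    have e2 : (a / (4 * q)) ^ 2 ≤ (b - a) ^ 2 := pow_le_pow_left₀ (by positivity) hba 2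
    have e3 : δ ^ 2 / (64 * q ^ 2) * (a ^ 2 * h ^ k) = δ ^ 2 / 4 * ((a / (4 * q)) ^ 2 * h ^ k) := by
      field_simp
      ring
    rw [e3]
    apply mul_le_mul_of_nonneg_left _ (by positivity)
    exact mul_le_mul_of_nonneg_right e2 (by positivity)
  obtain ⟨n, hn⟩ : ∃ n : ℝ, n = (((CN_S D).filter fun d => (δ / 2) * ((b - a) * h ^ ((k : ℝ) / 2)) <
      |J (fj d) k a b h|).card : ℝ) := ⟨_, rfl⟩
  have hn0 : 0 ≤ n := by rw [hn]; positivity
  rw [← hn] at hMk ⊢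
  have h5 : n * (δ ^ 2 / (64 * q ^ 2) * (a ^ 2 * h ^ k)) ≤
      D * (a ^ 2 * h ^ k * ((1 + 8 * 36 ^ k) * a ^ (-c))) :=
    (mul_le_mul_of_nonneg_left hlow hn0).trans (hMk.trans hsum)
  have hpos : 0 < δ ^ 2 / (64 * q ^ 2) * (a ^ 2 * h ^ k) := by positivity
  rw [← le_div_iff₀ hpos] at h5
  refine h5.trans (le_of_eq ?_)
  field_simp

theorem CN_net_mono {F : ℕ → ℝ} {ρ : ℝ} {q k : ℕ} {ε δ X1 X1' Y Y' : ℝ} (h : Net F ρ q k ε δ X1 Y)
    (hX : X1 ≤ X1') (hY : Y' ≤ Y) : Net F ρ q k ε δ X1' Y' :=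
  fun i j h1 h2 h3 h4 => h i j (hX.trans h1) (h2.trans hY) h3 h4

theorem CN_zero (F : ℕ → ℝ) (ρ : ℝ) (q : ℕ) (hq : 1 ≤ q) (ε δ X1 Y : ℝ) (hδ : 0 < δ) :
    Net F ρ q 0 ε δ X1 Y := by
  intro i j _ _ _ _
  have hlt : nt q i < nt q (i + 1) := by
    rw [CN_nt_succ]
    have h1 := (CN_root hq).2
    have h2 := CN_nt_pos q i
    have hq1 : (1 : ℝ) ≤ q := by exact_mod_cast hq
    have h3 : 0 < 1 / (4 * (q : ℝ)) := by positivity
    nlinarith
  have e1 : mom F 0 (nt q i) (nt q (i + 1)) (nt q j) = 1 := by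
    unfold mom
    simp only [pow_zero]
    rw [intervalIntegral.integral_const, smul_eq_mul, mul_one, one_div]
    exact inv_mul_cancel₀ (by linarith)
  have e2 : gm 0 = 1 := by
    unfold gm
    simp
  rw [e1, e2]
  simp only [Nat.cast_zero, zero_div, Real.rpow_zero, mul_one, sub_self, abs_zero]
  exact hδ.le

theorem CN_k (h1 : S_L2) (h2 : S_NM) (h3 : S_SF) (h4 : S_SF2) (h5 : S_JAC) (q k : ℕ) (ε δ η : ℝ)
    (hq : 1 ≤ q) (hε : 0 < ε) (hε2 : ε < 1 / 2) (hδ : 0 < δ) (hη : 0 < η) :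
    ∃ (c X1 : ℝ), 0 < c ∧ ∀ D : ℕ, 1 ≤ D →
      (((CN_S D).filter fun d => ¬ Net (fj d) (rho d) q k ε δ X1 ((D : ℝ) ^ c)).card : ℝ) ≤ η * D := by
  rcases Nat.eq_zero_or_pos k with hk | hk
  · subst hk
    refine ⟨1, 1, one_pos, fun D _ => ?_⟩
    have e : ((CN_S D).filter fun d => ¬ Net (fj d) (rho d) q 0 ε δ 1 ((D : ℝ) ^ (1 : ℝ))) = ∅ := by
      apply Finset.filter_eq_empty_iff.2
      intro d _
      rw [not_not]
      exact CN_zero _ _ q hq ε δ 1 _ hδ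
    rw [e, Finset.card_empty, Nat.cast_zero]
    positivity
  obtain ⟨C, hC, hNM⟩ := h2 k hk
  obtain ⟨CS, hCS, hSF⟩ := h3 q hq
  obtain ⟨η', hη'⟩ : ∃ x, x = min (η / 2) (δ / (8 * C * CS)) := ⟨_, rfl⟩
  have hη'0 : 0 < η' := by rw [hη']; exact lt_min (by positivity) (by positivity)
  have hη'1 : η' ≤ η / 2 := by rw [hη']; exact min_le_left _ _
  have hη'2 : η' ≤ δ / (8 * C * CS) := by rw [hη']; exact min_le_right _ _
  obtain ⟨z, hz2, hzη, hRz⟩ := h4 η' hη'0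
  obtain ⟨Cz, hCz, hdev⟩ := hSF z hz2
  obtain ⟨c, X0, hc, hX0, hL⟩ := h1 k ε hk hε hε2
  obtain ⟨A, hA⟩ : ∃ A : ℝ, A = 64 * q ^ 2 / δ ^ 2 * (1 + 8 * 36 ^ k) := ⟨_, rfl⟩
  have hq1 : (1 : ℝ) ≤ q := by exact_mod_cast hq
  have hA0 : 0 ≤ A := by rw [hA]; positivity
  obtain ⟨i1, hi1⟩ := CN_tail (q := q) hq hc hA0 (show 0 < η / 2 by positivity)
  obtain ⟨V, hV⟩ : ∃ V : ℝ, V = (4 * C * (Cz + 1) / δ) ^ 2 := ⟨_, rfl⟩
  have hV0 : 0 < V := by rw [hV]; positivity
  obtain ⟨X1, hX1⟩ : ∃ X1, X1 = max (max X0 (nt q i1)) ((V + 4 * q) ^ (1 / ε)) := ⟨_, rfl⟩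
  refine ⟨1 / (3 * (k : ℝ) + c), X1, by positivity, fun D hD => ?_⟩
  have hDr : (1 : ℝ) ≤ D := by exact_mod_cast hD
  have hD0 : (0 : ℝ) < D := by linarith
  obtain ⟨Y, hY⟩ : ∃ Y : ℝ, Y = (D : ℝ) ^ (1 / (3 * (k : ℝ) + c)) := ⟨_, rfl⟩
  rw [← hY]
  have hYD : Y ^ (3 * (k : ℝ) + c) ≤ D := by
    rw [hY, ← Real.rpow_mul hD0.le, one_div, inv_mul_cancel₀ (by positivity), Real.rpow_one]
  obtain ⟨N, hN⟩ := CN_nt_unb hq Y
  let bad : ℕ → ℕ → Finset ℕ := fun i j =>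
    (CN_S D).filter fun d => (δ / 2) * ((nt q (i + 1) - nt q i) * nt q j ^ ((k : ℝ) / 2)) <
      |J (fj d) k (nt q i) (nt q (i + 1)) (nt q j)|
  let js : ℕ → Finset ℕ := fun i => (Finset.range (i + 1)).filter fun j =>
    X0 ≤ nt q i ∧ nt q i ^ ε ≤ nt q j ∧ nt q j ≤ nt q i ^ (1 - ε) ∧ nt q i ≤ Y
  have hsub : ((CN_S D).filter fun d => ¬ Net (fj d) (rho d) q k ε δ X1 Y) ⊆
      ((Finset.Icc 1 D).filter fun d => η' < Rz z d) ∪
        (Finset.Ico i1 N).biUnion fun i => (js i).biUnion fun j => bad i j := by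
    intro d hd
    rw [Finset.mem_filter] at hd
    by_contra hnot
    rw [Finset.mem_union, not_or] at hnot
    obtain ⟨hn1, hn2⟩ := hnot
    obtain ⟨hdS, hdN⟩ := hd
    have hdI : d ∈ Finset.Icc 1 D := (Finset.mem_filter.1 hdS).1
    have hd1 : 0 < d := (Finset.mem_Icc.1 hdI).1
    have hRd : Rz z d ≤ η' := by
      by_contra hcon
      exact hn1 (Finset.mem_filter.2 ⟨hdI, not_le.1 hcon⟩)
    apply hdN
    intro i j g1 g2 g3 g4
    obtain ⟨a, ha⟩ : ∃ a, a = nt q i := ⟨_, rfl⟩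
    obtain ⟨b, hb⟩ : ∃ b, b = nt q (i + 1) := ⟨_, rfl⟩
    obtain ⟨h, hh⟩ : ∃ h, h = nt q j := ⟨_, rfl⟩
    have ha1 : 1 ≤ a := by
      rw [ha]
      unfold nt
      exact Real.one_le_rpow (by norm_num) (by positivity)
    have hh1 : 1 ≤ h := by
      rw [hh]
      unfold nt
      exact Real.one_le_rpow (by norm_num) (by positivity)
    have ha0 : 0 < a := by linarith
    have hh0 : 0 < h := by linarith
    have hbs := CN_nt_succ q i
    obtain ⟨r1, r2⟩ := CN_root hq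
    have gX0 : X0 ≤ nt q i := by
      refine le_trans ?_ g1
      rw [hX1]
      exact (le_max_left _ _).trans (le_max_left _ _)
    have gi1 : i1 ≤ i := by
      rw [← CN_nt_mono hq]
      refine le_trans ?_ g1
      rw [hX1]
      exact (le_max_right _ _).trans (le_max_left _ _)
    have gV : V + 4 * q ≤ a ^ ε := by
      have e1 : (V + 4 * q) ^ (1 / ε) ≤ a := by
        rw [ha]
        refine le_trans ?_ g1
        rw [hX1]
        exact le_max_right _ _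
      calc V + 4 * q = ((V + 4 * q) ^ (1 / ε)) ^ ε := by
            rw [← Real.rpow_mul (by positivity), one_div, inv_mul_cancel₀ hε.ne', Real.rpow_one]
        _ ≤ a ^ ε := Real.rpow_le_rpow (by positivity) e1 hε.le
    have giY : nt q i ≤ Y := ((CN_nt_mono hq).2 (Nat.le_succ i)).trans g2
    have giN := hN i giY
    have gji : j ≤ i := by
      rw [← CN_nt_mono hq]
      refine g4.trans ?_
      rw [← ha]
      calc a ^ (1 - ε) ≤ a ^ (1 : ℝ) := Real.rpow_le_rpow_of_exponent_le ha1 (by linarith)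
        _ = a := Real.rpow_one a
    have hJd : |J (fj d) k a b h| ≤ (δ / 2) * ((b - a) * h ^ ((k : ℝ) / 2)) := by
      by_contra hcon
      apply hn2
      rw [Finset.mem_biUnion]
      refine ⟨i, Finset.mem_Ico.2 ⟨gi1, giN⟩, ?_⟩
      rw [Finset.mem_biUnion]
      refine ⟨j, Finset.mem_filter.2 ⟨Finset.mem_range.2 (by omega), gX0, g3, g4, giY⟩, ?_⟩
      refine Finset.mem_filter.2 ⟨hdS, ?_⟩
      rw [← ha, ← hb, ← hh]
      exact not_le.1 hcon
    rw [← ha, ← hb] at hbs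
    rw [← ha, ← hh] at g3 g4
    rw [← ha, ← hb, ← hh]
    have hb2 : b ≤ 2 * a := by
      rw [hbs]
      nlinarith
    have hba : a / (4 * q) ≤ b - a := by
      rw [hbs]
      have e1 : a / (4 * q) = a * (1 / (4 * (q : ℝ))) := by ring
      rw [e1]
      have := mul_le_mul_of_nonneg_left r2 ha0.le
      linarith
    have hab : 0 < b - a := lt_of_lt_of_le (by positivity) hba
    have hhq : h ≤ a / (4 * q) := by
      refine g4.trans ?_
      rw [Real.rpow_sub ha0, Real.rpow_one]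
      apply div_le_div_of_nonneg_left ha0.le (by positivity)
      linarith
    have hdv := hdev a a b h d hd1 ha1 le_rfl hb2 hba hh1 hhq
    have hnm := hNM (fj d) d a b h (fun n => CN_fj_sq d n hd1) hd1 ha0 (by linarith) hh1
    have hsh : 0 < Real.sqrt h := Real.sqrt_pos.2 hh0
    have hVh : 4 * C * (Cz + 1) / δ ≤ Real.sqrt h := by
      rw [Real.le_sqrt (by positivity) hh0.le, ← hV]
      linarith
    have hs1 : C * ((Cz + 1) / Real.sqrt h) ≤ δ / 4 := by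
      rw [div_le_iff₀ hδ] at hVh
      rw [← mul_div_assoc, div_le_iff₀ hsh]
      linarith
    have hs2 : C * (CS * (1 / z + Rz z d)) ≤ δ / 4 := by
      have e1 : 1 / (z : ℝ) + Rz z d ≤ 2 * (δ / (8 * C * CS)) := by linarith
      calc C * (CS * (1 / z + Rz z d)) ≤ C * (CS * (2 * (δ / (8 * C * CS)))) := by
            apply mul_le_mul_of_nonneg_left _ hC.le
            exact mul_le_mul_of_nonneg_left e1 hCS.le
        _ = δ / 4 := by
            field_simp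
            ring
    have hs3 : |J (fj d) k a b h| / (b - a) ≤ (δ / 2) * h ^ ((k : ℝ) / 2) := by
      rw [div_le_iff₀ hab]
      linarith
    obtain ⟨w, hw⟩ : ∃ w, w = h ^ ((k : ℝ) / 2) := ⟨_, rfl⟩
    have hw0 : 0 < w := by rw [hw]; positivity
    rw [← hw] at hnm hs3 ⊢
    have hs4 : C * w * (dev d a b h + 1 / Real.sqrt h) ≤ w * (δ / 2) := by
      have e1 : dev d a b h + 1 / Real.sqrt h ≤ CS * (1 / z + Rz z d) + (Cz + 1) / Real.sqrt h := by
        rw [add_div]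
        linarith
      have e2 : C * (dev d a b h + 1 / Real.sqrt h) ≤ δ / 2 := by
        have := mul_le_mul_of_nonneg_left e1 hC.le
        rw [mul_add] at this
        linarith
      calc C * w * (dev d a b h + 1 / Real.sqrt h) = w * (C * (dev d a b h + 1 / Real.sqrt h)) := by ring
        _ ≤ w * (δ / 2) := mul_le_mul_of_nonneg_left e2 hw0.le
    linarith
  have hcard : ((((CN_S D).filter fun d => ¬ Net (fj d) (rho d) q k ε δ X1 Y).card : ℕ) : ℝ) ≤
      (((Finset.Icc 1 D).filter fun d => η' < Rz z d).card : ℝ) +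
        ∑ i ∈ Finset.Ico i1 N, ∑ j ∈ js i, ((bad i j).card : ℝ) := by
    have e1 := (Finset.card_le_card hsub).trans (Finset.card_union_le _ _)
    have e2 : ((Finset.Ico i1 N).biUnion fun i => (js i).biUnion fun j => bad i j).card ≤
        ∑ i ∈ Finset.Ico i1 N, ∑ j ∈ js i, (bad i j).card :=
      Finset.card_biUnion_le.trans (Finset.sum_le_sum fun i _ => Finset.card_biUnion_le)
    have e3 := e1.trans (Nat.add_le_add_left e2 _)
    exact_mod_cast e3
  refine hcard.trans ?_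
  have hb1 : ∑ i ∈ Finset.Ico i1 N, ∑ j ∈ js i, ((bad i j).card : ℝ) ≤ η / 2 * D := by
    calc ∑ i ∈ Finset.Ico i1 N, ∑ j ∈ js i, ((bad i j).card : ℝ)
        ≤ ∑ i ∈ Finset.Ico i1 N, ∑ j ∈ js i, A * nt q i ^ (-c) * D := by
          refine Finset.sum_le_sum fun i _ => Finset.sum_le_sum fun j hj => ?_
          obtain ⟨-, f1, f2, f3, f4⟩ := Finset.mem_filter.1 hj
          have := CN_one h5 hq hε hδ hc hL hD f1 f2 f3 f4 hYD
          rw [← hA] at this
          exact this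
      _ ≤ ∑ i ∈ Finset.Ico i1 N, (((i : ℝ) + 1) * (A * nt q i ^ (-c))) * D := by
          refine Finset.sum_le_sum fun i _ => ?_
          rw [Finset.sum_const, nsmul_eq_mul]
          have e1 : ((js i).card : ℝ) ≤ (i : ℝ) + 1 := by
            have e2 : (js i).card ≤ i + 1 := by
              refine (Finset.card_filter_le _ _).trans ?_
              rw [Finset.card_range]
            exact_mod_cast e2
          have e3 : 0 ≤ A * nt q i ^ (-c) * D := by
            have := CN_nt_pos q i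
            positivity
          calc ((js i).card : ℝ) * (A * nt q i ^ (-c) * D) ≤ ((i : ℝ) + 1) * (A * nt q i ^ (-c) * D) :=
                mul_le_mul_of_nonneg_right e1 e3
            _ = _ := by ring
      _ = (∑ i ∈ Finset.Ico i1 N, (((i : ℝ) + 1) * (A * nt q i ^ (-c)))) * D := by
          rw [Finset.sum_mul]
      _ ≤ η / 2 * D := mul_le_mul_of_nonneg_right (hi1 N) hD0.le
  have hb2 := hRz D
  have hb3 : η' * D ≤ η / 2 * D := mul_le_mul_of_nonneg_right hη'1 hD0.le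
  linarith

theorem CN_all (h1 : S_L2) (h2 : S_NM) (h3 : S_SF) (h4 : S_SF2) (h5 : S_JAC) (q K : ℕ) (ε δ : ℝ)
    (hq : 1 ≤ q) (hε : 0 < ε) (hε2 : ε < 1 / 2) (hδ : 0 < δ) : ∀ η : ℝ, 0 < η →
    ∃ (c X1 : ℝ), 0 < c ∧ ∀ D : ℕ, 1 ≤ D →
      (((CN_S D).filter fun d => ¬ ∀ k ≤ K, Net (fj d) (rho d) q k ε δ X1 ((D : ℝ) ^ c)).card : ℝ) ≤
        η * D := by
  induction K with
  | zero =>
    intro η hη
    obtain ⟨c, X1, hc, h⟩ := CN_k h1 h2 h3 h4 h5 q 0 ε δ η hq hε hε2 hδ hη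
    refine ⟨c, X1, hc, fun D hD => le_trans ?_ (h D hD)⟩
    have e : ((CN_S D).filter fun d => ¬ ∀ k ≤ 0, Net (fj d) (rho d) q k ε δ X1 ((D : ℝ) ^ c)) ⊆
        ((CN_S D).filter fun d => ¬ Net (fj d) (rho d) q 0 ε δ X1 ((D : ℝ) ^ c)) := by
      intro d hd
      rw [Finset.mem_filter] at hd ⊢
      refine ⟨hd.1, fun hn => hd.2 fun k hk => ?_⟩
      rw [Nat.le_zero.1 hk]
      exact hn
    exact_mod_cast Finset.card_le_card e
  | succ K ih =>
    intro η hη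
    obtain ⟨c, X1, hc, h⟩ := ih (η / 2) (by positivity)
    obtain ⟨c', X1', hc', h'⟩ := CN_k h1 h2 h3 h4 h5 q (K + 1) ε δ (η / 2) hq hε hε2 hδ (by positivity)
    refine ⟨min c c', max X1 X1', lt_min hc hc', fun D hD => ?_⟩
    have hDr : (1 : ℝ) ≤ D := by exact_mod_cast hD
    have e : ((CN_S D).filter fun d => ¬ ∀ k ≤ K + 1, Net (fj d) (rho d) q k ε δ (max X1 X1')
        ((D : ℝ) ^ (min c c'))) ⊆
        ((CN_S D).filter fun d => ¬ ∀ k ≤ K, Net (fj d) (rho d) q k ε δ X1 ((D : ℝ) ^ c)) ∪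
        ((CN_S D).filter fun d => ¬ Net (fj d) (rho d) q (K + 1) ε δ X1' ((D : ℝ) ^ c')) := by
      intro d hd
      by_contra hcon
      rw [Finset.mem_union, not_or] at hcon
      obtain ⟨c1, c2⟩ := hcon
      rw [Finset.mem_filter] at hd c1 c2
      obtain ⟨hdS, hdn⟩ := hd
      apply hdn
      intro k hk
      rcases Nat.lt_or_ge k (K + 1) with hlt | hge
      · have e1 : ∀ k ≤ K, Net (fj d) (rho d) q k ε δ X1 ((D : ℝ) ^ c) := by
          by_contra hh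
          exact c1 ⟨hdS, hh⟩
        exact CN_net_mono (e1 k (by omega)) (le_max_left _ _)
          (Real.rpow_le_rpow_of_exponent_le hDr (min_le_left _ _))
      · have hkK : k = K + 1 := by omega
        rw [hkK]
        have e1 : Net (fj d) (rho d) q (K + 1) ε δ X1' ((D : ℝ) ^ c') := by
          by_contra hh
          exact c2 ⟨hdS, hh⟩
        exact CN_net_mono e1 (le_max_right _ _)
          (Real.rpow_le_rpow_of_exponent_le hDr (min_le_right _ _))
    have e2 : ((((CN_S D).filter fun d => ¬ ∀ k ≤ K + 1, Net (fj d) (rho d) q k ε δ (max X1 X1')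
        ((D : ℝ) ^ (min c c'))).card : ℕ) : ℝ) ≤
        (((CN_S D).filter fun d => ¬ ∀ k ≤ K, Net (fj d) (rho d) q k ε δ X1 ((D : ℝ) ^ c)).card : ℝ) +
        (((CN_S D).filter fun d => ¬ Net (fj d) (rho d) q (K + 1) ε δ X1' ((D : ℝ) ^ c')).card : ℝ) := by
      exact_mod_cast (Finset.card_le_card e).trans (Finset.card_union_le _ _)
    have e3 := h D hD
    have e4 := h' D hD
    linarith

theorem t_CN (h1 : S_L2) (h2 : S_NM) (h3 : S_SF) (h4 : S_SF2) (h5 : S_JAC) : S_CN := by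
  intro q K ε δ η hq hε hε2 hδ hη
  obtain ⟨c, X1, hc, h⟩ := CN_all h1 h2 h3 h4 h5 q K ε δ hq hε hε2 hδ η hη
  refine ⟨c, X1, 1, hc, fun D hD => le_trans ?_ (h D hD)⟩
  have e : ((Finset.Icc 1 D).filter fun d => Odd d ∧ ¬ ∀ k ≤ K, Net (fj d) (rho d) q k ε δ X1
      ((D : ℝ) ^ c)) ⊆
      ((CN_S D).filter fun d => ¬ ∀ k ≤ K, Net (fj d) (rho d) q k ε δ X1 ((D : ℝ) ^ c)) := by
    intro d hd
    rw [Finset.mem_filter] at hd ⊢
    exact ⟨Finset.mem_filter.2 ⟨hd.1, hd.2.1⟩, hd.2.2⟩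
  exact_mod_cast Finset.card_le_card e

end Pool.Agent.N282.GC
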