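import Pool.Agent.N282.GC.Stm

/-!
# Project GCM: random signs, final theorems (helper282)
-/

set_option autoImplicit false

open MeasureTheory Filter Topology

namespace Pool.Agent.N282.GC

/-- the variance law for almost all signs -/
theorem FIN_var (h1 : S_BC) (h2 : S_TR2) {Ω : Type} [MeasurableSpace Ω] (P : Measure Ω) [IsProbabilityMeasure P]
    (s : ℕ → Ω → ℝ) (hm : ∀ p, Measurable (s p)) (hs : ∀ p ω, s p ω = 1 ∨ s p ω = -1)
    (h0 : ∀ p, ∫ ω, s p ω ∂P = 0) (hi : ProbabilityTheory.iIndepFun s P) :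
    ∀ᵐ ω ∂P, ∀ ε : ℝ, 0 < ε → ∀ H : ℝ → ℝ, (∀ᶠ X in atTop, X ^ ε < H X ∧ H X < X ^ (1 - ε)) →
      Tendsto (fun X : ℝ => ((1 / X) * ∫ x in X..2 * X, M (fs fun p => s p ω) x (H X) ^ 2) /
        (H X / (Real.pi ^ 2 / 6))) atTop (𝓝 1) := by
  filter_upwards [h1 Ω _ P inferInstance s hm hs h0 hi] with ω hω
  intro ε hε H hH
  by_cases he : ε < 1 / 2
  · have hpi : (0 : ℝ) < Real.pi ^ 2 := by positivity
    rw [Metric.tendsto_atTop]
    intro η hη
    obtain ⟨q, δ, hq, hδ, hq2⟩ := h2 ε (6 / Real.pi ^ 2 * (η / 2)) hε he (by positivity)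
    obtain ⟨X1, hX1⟩ := hω q 2 (ε / 32) δ hq (by positivity) (by linarith) hδ
    obtain ⟨X2, hX2, h3⟩ := hq2 X1
    obtain ⟨X3, hX3⟩ := eventually_atTop.1 hH
    refine ⟨max X2 X3, fun X hX => ?_⟩
    have hXa : X2 ≤ X := (le_max_left _ _).trans hX
    have hXb : X3 ≤ X := (le_max_right _ _).trans hX
    obtain ⟨hHa, hHb⟩ := hX3 X hXb
    have hX0 : 0 < X := by linarith
    have hH0 : 0 < H X := (Real.rpow_pos_of_pos hX0 _).trans hHa
    have h4 := h3 (16 * X) (fs fun p => s p ω) (6 / Real.pi ^ 2) (fun n => by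
      unfold fs
      rw [abs_mul, Finset.abs_prod]
      have e1 : ∏ p ∈ n.primeFactors, |s p ω| = 1 := Finset.prod_eq_one fun p _ => by
        rcases hs p ω with h | h <;> rw [h] <;> simp
      rw [e1, mul_one]
      have := ArithmeticFunction.abs_moebius_le_one (n := n)
      exact_mod_cast this) (by positivity) (by
        rw [div_le_one hpi]
        nlinarith [Real.pi_gt_three]) (hX1 (16 * X)) X (H X) hXa le_rfl hHa.le hHb.le
    rw [Real.dist_eq]
    set V := (1 / X) * ∫ x in X..2 * X, M (fs fun p => s p ω) x (H X) ^ 2 with hV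
    have e2 : V / (H X / (Real.pi ^ 2 / 6)) - 1 = (V - 6 / Real.pi ^ 2 * H X) / (6 / Real.pi ^ 2 * H X) := by
      field_simp
    rw [e2, abs_div, abs_of_pos (show 0 < 6 / Real.pi ^ 2 * H X by positivity), div_lt_iff₀ (by positivity)]
    calc |V - 6 / Real.pi ^ 2 * H X| ≤ 6 / Real.pi ^ 2 * (η / 2) * H X := h4
      _ < η * (6 / Real.pi ^ 2 * H X) := by
        have : 0 < 6 / Real.pi ^ 2 * H X * η := by positivity
        nlinarith
  · exfalso
    obtain ⟨X, ⟨h5, h6⟩, h7⟩ := (hH.and (eventually_ge_atTop (1 : ℝ))).exists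
    have : X ^ (1 - ε) ≤ X ^ ε := Real.rpow_le_rpow_of_exponent_le h7 (by linarith)
    linarith

/-- the two forms of the window -/
theorem FIN_win (x H : ℝ) (hx : 0 ≤ x) (hH : 0 ≤ H) :
    (Finset.range (⌊x + H⌋₊ + 1)).filter (fun n : ℕ => |(n : ℝ) - x| < H / 2) = win x H := by
  unfold win
  ext n
  simp only [Finset.mem_filter, Finset.mem_range, and_congr_left_iff]
  intro h
  have h1 : (n : ℝ) ≤ x + H := by
    have := (abs_lt.1 h).2
    linarith
  have h2 : n ≤ ⌊x + H⌋₊ := Nat.le_floor h1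
  have h3 : n ≤ ⌈x + H⌉₊ := h2.trans (Nat.floor_le_ceil _)
  constructor <;> intro _ <;> omega

/-- the normal law for almost all signs -/
theorem FIN_cdf (h1 : S_BC) (h2 : S_TRC) {Ω : Type} [MeasurableSpace Ω] (P : Measure Ω) [IsProbabilityMeasure P]
    (s : ℕ → Ω → ℝ) (hm : ∀ p, Measurable (s p)) (hs : ∀ p ω, s p ω = 1 ∨ s p ω = -1)
    (h0 : ∀ p, ∫ ω, s p ω ∂P = 0) (hi : ProbabilityTheory.iIndepFun s P) :
    ∀ᵐ ω ∂P, ∀ ε : ℝ, 0 < ε → ∀ H : ℝ → ℝ, (∀ᶠ X in atTop, X ^ ε < H X ∧ H X < X ^ (1 - ε)) → ∀ t : ℝ,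
      Tendsto (fun X : ℝ => (volume {x : ℝ | x ∈ Set.Icc X (2 * X) ∧
        M (fs fun p => s p ω) x (H X) / Real.sqrt (H X / (Real.pi ^ 2 / 6)) ≤ t}).toReal / X) atTop
        (𝓝 (ProbabilityTheory.cdf (ProbabilityTheory.gaussianReal 0 1) t)) := by
  filter_upwards [h1 Ω _ P inferInstance s hm hs h0 hi] with ω hω
  intro ε hε H hH t
  by_cases he : ε < 1 / 2
  · have hpi : (0 : ℝ) < Real.pi ^ 2 := by positivity
    rw [Metric.tendsto_atTop]
    intro η hη
    obtain ⟨q, K, δ, hq, hδ, hq2⟩ := h2 ε (η / 2) (6 / Real.pi ^ 2) t hε he (by positivity) (by positivity)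
    have hX1 : ∃ X1 : ℝ, ∀ k ≤ K, ∀ Y, Net (fs fun p => s p ω) (6 / Real.pi ^ 2) q k (ε / 32) δ X1 Y := by
      choose f hf using fun k : ℕ => hω q k (ε / 32) δ hq (by positivity) (by linarith) hδ
      refine ⟨(Finset.range (K + 1)).sup' ⟨0, by simp⟩ f, fun k hk Y i j h1 h2 h3 h4 => ?_⟩
      exact hf k Y i j ((Finset.le_sup' f (Finset.mem_range.2 (by omega))).trans h1) h2 h3 h4
    obtain ⟨X1, hX1⟩ := hX1
    obtain ⟨X2, hX2, h3⟩ := hq2 X1
    obtain ⟨X3, hX3⟩ := eventually_atTop.1 hH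
    refine ⟨max X2 X3, fun X hX => ?_⟩
    have hXa : X2 ≤ X := (le_max_left _ _).trans hX
    have hXb : X3 ≤ X := (le_max_right _ _).trans hX
    obtain ⟨hHa, hHb⟩ := hX3 X hXb
    have h4 := h3 (16 * X) (fs fun p => s p ω) (6 / Real.pi ^ 2) (fun n => by
      unfold fs
      rw [abs_mul, Finset.abs_prod]
      have e1 : ∏ p ∈ n.primeFactors, |s p ω| = 1 := Finset.prod_eq_one fun p _ => by
        rcases hs p ω with h | h <;> rw [h] <;> simp
      rw [e1, mul_one]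
      have := ArithmeticFunction.abs_moebius_le_one (n := n)
      exact_mod_cast this) le_rfl (by
        rw [div_le_one hpi]
        nlinarith [Real.pi_gt_three]) (fun k hk => hX1 k hk (16 * X)) X (H X) hXa le_rfl hHa.le hHb.le
    rw [Real.dist_eq]
    have e3 : H X / (Real.pi ^ 2 / 6) = 6 / Real.pi ^ 2 * H X := by field_simp
    rw [e3]
    exact lt_of_le_of_lt h4 (by linarith)
  · exfalso
    obtain ⟨X, ⟨h5, h6⟩, h7⟩ := (hH.and (eventually_ge_atTop (1 : ℝ))).exists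
    have : X ^ (1 - ε) ≤ X ^ ε := Real.rpow_le_rpow_of_exponent_le h7 (by linarith)
    linarith

end Pool.Agent.N282.GC
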