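import Pool.Agent.N282.GC.Stm

/-!
# Project GCM: Jacobi symbols, final theorems (helper282)
-/

set_option autoImplicit false

open MeasureTheory Filter Topology Classical

namespace Pool.Agent.N282.GC

theorem FJ_abs (d n : ℕ) : |fj d n| ≤ 1 := by
  unfold fj
  rw [abs_mul]
  have h1 : |((ArithmeticFunction.moebius n : ℤ) : ℝ)| ≤ 1 := by
    have := ArithmeticFunction.abs_moebius_le_one (n := n)
    exact_mod_cast this
  have h2 : |((jacobiSym n d : ℤ) : ℝ)| ≤ 1 := by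
    rcases jacobiSym.trichotomy (n : ℤ) d with h | h | h <;> rw [h] <;> simp
  calc _ ≤ (1 : ℝ) * 1 := mul_le_mul h1 h2 (abs_nonneg _) zero_le_one
    _ = 1 := one_mul 1

theorem FJ_rho_pos (d : ℕ) : 0 < rho d := by
  unfold rho
  have : 0 < ∏ p ∈ d.primeFactors, (p : ℝ) / (p + 1) := Finset.prod_pos fun p hp => by
    have := (Nat.prime_of_mem_primeFactors hp).pos
    positivity
  positivity

theorem FJ_rho_le (d : ℕ) : rho d ≤ 1 := by
  unfold rho
  have h1 : ∏ p ∈ d.primeFactors, (p : ℝ) / (p + 1) ≤ 1 := Finset.prod_le_one (fun p _ => by positivity) fun p _ => by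
    rw [div_le_one (by positivity)]
    linarith
  have h2 : 6 / Real.pi ^ 2 ≤ 1 := by
    rw [div_le_one (by positivity)]
    nlinarith [Real.pi_gt_three]
  have h3 : 0 ≤ ∏ p ∈ d.primeFactors, (p : ℝ) / (p + 1) := Finset.prod_nonneg fun p _ => by positivity
  calc _ ≤ (1 : ℝ) * 1 := mul_le_mul h2 h1 h3 zero_le_one
    _ = 1 := one_mul 1

/-- the variance law for almost all odd `d` -/
theorem FJ_var (h1 : S_CN) (h2 : S_TR2) (h3 : S_RHO) (ε η : ℝ) (hε : 0 < ε) (he : ε < 1 / 2) (hη : 0 < η) :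
    ∃ (c X0 : ℝ) (D0 : ℕ), 0 < c ∧ ∀ D : ℕ, D0 ≤ D →
      (((Finset.Icc 1 D).filter fun d => Odd d ∧ ¬ ∀ X H : ℝ, X0 ≤ X → X ≤ (D : ℝ) ^ c → X ^ ε ≤ H →
        H ≤ X ^ (1 - ε) → |(1 / X) * (∫ x in X..2 * X, M (fj d) x H ^ 2) - rho d * H| ≤ η * (rho d * H)).card : ℝ) ≤
        η * D := by

  obtain ⟨ρ0, hρ0, hR⟩ := h3 (η / 2) (by positivity)
  obtain ⟨q, δ, hq, hδ, h4⟩ := h2 ε (η * ρ0) hε he (by positivity)
  obtain ⟨c, X1, D0, hc, h5⟩ := h1 q 2 (ε / 32) δ (η / 2) hq (by positivity) (by linarith) hδ (by positivity)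
  obtain ⟨X2, hX2, h6⟩ := h4 X1
  -- `16 D ^ (c / 2) ≤ D ^ c` for large `D`
  have h7 : ∃ D1 : ℕ, 1 ≤ D1 ∧ ∀ D : ℕ, D1 ≤ D → 16 * (D : ℝ) ^ (c / 2) ≤ (D : ℝ) ^ c := by
    have : Tendsto (fun D : ℕ => (D : ℝ) ^ (c / 2)) atTop atTop :=
      (tendsto_rpow_atTop (by positivity)).comp tendsto_natCast_atTop_atTop
    obtain ⟨D1, hD1⟩ := eventually_atTop.1 (this.eventually_ge_atTop 16)
    refine ⟨max D1 1, le_max_right _ _, fun D hD => ?_⟩
    have h8 := hD1 D ((le_max_left _ _).trans hD)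
    have h9 : (0 : ℝ) < D := by
      have : 1 ≤ D := (le_max_right _ _).trans hD
      exact_mod_cast this
    have h10 : (D : ℝ) ^ c = (D : ℝ) ^ (c / 2) * (D : ℝ) ^ (c / 2) := by
      rw [← Real.rpow_add h9]
      congr 1
      ring
    rw [h10]
    exact mul_le_mul_of_nonneg_right h8 (Real.rpow_nonneg h9.le _)
  obtain ⟨D1, hD1, h8⟩ := h7
  refine ⟨c / 2, X2, max D0 D1, by positivity, fun D hD => ?_⟩
  have hDa : D0 ≤ D := (le_max_left _ _).trans hD
  have hDb : D1 ≤ D := (le_max_right _ _).trans hD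
  have hsub : ((Finset.Icc 1 D).filter fun d => Odd d ∧ ¬ ∀ X H : ℝ, X2 ≤ X → X ≤ (D : ℝ) ^ (c / 2) → X ^ ε ≤ H →
      H ≤ X ^ (1 - ε) → |(1 / X) * (∫ x in X..2 * X, M (fj d) x H ^ 2) - rho d * H| ≤ η * (rho d * H)) ⊆
      ((Finset.Icc 1 D).filter fun d => Odd d ∧ ¬ ∀ k ≤ 2, Net (fj d) (rho d) q k (ε / 32) δ X1 ((D : ℝ) ^ c)) ∪
        ((Finset.Icc 1 D).filter fun d => rho d < ρ0) := by
    intro d hd
    rw [Finset.mem_filter] at hd
    rw [Finset.mem_union, Finset.mem_filter, Finset.mem_filter]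
    by_contra hcon
    rw [not_or] at hcon
    obtain ⟨hc1, hc2⟩ := hcon
    have hN : ∀ k ≤ 2, Net (fj d) (rho d) q k (ε / 32) δ X1 ((D : ℝ) ^ c) := by
      by_contra h
      exact hc1 ⟨hd.1, hd.2.1, h⟩
    have hr : ρ0 ≤ rho d := by
      by_contra h
      exact hc2 ⟨hd.1, not_le.1 h⟩
    apply hd.2.2
    intro X H a1 a2 a3 a4
    have hX0 : 0 < X := by linarith
    have hH0 : 0 < H := lt_of_lt_of_le (Real.rpow_pos_of_pos hX0 _) a3
    have := h6 ((D : ℝ) ^ c) (fj d) (rho d) (FJ_abs d) (FJ_rho_pos d).le (FJ_rho_le d) (hN 2 le_rfl) X H a1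
      ((mul_le_mul_of_nonneg_left a2 (by norm_num)).trans (h8 D hDb)) a3 a4
    refine this.trans ?_
    have : ρ0 * H ≤ rho d * H := mul_le_mul_of_nonneg_right hr hH0.le
    calc η * ρ0 * H = η * (ρ0 * H) := by ring
      _ ≤ η * (rho d * H) := mul_le_mul_of_nonneg_left this hη.le
  have h9 : (((Finset.Icc 1 D).filter fun d => Odd d ∧ ¬ ∀ X H : ℝ, X2 ≤ X → X ≤ (D : ℝ) ^ (c / 2) → X ^ ε ≤ H →
      H ≤ X ^ (1 - ε) → |(1 / X) * (∫ x in X..2 * X, M (fj d) x H ^ 2) - rho d * H| ≤ η * (rho d * H)).card : ℝ) ≤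
      ((((Finset.Icc 1 D).filter fun d => Odd d ∧ ¬ ∀ k ≤ 2, Net (fj d) (rho d) q k (ε / 32) δ X1
        ((D : ℝ) ^ c)).card : ℝ)) + ((Finset.Icc 1 D).filter fun d => rho d < ρ0).card := by
    exact_mod_cast (Finset.card_le_card hsub).trans (Finset.card_union_le _ _)
  calc _ ≤ _ := h9
    _ ≤ η / 2 * D + η / 2 * D := add_le_add (h5 D hDa) (hR D)
    _ = η * D := by ring

/-- finitely many points control the distance to the normal law -/
theorem FJ_grid (η : ℝ) (hη : 0 < η) : ∃ G : Finset ℝ, ∀ f : ℝ → ℝ, Monotone f → (∀ t, 0 ≤ f t) → (∀ t, f t ≤ 1) →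
    (∀ t ∈ G, |f t - Phi t| ≤ η) → ∀ t, |f t - Phi t| ≤ 3 * η := by
  have hmono : Monotone Phi := (ProbabilityTheory.cdf (ProbabilityTheory.gaussianReal 0 1)).mono
  have hcont : Continuous Phi := by
    have : Phi = fun t => ((ProbabilityTheory.gaussianReal 0 1) (Set.Iic t)).toReal := by
      funext t
      unfold Phi
      rw [ProbabilityTheory.cdf_eq_real]
      rfl
    rw [continuous_iff_continuousAt]
    intro x
    rw [continuousAt_iff_continuous_left_right]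
    constructor
    · -- left continuity: no atom
      have h1 := (ProbabilityTheory.cdf (ProbabilityTheory.gaussianReal 0 1)).mono.continuousWithinAt_Iio_iff_leftLim_eq (x := x)
      have h2 := (ProbabilityTheory.cdf (ProbabilityTheory.gaussianReal 0 1)).measure_singleton x
      rw [ProbabilityTheory.measure_cdf] at h2
      have h3 : (ProbabilityTheory.gaussianReal 0 1) {x} = 0 := by
        haveI : NullSingletonClass (ProbabilityTheory.gaussianReal 0 1) := ProbabilityTheory.nullSingletonClass_gaussianReal one_ne_zero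
        exact measure_singleton x
      rw [h3] at h2
      have h4 := (ENNReal.ofReal_eq_zero.1 h2.symm)
      have h5 : Function.leftLim (ProbabilityTheory.cdf (ProbabilityTheory.gaussianReal 0 1)) x ≤
        ProbabilityTheory.cdf (ProbabilityTheory.gaussianReal 0 1) x :=
        (ProbabilityTheory.cdf (ProbabilityTheory.gaussianReal 0 1)).mono.leftLim_le le_rfl
      have h6 := h1.2 (le_antisymm h5 (by linarith))
      rw [← continuousWithinAt_insert_self, Set.Iio_insert] at h6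
      exact h6
    · exact (ProbabilityTheory.cdf (ProbabilityTheory.gaussianReal 0 1)).right_continuous x
  have hbot : Tendsto Phi atBot (𝓝 0) := ProbabilityTheory.tendsto_cdf_atBot _
  have htop : Tendsto Phi atTop (𝓝 1) := ProbabilityTheory.tendsto_cdf_atTop _
  obtain ⟨A, hA⟩ := (hbot.eventually_lt_const hη).exists
  obtain ⟨B, hB⟩ := (htop.eventually_const_lt (show 1 - η < 1 by linarith)).exists
  -- uniform continuity on `[A, B]`
  have huc := isCompact_Icc (a := A) (b := B) |>.uniformContinuousOn_of_continuous hcont.continuousOn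
  rw [Metric.uniformContinuousOn_iff] at huc
  obtain ⟨δ, hδ, huc⟩ := huc η hη
  obtain ⟨N, hN⟩ := exists_nat_gt ((B - A) / δ)
  refine ⟨(Finset.range (N + 2)).image (fun i : ℕ => min (A + i * δ / 2 * 1) B) ∪
    (Finset.range (2 * N + 3)).image (fun i : ℕ => min (A + i * (δ / 2)) B) ∪ {A, B}, ?_⟩
  intro f hf hf0 hf1 hG t
  have hGA := hG A (by simp)
  have hGB := hG B (by simp)
  rcases lt_or_ge t A with h1 | h1
  · have a1 := hf h1.le
    have a2 := hmono h1.le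
    have a3 := hf0 t
    have a4 : 0 ≤ Phi t := ProbabilityTheory.cdf_nonneg _ _
    rw [abs_le] at hGA ⊢
    constructor <;> linarith [hGA.1, hGA.2]
  rcases le_or_gt B t with h2 | h2
  · have a1 := hf h2
    have a2 := hmono h2
    have a3 := hf1 t
    have a4 : Phi t ≤ 1 := ProbabilityTheory.cdf_le_one _ _
    rw [abs_le] at hGB ⊢
    constructor <;> linarith [hGB.1, hGB.2]
  -- `A ≤ t < B`
  set i := ⌊(t - A) / (δ / 2)⌋₊ with hi
  have hδ2 : 0 < δ / 2 := by positivity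
  have b0 : 0 ≤ (t - A) / (δ / 2) := div_nonneg (by linarith) hδ2.le
  have b1 : (i : ℝ) * (δ / 2) ≤ t - A := by
    have := Nat.floor_le b0
    rwa [le_div_iff₀ hδ2] at this
  have b2 : t - A < ((i : ℝ) + 1) * (δ / 2) := by
    have := Nat.lt_floor_add_one ((t - A) / (δ / 2))
    rwa [div_lt_iff₀ hδ2] at this
  have b3 : i < 2 * N + 2 := by
    have : (i : ℝ) < 2 * N + 2 := by
      have c1 : (i : ℝ) * (δ / 2) < B - A := by linarith
      rw [div_lt_iff₀ hδ] at hN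
      by_contra hcon
      push Not at hcon
      nlinarith
    exact_mod_cast this
  set u := min (A + (i : ℝ) * (δ / 2)) B with hu
  set v := min (A + ((i + 1 : ℕ) : ℝ) * (δ / 2)) B with hv
  have hGu := hG u (by
    rw [Finset.mem_union, Finset.mem_union]
    left; right
    exact Finset.mem_image.2 ⟨i, Finset.mem_range.2 (by omega), rfl⟩)
  have hGv := hG v (by
    rw [Finset.mem_union, Finset.mem_union]
    left; right
    exact Finset.mem_image.2 ⟨i + 1, Finset.mem_range.2 (by omega), rfl⟩)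
  have hut : u ≤ t := (min_le_left _ _).trans (by linarith)
  have htv : t ≤ v := by
    rw [hv, le_min_iff]
    refine ⟨?_, h2.le⟩
    push_cast
    linarith
  have hAu : A ≤ u := by
    rw [hu, le_min_iff]
    refine ⟨?_, by linarith⟩
    have : 0 ≤ (i : ℝ) * (δ / 2) := by positivity
    linarith
  have hvB : v ≤ B := min_le_right _ _
  have huv : |v - u| < δ := by
    rw [abs_of_nonneg (by linarith)]
    have c1 : v ≤ A + ((i : ℝ) + 1) * (δ / 2) := by
      refine (min_le_left _ _).trans (le_of_eq ?_)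
      push_cast
      ring
    rcases le_total (A + (i : ℝ) * (δ / 2)) B with h | h
    · have : u = A + (i : ℝ) * (δ / 2) := min_eq_left h
      linarith
    · have : u = B := min_eq_right h
      linarith
  have hd := huc v ⟨hAu.trans (hut.trans htv), hvB⟩ u ⟨hAu, (hut.trans htv).trans hvB⟩ (by rwa [Real.dist_eq])
  rw [Real.dist_eq, abs_lt] at hd
  have a1 := hf hut
  have a2 := hf htv
  have a3 := hmono hut
  have a4 := hmono htv
  rw [abs_le] at hGu hGv ⊢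
  constructor <;> linarith [hGu.1, hGu.2, hGv.1, hGv.2, hd.1, hd.2]

/-- the distribution function of the normalised sums -/
noncomputable def FJ_df (F : ℕ → ℝ) (ρ X H t : ℝ) : ℝ :=
  (volume {x : ℝ | x ∈ Set.Icc X (2 * X) ∧ M F x H / Real.sqrt (ρ * H) ≤ t}).toReal / X

theorem FJ_df_fin (F : ℕ → ℝ) (ρ X H t : ℝ) :
    volume {x : ℝ | x ∈ Set.Icc X (2 * X) ∧ M F x H / Real.sqrt (ρ * H) ≤ t} ≠ ⊤ := by
  refine ne_of_lt (lt_of_le_of_lt (measure_mono (t := Set.Icc X (2 * X)) fun x hx => hx.1) ?_)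
  rw [Real.volume_Icc]
  exact ENNReal.ofReal_lt_top

theorem FJ_df_mono (F : ℕ → ℝ) (ρ X H : ℝ) (hX : 0 < X) : Monotone (FJ_df F ρ X H) := by
  intro s t hst
  unfold FJ_df
  refine div_le_div_of_nonneg_right ?_ hX.le
  exact ENNReal.toReal_mono (FJ_df_fin F ρ X H t) (measure_mono fun x hx => ⟨hx.1, hx.2.trans hst⟩)

theorem FJ_df_nonneg (F : ℕ → ℝ) (ρ X H t : ℝ) (hX : 0 < X) : 0 ≤ FJ_df F ρ X H t := by
  unfold FJ_df
  positivity

theorem FJ_df_le (F : ℕ → ℝ) (ρ X H t : ℝ) (hX : 0 < X) : FJ_df F ρ X H t ≤ 1 := by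
  unfold FJ_df
  rw [div_le_one hX]
  have h1 : volume {x : ℝ | x ∈ Set.Icc X (2 * X) ∧ M F x H / Real.sqrt (ρ * H) ≤ t} ≤
      volume (Set.Icc X (2 * X)) := measure_mono fun x hx => hx.1
  have h2 := ENNReal.toReal_mono (by rw [Real.volume_Icc]; exact ENNReal.ofReal_ne_top) h1
  refine h2.trans (le_of_eq ?_)
  rw [Real.volume_Icc, ENNReal.toReal_ofReal (by linarith)]
  ring

/-- finitely many points -/
theorem FJ_fin (h1 : S_CN) (h2 : S_TRC) (h3 : S_RHO) (ε η : ℝ) (hε : 0 < ε) (he : ε < 1 / 2) (hη : 0 < η)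
    (G : Finset ℝ) : ∀ κ : ℝ, 0 < κ → ∃ (c X0 : ℝ) (D0 : ℕ), 0 < c ∧ ∀ D : ℕ, D0 ≤ D →
      (((Finset.Icc 1 D).filter fun d => Odd d ∧ ¬ ∀ X H : ℝ, X0 ≤ X → X ≤ (D : ℝ) ^ c → X ^ ε ≤ H →
        H ≤ X ^ (1 - ε) → ∀ t ∈ G, |FJ_df (fj d) (rho d) X H t - Phi t| ≤ η).card : ℝ) ≤ κ * D := by
  induction G using Finset.induction_on with
  | empty =>
    intro κ hκ
    refine ⟨1, 0, 0, one_pos, fun D _ => ?_⟩
    have : ((Finset.Icc 1 D).filter fun d => Odd d ∧ ¬ ∀ X H : ℝ, 0 ≤ X → X ≤ (D : ℝ) ^ (1 : ℝ) → X ^ ε ≤ H →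
        H ≤ X ^ (1 - ε) → ∀ t ∈ (∅ : Finset ℝ), |FJ_df (fj d) (rho d) X H t - Phi t| ≤ η) = ∅ := by
      rw [Finset.filter_eq_empty_iff]
      rintro d - ⟨-, h⟩
      exact h fun X H _ _ _ _ t ht => absurd ht (Finset.notMem_empty t)
    rw [this]
    simp only [Finset.card_empty, Nat.cast_zero]
    positivity
  | insert t G _ ih =>
    intro κ hκ
    obtain ⟨c', X0', D0', hc', ih⟩ := ih (κ / 3) (by positivity)
    obtain ⟨ρ0, hρ0, hR⟩ := h3 (κ / 3) (by positivity)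
    obtain ⟨q, K, δ, hq, hδ, h4⟩ := h2 ε η ρ0 t hε he hη hρ0
    obtain ⟨c, X1, D0, hc, h5⟩ := h1 q K (ε / 32) δ (κ / 3) hq (by positivity) (by linarith) hδ (by positivity)
    obtain ⟨X2, hX2, h6⟩ := h4 X1
    have h7 : ∃ D1 : ℕ, 1 ≤ D1 ∧ ∀ D : ℕ, D1 ≤ D → 16 * (D : ℝ) ^ (min c' (c / 2)) ≤ (D : ℝ) ^ c := by
      have : Tendsto (fun D : ℕ => (D : ℝ) ^ (c / 2)) atTop atTop :=
        (tendsto_rpow_atTop (by positivity)).comp tendsto_natCast_atTop_atTop
      obtain ⟨D1, hD1⟩ := eventually_atTop.1 (this.eventually_ge_atTop 16)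
      refine ⟨max D1 1, le_max_right _ _, fun D hD => ?_⟩
      have h8 := hD1 D ((le_max_left _ _).trans hD)
      have h9 : (1 : ℝ) ≤ D := by
        have : 1 ≤ D := (le_max_right _ _).trans hD
        exact_mod_cast this
      have h10 : (D : ℝ) ^ c = (D : ℝ) ^ (c / 2) * (D : ℝ) ^ (c / 2) := by
        rw [← Real.rpow_add (by linarith)]
        congr 1
        ring
      rw [h10]
      exact mul_le_mul h8 (Real.rpow_le_rpow_of_exponent_le h9 (min_le_right _ _))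
        (Real.rpow_nonneg (by linarith) _) (Real.rpow_nonneg (by linarith) _)
    obtain ⟨D1, hD1, h8⟩ := h7
    refine ⟨min c' (c / 2), max X0' X2, max D0' (max D0 D1), lt_min hc' (by positivity), fun D hD => ?_⟩
    have hDa : D0' ≤ D := (le_max_left _ _).trans hD
    have hDb : D0 ≤ D := (le_max_left _ _).trans ((le_max_right _ _).trans hD)
    have hDc : D1 ≤ D := (le_max_right _ _).trans ((le_max_right _ _).trans hD)
    have hD' : (1 : ℝ) ≤ D := by
      have : 1 ≤ D := hD1.trans hDc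
      exact_mod_cast this
    set A1 := (Finset.Icc 1 D).filter fun d => Odd d ∧ ¬ ∀ X H : ℝ, X0' ≤ X → X ≤ (D : ℝ) ^ c' → X ^ ε ≤ H →
        H ≤ X ^ (1 - ε) → ∀ t ∈ G, |FJ_df (fj d) (rho d) X H t - Phi t| ≤ η with hA1
    set A2 := (Finset.Icc 1 D).filter fun d => Odd d ∧ ¬ ∀ k ≤ K,
      Net (fj d) (rho d) q k (ε / 32) δ X1 ((D : ℝ) ^ c) with hA2
    set A3 := (Finset.Icc 1 D).filter fun d => rho d < ρ0 with hA3
    have hsub : ((Finset.Icc 1 D).filter fun d => Odd d ∧ ¬ ∀ X H : ℝ, max X0' X2 ≤ X →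
        X ≤ (D : ℝ) ^ (min c' (c / 2)) → X ^ ε ≤ H → H ≤ X ^ (1 - ε) →
        ∀ t' ∈ insert t G, |FJ_df (fj d) (rho d) X H t' - Phi t'| ≤ η) ⊆ (A1 ∪ A2) ∪ A3 := by
      intro d hd
      rw [Finset.mem_filter] at hd
      by_contra hcon
      rw [Finset.mem_union, Finset.mem_union, not_or, not_or, hA1, hA2, hA3, Finset.mem_filter,
        Finset.mem_filter, Finset.mem_filter] at hcon
      obtain ⟨⟨g1, g2⟩, g3⟩ := hcon
      have k1 : ∀ X H : ℝ, X0' ≤ X → X ≤ (D : ℝ) ^ c' → X ^ ε ≤ H →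
          H ≤ X ^ (1 - ε) → ∀ t ∈ G, |FJ_df (fj d) (rho d) X H t - Phi t| ≤ η := by
        by_contra h
        exact g1 ⟨hd.1, hd.2.1, h⟩
      have k2 : ∀ k ≤ K, Net (fj d) (rho d) q k (ε / 32) δ X1 ((D : ℝ) ^ c) := by
        by_contra h
        exact g2 ⟨hd.1, hd.2.1, h⟩
      have k3 : ρ0 ≤ rho d := by
        by_contra h
        exact g3 ⟨hd.1, not_le.1 h⟩
      apply hd.2.2
      intro X H a1 a2 a3 a4 t' ht'
      rcases Finset.mem_insert.1 ht' with rfl | ht'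
      · exact h6 ((D : ℝ) ^ c) (fj d) (rho d) (FJ_abs d) k3 (FJ_rho_le d) k2 X H ((le_max_right _ _).trans a1)
          ((mul_le_mul_of_nonneg_left a2 (by norm_num)).trans (h8 D hDc)) a3 a4
      · exact k1 X H ((le_max_left _ _).trans a1)
          (a2.trans (Real.rpow_le_rpow_of_exponent_le hD' (min_le_left _ _))) a3 a4 t' ht'
    have h9 : (((Finset.Icc 1 D).filter fun d => Odd d ∧ ¬ ∀ X H : ℝ, max X0' X2 ≤ X →
        X ≤ (D : ℝ) ^ (min c' (c / 2)) → X ^ ε ≤ H → H ≤ X ^ (1 - ε) →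
        ∀ t' ∈ insert t G, |FJ_df (fj d) (rho d) X H t' - Phi t'| ≤ η).card : ℝ) ≤
        ((A1.card : ℝ) + A2.card) + A3.card := by
      exact_mod_cast (Finset.card_le_card hsub).trans ((Finset.card_union_le _ _).trans
        (Nat.add_le_add_right (Finset.card_union_le _ _) _))
    calc _ ≤ _ := h9
      _ ≤ (κ / 3 * D + κ / 3 * D) + κ / 3 * D := add_le_add (add_le_add (ih D hDa) (h5 D hDb)) (hR D)
      _ = κ * D := by ring

/-- the normal law for almost all odd `d` -/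
theorem FJ_cdf (h1 : S_CN) (h2 : S_TRC) (h3 : S_RHO) (ε η : ℝ) (hε : 0 < ε) (he : ε < 1 / 2) (hη : 0 < η) :
    ∃ (c X0 : ℝ) (D0 : ℕ), 0 < c ∧ ∀ D : ℕ, D0 ≤ D →
      (((Finset.Icc 1 D).filter fun d => Odd d ∧ ¬ ∀ X H : ℝ, X0 ≤ X → X ≤ (D : ℝ) ^ c → X ^ ε ≤ H →
        H ≤ X ^ (1 - ε) → ∀ t : ℝ, |FJ_df (fj d) (rho d) X H t - Phi t| ≤ η).card : ℝ) ≤ η * D := by
  obtain ⟨G, hG⟩ := FJ_grid (η / 3) (by positivity)
  obtain ⟨c, X0, D0, hc, h4⟩ := FJ_fin h1 h2 h3 ε (η / 3) hε he (by positivity) G η hη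
  refine ⟨c, max X0 1, D0, hc, fun D hD => ?_⟩
  refine le_trans ?_ (h4 D hD)
  have hsub : ((Finset.Icc 1 D).filter fun d => Odd d ∧ ¬ ∀ X H : ℝ, max X0 1 ≤ X → X ≤ (D : ℝ) ^ c → X ^ ε ≤ H →
        H ≤ X ^ (1 - ε) → ∀ t : ℝ, |FJ_df (fj d) (rho d) X H t - Phi t| ≤ η) ⊆
      ((Finset.Icc 1 D).filter fun d => Odd d ∧ ¬ ∀ X H : ℝ, X0 ≤ X → X ≤ (D : ℝ) ^ c → X ^ ε ≤ H →
        H ≤ X ^ (1 - ε) → ∀ t ∈ G, |FJ_df (fj d) (rho d) X H t - Phi t| ≤ η / 3) := by
    intro d hd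
    rw [Finset.mem_filter] at hd ⊢
    refine ⟨hd.1, hd.2.1, fun h => hd.2.2 ?_⟩
    intro X H a1 a2 a3 a4 t
    have hX0 : 0 < X := lt_of_lt_of_le one_pos ((le_max_right _ _).trans a1)
    have := hG (FJ_df (fj d) (rho d) X H) (FJ_df_mono _ _ _ _ hX0) (fun t => FJ_df_nonneg _ _ _ _ t hX0)
      (fun t => FJ_df_le _ _ _ _ t hX0) (h X H ((le_max_left _ _).trans a1) a2 a3 a4) t
    linarith
  exact_mod_cast Finset.card_le_card hsub

end Pool.Agent.N282.GC
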