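import Pool.Agent.N282.GC.Stm

/-!
# Project GC, part L2: the mean square of the unpaired part (helper277)
-/

set_option autoImplicit false

open MeasureTheory Filter Topology Classical

namespace Pool.Agent.N282.GC

/-- the indicator function of the centres `x` whose window contains all the `n i` -/
noncomputable def L2_ind {k : ℕ} (H : ℝ) (n : Fin k → ℕ) (x : ℝ) : ℝ :=
  if ∀ i, |(n i : ℝ) - x| < H / 2 then 1 else 0

/-- the measure of the set of centres in `[a, b]` whose window contains all the `n i` -/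
noncomputable def L2_lam {k : ℕ} (a b H : ℝ) (n : Fin k → ℕ) : ℝ := ∫ x in a..b, L2_ind H n x

lemma L2_ind_nonneg {k : ℕ} (H : ℝ) (n : Fin k → ℕ) (x : ℝ) : 0 ≤ L2_ind H n x := by
  unfold L2_ind; split_ifs <;> norm_num

lemma L2_ind_le_one {k : ℕ} (H : ℝ) (n : Fin k → ℕ) (x : ℝ) : L2_ind H n x ≤ 1 := by
  unfold L2_ind; split_ifs <;> norm_num

lemma L2_ind_meas {k : ℕ} (H : ℝ) (n : Fin k → ℕ) : Measurable (L2_ind H n) := by
  unfold L2_ind
  refine Measurable.ite ?_ measurable_const measurable_const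
  have h : {x : ℝ | ∀ i, |(n i : ℝ) - x| < H / 2} = ⋂ i, {x : ℝ | |(n i : ℝ) - x| < H / 2} := by
    ext x; simp
  rw [h]
  refine MeasurableSet.iInter fun i => ?_
  exact measurableSet_lt (by fun_prop) (by fun_prop)

lemma L2_ind_int {k : ℕ} (H : ℝ) (n : Fin k → ℕ) (a b : ℝ) :
    IntervalIntegrable (L2_ind H n) volume a b := by
  have h1 : IntervalIntegrable (fun _ : ℝ => (1 : ℝ)) volume a b := intervalIntegrable_const
  refine h1.mono_fun (L2_ind_meas H n).aestronglyMeasurable ?_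
  refine Filter.Eventually.of_forall fun x => ?_
  show ‖L2_ind H n x‖ ≤ ‖(1 : ℝ)‖
  rw [Real.norm_eq_abs, abs_of_nonneg (L2_ind_nonneg H n x)]
  simpa using L2_ind_le_one H n x

lemma L2_lam_nonneg {k : ℕ} {a b H : ℝ} (n : Fin k → ℕ) (hab : a ≤ b) : 0 ≤ L2_lam a b H n :=
  intervalIntegral.integral_nonneg hab fun x _ => L2_ind_nonneg H n x

lemma L2_lam_le {k : ℕ} {a b H : ℝ} (n : Fin k → ℕ) (hk : 1 ≤ k) (hab : a ≤ b) (hH : 0 ≤ H) :
    L2_lam a b H n ≤ H := by
  obtain ⟨i0⟩ : Nonempty (Fin k) := ⟨⟨0, hk⟩⟩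
  have h1 : L2_lam a b H n ≤
      ∫ x in a..b, (Metric.ball (n i0 : ℝ) (H / 2)).indicator (fun _ => (1 : ℝ)) x := by
    refine intervalIntegral.integral_mono_on hab (L2_ind_int H n a b) ?_ ?_
    · rw [intervalIntegrable_iff]
      have h2 : IntegrableOn (fun _ : ℝ => (1 : ℝ)) (Set.uIoc a b) volume := by
        refine integrableOn_const ?_
        simp [Set.uIoc]
      exact h2.indicator Metric.isOpen_ball.measurableSet
    · intro x _
      unfold L2_ind
      split_ifs with h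
      · rw [Set.indicator_of_mem]
        rw [Metric.mem_ball, Real.dist_eq, abs_sub_comm]
        exact h i0
      · exact Set.indicator_nonneg (fun _ _ => zero_le_one) x
  refine h1.trans ?_
  rw [intervalIntegral.integral_of_le hab, setIntegral_indicator Metric.isOpen_ball.measurableSet]
  simp only [setIntegral_const, smul_eq_mul, mul_one]
  calc volume.real (Set.Ioc a b ∩ Metric.ball (n i0 : ℝ) (H / 2))
      ≤ volume.real (Metric.ball (n i0 : ℝ) (H / 2)) := by
        refine measureReal_mono Set.inter_subset_right ?_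
        rw [Real.volume_ball]
        exact ENNReal.ofReal_ne_top
    _ = H := by
        rw [Real.volume_real_ball (by positivity)]
        ring

lemma L2_lam_ne {k : ℕ} {a b H : ℝ} {n : Fin k → ℕ} (hab : a ≤ b) (h : L2_lam a b H n ≠ 0) :
    ∃ x ∈ Set.Icc a b, ∀ i, |(n i : ℝ) - x| < H / 2 := by
  by_contra hc
  push Not at hc
  apply h
  unfold L2_lam
  have h2 : ∫ x in a..b, L2_ind H n x = ∫ x in a..b, (0 : ℝ) := by
    refine intervalIntegral.integral_congr fun x hx => ?_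
    rw [Set.uIcc_of_le hab] at hx
    obtain ⟨i, hi⟩ := hc x hx
    show L2_ind H n x = 0
    unfold L2_ind
    rw [if_neg]
    intro h3
    exact absurd (h3 i) (not_lt.mpr hi)
  rw [h2]; simp

lemma L2_card_win {x H : ℝ} (hx : H / 2 ≤ x) (hH : 0 ≤ H) : ((win x H).card : ℝ) ≤ H + 1 := by
  have h1 : win x H ⊆ Finset.Icc ⌈x - H / 2⌉₊ ⌊x + H / 2⌋₊ := by
    intro n hn
    simp only [win, Finset.mem_filter, Finset.mem_range] at hn
    obtain ⟨-, h2⟩ := hn
    rw [abs_lt] at h2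
    rw [Finset.mem_Icc]
    constructor
    · rw [Nat.ceil_le]; linarith
    · rw [Nat.le_floor_iff (by linarith)]; linarith
  have h2 := Finset.card_le_card h1
  rw [Nat.card_Icc] at h2
  by_cases h3 : ⌈x - H / 2⌉₊ ≤ ⌊x + H / 2⌋₊ + 1
  · have h4 : ((win x H).card : ℝ) ≤ ((⌊x + H / 2⌋₊ + 1 - ⌈x - H / 2⌉₊ : ℕ) : ℝ) := by
      exact_mod_cast h2
    rw [Nat.cast_sub h3] at h4
    have h5 : x - H / 2 ≤ (⌈x - H / 2⌉₊ : ℝ) := Nat.le_ceil _
    have h6 : (⌊x + H / 2⌋₊ : ℝ) ≤ x + H / 2 := Nat.floor_le (by linarith)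
    push_cast at h4
    linarith
  · have h4 : (win x H).card = 0 := by omega
    rw [h4]; push_cast; linarith

lemma L2_mem_win {x H : ℝ} (hH : 0 ≤ H) (n : ℕ) : n ∈ win x H ↔ |(n : ℝ) - x| < H / 2 := by
  simp only [win, Finset.mem_filter, Finset.mem_range]
  refine ⟨fun h => h.2, fun h => ⟨?_, h⟩⟩
  have h2 : (n : ℝ) < x + H := by
    have := (abs_lt.mp h).2
    linarith
  have h3 : (n : ℝ) < ⌈x + H⌉₊ := lt_of_lt_of_le h2 (Nat.le_ceil _)
  have h4 : n < ⌈x + H⌉₊ := by exact_mod_cast h3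
  omega

lemma L2_win_sub {x H X : ℝ} {N : ℕ} (hH0 : 0 ≤ H) (hH : H ≤ X) (hx : x ≤ 2 * X) (hN : 3 * X < N) :
    win x H ⊆ Finset.range N := by
  intro n hn
  rw [L2_mem_win hH0] at hn
  rw [Finset.mem_range]
  have h2 : (n : ℝ) < N := by
    have := (abs_lt.mp hn).2
    linarith
  exact_mod_cast h2

/-- the unpaired tuples of elements of `range N` -/
noncomputable def L2_U (k N : ℕ) : Finset (Fin k → ℕ) :=
  (tup k (Finset.range N)).filter fun n => ¬ Paired n

lemma L2_UP_eq (F : ℕ → ℝ) (k : ℕ) {x H X : ℝ} {N : ℕ} (hH0 : 0 ≤ H) (hH : H ≤ X)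
    (hx : x ≤ 2 * X) (hN : 3 * X < N) :
    UP F k x H = ∑ n ∈ L2_U k N, L2_ind H n x * ∏ i, F (n i) := by
  unfold UP L2_U
  have h1 : (tup k (win x H)).filter (fun n => ¬ Paired n) =
      ((tup k (Finset.range N)).filter fun n => ¬ Paired n).filter
        (fun n => ∀ i, |(n i : ℝ) - x| < H / 2) := by
    ext n
    simp only [Finset.mem_filter, tup, Fintype.mem_piFinset]
    constructor
    · rintro ⟨h2, h3⟩
      exact ⟨⟨fun i => L2_win_sub hH0 hH hx hN (h2 i), h3⟩, fun i => (L2_mem_win hH0 _).mp (h2 i)⟩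
    · rintro ⟨⟨h2, h3⟩, h4⟩
      exact ⟨fun i => (L2_mem_win hH0 _).mpr (h4 i), h3⟩
  rw [h1, Finset.sum_filter]
  refine Finset.sum_congr rfl fun n _ => ?_
  unfold L2_ind
  split_ifs <;> simp

lemma L2_J_eq (F : ℕ → ℝ) (k : ℕ) {a b H X : ℝ} {N : ℕ} (hH0 : 0 ≤ H) (hH : H ≤ X)
    (hab : a ≤ b) (hb : b ≤ 2 * X) (hN : 3 * X < N) :
    J F k a b H = ∑ n ∈ L2_U k N, L2_lam a b H n * ∏ i, F (n i) := by
  unfold J
  have h1 : ∫ x in a..b, UP F k x H =
      ∫ x in a..b, ∑ n ∈ L2_U k N, L2_ind H n x * ∏ i, F (n i) := by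
    refine intervalIntegral.integral_congr fun x hx => ?_
    rw [Set.uIcc_of_le hab] at hx
    exact L2_UP_eq F k hH0 hH (hx.2.trans hb) hN
  rw [h1, intervalIntegral.integral_finsetSum]
  · refine Finset.sum_congr rfl fun n _ => ?_
    rw [intervalIntegral.integral_mul_const]
    rfl
  · intro n _
    exact (L2_ind_int H n a b).mul_const _

lemma L2_sum_lam (k : ℕ) {a b H X : ℝ} {N : ℕ} (hH0 : 1 ≤ H) (hH : H ≤ X) (ha : X ≤ a)
    (hab : a ≤ b) (hb : b ≤ 2 * X) :
    ∑ n ∈ L2_U k N, L2_lam a b H n ≤ X * (2 * H) ^ k := by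
  have hX : 0 ≤ X := by linarith
  have h1 : ∑ n ∈ L2_U k N, L2_lam a b H n = ∫ x in a..b, ∑ n ∈ L2_U k N, L2_ind H n x := by
    rw [intervalIntegral.integral_finsetSum]
    · rfl
    · intro n _
      exact L2_ind_int H n a b
  rw [h1]
  have h2 : ∫ x in a..b, ∑ n ∈ L2_U k N, L2_ind H n x ≤ ∫ _x in a..b, (2 * H) ^ k := by
    refine intervalIntegral.integral_mono_on hab ?_ intervalIntegrable_const ?_
    · have h3 : (fun x => ∑ n ∈ L2_U k N, L2_ind H n x) = ∑ n ∈ L2_U k N, L2_ind H n := by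
        ext x; simp
      rw [h3]
      exact IntervalIntegrable.sum _ fun n _ => L2_ind_int H n a b
    · intro x hx
      have h3 : ∑ n ∈ L2_U k N, L2_ind H n x =
          (((L2_U k N).filter fun n => ∀ i, |(n i : ℝ) - x| < H / 2).card : ℝ) := by
        rw [Finset.card_filter]
        push_cast
        rfl
      rw [h3]
      have h4 : ((L2_U k N).filter fun n => ∀ i, |(n i : ℝ) - x| < H / 2) ⊆ tup k (win x H) := by
        intro n hn
        rw [Finset.mem_filter] at hn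
        simp only [tup, Fintype.mem_piFinset]
        exact fun i => (L2_mem_win (by linarith) _).mpr (hn.2 i)
      have h5 : (((L2_U k N).filter fun n => ∀ i, |(n i : ℝ) - x| < H / 2).card : ℝ) ≤
          ((win x H).card : ℝ) ^ k := by
        have h6 := Finset.card_le_card h4
        have h7 : (tup k (win x H)).card = (win x H).card ^ k := by
          unfold tup
          rw [Fintype.card_piFinset]
          simp
        rw [h7] at h6
        exact_mod_cast h6
      refine h5.trans ?_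
      refine pow_le_pow_left₀ (by positivity) ?_ k
      have h8 := L2_card_win (x := x) (H := H) (by linarith [hx.1]) (by linarith)
      linarith
  refine h2.trans ?_
  rw [intervalIntegral.integral_const, smul_eq_mul]
  refine mul_le_mul_of_nonneg_right (by linarith) (by positivity)

lemma L2_prod_le_one {k : ℕ} (F : ℕ → ℝ) (hF : ∀ n, |F n| ≤ 1) (n : Fin k → ℕ) :
    |∏ i, F (n i)| ≤ 1 := by
  rw [Finset.abs_prod]
  exact Finset.prod_le_one (fun i _ => abs_nonneg _) fun i _ => hF _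

theorem t_L2 (h : S_CL) : S_L2 := by
  intro k ε hk hε hε2
  obtain ⟨c, X0, hc, hX0, hCL⟩ := h k ε hk hε hε2
  refine ⟨c, X0, hc, hX0, ?_⟩
  intro X H a b hX hH1 hH2 ha hab hb Ω _ P _ F δ hδ hFm hF1 hFs hE
  have hX2 : 2 ≤ X := hX0.trans hX
  have hX0' : 0 < X := by linarith
  have hH : 1 ≤ H := (Real.one_le_rpow (by linarith) hε.le).trans hH1
  have hHX : H ≤ X := by
    refine hH2.trans ?_
    calc X ^ (1 - ε) ≤ X ^ (1 : ℝ) := Real.rpow_le_rpow_of_exponent_le (by linarith) (by linarith)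
      _ = X := Real.rpow_one X
  obtain ⟨N, hN⟩ := exists_nat_gt (3 * X)
  have hH0 : 0 ≤ H := by linarith
  -- the expansion of the square
  set U := L2_U k N with hU
  have hJ : ∀ ω, J (F ω) k a b H ^ 2 = ∑ t ∈ U ×ˢ U, (L2_lam a b H t.1 * L2_lam a b H t.2) *
      ((∏ i, F ω (t.1 i)) * ∏ i, F ω (t.2 i)) := by
    intro ω
    rw [L2_J_eq (F ω) k hH0 hHX hab hb hN, sq, Finset.sum_mul_sum, Finset.sum_product]
    refine Finset.sum_congr rfl fun n _ => Finset.sum_congr rfl fun m _ => ?_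
    ring
  have hmeas : ∀ t : (Fin k → ℕ) × (Fin k → ℕ),
      Measurable fun ω => (∏ i, F ω (t.1 i)) * ∏ i, F ω (t.2 i) := by
    intro t
    refine Measurable.mul ?_ ?_
    · exact Finset.measurable_prod _ fun i _ => hFm _
    · exact Finset.measurable_prod _ fun i _ => hFm _
  have hle1 : ∀ (t : (Fin k → ℕ) × (Fin k → ℕ)) ω,
      |(∏ i, F ω (t.1 i)) * ∏ i, F ω (t.2 i)| ≤ 1 := by
    intro t ω
    rw [abs_mul]
    exact mul_le_one₀ (L2_prod_le_one _ (hF1 ω) _) (abs_nonneg _) (L2_prod_le_one _ (hF1 ω) _)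
  have hint : ∀ t : (Fin k → ℕ) × (Fin k → ℕ),
      Integrable (fun ω => (∏ i, F ω (t.1 i)) * ∏ i, F ω (t.2 i)) P := by
    intro t
    refine Integrable.mono' (integrable_const (1 : ℝ)) (hmeas t).aestronglyMeasurable ?_
    exact Filter.Eventually.of_forall fun ω => hle1 t ω
  have hEle1 : ∀ t : (Fin k → ℕ) × (Fin k → ℕ),
      |∫ ω, (∏ i, F ω (t.1 i)) * ∏ i, F ω (t.2 i) ∂P| ≤ 1 := by
    intro t
    have h1 := norm_integral_le_of_norm_le_const (μ := P)
      (f := fun ω => (∏ i, F ω (t.1 i)) * ∏ i, F ω (t.2 i)) (C := 1)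
      (Filter.Eventually.of_forall fun ω => hle1 t ω)
    simpa using h1
  have hEJ : ∫ ω, J (F ω) k a b H ^ 2 ∂P = ∑ t ∈ U ×ˢ U, (L2_lam a b H t.1 * L2_lam a b H t.2) *
      ∫ ω, (∏ i, F ω (t.1 i)) * ∏ i, F ω (t.2 i) ∂P := by
    simp_rw [hJ]
    rw [integral_finsetSum]
    · refine Finset.sum_congr rfl fun t _ => ?_
      rw [integral_const_mul]
    · intro t _
      exact (hint t).const_mul _
  rw [hEJ]
  -- the pairs with square product
  set T := (U ×ˢ U).filter fun t : (Fin k → ℕ) × (Fin k → ℕ) =>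
    (L2_lam a b H t.1 ≠ 0 ∧ L2_lam a b H t.2 ≠ 0) ∧ (∀ i, Squarefree (t.1 i)) ∧
      (∀ i, Squarefree (t.2 i)) ∧ IsSquare ((∏ i, t.1 i) * ∏ i, t.2 i) with hT
  have hloc : ∀ n : Fin k → ℕ, L2_lam a b H n ≠ 0 →
      (∀ i, X / 2 ≤ n i ∧ (n i : ℝ) ≤ 3 * X) ∧ ∀ i j, |(n i : ℝ) - n j| ≤ H := by
    intro n hn
    obtain ⟨x, hx, h1⟩ := L2_lam_ne hab hn
    refine ⟨fun i => ?_, fun i j => ?_⟩
    · have h2 := abs_lt.mp (h1 i)
      constructor
      · linarith [hx.1, h2.1]
      · linarith [hx.2, h2.2]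
    · have h2 := abs_lt.mp (h1 i)
      have h3 := abs_lt.mp (h1 j)
      rw [abs_le]
      constructor <;> linarith [h2.1, h2.2, h3.1, h3.2]
  have hcard : (T.card : ℝ) * H ^ 2 ≤ X ^ (2 - c) * H ^ k := by
    refine hCL X H hX hH1 hH2 T ?_
    intro t ht
    rw [hT, Finset.mem_filter, Finset.mem_product] at ht
    obtain ⟨⟨h1, h2⟩, ⟨h3, h4⟩, h5, h6, h7⟩ := ht
    rw [hU, L2_U, Finset.mem_filter] at h1
    obtain ⟨h8, h9⟩ := hloc t.1 h3
    obtain ⟨h10, h11⟩ := hloc t.2 h4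
    exact ⟨fun i => ⟨(h8 i).1, (h8 i).2, h5 i⟩, fun i => ⟨(h10 i).1, (h10 i).2, h6 i⟩, h9, h11, h7,
      h1.2⟩
  -- bound for the terms
  have hterm : ∀ t ∈ U ×ˢ U, (L2_lam a b H t.1 * L2_lam a b H t.2) *
      (∫ ω, (∏ i, F ω (t.1 i)) * ∏ i, F ω (t.2 i) ∂P) ≤
      (if t ∈ T then H ^ 2 else 0) + δ * (L2_lam a b H t.1 * L2_lam a b H t.2) := by
    intro t ht
    have hl1 := L2_lam_nonneg (a := a) (b := b) (H := H) t.1 hab
    have hl2 := L2_lam_nonneg (a := a) (b := b) (H := H) t.2 hab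
    have hl3 := L2_lam_le (a := a) (b := b) (H := H) t.1 hk hab hH0
    have hl4 := L2_lam_le (a := a) (b := b) (H := H) t.2 hk hab hH0
    have hll : 0 ≤ L2_lam a b H t.1 * L2_lam a b H t.2 := mul_nonneg hl1 hl2
    have hδll : 0 ≤ δ * (L2_lam a b H t.1 * L2_lam a b H t.2) := mul_nonneg hδ hll
    have hif : (0 : ℝ) ≤ if t ∈ T then H ^ 2 else 0 := by
      split_ifs <;> positivity
    by_cases htT : t ∈ T
    · rw [if_pos htT]
      have h1 : (L2_lam a b H t.1 * L2_lam a b H t.2) *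
          (∫ ω, (∏ i, F ω (t.1 i)) * ∏ i, F ω (t.2 i) ∂P) ≤
          (L2_lam a b H t.1 * L2_lam a b H t.2) * 1 :=
        mul_le_mul_of_nonneg_left ((le_abs_self _).trans (hEle1 t)) hll
      have h2 : L2_lam a b H t.1 * L2_lam a b H t.2 ≤ H ^ 2 := by
        rw [sq]
        exact mul_le_mul hl3 hl4 hl2 hH0
      linarith
    · by_cases h0 : L2_lam a b H t.1 = 0
      · rw [h0, zero_mul, zero_mul]
        linarith [hif, hδll]
      by_cases h0' : L2_lam a b H t.2 = 0
      · rw [h0', mul_zero, zero_mul]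
        linarith [hif, hδll]
      by_cases hs1 : ∀ i, Squarefree (t.1 i)
      · by_cases hs2 : ∀ i, Squarefree (t.2 i)
        · have hns : ¬ IsSquare ((∏ i, t.1 i) * ∏ i, t.2 i) := by
            intro hsq
            apply htT
            rw [hT, Finset.mem_filter]
            exact ⟨ht, ⟨h0, h0'⟩, hs1, hs2, hsq⟩
          have h1 := hE t.1 t.2 (fun i => ((hloc t.1 h0).1 i).2) (fun i => ((hloc t.2 h0').1 i).2)
            hs1 hs2 hns
          have h2 : (L2_lam a b H t.1 * L2_lam a b H t.2) *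
              (∫ ω, (∏ i, F ω (t.1 i)) * ∏ i, F ω (t.2 i) ∂P) ≤
              (L2_lam a b H t.1 * L2_lam a b H t.2) * δ :=
            mul_le_mul_of_nonneg_left ((le_abs_self _).trans h1) hll
          linarith
        · push Not at hs2
          obtain ⟨i, hi⟩ := hs2
          have h1 : ∀ ω, (∏ i, F ω (t.1 i)) * ∏ i, F ω (t.2 i) = 0 := by
            intro ω
            have h2 : ∏ i, F ω (t.2 i) = 0 := Finset.prod_eq_zero (Finset.mem_univ i) (hFs ω _ hi)
            rw [h2, mul_zero]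
          simp_rw [h1]
          simp only [integral_zero, mul_zero]
          linarith [hif, hδll]
      · push Not at hs1
        obtain ⟨i, hi⟩ := hs1
        have h1 : ∀ ω, (∏ i, F ω (t.1 i)) * ∏ i, F ω (t.2 i) = 0 := by
          intro ω
          have h2 : ∏ i, F ω (t.1 i) = 0 := Finset.prod_eq_zero (Finset.mem_univ i) (hFs ω _ hi)
          rw [h2, zero_mul]
        simp_rw [h1]
        simp only [integral_zero, mul_zero]
        linarith [hif, hδll]
  refine (Finset.sum_le_sum hterm).trans ?_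
  rw [Finset.sum_add_distrib, ← Finset.mul_sum]
  have h1 : ∑ t ∈ U ×ˢ U, (if t ∈ T then H ^ 2 else 0) = (T.card : ℝ) * H ^ 2 := by
    rw [← Finset.sum_filter]
    have h2 : (U ×ˢ U).filter (fun t => t ∈ T) = T := by
      ext t
      rw [Finset.mem_filter]
      refine ⟨fun h => h.2, fun h => ⟨?_, h⟩⟩
      rw [hT, Finset.mem_filter] at h
      exact h.1
    rw [h2, Finset.sum_const, nsmul_eq_mul]
  have h3 : ∑ t ∈ U ×ˢ U, L2_lam a b H t.1 * L2_lam a b H t.2 =
      (∑ n ∈ U, L2_lam a b H n) ^ 2 := by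
    rw [sq, Finset.sum_mul_sum, Finset.sum_product]
  have h4 : (∑ n ∈ U, L2_lam a b H n) ^ 2 ≤ X ^ 2 * (2 * H) ^ (2 * k) := by
    have h5 : 0 ≤ ∑ n ∈ U, L2_lam a b H n := Finset.sum_nonneg fun n _ => L2_lam_nonneg n hab
    have h6 := pow_le_pow_left₀ h5 (L2_sum_lam k hH hHX ha hab hb) 2
    refine h6.trans (le_of_eq ?_)
    rw [mul_pow, ← pow_mul, mul_comm k 2]
  rw [h1, h3]
  have h7 := mul_le_mul_of_nonneg_left h4 hδ
  have h8 : δ * (X ^ 2 * (2 * H) ^ (2 * k)) = δ * X ^ 2 * (2 * H) ^ (2 * k) := by ring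
  linarith

end Pool.Agent.N282.GC
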