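import Pool.Agent.N282.GC.Stm

/-!
# Project GC: the method of moments for the normal law (helper747)
-/

set_option autoImplicit false

open MeasureTheory Filter Topology Classical

namespace Pool.Agent.N282.GC

open Complex ProbabilityTheory

noncomputable section

/-- Taylor polynomial of `e^{iy}` -/
def MMU_Sm (m : ℕ) (y : ℝ) : ℂ := ∑ j ∈ Finset.range m, (I * y) ^ j / (j.factorial : ℂ)

lemma MMU_hasDerivAt_Sm (m : ℕ) (y : ℝ) : HasDerivAt (MMU_Sm (m + 1)) (I * MMU_Sm m y) y := by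
  induction m with
  | zero =>
    have : MMU_Sm (0 + 1) = fun _ => (1:ℂ) := by
      funext y; simp [MMU_Sm]
    rw [this]
    simpa [MMU_Sm] using hasDerivAt_const y (1:ℂ)
  | succ m ih =>
    have e : MMU_Sm (m + 1 + 1) = fun y => MMU_Sm (m + 1) y + (I * (y:ℝ)) ^ (m + 1) / ((m + 1).factorial : ℂ) := by
      funext y; simp [MMU_Sm, Finset.sum_range_succ]
    have h1 : HasDerivAt (fun y : ℝ => (I * (y : ℂ)) ^ (m + 1) / ((m + 1).factorial : ℂ))
        (((m + 1 : ℕ) : ℂ) * (I * y) ^ m * I / ((m + 1).factorial : ℂ)) y := by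
      have h2 : HasDerivAt (fun y : ℝ => I * (y : ℂ)) (I * 1) y :=
        (ofRealCLM.hasDerivAt (x := y)).const_mul I
      have := (h2.pow (m+1)).div_const ((m + 1).factorial : ℂ)
      simpa using this
    rw [e]
    have h3 := ih.add h1
    have e2 : I * MMU_Sm m y + ((m + 1 : ℕ) : ℂ) * (I * y) ^ m * I / ((m + 1).factorial : ℂ) =
        I * MMU_Sm (m + 1) y := by
      have e3 : MMU_Sm (m + 1) y = MMU_Sm m y + (I * y) ^ m / (m.factorial : ℂ) := by
        simp [MMU_Sm, Finset.sum_range_succ]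
      rw [e3, Nat.factorial_succ]
      have h4 : (m.factorial : ℂ) ≠ 0 := by exact_mod_cast m.factorial_ne_zero
      have h5 : ((m + 1 : ℕ) : ℂ) ≠ 0 := by exact_mod_cast Nat.succ_ne_zero m
      push_cast at h5 ⊢
      field_simp
    rw [← e2]
    exact h3

lemma MMU_tay_pos (m : ℕ) : ∀ y : ℝ, 0 ≤ y → ‖cexp (I * y) - MMU_Sm m y‖ ≤ y ^ m / (m.factorial : ℝ) := by
  induction m with
  | zero =>
    intro y _
    have : ‖cexp (I * y)‖ = 1 := by rw [mul_comm]; exact norm_exp_ofReal_mul_I y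
    simp [MMU_Sm, this]
  | succ m ih =>
    intro y hy
    have hd : ∀ x : ℝ, HasDerivAt (fun x : ℝ => cexp (I * x) - MMU_Sm (m + 1) x)
        (I * (cexp (I * x) - MMU_Sm m x)) x := by
      intro x
      have h2 : HasDerivAt (fun y : ℝ => I * (y : ℂ)) (I * 1) x :=
        (ofRealCLM.hasDerivAt (x := x)).const_mul I
      have h3 := h2.cexp.sub (MMU_hasDerivAt_Sm m x)
      have e : cexp (I * x) * (I * 1) - I * MMU_Sm m x = I * (cexp (I * x) - MMU_Sm m x) := by ring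
      rw [← e]; exact h3
    have hB : ∀ x : ℝ, HasDerivAt (fun x : ℝ => x ^ (m + 1) / ((m + 1).factorial : ℝ))
        (x ^ m / (m.factorial : ℝ)) x := by
      intro x
      have h1 := (hasDerivAt_pow (m + 1) x).div_const ((m + 1).factorial : ℝ)
      have e : (((m + 1 : ℕ) : ℝ) * x ^ (m + 1 - 1)) / ((m + 1).factorial : ℝ) = x ^ m / (m.factorial : ℝ) := by
        rw [Nat.factorial_succ, Nat.add_sub_cancel]
        have h4 : (m.factorial : ℝ) ≠ 0 := by exact_mod_cast m.factorial_ne_zero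
        have h5 : ((m + 1 : ℕ) : ℝ) ≠ 0 := by exact_mod_cast Nat.succ_ne_zero m
        push_cast at h5 ⊢
        field_simp
      rw [← e]; exact h1
    refine image_norm_le_of_norm_deriv_right_le_deriv_boundary (a := 0) (b := y)
      (f := fun x : ℝ => cexp (I * x) - MMU_Sm (m + 1) x) (f' := fun x => I * (cexp (I * x) - MMU_Sm m x))
      (B := fun x : ℝ => x ^ (m + 1) / ((m + 1).factorial : ℝ)) (B' := fun x => x ^ m / (m.factorial : ℝ))
      (fun x _ => (hd x).continuousAt.continuousWithinAt) (fun x _ => (hd x).hasDerivWithinAt) ?_ hB ?_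
      (Set.right_mem_Icc.2 hy)
    · simp [MMU_Sm, Finset.sum_range_succ']
    · intro x hx
      rw [norm_mul, norm_I, one_mul]
      exact ih x hx.1

lemma MMU_tay (m : ℕ) (y : ℝ) : ‖cexp (I * y) - MMU_Sm m y‖ ≤ |y| ^ m / (m.factorial : ℝ) := by
  rcases le_total 0 y with h | h
  · rw [abs_of_nonneg h]; exact MMU_tay_pos m y h
  · have h1 := MMU_tay_pos m (-y) (by linarith)
    rw [abs_of_nonpos h]
    refine le_trans (le_of_eq ?_) h1
    have e : (cexp (I * ((-y : ℝ) : ℂ)) - MMU_Sm m (-y)) = (starRingEnd ℂ) (cexp (I * y) - MMU_Sm m y) := by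
      rw [map_sub, ← exp_conj, map_mul, conj_I, conj_ofReal]
      congr 1
      · congr 1; push_cast; ring
      · unfold MMU_Sm
        rw [map_sum]
        refine Finset.sum_congr rfl fun j _ => ?_
        rw [map_div₀, map_pow, map_mul, conj_I, conj_ofReal, map_natCast]
        congr 2; push_cast; ring
    rw [e, RCLike.norm_conj]


lemma MMU_gm_even (K : ℕ) : gm (2 * K) = ((2 * K).factorial : ℝ) / (2 ^ K * (K.factorial : ℝ)) := by
  unfold gm
  rw [if_pos ⟨K, by ring⟩]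
  have h4 : (K.factorial : ℝ) ≠ 0 := by exact_mod_cast K.factorial_ne_zero
  rw [eq_div_iff (by positivity)]
  rcases Nat.eq_zero_or_pos K with h | h
  · subst h; simp
  · have h1 : (2 * K).factorial = Nat.doubleFactorial (2 * K) * Nat.doubleFactorial (2 * K - 1) := by
      obtain ⟨m, hm⟩ : ∃ m, 2 * K = m + 1 := ⟨2 * K - 1, by omega⟩
      rw [hm, Nat.add_sub_cancel]
      exact Nat.factorial_eq_mul_doubleFactorial m
    rw [h1, Nat.doubleFactorial_two_mul]
    push_cast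
    ring

lemma MMU_gm_odd (K : ℕ) : gm (2 * K + 1) = 0 := by
  unfold gm; rw [if_neg]; exact Nat.not_even_iff_odd.2 ⟨K, rfl⟩

lemma MMU_sum_gm (s : ℝ) (K : ℕ) :
    ∑ j ∈ Finset.range (2 * K), (I * s) ^ j / (j.factorial : ℂ) * (gm j : ℂ) =
      ∑ j ∈ Finset.range K, ((-(s ^ 2) / 2 : ℝ) : ℂ) ^ j / (j.factorial : ℂ) := by
  induction K with
  | zero => simp
  | succ K ih =>
    rw [show 2 * (K + 1) = 2 * K + 1 + 1 by ring, Finset.sum_range_succ, Finset.sum_range_succ, ih,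
      Finset.sum_range_succ]
    rw [MMU_gm_odd, MMU_gm_even]
    have h4 : (K.factorial : ℂ) ≠ 0 := by exact_mod_cast K.factorial_ne_zero
    have h5 : ((2 * K).factorial : ℂ) ≠ 0 := by exact_mod_cast (2 * K).factorial_ne_zero
    have h6 : (I * (s:ℂ)) ^ (2 * K) = (-(s:ℂ) ^ 2) ^ K := by
      rw [pow_mul, mul_pow, I_sq]; ring_nf
    rw [h6]
    push_cast
    rw [div_pow]
    field_simp
    ring

lemma MMU_sum_gm_tendsto (s : ℝ) :
    Tendsto (fun K : ℕ => ∑ j ∈ Finset.range (2 * K), (I * s) ^ j / (j.factorial : ℂ) * (gm j : ℂ)) atTop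
      (𝓝 (cexp ((-(s ^ 2) / 2 : ℝ) : ℂ))) := by
  simp_rw [MMU_sum_gm]
  have h := NormedSpace.expSeries_div_hasSum_exp (𝔸 := ℂ) ((-(s ^ 2) / 2 : ℝ) : ℂ)
  rw [← Complex.exp_eq_exp_ℂ] at h
  exact h.tendsto_sum_nat

lemma MMU_char_approx (ν : Measure ℝ) [IsProbabilityMeasure ν] (hi : ∀ k : ℕ, Integrable (fun x => x ^ k) ν)
    (s : ℝ) (K : ℕ) :
    ‖(∫ x : ℝ, cexp (I * ((s * x : ℝ) : ℂ)) ∂ν) -
      ∑ j ∈ Finset.range (2 * K), (I * s) ^ j / (j.factorial : ℂ) * ((∫ x, x ^ j ∂ν : ℝ) : ℂ)‖ ≤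
      s ^ (2 * K) / ((2 * K).factorial : ℝ) * ∫ x, x ^ (2 * K) ∂ν := by
  have he : Integrable (fun x : ℝ => cexp (I * ((s * x : ℝ) : ℂ))) ν := by
    have hm : Measurable (fun x : ℝ => cexp (I * ((s * x : ℝ) : ℂ))) :=
      Complex.measurable_exp.comp ((Complex.measurable_ofReal.comp (measurable_id.const_mul s)).const_mul I)
    refine (integrable_const (1:ℝ)).mono' hm.aestronglyMeasurable ?_
    refine Eventually.of_forall fun x => ?_
    rw [mul_comm]; exact (norm_exp_ofReal_mul_I _).le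
  have hj : ∀ j : ℕ, Integrable (fun x : ℝ => (I * ((s * x : ℝ) : ℂ)) ^ j / (j.factorial : ℂ)) ν := by
    intro j
    have h1 : Integrable (fun x : ℝ => (I * s) ^ j / (j.factorial : ℂ) * ((x ^ j : ℝ) : ℂ)) ν :=
      ((hi j).ofReal (𝕜 := ℂ)).const_mul ((I * s) ^ j / (j.factorial : ℂ))
    refine h1.congr (Eventually.of_forall fun x => ?_)
    simp only
    push_cast
    ring
  have hS : Integrable (fun x => MMU_Sm (2 * K) (s * x)) ν := by
    unfold MMU_Sm
    exact integrable_finsetSum _ fun j _ => hj j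
  have e1 : ∫ x, MMU_Sm (2 * K) (s * x) ∂ν =
      ∑ j ∈ Finset.range (2 * K), (I * s) ^ j / (j.factorial : ℂ) * ((∫ x, x ^ j ∂ν : ℝ) : ℂ) := by
    unfold MMU_Sm
    rw [integral_finsetSum _ fun j _ => hj j]
    refine Finset.sum_congr rfl fun j _ => ?_
    rw [← integral_complex_ofReal, ← integral_const_mul]
    congr 1
    funext x
    push_cast
    ring
  rw [← e1, ← integral_sub he hS]
  have e2 : s ^ (2 * K) / ((2 * K).factorial : ℝ) * ∫ x, x ^ (2 * K) ∂ν =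
      ∫ x, s ^ (2 * K) / ((2 * K).factorial : ℝ) * x ^ (2 * K) ∂ν := by
    rw [integral_const_mul]
  rw [e2]
  refine norm_integral_le_of_norm_le ((hi (2 * K)).const_mul _) (Eventually.of_forall fun x => ?_)
  refine (MMU_tay (2 * K) (s * x)).trans (le_of_eq ?_)
  rw [← abs_pow, abs_of_nonneg (by rw [pow_mul]; positivity), mul_pow]
  ring

lemma MMU_gm_even2 (s : ℝ) (K : ℕ) : s ^ (2 * K) / ((2 * K).factorial : ℝ) * gm (2 * K) =
    (s ^ 2 / 2) ^ K / (K.factorial : ℝ) := by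
  have h4 : (K.factorial : ℝ) ≠ 0 := by exact_mod_cast K.factorial_ne_zero
  have h5 : ((2 * K).factorial : ℝ) ≠ 0 := by exact_mod_cast (2 * K).factorial_ne_zero
  rw [MMU_gm_even, div_pow, pow_mul]
  field_simp

lemma MMU_char_lim (ν : ℕ → Measure ℝ) (hν : ∀ n, IsProbabilityMeasure (ν n))
    (hi : ∀ n, ∀ k : ℕ, Integrable (fun x => x ^ k) (ν n))
    (hl : ∀ k : ℕ, Tendsto (fun n => ∫ x, x ^ k ∂(ν n)) atTop (𝓝 (gm k))) (s : ℝ) :
    Tendsto (fun n => ∫ x : ℝ, cexp (I * ((s * x : ℝ) : ℂ)) ∂(ν n)) atTop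
      (𝓝 (cexp ((-(s ^ 2) / 2 : ℝ) : ℂ))) := by
  rw [Metric.tendsto_atTop]
  intro ε hε
  have hB := MMU_sum_gm_tendsto s
  have hC : Tendsto (fun K : ℕ => (s ^ 2 / 2) ^ K / (K.factorial : ℝ)) atTop (𝓝 0) :=
    FloorSemiring.tendsto_pow_div_factorial_atTop (s ^ 2 / 2)
  rw [Metric.tendsto_atTop] at hB hC
  obtain ⟨K1, hK1⟩ := hB (ε / 4) (by positivity)
  obtain ⟨K2, hK2⟩ := hC (ε / 4) (by positivity)
  set K := max K1 K2 with hK
  have hB' := hK1 K (le_max_left _ _)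
  have hC' := hK2 K (le_max_right _ _)
  have hb : Tendsto (fun n => ∑ j ∈ Finset.range (2 * K), (I * s) ^ j / (j.factorial : ℂ) *
      ((∫ x, x ^ j ∂(ν n) : ℝ) : ℂ)) atTop
      (𝓝 (∑ j ∈ Finset.range (2 * K), (I * s) ^ j / (j.factorial : ℂ) * (gm j : ℂ))) := by
    refine tendsto_finsetSum _ fun j _ => ?_
    exact ((Complex.continuous_ofReal.tendsto _).comp (hl j)).const_mul _
  have hc : Tendsto (fun n => s ^ (2 * K) / ((2 * K).factorial : ℝ) * ∫ x, x ^ (2 * K) ∂(ν n)) atTop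
      (𝓝 (s ^ (2 * K) / ((2 * K).factorial : ℝ) * gm (2 * K))) := (hl (2 * K)).const_mul _
  rw [MMU_gm_even2] at hc
  rw [Metric.tendsto_atTop] at hb hc
  obtain ⟨N1, hN1⟩ := hb (ε / 4) (by positivity)
  obtain ⟨N2, hN2⟩ := hc (ε / 4) (by positivity)
  refine ⟨max N1 N2, fun n hn => ?_⟩
  have h1 := hN1 n ((le_max_left _ _).trans hn)
  have h2 := hN2 n ((le_max_right _ _).trans hn)
  have := hν n
  have h3 := MMU_char_approx (ν n) (hi n) s K
  rw [Real.dist_eq] at h2 hC'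
  rw [sub_zero] at hC'
  have h4 := (abs_lt.1 h2).2
  have h5 := (abs_lt.1 hC').2
  rw [dist_eq_norm] at h1 hB' ⊢
  calc _ = ‖((∫ x : ℝ, cexp (I * ((s * x : ℝ) : ℂ)) ∂(ν n)) -
      ∑ j ∈ Finset.range (2 * K), (I * s) ^ j / (j.factorial : ℂ) * ((∫ x, x ^ j ∂(ν n) : ℝ) : ℂ)) +
      ((∑ j ∈ Finset.range (2 * K), (I * s) ^ j / (j.factorial : ℂ) * ((∫ x, x ^ j ∂(ν n) : ℝ) : ℂ)) -
      ∑ j ∈ Finset.range (2 * K), (I * s) ^ j / (j.factorial : ℂ) * (gm j : ℂ)) +
      (∑ j ∈ Finset.range (2 * K), (I * s) ^ j / (j.factorial : ℂ) * (gm j : ℂ) -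
      cexp ((-(s ^ 2) / 2 : ℝ) : ℂ))‖ := by congr 1; ring
    _ ≤ _ := norm_add₃_le
    _ < ε := by linarith

lemma MMU_lim (ν : ℕ → Measure ℝ) (hν : ∀ n, IsProbabilityMeasure (ν n))
    (hi : ∀ n, ∀ k : ℕ, Integrable (fun x => x ^ k) (ν n))
    (hl : ∀ k : ℕ, Tendsto (fun n => ∫ x, x ^ k ∂(ν n)) atTop (𝓝 (gm k))) (t : ℝ) :
    Tendsto (fun n => (ν n (Set.Iic t)).toReal) atTop (𝓝 (Phi t)) := by
  set P : ℕ → ProbabilityMeasure ℝ := fun n => ⟨ν n, hν n⟩ with hP
  set G : ProbabilityMeasure ℝ := ⟨gaussianReal 0 1, inferInstance⟩ with hG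
  have hlim : Tendsto P atTop (𝓝 G) := by
    refine ProbabilityMeasure.tendsto_iff_tendsto_charFun.2 fun s => ?_
    have e1 : charFun (G : Measure ℝ) s = cexp ((-(s ^ 2) / 2 : ℝ) : ℂ) := by
      show charFun (gaussianReal 0 1) s = _
      rw [charFun_gaussianReal]
      congr 1
      push_cast
      ring
    rw [e1]
    refine (MMU_char_lim ν hν hi hl s).congr fun n => ?_
    show _ = charFun (ν n) s
    rw [charFun_apply_real]
    congr 1
    funext x
    congr 1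
    push_cast
    ring
  have hfr : (G : Measure ℝ) (frontier (Set.Iic t)) = 0 := by
    show (gaussianReal 0 1) (frontier (Set.Iic t)) = 0
    have hna : NullSingletonClass (gaussianReal 0 1) := nullSingletonClass_gaussianReal (by norm_num)
    rw [frontier_Iic]
    exact Set.Finite.measure_zero (Set.toFinite _) _
  have h2 := ProbabilityMeasure.tendsto_measure_of_null_frontier_of_tendsto' hlim hfr
  have h3 : Tendsto (fun n => (ν n (Set.Iic t)).toReal) atTop (𝓝 (((gaussianReal 0 1) (Set.Iic t)).toReal)) :=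
    (ENNReal.tendsto_toReal (measure_ne_top _ _)).comp h2
  have e : Phi t = ((gaussianReal 0 1) (Set.Iic t)).toReal := by
    unfold Phi
    rw [cdf_eq_real]
    rfl
  rw [e]
  exact h3

theorem t_MMU : S_MMU := by
  intro t η hη
  by_contra hcon
  push Not at hcon
  have hc : ∀ n : ℕ, ∃ ν : Measure ℝ, IsProbabilityMeasure ν ∧ (∀ k : ℕ, Integrable (fun x => x ^ k) ν) ∧
      (∀ k ≤ n, |∫ x, x ^ k ∂ν - gm k| ≤ 1 / ((n : ℝ) + 1)) ∧ η < |(ν (Set.Iic t)).toReal - Phi t| := by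
    intro n
    obtain ⟨ν, h1, h2, h3, h4⟩ := hcon n (1 / ((n : ℝ) + 1)) (by positivity)
    exact ⟨ν, h1, h2, h3, h4⟩
  choose ν h1 h2 h3 h4 using hc
  have hl : ∀ k : ℕ, Tendsto (fun n => ∫ x, x ^ k ∂(ν n)) atTop (𝓝 (gm k)) := by
    intro k
    rw [tendsto_iff_norm_sub_tendsto_zero]
    refine squeeze_zero' (Eventually.of_forall fun n => norm_nonneg _) ?_
      tendsto_one_div_add_atTop_nhds_zero_nat
    filter_upwards [eventually_ge_atTop k] with n hn
    exact h3 n k hn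
  have hlim := MMU_lim ν h1 h2 hl t
  rw [Metric.tendsto_atTop] at hlim
  obtain ⟨N, hN⟩ := hlim η hη
  have h5 := hN N le_rfl
  rw [Real.dist_eq] at h5
  exact absurd h5 (not_lt.2 (h4 N).le)

end

end Pool.Agent.N282.GC
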