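import Pool.Agent.N282.GC.Stm

/-!
# Project GC, part NM: the moments in terms of the unpaired part (helper588)
-/

set_option autoImplicit false

open MeasureTheory Filter Topology Classical

namespace Pool.Agent.N282.GC

theorem Nm_mem_win {x H : ℝ} (hH : 0 ≤ H) (n : ℕ) : n ∈ win x H ↔ |(n : ℝ) - x| < H / 2 := by
  unfold win
  rw [Finset.mem_filter, Finset.mem_range, and_iff_right_iff_imp]
  intro h
  have h1 := (abs_lt.1 h).2
  have h2 : (n : ℝ) ≤ ⌈x + H⌉₊ := by
    have := Nat.le_ceil (x + H)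
    linarith
  have h3 : n ≤ ⌈x + H⌉₊ := by exact_mod_cast h2
  omega

theorem Nm_win_range {x H b : ℝ} (hxb : x ≤ b) {n : ℕ} (hn : n ∈ win x H) :
    n ∈ Finset.range (⌈b + H⌉₊ + 1) := by
  unfold win at hn
  rw [Finset.mem_filter, Finset.mem_range] at hn
  rw [Finset.mem_range]
  have h1 : ⌈x + H⌉₊ ≤ ⌈b + H⌉₊ := Nat.ceil_mono (by linarith)
  omega

theorem Nm_card_win {x H : ℝ} (hH : 0 ≤ H) : ((win x H).card : ℝ) ≤ H + 1 := by
  have h1 : (win x H).card ≤ (Finset.Icc ⌈x - H / 2⌉ ⌊x + H / 2⌋).card := by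
    apply Finset.card_le_card_of_injOn (fun n : ℕ => (n : ℤ))
    · intro n hn
      have h2 := abs_lt.1 ((Nm_mem_win hH n).1 hn)
      simp only [Finset.coe_Icc, Set.mem_Icc]
      constructor
      · rw [Int.ceil_le]
        push_cast
        linarith
      · rw [Int.le_floor]
        push_cast
        linarith
    · intro n _ m _ h
      have h' : (n : ℤ) = (m : ℤ) := h
      exact_mod_cast h'
  rw [Int.card_Icc] at h1
  have h2 : ((⌊x + H / 2⌋ + 1 - ⌈x - H / 2⌉).toNat : ℝ) ≤ H + 1 := by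
    rcases le_total 0 (⌊x + H / 2⌋ + 1 - ⌈x - H / 2⌉) with h | h
    · have h3 : ((⌊x + H / 2⌋ + 1 - ⌈x - H / 2⌉).toNat : ℝ) =
          ((⌊x + H / 2⌋ + 1 - ⌈x - H / 2⌉ : ℤ) : ℝ) := by
        exact_mod_cast congrArg (fun z : ℤ => (z : ℝ)) (Int.toNat_of_nonneg h)
      rw [h3]
      push_cast
      have h4 := Int.floor_le (x + H / 2)
      have h5 := Int.le_ceil (x - H / 2)
      linarith
    · rw [Int.toNat_of_nonpos h]
      push_cast
      linarith
  have h3 : ((win x H).card : ℝ) ≤ ((⌊x + H / 2⌋ + 1 - ⌈x - H / 2⌉).toNat : ℝ) := by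
    exact_mod_cast h1
  exact h3.trans h2

/-- the indicator of the window -/
noncomputable def Nm_ind (H : ℝ) (n : ℕ) (x : ℝ) : ℝ := if |(n : ℝ) - x| < H / 2 then 1 else 0

theorem Nm_ind_meas (H : ℝ) (n : ℕ) : Measurable (Nm_ind H n) := by
  unfold Nm_ind
  apply Measurable.ite _ measurable_const measurable_const
  exact measurableSet_lt (by fun_prop) measurable_const

theorem Nm_ind_abs (H : ℝ) (n : ℕ) (x : ℝ) : |Nm_ind H n x| ≤ 1 := by
  unfold Nm_ind
  split_ifs <;> simp

/-- bounded measurable functions are integrable -/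
theorem Nm_int {g : ℝ → ℝ} (hg : Measurable g) {B : ℝ} (hB : ∀ x, |g x| ≤ B) (a b : ℝ) :
    IntervalIntegrable g volume a b := by
  rw [intervalIntegrable_iff]
  exact Measure.integrableOn_of_bounded (M := B) (by simp) hg.aestronglyMeasurable
    (ae_of_all _ fun x => by rw [Real.norm_eq_abs]; exact hB x)

theorem Nm_int_congr {g f : ℝ → ℝ} (hg : Measurable g) {B : ℝ} (hB : ∀ x, |g x| ≤ B) {a b : ℝ}
    (hab : a ≤ b) (h : ∀ x, x ≤ b → f x = g x) : IntervalIntegrable f volume a b := by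
  refine (Nm_int hg hB a b).congr ?_
  intro x hx
  rw [Set.uIoc_of_le hab] at hx
  exact (h x hx.2).symm

/-- the sums over the tuples are integrable -/
theorem Nm_int_tup (F : ℕ → ℝ) (k : ℕ) (Q : (Fin k → ℕ) → Prop) {a b H : ℝ} (hab : a ≤ b)
    (hH : 0 ≤ H) : IntervalIntegrable
      (fun x => ∑ n ∈ (tup k (win x H)).filter (fun n => Q n), ∏ i, F (n i)) volume a b := by
  set N := ⌈b + H⌉₊ + 1 with hN
  refine Nm_int_congr (g := fun x => ∑ n ∈ (tup k (Finset.range N)).filter (fun n => Q n),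
    ∏ i, (F (n i) * Nm_ind H (n i) x))
    (B := ∑ n ∈ (tup k (Finset.range N)).filter (fun n => Q n), ∏ i, |F (n i)|) ?_ ?_ hab ?_
  · apply Finset.measurable_fun_sum
    intro n _
    apply Finset.measurable_fun_prod
    intro i _
    exact (Nm_ind_meas H (n i)).const_mul _
  · intro x
    refine (Finset.abs_sum_le_sum_abs _ _).trans (Finset.sum_le_sum fun n _ => ?_)
    rw [Finset.abs_prod]
    refine Finset.prod_le_prod (fun i _ => abs_nonneg _) fun i _ => ?_
    rw [abs_mul]
    exact mul_le_of_le_one_right (abs_nonneg _) (Nm_ind_abs H (n i) x)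
  · intro x hx
    have hsub : (tup k (win x H)).filter (fun n => Q n) ⊆
        (tup k (Finset.range N)).filter (fun n => Q n) := by
      intro n hn
      rw [Finset.mem_filter, tup, Fintype.mem_piFinset] at hn ⊢
      exact ⟨fun i => Nm_win_range hx (hn.1 i), hn.2⟩
    rw [← Finset.sum_subset hsub]
    · refine Finset.sum_congr rfl fun n hn => Finset.prod_congr rfl fun i _ => ?_
      rw [Finset.mem_filter, tup, Fintype.mem_piFinset] at hn
      have h1 := (Nm_mem_win hH _).1 (hn.1 i)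
      rw [Nm_ind, if_pos h1, mul_one]
    · intro n hn hn'
      rw [Finset.mem_filter, tup, Fintype.mem_piFinset] at hn hn'
      have h1 : ∃ i, n i ∉ win x H := by
        by_contra hcon
        push Not at hcon
        exact hn' ⟨hcon, hn.2⟩
      obtain ⟨i, hi⟩ := h1
      refine Finset.prod_eq_zero (Finset.mem_univ i) ?_
      rw [Nm_mem_win hH] at hi
      rw [Nm_ind, if_neg hi, mul_zero]

theorem Nm_int_M (F : ℕ → ℝ) {a b H : ℝ} (hab : a ≤ b) (hH : 0 ≤ H) :
    IntervalIntegrable (fun x => M F x H) volume a b := by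
  set N := ⌈b + H⌉₊ + 1 with hN
  refine Nm_int_congr (g := fun x => ∑ n ∈ Finset.range N, F n * Nm_ind H n x)
    (B := ∑ n ∈ Finset.range N, |F n|) ?_ ?_ hab ?_
  · apply Finset.measurable_fun_sum
    intro n _
    exact (Nm_ind_meas H n).const_mul _
  · intro x
    refine (Finset.abs_sum_le_sum_abs _ _).trans (Finset.sum_le_sum fun n _ => ?_)
    rw [abs_mul]
    exact mul_le_of_le_one_right (abs_nonneg _) (Nm_ind_abs H n x)
  · intro x hx
    have hsub : win x H ⊆ Finset.range N := fun n hn => Nm_win_range hx hn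
    rw [← Finset.sum_subset hsub]
    · refine Finset.sum_congr rfl fun n hn => ?_
      have h1 := (Nm_mem_win hH _).1 hn
      rw [Nm_ind, if_pos h1, mul_one]
    · intro n _ hn'
      rw [Nm_mem_win hH] at hn'
      rw [Nm_ind, if_neg hn', mul_zero]

/-- the power of the sum -/
theorem Nm_pow (F : ℕ → ℝ) (k : ℕ) (x H : ℝ) : M F x H ^ k = PA F k x H + UP F k x H := by
  have h1 : M F x H ^ k = ∑ n ∈ tup k (win x H), ∏ i, F (n i) := by
    have h2 : M F x H ^ k = ∏ _i : Fin k, ∑ n ∈ win x H, F n := by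
      rw [Finset.prod_const, Finset.card_univ, Fintype.card_fin]
      rfl
    rw [h2, Finset.prod_univ_sum]
    rfl
  rw [h1, PA, UP]
  exact (Finset.sum_filter_add_sum_filter_not _ _ _).symm

theorem Nm_paired_comp {k : ℕ} (n : Fin k → ℕ) (g : ℕ → ℕ) (hg : ∀ i j, g (n i) = g (n j) → n i = n j) :
    Paired (fun i => g (n i)) ↔ Paired n := by
  constructor
  · intro h v
    by_cases hv : ∃ i₀, n i₀ = v
    · obtain ⟨i₀, rfl⟩ := hv
      have h1 := h (g (n i₀))
      have h2 : (Finset.univ.filter fun i => g (n i) = g (n i₀)) =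
          Finset.univ.filter fun i => n i = n i₀ := by
        ext i
        simp only [Finset.mem_filter, Finset.mem_univ, true_and]
        exact ⟨hg i i₀, fun e => by rw [e]⟩
      rwa [h2] at h1
    · have h2 : (Finset.univ.filter fun i => n i = v) = ∅ := by
        apply Finset.filter_eq_empty_iff.2
        intro i _ e
        exact hv ⟨i, e⟩
      rw [h2]
      simp
  · intro h v
    by_cases hv : ∃ i₀, g (n i₀) = v
    · obtain ⟨i₀, rfl⟩ := hv
      have h1 := h (n i₀)
      have h2 : (Finset.univ.filter fun i => g (n i) = g (n i₀)) =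
          Finset.univ.filter fun i => n i = n i₀ := by
        ext i
        simp only [Finset.mem_filter, Finset.mem_univ, true_and]
        exact ⟨hg i i₀, fun e => by rw [e]⟩
      rwa [← h2] at h1
    · have h2 : (Finset.univ.filter fun i => g (n i) = v) = ∅ := by
        apply Finset.filter_eq_empty_iff.2
        intro i _ e
        exact hv ⟨i, e⟩
      rw [h2]
      simp

/-- the number of the paired tuples of a set depends on its cardinality only -/
theorem Nm_pcount (k : ℕ) (A : Finset ℕ) :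
    ((tup k A).filter (fun n => Paired n)).card = pcount k A.card := by
  set S := A.card with hS
  let e := A.orderEmbOfFin hS.symm
  let g : ℕ → ℕ := fun j => if h : j < S then e ⟨j, h⟩ else 0
  have hginj : ∀ i j, i < S → j < S → g i = g j → i = j := by
    intro i j hi hj h
    simp only [g, dif_pos hi, dif_pos hj] at h
    exact congrArg Fin.val (e.injective h)
  have hgmem : ∀ i, i < S → g i ∈ A := by
    intro i hi
    simp only [g, dif_pos hi]
    exact A.orderEmbOfFin_mem hS.symm _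
  have hgsurj : ∀ a ∈ A, ∃ i, i < S ∧ g i = a := by
    intro a ha
    have h1 : a ∈ Set.range e := by
      rw [Finset.range_orderEmbOfFin]
      exact ha
    obtain ⟨⟨i, hi⟩, rfl⟩ := h1
    refine ⟨i, hi, ?_⟩
    simp only [g, dif_pos hi]
  unfold pcount
  symm
  refine Finset.card_bij (fun n _ => fun i => g (n i)) ?_ ?_ ?_
  · intro n hn
    rw [Finset.mem_filter, tup, Fintype.mem_piFinset] at hn ⊢
    have h1 : ∀ i, n i < S := fun i => Finset.mem_range.1 (hn.1 i)
    refine ⟨fun i => hgmem _ (h1 i), ?_⟩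
    rw [Nm_paired_comp n g fun i j h => hginj _ _ (h1 i) (h1 j) h]
    exact hn.2
  · intro n hn m hm h
    rw [Finset.mem_filter, tup, Fintype.mem_piFinset] at hn hm
    funext i
    exact hginj _ _ (Finset.mem_range.1 (hn.1 i)) (Finset.mem_range.1 (hm.1 i)) (congrFun h i)
  · intro m hm
    rw [Finset.mem_filter, tup, Fintype.mem_piFinset] at hm
    choose n hn hgn using fun i => hgsurj (m i) (hm.1 i)
    refine ⟨n, ?_, funext hgn⟩
    rw [Finset.mem_filter, tup, Fintype.mem_piFinset]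
    refine ⟨fun i => Finset.mem_range.2 (hn i), ?_⟩
    rw [← Nm_paired_comp n g fun i j h => hginj _ _ (hn i) (hn j) h]
    have : (fun i => g (n i)) = m := funext hgn
    rw [this]
    exact hm.2

theorem Nm_prod_paired {k : ℕ} {F : ℕ → ℝ} {n : Fin k → ℕ} (h : Paired n) (h1 : ∀ i, F (n i) ^ 2 = 1) :
    ∏ i, F (n i) = 1 := by
  rw [Finset.prod_comp]
  refine Finset.prod_eq_one fun v hv => ?_
  rw [Finset.mem_image] at hv
  obtain ⟨i, -, rfl⟩ := hv
  obtain ⟨m, hm⟩ := h (n i)
  have h2 : (Finset.univ.filter fun j => n j = n i).card = 2 * m := by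
    rw [hm]; ring
  convert (show F (n i) ^ (2 * m) = 1 by rw [pow_mul, h1, one_pow]) using 2

/-- the paired part -/
theorem Nm_PA {F : ℕ → ℝ} {d : ℕ} (hF : ∀ n, F n ^ 2 = if Squarefree n ∧ Nat.Coprime n d then 1 else 0)
    (k : ℕ) (x H : ℝ) : PA F k x H = pcount k (sfc d x H).card := by
  rw [← Nm_pcount, PA, Finset.card_eq_sum_ones]
  push_cast
  symm
  have hsub : (tup k (sfc d x H)).filter (fun n => Paired n) ⊆
      (tup k (win x H)).filter (fun n => Paired n) := by
    intro n hn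
    rw [Finset.mem_filter, tup, Fintype.mem_piFinset] at hn ⊢
    exact ⟨fun i => Finset.mem_of_mem_filter _ (hn.1 i), hn.2⟩
  rw [← Finset.sum_subset hsub]
  · refine Finset.sum_congr rfl fun n hn => ?_
    rw [Finset.mem_filter, tup, Fintype.mem_piFinset] at hn
    symm
    apply Nm_prod_paired hn.2
    intro i
    have h1 := hn.1 i
    rw [sfc, Finset.mem_filter] at h1
    rw [hF, if_pos h1.2]
  · intro n hn hn'
    rw [Finset.mem_filter, tup, Fintype.mem_piFinset] at hn hn'
    have h1 : ∃ i, n i ∉ sfc d x H := by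
      by_contra hcon
      push Not at hcon
      exact hn' ⟨hcon, hn.2⟩
    obtain ⟨i, hi⟩ := h1
    refine Finset.prod_eq_zero (Finset.mem_univ i) ?_
    have h2 : ¬ (Squarefree (n i) ∧ Nat.Coprime (n i) d) := by
      intro h
      apply hi
      rw [sfc, Finset.mem_filter]
      exact ⟨hn.1 i, h⟩
    have h3 := hF (n i)
    rw [if_neg h2] at h3
    exact pow_eq_zero_iff (two_ne_zero) |>.1 h3

theorem Nm_rho (d : ℕ) : 0 ≤ rho d ∧ rho d ≤ 1 := by
  have hpi := Real.pi_gt_three
  have h1 : 0 ≤ ∏ p ∈ d.primeFactors, (p : ℝ) / (p + 1) :=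
    Finset.prod_nonneg fun p _ => by positivity
  have h2 : ∏ p ∈ d.primeFactors, (p : ℝ) / (p + 1) ≤ 1 := by
    refine Finset.prod_le_one (fun p _ => by positivity) fun p _ => ?_
    rw [div_le_one (by positivity)]
    linarith
  have h3 : 6 / Real.pi ^ 2 ≤ 1 := by
    rw [div_le_one (by positivity)]
    nlinarith
  have h4 : 0 ≤ 6 / Real.pi ^ 2 := by positivity
  unfold rho
  exact ⟨mul_nonneg h4 h1, mul_le_one₀ h3 h1 h2⟩

theorem Nm_gm (k : ℕ) : 0 ≤ gm k := by
  unfold gm
  split_ifs <;> positivity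

/-- the pointwise bound -/
theorem Nm_point (h : S_PT) (k : ℕ) (hk : 1 ≤ k) : ∃ C : ℝ, 0 < C ∧ ∀ (S : ℕ) (ρ H : ℝ), 0 ≤ ρ → ρ ≤ 1 →
    1 ≤ H → (S : ℝ) ≤ H + 1 → |(pcount k S : ℝ) - gm k * (ρ * H) ^ ((k : ℝ) / 2)| ≤
      C * H ^ ((k : ℝ) / 2) * (|(S : ℝ) / H - ρ| + 1 / Real.sqrt H) := by
  obtain ⟨C, hC, hPT⟩ := h k
  refine ⟨C * 3 ^ (((k : ℝ) - 1) / 2) + gm k * (k * 2 ^ k), ?_, ?_⟩
  · have := Nm_gm k
    positivity
  intro S ρ H hρ0 hρ1 hH hS
  have hH0 : 0 < H := by linarith
  have hk1 : (1 : ℝ) ≤ k := by exact_mod_cast hk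
  have hg := Nm_gm k
  have e1 : (1 + (S : ℝ)) ^ (((k : ℝ) - 1) / 2) ≤
      3 ^ (((k : ℝ) - 1) / 2) * (H ^ ((k : ℝ) / 2) * (1 / Real.sqrt H)) := by
    have h1 : (1 + (S : ℝ)) ≤ 3 * H := by linarith
    calc (1 + (S : ℝ)) ^ (((k : ℝ) - 1) / 2) ≤ (3 * H) ^ (((k : ℝ) - 1) / 2) :=
          Real.rpow_le_rpow (by positivity) h1 (by linarith)
      _ = 3 ^ (((k : ℝ) - 1) / 2) * H ^ (((k : ℝ) - 1) / 2) :=
          Real.mul_rpow (by norm_num) hH0.le
      _ = _ := by
          congr 1
          rw [Real.sqrt_eq_rpow, one_div (H ^ (1 / 2 : ℝ)), ← Real.rpow_neg hH0.le,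
            ← Real.rpow_add hH0]
          congr 1
          ring
  have e2 : gm k * |(S : ℝ) ^ ((k : ℝ) / 2) - (ρ * H) ^ ((k : ℝ) / 2)| ≤
      gm k * (k * 2 ^ k) * (H ^ ((k : ℝ) / 2) * |(S : ℝ) / H - ρ|) := by
    by_cases hev : Even k
    · obtain ⟨m, hm⟩ := hev
      have hk2 : (k : ℝ) / 2 = (m : ℕ) := by
        rw [hm]; push_cast; ring
      rw [hk2, Real.rpow_natCast, Real.rpow_natCast, Real.rpow_natCast, mul_assoc]
      apply mul_le_mul_of_nonneg_left _ hg
      have h1 : (S : ℝ) ^ m - (ρ * H) ^ m = H ^ m * (((S : ℝ) / H) ^ m - ρ ^ m) := by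
        rw [div_pow, mul_pow]
        field_simp
      rw [h1, abs_mul, abs_of_pos (by positivity : (0 : ℝ) < H ^ m)]
      have h2 := abs_pow_sub_pow_le ((S : ℝ) / H) ρ m
      have h3 : max |(S : ℝ) / H| |ρ| ≤ 2 := by
        rw [max_le_iff, abs_of_nonneg (by positivity), abs_of_nonneg hρ0]
        refine ⟨?_, by linarith⟩
        rw [div_le_iff₀ hH0]
        linarith
      have h4 : max |(S : ℝ) / H| |ρ| ^ (m - 1) ≤ 2 ^ k := by
        calc max |(S : ℝ) / H| |ρ| ^ (m - 1) ≤ 2 ^ (m - 1) :=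
              pow_le_pow_left₀ (le_max_of_le_left (abs_nonneg _)) h3 _
          _ ≤ 2 ^ k := pow_le_pow_right₀ (by norm_num) (by omega)
      have h5 : (m : ℝ) ≤ k := by
        rw [hm]; push_cast
        have : (0 : ℝ) ≤ m := Nat.cast_nonneg m
        linarith
      have h6 : |((S : ℝ) / H) ^ m - ρ ^ m| ≤ |(S : ℝ) / H - ρ| * k * 2 ^ k := by
        refine h2.trans ?_
        gcongr
      calc H ^ m * |((S : ℝ) / H) ^ m - ρ ^ m| ≤ H ^ m * (|(S : ℝ) / H - ρ| * k * 2 ^ k) := by
            gcongr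
        _ = _ := by ring
    · have : gm k = 0 := by
        unfold gm
        rw [if_neg hev]
      rw [this]
      simp
  have h7 := hPT S
  have h8 : |(pcount k S : ℝ) - gm k * (ρ * H) ^ ((k : ℝ) / 2)| ≤
      |(pcount k S : ℝ) - gm k * (S : ℝ) ^ ((k : ℝ) / 2)| +
        gm k * |(S : ℝ) ^ ((k : ℝ) / 2) - (ρ * H) ^ ((k : ℝ) / 2)| := by
    have h9 : (pcount k S : ℝ) - gm k * (ρ * H) ^ ((k : ℝ) / 2) =
        ((pcount k S : ℝ) - gm k * (S : ℝ) ^ ((k : ℝ) / 2)) +
          gm k * ((S : ℝ) ^ ((k : ℝ) / 2) - (ρ * H) ^ ((k : ℝ) / 2)) := by ring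
    rw [h9]
    refine (abs_add_le _ _).trans ?_
    rw [abs_mul, abs_of_nonneg hg]
  set P := H ^ ((k : ℝ) / 2) with hP
  have hP0 : 0 ≤ P := by positivity
  set s := 1 / Real.sqrt H with hs
  have hs0 : 0 ≤ s := by positivity
  set Dv := |(S : ℝ) / H - ρ| with hDv
  have hD0 : 0 ≤ Dv := abs_nonneg _
  set c3 : ℝ := 3 ^ (((k : ℝ) - 1) / 2) with hc3
  have hc30 : 0 ≤ c3 := by positivity
  have e3 : C * (1 + (S : ℝ)) ^ (((k : ℝ) - 1) / 2) ≤ C * (c3 * (P * s)) :=
    mul_le_mul_of_nonneg_left e1 hC.le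
  have e4 : 0 ≤ C * c3 * P * Dv := by positivity
  have e5 : 0 ≤ gm k * (k * 2 ^ k) * P * s := by positivity
  nlinarith

theorem t_NM (h : S_PT) : S_NM := by
  intro k hk
  obtain ⟨C, hC, hpt⟩ := Nm_point h k hk
  refine ⟨C, hC, ?_⟩
  intro F d a b H hF hd ha hab hH
  have hH0 : 0 ≤ H := by linarith
  have hba : 0 < b - a := by linarith
  have hPAi : IntervalIntegrable (fun x => PA F k x H) volume a b :=
    Nm_int_tup F k (fun n => Paired n) hab.le hH0
  have hUPi : IntervalIntegrable (fun x => UP F k x H) volume a b := by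
    have h1 := Nm_int_tup F k (fun n => ¬ Paired n) hab.le hH0
    unfold UP
    convert h1
  have hSi : IntervalIntegrable (fun x => ((sfc d x H).card : ℝ)) volume a b := by
    have h1 : (fun x => ((sfc d x H).card : ℝ)) =
        fun x => M (fun n => if Squarefree n ∧ Nat.Coprime n d then 1 else 0) x H := by
      funext x
      rw [M, sfc, Finset.card_filter]
      push_cast
      rfl
    rw [h1]
    exact Nm_int_M _ hab.le hH0
  have hdi : IntervalIntegrable (fun x => |((sfc d x H).card : ℝ) / H - rho d|) volume a b :=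
    ((hSi.div_const H).sub intervalIntegrable_const).abs
  set c := gm k * (rho d * H) ^ ((k : ℝ) / 2) with hc
  have h1 : mom F k a b H - c = (1 / (b - a)) * (∫ x in a..b, (PA F k x H - c)) + J F k a b H / (b - a) := by
    have h2 : ∫ x in a..b, M F x H ^ k = (∫ x in a..b, PA F k x H) + ∫ x in a..b, UP F k x H := by
      rw [← intervalIntegral.integral_add hPAi hUPi]
      exact intervalIntegral.integral_congr fun x _ => Nm_pow F k x H
    rw [mom, h2, J, intervalIntegral.integral_sub hPAi intervalIntegrable_const,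
      intervalIntegral.integral_const, smul_eq_mul]
    field_simp
    ring
  have h3 : |∫ x in a..b, (PA F k x H - c)| ≤
      ∫ x in a..b, C * H ^ ((k : ℝ) / 2) * (|((sfc d x H).card : ℝ) / H - rho d| + 1 / Real.sqrt H) := by
    have h4 := intervalIntegral.norm_integral_le_of_norm_le (f := fun x => PA F k x H - c)
      (g := fun x => C * H ^ ((k : ℝ) / 2) * (|((sfc d x H).card : ℝ) / H - rho d| + 1 / Real.sqrt H))
      hab.le (μ := volume) (ae_of_all _ fun x _ => ?_)
      ((hdi.add intervalIntegrable_const).const_mul _)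
    · rwa [Real.norm_eq_abs] at h4
    · rw [Real.norm_eq_abs, Nm_PA hF, hc]
      refine hpt _ _ _ (Nm_rho d).1 (Nm_rho d).2 hH ?_
      refine le_trans ?_ (Nm_card_win (x := x) hH0)
      exact_mod_cast Finset.card_filter_le _ _
  have h5 : ∫ x in a..b, C * H ^ ((k : ℝ) / 2) * (|((sfc d x H).card : ℝ) / H - rho d| + 1 / Real.sqrt H) =
      C * H ^ ((k : ℝ) / 2) * ((b - a) * (dev d a b H + 1 / Real.sqrt H)) := by
    rw [intervalIntegral.integral_const_mul, intervalIntegral.integral_add hdi intervalIntegrable_const,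
      intervalIntegral.integral_const, smul_eq_mul, dev]
    field_simp
  rw [h1]
  refine (abs_add_le _ _).trans ?_
  rw [abs_div, abs_of_pos hba, abs_mul, abs_of_pos (by positivity : 0 < 1 / (b - a))]
  refine add_le_add ?_ le_rfl
  rw [h5] at h3
  calc 1 / (b - a) * |∫ x in a..b, (PA F k x H - c)|
      ≤ 1 / (b - a) * (C * H ^ ((k : ℝ) / 2) * ((b - a) * (dev d a b H + 1 / Real.sqrt H))) := by
        gcongr
    _ = C * H ^ ((k : ℝ) / 2) * (dev d a b H + 1 / Real.sqrt H) := by
        field_simp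

end Pool.Agent.N282.GC
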