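import Pool.Agent.N282.GC.Stm

/-! GCM/PAIR (helper547 for helper282). -/

set_option autoImplicit false

open Finset

namespace Pool.Agent.N282.GC

theorem PAIR_fact {k : ℕ} (n : Fin k → ℕ) (hn : ∀ i, Squarefree (n i)) {p : ℕ} (hp : p.Prime) :
    (∏ i, n i).factorization p = (univ.filter fun i => p ∣ n i).card := by
  rw [Nat.factorization_prod_apply fun i _ => (hn i).ne_zero, card_filter]
  refine sum_congr rfl fun i _ => ?_
  split_ifs with h
  · exact Nat.factorization_eq_one_of_squarefree (hn i) hp h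
  · exact Nat.factorization_eq_zero_of_not_dvd h

theorem t_PAIR : S_PAIR := by
  classical
  intro k X n m hX hn hm hsn hsm hS hP
  unfold Paired at hP
  push Not at hP
  obtain ⟨v0, hv0⟩ := hP
  rw [Nat.not_even_iff_odd] at hv0
  have hpos : 0 < (univ.filter fun i => n i = v0).card := hv0.pos
  obtain ⟨u, hu⟩ := card_pos.1 hpos
  have hu' : n u = v0 := (mem_filter.1 hu).2
  have hk : 0 < k := lt_of_le_of_lt (Nat.zero_le _) u.2
  refine ⟨u, ?_⟩
  by_contra hcon
  push Not at hcon
  obtain ⟨hc1, hc2⟩ := hcon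
  set τ : ℝ := (X / 2) ^ (1 / (2 * k : ℝ)) with hτ
  have hX2 : (1 : ℝ) ≤ X / 2 := by linarith
  have hτ1 : 1 ≤ τ := Real.one_le_rpow hX2 (by positivity)
  have hτp : τ ^ (2 * k) = X / 2 := by
    rw [hτ, ← Real.rpow_natCast, ← Real.rpow_mul (by linarith)]
    push_cast
    rw [one_div_mul_cancel, Real.rpow_one]
    have : (0 : ℝ) < k := by exact_mod_cast hk
    positivity
  -- the product is a square
  have heven : ∀ p : ℕ, p.Prime → Even ((univ.filter fun i => p ∣ n i).card +
      (univ.filter fun i => p ∣ m i).card) := by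
    intro p hp
    obtain ⟨z, hz⟩ := hS
    have h1 := congrArg (fun t => t.factorization p) hz
    have hn0 : ∏ i, n i ≠ 0 := prod_ne_zero_iff.2 fun i _ => (hsn i).ne_zero
    have hm0 : ∏ i, m i ≠ 0 := prod_ne_zero_iff.2 fun i _ => (hsm i).ne_zero
    have hz0 : z ≠ 0 := by
      rintro rfl
      rw [mul_zero] at hz
      exact mul_ne_zero hn0 hm0 hz
    rw [Nat.factorization_mul hn0 hm0, Nat.factorization_mul hz0 hz0, Finsupp.add_apply,
      Finsupp.add_apply, PAIR_fact n hsn hp, PAIR_fact m hsm hp] at h1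
    rw [h1]
    exact ⟨_, rfl⟩
  -- every prime divisor of `v0` divides another element
  have hprime : ∀ p ∈ v0.primeFactors, p ∣
      (∏ j ∈ univ.filter (fun j => n j ≠ v0), Nat.gcd v0 (n j)) * ∏ j, Nat.gcd v0 (m j) := by
    intro p hp
    have hpp := Nat.prime_of_mem_primeFactors hp
    have hpv := Nat.dvd_of_mem_primeFactors hp
    by_contra hnd
    have h1 : ∀ j, n j ≠ v0 → ¬ p ∣ n j := by
      intro j hj hpj
      apply hnd
      refine Dvd.dvd.mul_right ?_ _
      exact (Nat.dvd_gcd hpv hpj).trans (dvd_prod_of_mem _ (mem_filter.2 ⟨mem_univ _, hj⟩))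
    have h2 : ∀ j, ¬ p ∣ m j := by
      intro j hpj
      apply hnd
      refine Dvd.dvd.mul_left ?_ _
      exact (Nat.dvd_gcd hpv hpj).trans (dvd_prod_of_mem _ (mem_univ _))
    have h3 : (univ.filter fun i => p ∣ m i) = ∅ := by
      ext i
      simp [h2 i]
    have h4 : (univ.filter fun i => p ∣ n i) = univ.filter fun i => n i = v0 := by
      ext i
      simp only [mem_filter, mem_univ, true_and]
      constructor
      · intro h
        by_contra h0
        exact h1 i h0 h
      · intro h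
        rw [h]
        exact hpv
    have h5 := heven p hpp
    rw [h3, h4, card_empty, add_zero] at h5
    exact (Nat.not_even_iff_odd.2 hv0) h5
  have hsv : Squarefree v0 := hu' ▸ hsn u
  have hdvd : v0 ∣ (∏ j ∈ univ.filter (fun j => n j ≠ v0), Nat.gcd v0 (n j)) *
      ∏ j, Nat.gcd v0 (m j) := by
    have h1 := Finset.prod_primes_dvd (s := v0.primeFactors) _
      (fun p hp => (Nat.prime_of_mem_primeFactors hp).prime) hprime
    rwa [Nat.prod_primeFactors_of_squarefree hsv] at h1
  have hv00 : 0 < v0 := Nat.pos_of_ne_zero hsv.ne_zero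
  have hg1 : ∀ a, 0 < Nat.gcd v0 a := fun a => Nat.gcd_pos_of_pos_left _ hv00
  have hle : v0 ≤ (∏ j ∈ univ.filter (fun j => n j ≠ v0), Nat.gcd v0 (n j)) *
      ∏ j, Nat.gcd v0 (m j) :=
    Nat.le_of_dvd (Nat.mul_pos (prod_pos fun j _ => hg1 _) (prod_pos fun j _ => hg1 _)) hdvd
  have hle' : (v0 : ℝ) ≤ (∏ j ∈ univ.filter (fun j => n j ≠ v0), (Nat.gcd v0 (n j) : ℝ)) *
      ∏ j, (Nat.gcd v0 (m j) : ℝ) := by exact_mod_cast hle
  have hA : ∏ j ∈ univ.filter (fun j => n j ≠ v0), (Nat.gcd v0 (n j) : ℝ) ≤ τ ^ k := by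
    calc ∏ j ∈ univ.filter (fun j => n j ≠ v0), (Nat.gcd v0 (n j) : ℝ) ≤
        ∏ j ∈ univ.filter (fun j => n j ≠ v0), τ := by
          refine prod_le_prod (fun j _ => Nat.cast_nonneg _) fun j hj => ?_
          have := hc1 j (by rw [hu']; exact (mem_filter.1 hj).2)
          rw [hu'] at this
          exact this.le
      _ = τ ^ (univ.filter (fun j => n j ≠ v0)).card := prod_const _
      _ ≤ τ ^ k := by
          refine pow_le_pow_right₀ hτ1 ?_
          have := card_filter_le (univ : Finset (Fin k)) (fun j => n j ≠ v0)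
          rwa [card_univ, Fintype.card_fin] at this
  have hB : ∏ j, (Nat.gcd v0 (m j) : ℝ) < τ ^ k := by
    calc ∏ j, (Nat.gcd v0 (m j) : ℝ) < ∏ _j : Fin k, τ := by
          refine prod_lt_prod_of_nonempty (fun j _ => by exact_mod_cast hg1 _) (fun j _ => ?_)
            ⟨⟨0, hk⟩, mem_univ _⟩
          have := hc2 j
          rwa [hu'] at this
      _ = τ ^ k := by rw [prod_const, card_univ, Fintype.card_fin]
  have hB0 : 0 ≤ ∏ j, (Nat.gcd v0 (m j) : ℝ) := prod_nonneg fun _ _ => Nat.cast_nonneg _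
  have hτk : 0 < τ ^ k := by positivity
  have hv : X / 2 ≤ (v0 : ℝ) := hu' ▸ hn u
  have h1 : (v0 : ℝ) < τ ^ k * τ ^ k :=
    lt_of_le_of_lt hle' (lt_of_le_of_lt (mul_le_mul_of_nonneg_right hA hB0)
      (mul_lt_mul_of_pos_left hB hτk))
  rw [← pow_add, ← two_mul, hτp] at h1
  linarith

end Pool.Agent.N282.GC
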