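import Pool.Agent.N282.GC.Stm

/-! GCM/PRD (helper547 for helper282). -/

set_option autoImplicit false

open Finset

namespace Pool.Agent.N282.GC

/-- the last step: powers of `X` and `H` -/
theorem PRD_num {k m g : ℕ} {X H ε c Q : ℝ} (hk : m + g + 2 = 2 * k) (hε : 0 < ε)
    (hX : 1 ≤ X) (hXH : X ^ ε ≤ H) (hHX : H ≤ X ^ (1 - ε)) (hQ0 : 0 < Q) (hQ1 : 1 ≤ Q)
    (hQc : X ^ c ≤ Q) (hQ : (X / 2) ^ k ≤ Q * (3 * X) ^ m) :
    X ^ 2 * H ^ (g + 2) ≤ 6 ^ (2 * k) * X ^ (2 - min ε c) * H ^ k * Q := by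
  have hX0 : 0 < X := by linarith
  have hXε : 1 ≤ X ^ ε := Real.one_le_rpow hX hε.le
  have hH1 : 1 ≤ H := hXε.trans hXH
  have hH0 : 0 < H := by linarith
  have hδ : ∀ δ : ℝ, min ε c ≤ δ → X ^ (2 : ℕ) * X ^ (-δ) ≤ X ^ (2 - min ε c) := by
    intro δ h
    rw [← Real.rpow_natCast X 2, ← Real.rpow_add hX0]
    refine Real.rpow_le_rpow_of_exponent_le hX ?_
    push_cast
    linarith
  have h6 : (1 : ℝ) ≤ 6 ^ (2 * k) := one_le_pow₀ (by norm_num)
  have hHX' : H ≤ X * X ^ (-ε) := by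
    refine hHX.trans (le_of_eq ?_)
    rw [sub_eq_add_neg, Real.rpow_add hX0, Real.rpow_one]
  have hXe1 : X ^ (-ε) ≤ 1 := by
    rw [Real.rpow_neg hX0.le]
    exact inv_le_one_of_one_le₀ hXε
  have hXe0 : 0 < X ^ (-ε) := Real.rpow_pos_of_pos hX0 _
  rcases lt_trichotomy m k with h | h | h
  · -- `m < k`
    obtain ⟨l, rfl⟩ : ∃ l, k = m + (l + 1) := ⟨k - m - 1, by omega⟩
    have hg : g + 2 = (m + (l + 1)) + (l + 1) := by omega
    -- `(H / X) ^ (l + 1) ≤ X ^ (-ε)`
    have e1 : H ^ (l + 1) ≤ X ^ (l + 1) * X ^ (-ε) := by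
      calc H ^ (l + 1) ≤ (X * X ^ (-ε)) ^ (l + 1) := pow_le_pow_left₀ hH0.le hHX' _
        _ = X ^ (l + 1) * (X ^ (-ε)) ^ (l + 1) := mul_pow _ _ _
        _ ≤ X ^ (l + 1) * (X ^ (-ε)) ^ 1 := by
            refine mul_le_mul_of_nonneg_left ?_ (by positivity)
            exact pow_le_pow_of_le_one hXe0.le hXe1 (by omega)
        _ = _ := by rw [pow_one]
    have e2 : X ^ (l + 1) ≤ 6 ^ (2 * (m + (l + 1))) * Q := by
      have e3 : X ^ (m + (l + 1)) ≤ 2 ^ (m + (l + 1)) * 3 ^ m * Q * X ^ m := by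
        have e4 : (X / 2) ^ (m + (l + 1)) * 2 ^ (m + (l + 1)) = X ^ (m + (l + 1)) := by
          rw [← mul_pow]
          congr 1
          ring
        rw [← e4]
        calc (X / 2) ^ (m + (l + 1)) * 2 ^ (m + (l + 1)) ≤
            (Q * (3 * X) ^ m) * 2 ^ (m + (l + 1)) := mul_le_mul_of_nonneg_right hQ (by positivity)
          _ = _ := by rw [mul_pow]; ring
      have e5 : X ^ (l + 1) ≤ 2 ^ (m + (l + 1)) * 3 ^ m * Q := by
        have : X ^ m * X ^ (l + 1) ≤ X ^ m * (2 ^ (m + (l + 1)) * 3 ^ m * Q) := by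
          rw [← pow_add]
          linarith [e3]
        exact le_of_mul_le_mul_left this (by positivity)
      refine e5.trans ?_
      refine mul_le_mul_of_nonneg_right ?_ hQ0.le
      calc (2 : ℝ) ^ (m + (l + 1)) * 3 ^ m ≤ 2 ^ (m + (l + 1)) * 3 ^ (m + (l + 1)) := by
            refine mul_le_mul_of_nonneg_left ?_ (by positivity)
            exact pow_le_pow_right₀ (by norm_num) (by omega)
        _ = 6 ^ (m + (l + 1)) := by
            rw [← mul_pow]
            norm_num
        _ ≤ _ := pow_le_pow_right₀ (by norm_num) (by omega)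
    rw [hg, pow_add H]
    calc X ^ 2 * (H ^ (m + (l + 1)) * H ^ (l + 1)) ≤
        X ^ 2 * (H ^ (m + (l + 1)) * ((6 ^ (2 * (m + (l + 1))) * Q) * X ^ (-ε))) := by
          refine mul_le_mul_of_nonneg_left (mul_le_mul_of_nonneg_left (e1.trans ?_) (by positivity))
            (by positivity)
          exact mul_le_mul_of_nonneg_right e2 hXe0.le
      _ = 6 ^ (2 * (m + (l + 1))) * (X ^ 2 * X ^ (-ε)) * H ^ (m + (l + 1)) * Q := by ring
      _ ≤ _ := by
          have := hδ ε (min_le_left _ _)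
          gcongr
  · -- `m = k`
    subst h
    have hg : g + 2 = m := by omega
    rw [hg]
    have hXc : 1 ≤ X ^ (-c) * Q := by
      have e1 : X ^ (-c) * X ^ c = 1 := by
        rw [← Real.rpow_add hX0]
        simp
      rw [← e1]
      exact mul_le_mul_of_nonneg_left hQc (Real.rpow_pos_of_pos hX0 _).le
    calc X ^ 2 * H ^ m ≤ (X ^ 2 * H ^ m) * (X ^ (-c) * Q) := le_mul_of_one_le_right (by positivity) hXc
      _ = 1 * (X ^ 2 * X ^ (-c)) * H ^ m * Q := by ring
      _ ≤ _ := by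
          have := hδ c (min_le_right _ _)
          have h0 : 0 < X ^ (-c) := Real.rpow_pos_of_pos hX0 _
          gcongr
  · -- `k < m`
    have e1 : H ^ (g + 2) ≤ X ^ (-ε) * H ^ k := by
      have e2 : g + 2 + 1 ≤ k := by omega
      have e3 : 1 ≤ X ^ (-ε) * H := by
        have e4 : X ^ (-ε) * X ^ ε = 1 := by
          rw [← Real.rpow_add hX0]
          simp
        rw [← e4]
        exact mul_le_mul_of_nonneg_left hXH hXe0.le
      calc H ^ (g + 2) ≤ H ^ (g + 2) * (X ^ (-ε) * H) := le_mul_of_one_le_right (by positivity) e3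
        _ = X ^ (-ε) * H ^ (g + 2 + 1) := by ring
        _ ≤ _ := by
          refine mul_le_mul_of_nonneg_left ?_ hXe0.le
          exact pow_le_pow_right₀ hH1 e2
    calc X ^ 2 * H ^ (g + 2) ≤ X ^ 2 * (X ^ (-ε) * H ^ k) :=
          mul_le_mul_of_nonneg_left e1 (by positivity)
      _ = 1 * (X ^ 2 * X ^ (-ε)) * H ^ k * 1 := by ring
      _ ≤ _ := by
          have := hδ ε (min_le_left _ _)
          gcongr

theorem t_PRD : S_PRD := by
  classical
  intro k ε c hk hε hc
  refine ⟨36 * 4 ^ (2 * k) * 6 ^ (2 * k), by positivity, ?_⟩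
  intro X H hX hXH hHX D L f1 f2 v hf hD hL1 hL2 hprod hv hvc
  have hX0 : 0 < X := by linarith
  have hXε : 1 ≤ X ^ ε := Real.one_le_rpow hX hε.le
  have hH1 : 1 ≤ H := hXε.trans hXH
  have hH0 : 0 < H := by linarith
  set T : Finset (Fin (2 * k)) := (univ.erase f1).erase f2 with hT
  have hTcard : T.card + 2 = 2 * k := by
    rw [hT, card_erase_of_mem (mem_erase.2 ⟨hf.symm, mem_univ _⟩), card_erase_of_mem (mem_univ _),
      card_univ, Fintype.card_fin]
    omega
  set B := T.filter (fun i => 2 * H < D i) with hB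
  set G := T.filter (fun i => ¬ 2 * H < D i) with hG
  have hcard : B.card + G.card = T.card := card_filter_add_card_filter_not _
  have hsplit : ∀ F : Fin (2 * k) → ℝ, ∏ i, F i = F f1 * (F f2 * ((∏ i ∈ B, F i) * ∏ i ∈ G, F i)) := by
    intro F
    rw [hB, hG, prod_filter_mul_prod_filter_not, ← mul_prod_erase univ F (mem_univ f1),
      ← mul_prod_erase (univ.erase f1) F (mem_erase.2 ⟨hf.symm, mem_univ _⟩)]
  have hD0 : ∀ i, 0 < D i := fun i => lt_of_lt_of_le one_pos (hD i).1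
  have hmT : ∀ i ∈ T, i ≠ f1 ∧ i ≠ f2 := by
    intro i hi
    rw [hT, mem_erase, mem_erase] at hi
    exact ⟨hi.2.1, hi.1⟩
  -- the factors
  have hF1 : ∀ i, i = f1 ∨ i = f2 → L i / D i + 1 ≤ 6 * X / D i := by
    intro i hi
    rw [hL1 i hi]
    have h1 : 1 ≤ 3 * X / D i := by
      rw [one_le_div (hD0 i)]
      exact (hD i).2
    have h2 : 6 * X / D i = 3 * X / D i + 3 * X / D i := by ring
    linarith
  have hFB : ∏ i ∈ B, (L i / D i + 1) ≤ 2 ^ B.card := by
    rw [← prod_const]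
    refine prod_le_prod (fun i hi => ?_) fun i hi => ?_
    · have h1 := hmT i (mem_filter.1 hi).1
      rw [hL2 i h1.1 h1.2]
      have := hD0 i
      positivity
    · have h1 := hmT i (mem_filter.1 hi).1
      rw [hL2 i h1.1 h1.2]
      have h2 := (mem_filter.1 hi).2
      have h3 : 2 * H / D i ≤ 1 := (div_le_one (hD0 i)).2 h2.le
      linarith
  have hFG : ∏ i ∈ G, (L i / D i + 1) ≤ (4 * H) ^ G.card / ∏ i ∈ G, D i := by
    rw [← prod_const, ← prod_div_distrib]
    refine prod_le_prod (fun i hi => ?_) fun i hi => ?_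
    · have h1 := hmT i (mem_filter.1 hi).1
      rw [hL2 i h1.1 h1.2]
      have := hD0 i
      positivity
    · have h1 := hmT i (mem_filter.1 hi).1
      rw [hL2 i h1.1 h1.2]
      have h2 := (mem_filter.1 hi).2
      push Not at h2
      have h3 : 1 ≤ 2 * H / D i := (one_le_div (hD0 i)).2 h2
      have h4 : 4 * H / D i = 2 * H / D i + 2 * H / D i := by ring
      linarith
  have hGD1 : 1 ≤ ∏ i ∈ G, D i := by
    calc (1 : ℝ) = ∏ _i ∈ G, (1 : ℝ) := by simp
      _ ≤ _ := prod_le_prod (fun _ _ => zero_le_one) fun i _ => (hD i).1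
  set Q := D f1 * (D f2 * ∏ i ∈ G, D i) with hQdef
  have hQ0 : 0 < Q := by
    have := hD0 f1
    have := hD0 f2
    positivity
  have h12 : 1 ≤ D f2 * ∏ i ∈ G, D i := one_le_mul_of_one_le_of_one_le (hD f2).1 hGD1
  have hQ1 : 1 ≤ Q := one_le_mul_of_one_le_of_one_le (hD f1).1 h12
  have hQv : D v ≤ Q := by
    by_cases h1 : v = f1
    · rw [h1]
      exact le_mul_of_one_le_right (hD0 f1).le h12
    by_cases h2 : v = f2
    · rw [h2]
      calc D f2 ≤ D f2 * ∏ i ∈ G, D i := le_mul_of_one_le_right (hD0 f2).le hGD1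
        _ ≤ _ := le_mul_of_one_le_left (by linarith) (hD f1).1
    have hvG : v ∈ G := by
      rw [hG, mem_filter, hT, mem_erase, mem_erase]
      refine ⟨⟨h2, h1, mem_univ _⟩, ?_⟩
      rcases hv with h3 | h3 | h3
      · exact absurd h3 h1
      · exact absurd h3 h2
      · linarith
    have h3 : D v ≤ ∏ i ∈ G, D i := by
      rw [← mul_prod_erase G D hvG]
      refine le_mul_of_one_le_right (hD0 v).le ?_
      calc (1 : ℝ) = ∏ _i ∈ G.erase v, (1 : ℝ) := by simp
        _ ≤ _ := prod_le_prod (fun _ _ => zero_le_one) fun i _ => (hD i).1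
    calc D v ≤ ∏ i ∈ G, D i := h3
      _ ≤ D f2 * ∏ i ∈ G, D i := le_mul_of_one_le_left (by linarith) (hD f2).1
      _ ≤ _ := le_mul_of_one_le_left (by linarith) (hD f1).1
  have hBD : ∏ i ∈ B, D i ≤ (3 * X) ^ B.card := by
    rw [← prod_const]
    exact prod_le_prod (fun i _ => (hD0 i).le) fun i _ => (hD i).2
  have hQprod : (X / 2) ^ k ≤ Q * (3 * X) ^ B.card := by
    refine hprod.trans ?_
    rw [hsplit D]
    have : D f1 * (D f2 * ((∏ i ∈ B, D i) * ∏ i ∈ G, D i)) = Q * ∏ i ∈ B, D i := by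
      rw [hQdef]
      ring
    rw [this]
    exact mul_le_mul_of_nonneg_left hBD hQ0.le
  have hnum := PRD_num (k := k) (m := B.card) (g := G.card) (c := c) (by omega) hε hX hXH hHX hQ0 hQ1
    (hvc.trans hQv) hQprod
  -- the product
  have hP : ∏ i, (L i / D i + 1) ≤ 36 * 4 ^ (2 * k) * (X ^ 2 * H ^ G.card) / Q := by
    rw [hsplit fun i => L i / D i + 1]
    have p1 : 0 ≤ L f1 / D f1 + 1 := by
      rw [hL1 f1 (Or.inl rfl)]
      have := hD0 f1
      positivity
    have p2 : 0 ≤ L f2 / D f2 + 1 := by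
      rw [hL1 f2 (Or.inr rfl)]
      have := hD0 f2
      positivity
    have pB : 0 ≤ ∏ i ∈ B, (L i / D i + 1) := prod_nonneg fun i hi => by
      have h1 := hmT i (mem_filter.1 hi).1
      rw [hL2 i h1.1 h1.2]
      have := hD0 i
      positivity
    have pG : 0 ≤ ∏ i ∈ G, (L i / D i + 1) := prod_nonneg fun i hi => by
      have h1 := hmT i (mem_filter.1 hi).1
      rw [hL2 i h1.1 h1.2]
      have := hD0 i
      positivity
    have d1 := hD0 f1
    have d2 := hD0 f2
    have dG : 0 < ∏ i ∈ G, D i := by linarith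
    calc (L f1 / D f1 + 1) * ((L f2 / D f2 + 1) *
          ((∏ i ∈ B, (L i / D i + 1)) * ∏ i ∈ G, (L i / D i + 1))) ≤
        (6 * X / D f1) * ((6 * X / D f2) * (2 ^ B.card * ((4 * H) ^ G.card / ∏ i ∈ G, D i))) := by
          refine mul_le_mul (hF1 f1 (Or.inl rfl)) ?_ (by positivity) (by positivity)
          refine mul_le_mul (hF1 f2 (Or.inr rfl)) ?_ (by positivity) (by positivity)
          exact mul_le_mul hFB hFG pG (by positivity)
      _ = 36 * (2 ^ B.card * 4 ^ G.card) * (X ^ 2 * H ^ G.card) / Q := by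
          rw [hQdef, mul_pow]
          field_simp
          ring
      _ ≤ _ := by
          have h1 : (2 : ℝ) ^ B.card * 4 ^ G.card ≤ 4 ^ (2 * k) := by
            calc (2 : ℝ) ^ B.card * 4 ^ G.card ≤ 4 ^ B.card * 4 ^ G.card := by
                  gcongr
                  norm_num
              _ = 4 ^ (B.card + G.card) := (pow_add _ _ _).symm
              _ ≤ _ := pow_le_pow_right₀ (by norm_num) (by omega)
          gcongr
  calc (∏ i, (L i / D i + 1)) * H ^ 2 ≤ (36 * 4 ^ (2 * k) * (X ^ 2 * H ^ G.card) / Q) * H ^ 2 :=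
        mul_le_mul_of_nonneg_right hP (by positivity)
    _ = 36 * 4 ^ (2 * k) * ((X ^ 2 * H ^ (G.card + 2)) / Q) := by
        rw [pow_add]
        ring
    _ ≤ 36 * 4 ^ (2 * k) * (6 ^ (2 * k) * X ^ (2 - min ε c) * H ^ k) := by
        refine mul_le_mul_of_nonneg_left ?_ (by positivity)
        rw [div_le_iff₀ hQ0]
        exact hnum
    _ = _ := by ring

end Pool.Agent.N282.GC
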