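import Pool.Agent.N282.GC.Stm

/-!
# Project GC: the number of paired tuples (helper494)
-/

set_option autoImplicit false

open MeasureTheory Filter Topology Classical

namespace Pool.Agent.N282.GC

/-- the sign -/
noncomputable def PT_sg (b : Bool) : ℝ := if b then 1 else -1

/-- the sum of the `k`-th powers of the sums of `S` signs -/
noncomputable def PT_B (k S : ℕ) : ℝ := ∑ e : Fin S → Bool, (∑ v, PT_sg (e v)) ^ k

/-- the average -/
noncomputable def PT_a (k S : ℕ) : ℝ := PT_B k S / 2 ^ S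

theorem PT_B_succ (k S : ℕ) : PT_B k (S + 1) =
    ∑ e : Fin S → Bool, ((∑ v, PT_sg (e v) + 1) ^ k + (∑ v, PT_sg (e v) - 1) ^ k) := by
  unfold PT_B
  rw [← (Fin.consEquiv (fun _ : Fin (S + 1) => Bool)).sum_comp]
  rw [Fintype.sum_prod_type, Fintype.sum_bool, ← Finset.sum_add_distrib]
  refine Finset.sum_congr rfl fun e _ => ?_
  simp only [Fin.consEquiv, Equiv.coe_fn_mk, Fin.sum_univ_succ, Fin.cons_zero, Fin.cons_succ, PT_sg]
  simp only [if_true, Bool.false_eq_true, if_false]
  congr 1 <;> congr 1 <;> ring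

theorem PT_a_succ (k S : ℕ) : PT_a k (S + 1) =
    ∑ m ∈ Finset.range (k + 1), (k.choose m : ℝ) * ((1 + (-1) ^ (k - m)) / 2) * PT_a m S := by
  unfold PT_a
  rw [PT_B_succ]
  have h1 : ∀ e : Fin S → Bool, ((∑ v, PT_sg (e v) + 1) ^ k + (∑ v, PT_sg (e v) - 1) ^ k) =
      ∑ m ∈ Finset.range (k + 1), (k.choose m : ℝ) * (1 + (-1) ^ (k - m)) * (∑ v, PT_sg (e v)) ^ m := by
    intro e
    rw [sub_eq_add_neg, add_pow, add_pow, ← Finset.sum_add_distrib]
    refine Finset.sum_congr rfl fun m _ => ?_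
    rw [one_pow]
    ring
  simp only [h1]
  rw [Finset.sum_comm, Finset.sum_div]
  refine Finset.sum_congr rfl fun m _ => ?_
  rw [← Finset.mul_sum]
  unfold PT_B
  rw [pow_succ]
  field_simp

theorem PT_a_zero (k : ℕ) : PT_a k 0 = if k = 0 then 1 else 0 := by
  unfold PT_a PT_B
  simp only [Finset.univ_eq_empty, Finset.sum_empty, pow_zero, div_one]
  rw [Finset.sum_const]
  by_cases hk : k = 0
  · subst hk; simp
  · simp [hk]

theorem PT_a_odd (S : ℕ) : ∀ k : ℕ, ¬ Even k → PT_a k S = 0 := by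
  induction S with
  | zero => intro k hk; rw [PT_a_zero, if_neg]; rintro rfl; exact hk Even.zero
  | succ S ih =>
    intro k hk
    rw [PT_a_succ]
    refine Finset.sum_eq_zero fun m hm => ?_
    have hmk : m ≤ k := by simpa [Nat.lt_succ_iff] using hm
    by_cases hme : Even m
    · have hodd : Odd (k - m) := by
        rw [Nat.not_even_iff_odd] at hk
        exact Nat.Odd.sub_even hmk hk hme
      rw [hodd.neg_one_pow]; simp
    · rw [ih m hme, mul_zero]

theorem PT_split (f : ℕ → ℝ) (l : ℕ) : ∑ m ∈ Finset.range (2 * l + 1), f m =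
    ∑ i ∈ Finset.range (l + 1), f (2 * i) + ∑ i ∈ Finset.range l, f (2 * i + 1) := by
  induction l with
  | zero => simp
  | succ l ih =>
    rw [show 2 * (l + 1) + 1 = (2 * l + 1) + 1 + 1 by ring, Finset.sum_range_succ, Finset.sum_range_succ, ih,
      Finset.sum_range_succ (fun i => f (2 * i)) (l + 1), Finset.sum_range_succ (fun i => f (2 * i + 1)) l]
    rw [show 2 * l + 1 + 1 = 2 * (l + 1) by ring]
    ring

/-- the even moments -/
noncomputable def PT_b (l S : ℕ) : ℝ := PT_a (2 * l) S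

theorem PT_b_succ (l S : ℕ) : PT_b l (S + 1) =
    ∑ i ∈ Finset.range (l + 1), ((2 * l).choose (2 * i) : ℝ) * PT_b i S := by
  unfold PT_b
  rw [PT_a_succ, PT_split]
  have h2 : ∑ i ∈ Finset.range l, ((2 * l).choose (2 * i + 1) : ℝ) *
      ((1 + (-1) ^ (2 * l - (2 * i + 1))) / 2) * PT_a (2 * i + 1) S = 0 := by
    refine Finset.sum_eq_zero fun i _ => ?_
    rw [PT_a_odd S (2 * i + 1) (by rw [Nat.not_even_iff_odd]; exact ⟨i, rfl⟩), mul_zero]
  rw [h2, add_zero]
  refine Finset.sum_congr rfl fun i hi => ?_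
  have he : Even (2 * l - 2 * i) := ⟨l - i, by omega⟩
  rw [he.neg_one_pow]
  ring

theorem PT_b_zero (l : ℕ) : PT_b l 0 = if l = 0 then 1 else 0 := by
  unfold PT_b
  rw [PT_a_zero]
  by_cases h : l = 0 <;> simp [h]

theorem PT_b_nonneg (S : ℕ) : ∀ l : ℕ, 0 ≤ PT_b l S := by
  induction S with
  | zero => intro l; rw [PT_b_zero]; split <;> norm_num
  | succ S ih =>
    intro l
    rw [PT_b_succ]
    exact Finset.sum_nonneg fun i _ => mul_nonneg (Nat.cast_nonneg _) (ih i)

theorem PT_b_0 (S : ℕ) : PT_b 0 S = 1 := by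
  induction S with
  | zero => rw [PT_b_zero]; simp
  | succ S ih => rw [PT_b_succ]; simp [ih]

theorem PT_b_1 (S : ℕ) : PT_b 1 S = S := by
  induction S with
  | zero => rw [PT_b_zero]; simp
  | succ S ih =>
    rw [PT_b_succ]
    simp [Finset.sum_range_succ, ih, PT_b_0]
    ring

theorem PT_bin (l : ℕ) (x : ℝ) (hx : 0 ≤ x) :
    |(x + 1) ^ (l + 2) - x ^ (l + 2) - (l + 2 : ℕ) * x ^ (l + 1)| ≤ 2 ^ (l + 2) * (1 + x) ^ l := by
  have h1 : (x + 1) ^ (l + 2) = ∑ m ∈ Finset.range (l + 1), x ^ m * ((l + 2).choose m : ℝ) +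
      x ^ (l + 1) * ((l + 2 : ℕ) : ℝ) + x ^ (l + 2) := by
    rw [add_pow, Finset.sum_range_succ, Finset.sum_range_succ]
    simp only [one_pow, mul_one]
    rw [Nat.choose_self, Nat.choose_succ_self_right]
    push_cast
    ring
  have h2 : (x + 1) ^ (l + 2) - x ^ (l + 2) - (l + 2 : ℕ) * x ^ (l + 1) =
      ∑ m ∈ Finset.range (l + 1), x ^ m * ((l + 2).choose m : ℝ) := by
    rw [h1]; ring
  rw [h2, abs_of_nonneg (Finset.sum_nonneg fun m _ => by positivity)]
  have h3 : ∑ m ∈ Finset.range (l + 1), x ^ m * ((l + 2).choose m : ℝ) ≤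
      ∑ m ∈ Finset.range (l + 1), (1 + x) ^ l * ((l + 2).choose m : ℝ) := by
    refine Finset.sum_le_sum fun m hm => ?_
    have hml : m ≤ l := by simpa [Nat.lt_succ_iff] using hm
    refine mul_le_mul_of_nonneg_right ?_ (Nat.cast_nonneg _)
    calc x ^ m ≤ (1 + x) ^ m := pow_le_pow_left₀ hx (by linarith) m
      _ ≤ (1 + x) ^ l := pow_le_pow_right₀ (by linarith) hml
  refine h3.trans ?_
  rw [← Finset.mul_sum, mul_comm]
  refine mul_le_mul_of_nonneg_right ?_ (by positivity)
  have h4 : ∑ m ∈ Finset.range (l + 1), ((l + 2).choose m : ℝ) ≤ ∑ m ∈ Finset.range (l + 2 + 1), ((l + 2).choose m : ℝ) :=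
    Finset.sum_le_sum_of_subset_of_nonneg (Finset.range_mono (by omega)) fun _ _ _ => Nat.cast_nonneg _
  refine h4.trans (le_of_eq ?_)
  have := Nat.sum_range_choose (l + 2)
  exact_mod_cast this

/-- the double factorials -/
noncomputable def PT_c (l : ℕ) : ℝ := (Nat.doubleFactorial (2 * l - 1) : ℝ)

theorem PT_c_succ (l : ℕ) : PT_c (l + 1) = (2 * l + 1) * PT_c l := by
  unfold PT_c
  rcases Nat.eq_zero_or_pos l with rfl | hl
  · simp [Nat.doubleFactorial]
  · obtain ⟨m, rfl⟩ : ∃ m, l = m + 1 := ⟨l - 1, by omega⟩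
    rw [show 2 * (m + 1 + 1) - 1 = (2 * (m + 1) - 1) + 2 by omega, Nat.doubleFactorial_add_two]
    rw [show 2 * (m + 1) - 1 + 2 = 2 * (m + 1) + 1 by omega]
    push_cast
    ring

theorem PT_choose (l : ℕ) : (((2 * (l + 1)).choose (2 * l) : ℕ) : ℝ) = (l + 1) * (2 * l + 1) := by
  have h : (2 * (l + 1)).choose (2 * l) = (2 * (l + 1)).choose 2 := by
    rw [← Nat.choose_symm (show 2 ≤ 2 * (l + 1) by omega)]
    congr 1
  rw [h, Nat.cast_choose_two]
  push_cast
  ring

theorem PT_main (l : ℕ) : ∃ C : ℝ, 0 < C ∧ ∀ S : ℕ,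
    |PT_b l S - PT_c l * (S : ℝ) ^ l| ≤ C * (1 + (S : ℝ)) ^ (l - 1) ∧ PT_b l S ≤ C * (1 + (S : ℝ)) ^ l := by
  induction l using Nat.strong_induction_on with
  | _ l ih =>
  rcases l with _ | _ | l
  · refine ⟨1, one_pos, fun S => ?_⟩
    rw [PT_b_0]; simp [PT_c]
  · refine ⟨1, one_pos, fun S => ?_⟩
    rw [PT_b_1]; simp [PT_c]
  · choose! C hC0 hC using ih
    -- the constant
    set D : ℝ := ((2 * (l + 2)).choose (2 * (l + 1)) : ℝ) * C (l + 1) +
      ∑ i ∈ Finset.range (l + 1), ((2 * (l + 2)).choose (2 * i) : ℝ) * C i + PT_c (l + 2) * 2 ^ (l + 2) with hD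
    have hcpos : ∀ j, 0 < PT_c j := fun j => by unfold PT_c; exact_mod_cast Nat.doubleFactorial_pos _
    have hD0 : 0 < D := by
      have h1 : 0 ≤ ∑ i ∈ Finset.range (l + 1), ((2 * (l + 2)).choose (2 * i) : ℝ) * C i :=
        Finset.sum_nonneg fun i hi => mul_nonneg (Nat.cast_nonneg _)
          (hC0 i (by have := Finset.mem_range.1 hi; omega)).le
      have h2 : 0 ≤ ((2 * (l + 2)).choose (2 * (l + 1)) : ℝ) * C (l + 1) :=
        mul_nonneg (Nat.cast_nonneg _) (hC0 (l + 1) (by omega)).le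
      have h3 : 0 < PT_c (l + 2) * 2 ^ (l + 2) := mul_pos (hcpos _) (by positivity)
      linarith
    -- the increments
    have hinc : ∀ S : ℕ, |(PT_b (l + 2) (S + 1) - PT_c (l + 2) * ((S : ℝ) + 1) ^ (l + 2)) -
        (PT_b (l + 2) S - PT_c (l + 2) * (S : ℝ) ^ (l + 2))| ≤ D * (1 + (S : ℝ)) ^ l := by
      intro S
      have hS : (0 : ℝ) ≤ S := Nat.cast_nonneg S
      have e1 : PT_b (l + 2) (S + 1) = ∑ i ∈ Finset.range (l + 1), ((2 * (l + 2)).choose (2 * i) : ℝ) * PT_b i S +
          ((2 * (l + 2)).choose (2 * (l + 1)) : ℝ) * PT_b (l + 1) S + PT_b (l + 2) S := by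
        rw [PT_b_succ, Finset.sum_range_succ, Finset.sum_range_succ]
        simp
      have e2 : PT_c (l + 2) * ((l + 2 : ℕ) : ℝ) = ((2 * (l + 2)).choose (2 * (l + 1)) : ℝ) * PT_c (l + 1) := by
        rw [PT_choose (l + 1), PT_c_succ (l + 1)]
        push_cast
        ring
      have e3 : (PT_b (l + 2) (S + 1) - PT_c (l + 2) * ((S : ℝ) + 1) ^ (l + 2)) -
          (PT_b (l + 2) S - PT_c (l + 2) * (S : ℝ) ^ (l + 2)) =
          ((2 * (l + 2)).choose (2 * (l + 1)) : ℝ) * (PT_b (l + 1) S - PT_c (l + 1) * (S : ℝ) ^ (l + 1)) +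
          ∑ i ∈ Finset.range (l + 1), ((2 * (l + 2)).choose (2 * i) : ℝ) * PT_b i S -
          PT_c (l + 2) * (((S : ℝ) + 1) ^ (l + 2) - (S : ℝ) ^ (l + 2) - (l + 2 : ℕ) * (S : ℝ) ^ (l + 1)) := by
        rw [e1]
        linear_combination (-(S : ℝ) ^ (l + 1)) * e2
      rw [e3, hD]
      have t1 : |((2 * (l + 2)).choose (2 * (l + 1)) : ℝ) * (PT_b (l + 1) S - PT_c (l + 1) * (S : ℝ) ^ (l + 1))| ≤
          ((2 * (l + 2)).choose (2 * (l + 1)) : ℝ) * C (l + 1) * (1 + (S : ℝ)) ^ l := by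
        rw [abs_mul, abs_of_nonneg (Nat.cast_nonneg _), mul_assoc]
        exact mul_le_mul_of_nonneg_left ((hC (l + 1) (by omega) S).1) (Nat.cast_nonneg _)
      have t2 : |∑ i ∈ Finset.range (l + 1), ((2 * (l + 2)).choose (2 * i) : ℝ) * PT_b i S| ≤
          (∑ i ∈ Finset.range (l + 1), ((2 * (l + 2)).choose (2 * i) : ℝ) * C i) * (1 + (S : ℝ)) ^ l := by
        rw [abs_of_nonneg (Finset.sum_nonneg fun i _ => mul_nonneg (Nat.cast_nonneg _) (PT_b_nonneg S i)),
          Finset.sum_mul]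
        refine Finset.sum_le_sum fun i hi => ?_
        have hil : i ≤ l := by simpa [Nat.lt_succ_iff] using hi
        rw [mul_assoc]
        refine mul_le_mul_of_nonneg_left ?_ (Nat.cast_nonneg _)
        refine ((hC i (by omega) S).2).trans ?_
        exact mul_le_mul_of_nonneg_left (pow_le_pow_right₀ (by linarith) hil) (hC0 i (by omega)).le
      have t3 : |PT_c (l + 2) * (((S : ℝ) + 1) ^ (l + 2) - (S : ℝ) ^ (l + 2) - (l + 2 : ℕ) * (S : ℝ) ^ (l + 1))| ≤
          PT_c (l + 2) * 2 ^ (l + 2) * (1 + (S : ℝ)) ^ l := by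
        rw [abs_mul, abs_of_pos (hcpos _), mul_assoc]
        exact mul_le_mul_of_nonneg_left (PT_bin l S hS) (hcpos _).le
      refine (abs_sub _ _).trans ?_
      refine (add_le_add (abs_add_le _ _) le_rfl).trans ?_
      rw [add_mul, add_mul]
      exact add_le_add (add_le_add t1 t2) t3
    have herr : ∀ S : ℕ, |PT_b (l + 2) S - PT_c (l + 2) * (S : ℝ) ^ (l + 2)| ≤ D * (S * (1 + (S : ℝ)) ^ l) := by
      intro S
      induction S with
      | zero => rw [PT_b_zero]; simp
      | succ S ihS =>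
        have hS : (0 : ℝ) ≤ S := Nat.cast_nonneg S
        have h1 := hinc S
        have h2 : |PT_b (l + 2) (S + 1) - PT_c (l + 2) * ((S : ℝ) + 1) ^ (l + 2)| ≤
            D * (1 + (S : ℝ)) ^ l + D * (S * (1 + (S : ℝ)) ^ l) := by
          have h3 := abs_sub_abs_le_abs_sub (PT_b (l + 2) (S + 1) - PT_c (l + 2) * ((S : ℝ) + 1) ^ (l + 2))
            (PT_b (l + 2) S - PT_c (l + 2) * (S : ℝ) ^ (l + 2))
          linarith
        push_cast
        refine h2.trans ?_
        have h4 : D * (1 + (S : ℝ)) ^ l + D * (S * (1 + (S : ℝ)) ^ l) = D * (((S : ℝ) + 1) * (1 + (S : ℝ)) ^ l) := by ring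
        rw [h4]
        refine mul_le_mul_of_nonneg_left (mul_le_mul_of_nonneg_left ?_ (by positivity)) hD0.le
        exact pow_le_pow_left₀ (by positivity) (by linarith) l
    refine ⟨D + PT_c (l + 2), add_pos hD0 (hcpos _), fun S => ?_⟩
    have hS : (0 : ℝ) ≤ S := Nat.cast_nonneg S
    have h5 : D * (S * (1 + (S : ℝ)) ^ l) ≤ D * (1 + (S : ℝ)) ^ (l + 1) := by
      refine mul_le_mul_of_nonneg_left ?_ hD0.le
      rw [pow_succ, mul_comm ((1 + (S : ℝ)) ^ l)]
      exact mul_le_mul_of_nonneg_right (by linarith) (by positivity)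
    refine ⟨?_, ?_⟩
    · refine ((herr S).trans h5).trans ?_
      rw [show l + 2 - 1 = l + 1 by omega]
      exact mul_le_mul_of_nonneg_right (by linarith [hcpos (l + 2)]) (by positivity)
    · have h6 := (abs_le.1 ((herr S).trans h5)).2
      have h7 : (1 + (S : ℝ)) ^ (l + 1) ≤ (1 + (S : ℝ)) ^ (l + 2) := pow_le_pow_right₀ (by linarith) (by omega)
      have h8 : (S : ℝ) ^ (l + 2) ≤ (1 + (S : ℝ)) ^ (l + 2) := pow_le_pow_left₀ hS (by linarith) _
      have h9 := mul_le_mul_of_nonneg_left h7 hD0.le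
      have h10 := mul_le_mul_of_nonneg_left h8 (hcpos (l + 2)).le
      rw [add_mul]
      show PT_b (l + 2) S ≤ _
      linarith

/-- the number of paired tuples is the average -/
theorem PT_pcount (k S : ℕ) : (pcount k S : ℝ) = PT_a k S := by
  have hB : PT_B k S = ∑ n : Fin k → Fin S, if (∀ v : Fin S, Even (Finset.univ.filter fun i => n i = v).card)
      then (2 : ℝ) ^ S else 0 := by
    unfold PT_B
    have h1 : ∀ e : Fin S → Bool, (∑ v, PT_sg (e v)) ^ k = ∑ n : Fin k → Fin S, ∏ i, PT_sg (e (n i)) := fun e =>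
      Fintype.sum_pow (fun v => PT_sg (e v)) k
    simp only [h1]
    rw [Finset.sum_comm]
    refine Finset.sum_congr rfl fun n _ => ?_
    have h2 : ∀ e : Fin S → Bool, ∏ i, PT_sg (e (n i)) =
        ∏ v : Fin S, PT_sg (e v) ^ (Finset.univ.filter fun i => n i = v).card := by
      intro e
      rw [← Finset.prod_fiberwise' Finset.univ n (fun v => PT_sg (e v))]
      refine Finset.prod_congr rfl fun v _ => ?_
      rw [Finset.prod_const]
    simp only [h2]
    have h3 := Finset.prod_univ_sum (fun _ : Fin S => (Finset.univ : Finset Bool))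
      (fun (v : Fin S) (b : Bool) => PT_sg b ^ (Finset.univ.filter fun i => n i = v).card)
    rw [Fintype.piFinset_univ] at h3
    rw [← h3]
    have h4 : ∀ v : Fin S, ∑ b : Bool, PT_sg b ^ (Finset.univ.filter fun i => n i = v).card =
        if Even (Finset.univ.filter fun i => n i = v).card then 2 else 0 := by
      intro v
      rw [Fintype.sum_bool]
      simp only [PT_sg, if_true, Bool.false_eq_true, if_false, one_pow]
      by_cases he : Even (Finset.univ.filter fun i => n i = v).card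
      · rw [if_pos he, he.neg_one_pow]; norm_num
      · rw [if_neg he, (Nat.not_even_iff_odd.1 he).neg_one_pow]; norm_num
    simp only [h4]
    by_cases hall : ∀ v : Fin S, Even (Finset.univ.filter fun i => n i = v).card
    · rw [if_pos hall]
      rw [Finset.prod_congr rfl (fun v _ => if_pos (hall v))]
      simp
    · rw [if_neg hall]
      push_neg at hall
      obtain ⟨v, hv⟩ := hall
      exact Finset.prod_eq_zero (Finset.mem_univ v) (if_neg hv)
  have hcard : pcount k S = (Finset.univ.filter fun n : Fin k → Fin S =>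
      ∀ v : Fin S, Even (Finset.univ.filter fun i => n i = v).card).card := by
    unfold pcount
    symm
    refine Finset.card_bij (fun n _ => fun i => (n i : ℕ)) ?_ ?_ ?_
    · intro n hn
      rw [Finset.mem_filter] at hn ⊢
      refine ⟨?_, ?_⟩
      · unfold tup; rw [Fintype.mem_piFinset]; intro i; exact Finset.mem_range.2 (n i).2
      · intro v
        by_cases hv : v < S
        · have := hn.2 ⟨v, hv⟩
          have h5 : (Finset.univ.filter fun i => (n i : ℕ) = v) = (Finset.univ.filter fun i => n i = ⟨v, hv⟩) := by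
            ext i; simp [Fin.ext_iff]
          rw [h5]; exact this
        · have h5 : (Finset.univ.filter fun i => (n i : ℕ) = v) = ∅ := by
            rw [Finset.filter_eq_empty_iff]
            intro i _ h
            exact hv (h ▸ (n i).2)
          rw [h5]; simp
    · intro n _ n' _ h
      funext i
      exact Fin.ext (congrFun h i)
    · intro m hm
      rw [Finset.mem_filter] at hm
      have hm1 := hm.1
      unfold tup at hm1
      rw [Fintype.mem_piFinset] at hm1
      refine ⟨fun i => ⟨m i, Finset.mem_range.1 (hm1 i)⟩, ?_, rfl⟩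
      rw [Finset.mem_filter]
      refine ⟨Finset.mem_univ _, fun v => ?_⟩
      have := hm.2 v
      have h5 : (Finset.univ.filter fun i => (⟨m i, Finset.mem_range.1 (hm1 i)⟩ : Fin S) = v) =
          (Finset.univ.filter fun i => m i = (v : ℕ)) := by
        ext i; simp [Fin.ext_iff]
      rw [h5]; exact this
  unfold PT_a
  rw [hB, hcard, ← Finset.sum_filter, Finset.sum_const, nsmul_eq_mul]
  field_simp

theorem t_PT : S_PT := by
  intro k
  rcases Nat.even_or_odd' k with ⟨l, rfl | rfl⟩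
  · rcases Nat.eq_zero_or_pos l with rfl | hl
    · refine ⟨1, one_pos, fun S => ?_⟩
      rw [PT_pcount]
      have h : PT_a (2 * 0) S = 1 := PT_b_0 S
      rw [h]
      simp only [gm]
      norm_num
      positivity
    · obtain ⟨C, hC0, hC⟩ := PT_main l
      refine ⟨C, hC0, fun S => ?_⟩
      rw [PT_pcount]
      have hS : (0 : ℝ) ≤ S := Nat.cast_nonneg S
      have h1 : gm (2 * l) = PT_c l := by
        unfold gm PT_c
        rw [if_pos (even_two_mul l)]
      have h2 : (S : ℝ) ^ (((2 * l : ℕ) : ℝ) / 2) = (S : ℝ) ^ l := by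
        rw [show (((2 * l : ℕ) : ℝ) / 2) = (l : ℝ) by push_cast; ring, Real.rpow_natCast]
      rw [h1, h2]
      refine ((hC S).1).trans (mul_le_mul_of_nonneg_left ?_ hC0.le)
      rw [← Real.rpow_natCast]
      refine Real.rpow_le_rpow_of_exponent_le (by linarith) ?_
      rw [Nat.cast_sub hl]
      push_cast
      linarith
  · refine ⟨1, one_pos, fun S => ?_⟩
    have hodd : ¬ Even (2 * l + 1) := by rw [Nat.not_even_iff_odd]; exact ⟨l, rfl⟩
    rw [PT_pcount, PT_a_odd S _ hodd]
    unfold gm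
    rw [if_neg hodd]
    simp only [zero_mul, sub_zero, abs_zero]
    positivity

end Pool.Agent.N282.GC
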