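import Pool.Agent.N282.GC.Stm

/-! GCM/RAD (helper547 for helper282). -/

set_option autoImplicit false

open Finset

namespace Pool.Agent.N282.GC

theorem RAD_sqf {ι : Type} [DecidableEq ι] (s : Finset ι) (r : ι → ℕ) (h : ∀ i ∈ s, Squarefree (r i))
    (hc : ∀ i ∈ s, ∀ j ∈ s, i ≠ j → Nat.Coprime (r i) (r j)) : Squarefree (∏ i ∈ s, r i) := by
  induction s using Finset.induction_on with
  | empty => simp
  | insert a s ha ih =>
    rw [prod_insert ha, Nat.squarefree_mul]
    · exact ⟨h a (mem_insert_self _ _), ih (fun i hi => h i (mem_insert_of_mem hi))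
        (fun i hi j hj => hc i (mem_insert_of_mem hi) j (mem_insert_of_mem hj))⟩
    · refine Nat.Coprime.prod_right fun i hi => ?_
      exact hc a (mem_insert_self _ _) i (mem_insert_of_mem hi) (fun h0 => ha (h0 ▸ hi))

theorem t_RAD : S_RAD := by
  intro K e hsq hS
  classical
  have hgd : ∀ i, gd e i ∣ e i := fun i => Nat.gcd_dvd_left _ _
  have he0 : ∀ i, e i ≠ 0 := fun i => (hsq i).ne_zero
  have hg0 : ∀ i, 0 < gd e i := fun i => Nat.pos_of_ne_zero fun h0 => he0 i (by
    have := hgd i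
    rw [h0] at this
    exact Nat.eq_zero_of_zero_dvd this)
  set r : Fin K → ℕ := fun i => e i / gd e i with hr
  have her : ∀ i, e i = gd e i * r i := fun i => (Nat.mul_div_cancel' (hgd i)).symm
  have hrd : ∀ i, r i ∣ e i := fun i => ⟨gd e i, by rw [mul_comm]; exact her i⟩
  have hlt : ∀ i j, j < i → Nat.Coprime (r i) (r j) := by
    intro i j hji
    refine Nat.Coprime.coprime_dvd_right (hrd j) ?_
    rw [Nat.coprime_iff_isRelPrime] 
    refine Nat.coprime_iff_isRelPrime.1 (Nat.Coprime.symm ?_)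
    by_contra hnc
    obtain ⟨p, hp, hpe, hpr⟩ := Nat.Prime.not_coprime_iff_dvd.1 hnc
    have h1 : p ∣ gd e i := by
      refine Nat.dvd_gcd (hpr.trans (hrd i)) (hpe.trans ?_)
      exact dvd_prod_of_mem _ (mem_filter.2 ⟨mem_univ _, hji⟩)
    have h2 : p * p ∣ e i := by
      rw [her i]
      exact mul_dvd_mul h1 hpr
    exact hp.one_lt.ne' (Nat.isUnit_iff.1 (hsq i p h2))
  have hcop : ∀ i j, i ≠ j → Nat.Coprime (r i) (r j) := by
    intro i j hij
    rcases lt_or_gt_of_ne hij with h | h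
    · exact (hlt j i h).symm
    · exact hlt i j h
  have hR : Squarefree (∏ i, r i) :=
    RAD_sqf univ r (fun i _ => (hsq i).squarefree_of_dvd (hrd i)) (fun i _ j _ => hcop i j)
  obtain ⟨z, hz⟩ := hS
  have hRdvd : ∏ i, r i ∣ ∏ i, e i := prod_dvd_prod_of_dvd _ _ fun i _ => hrd i
  have hRz : ∏ i, r i ∣ z := by
    rw [hz, ← sq] at hRdvd
    exact (hR.dvd_pow_iff_dvd two_ne_zero).1 hRdvd
  have hE0 : 0 < ∏ i, e i := prod_pos fun i _ => Nat.pos_of_ne_zero (he0 i)
  have hz0 : 0 < z := by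
    rcases Nat.eq_zero_or_pos z with h | h
    · rw [hz, h] at hE0
      simp at hE0
    · exact h
  have hle : ∏ i, r i ≤ z := Nat.le_of_dvd hz0 hRz
  have hprod : ∏ i, e i = (∏ i, gd e i) * ∏ i, r i := by
    rw [← prod_mul_distrib]
    exact prod_congr rfl fun i _ => her i
  have h1 : z ≤ ∏ i, gd e i := by
    have h2 : z * z ≤ (∏ i, gd e i) * z := by
      calc z * z = (∏ i, gd e i) * ∏ i, r i := by rw [← hz, hprod]
        _ ≤ _ := Nat.mul_le_mul_left _ hle
    exact Nat.le_of_mul_le_mul_right h2 hz0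
  rw [hz, sq]
  exact Nat.mul_le_mul h1 h1

end Pool.Agent.N282.GC
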