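import Pool.Agent.N282.GC.SfB

/-!
# Project GC: squarefree integers prime to `d` in short intervals (`S_SF`)
-/

set_option autoImplicit false

open MeasureTheory Filter Topology Classical

namespace Pool.Agent.N282.GC

/-- divisible by the square of a large prime or by a large prime divisor of `d` -/
def SF_Bad (z d n : ℕ) : Prop := ∃ p : ℕ, p.Prime ∧ z < p ∧ (p ^ 2 ∣ n ∨ (p ∣ d ∧ p ∣ n))

theorem SF_bad_card {X u v : ℝ} (hu : 0 ≤ u) (huv : u ≤ v) (hv : v ≤ 3 * X) {z d : ℕ}
    (hz : 1 ≤ z) (hd : 0 < d) :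
    (((SF_I u v).filter (SF_Bad z d)).card : ℝ) ≤
      (v - u) / z + Real.sqrt (3 * X) + (v - u + 3 * X) * Rz z d := by
  have hX : 0 ≤ 3 * X := hu.trans (huv.trans hv)
  let P1 : Finset ℕ := Finset.Ioc z ⌊Real.sqrt (3 * X)⌋₊
  let P2 : Finset ℕ := d.primeFactors.filter (fun p => z < p ∧ (p : ℝ) ≤ 3 * X)
  have hsub : (SF_I u v).filter (SF_Bad z d) ⊆
      (P1.biUnion fun p => (SF_I u v).filter (fun n => p ^ 2 ∣ n)) ∪
        (P2.biUnion fun p => (SF_I u v).filter (fun n => p ∣ n)) := by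
    intro n hn
    rw [Finset.mem_filter] at hn
    obtain ⟨hnI, p, hp, hzp, h⟩ := hn
    have hnI' := (SF_mem hu).mp hnI
    have hn0 : 0 < n := by
      have : (0 : ℝ) < n := lt_of_le_of_lt hu hnI'.1
      exact_mod_cast this
    rw [Finset.mem_union, Finset.mem_biUnion, Finset.mem_biUnion]
    rcases h with h | ⟨h1, h2⟩
    · left
      refine ⟨p, ?_, Finset.mem_filter.mpr ⟨hnI, h⟩⟩
      rw [Finset.mem_Ioc]
      refine ⟨hzp, Nat.le_floor (Real.le_sqrt_of_sq_le ?_)⟩
      have h3 : ((p ^ 2 : ℕ) : ℝ) ≤ n := by exact_mod_cast Nat.le_of_dvd hn0 h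
      push_cast at h3
      linarith [hnI'.2]
    · right
      refine ⟨p, ?_, Finset.mem_filter.mpr ⟨hnI, h2⟩⟩
      rw [Finset.mem_filter, Nat.mem_primeFactors]
      have h3 : ((p : ℕ) : ℝ) ≤ n := by exact_mod_cast Nat.le_of_dvd hn0 h2
      exact ⟨⟨hp, h1, hd.ne'⟩, hzp, by linarith [hnI'.2]⟩
  have h1 : (((SF_I u v).filter (SF_Bad z d)).card : ℝ) ≤
      ∑ p ∈ P1, (((SF_I u v).filter (fun n => p ^ 2 ∣ n)).card : ℝ) +
        ∑ p ∈ P2, (((SF_I u v).filter (fun n => p ∣ n)).card : ℝ) := by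
    have h2 := (Finset.card_le_card hsub).trans ((Finset.card_union_le _ _).trans
      (add_le_add Finset.card_biUnion_le Finset.card_biUnion_le))
    exact_mod_cast h2
  have h2 : ∑ p ∈ P1, (((SF_I u v).filter (fun n => p ^ 2 ∣ n)).card : ℝ) ≤
      (v - u) / z + Real.sqrt (3 * X) := by
    have h3 : ∀ p ∈ P1, (((SF_I u v).filter (fun n => p ^ 2 ∣ n)).card : ℝ) ≤
        (v - u) * (1 / (p : ℝ) ^ 2) + 1 := by
      intro p hp
      have hp0 : 0 < p := lt_of_le_of_lt (Nat.zero_le z) (Finset.mem_Ioc.mp hp).1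
      have h4 := SF_dvd_le hu huv (c := p ^ 2) (pow_pos hp0 2)
      rw [mul_one_div]
      exact_mod_cast h4
    refine (Finset.sum_le_sum h3).trans ?_
    rw [Finset.sum_add_distrib, ← Finset.mul_sum, Finset.sum_const, nsmul_eq_mul, mul_one]
    have h5 := SF_tail hz P1 (fun p hp => (Finset.mem_Ioc.mp hp).1)
    have h6 : (P1.card : ℝ) ≤ Real.sqrt (3 * X) := by
      have h7 : P1.card ≤ ⌊Real.sqrt (3 * X)⌋₊ := by
        rw [Nat.card_Ioc]
        exact Nat.sub_le _ _
      exact (Nat.cast_le.mpr h7).trans (Nat.floor_le (Real.sqrt_nonneg _))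
    have h8 := mul_le_mul_of_nonneg_left h5 (sub_nonneg.mpr huv)
    rw [mul_one_div] at h8
    linarith
  have h3 : ∑ p ∈ P2, (((SF_I u v).filter (fun n => p ∣ n)).card : ℝ) ≤
      (v - u + 3 * X) * Rz z d := by
    have h4 : ∀ p ∈ P2, (((SF_I u v).filter (fun n => p ∣ n)).card : ℝ) ≤
        (v - u + 3 * X) * (1 / (p : ℝ)) := by
      intro p hp
      obtain ⟨hp1, hp2, hp3⟩ := Finset.mem_filter.mp hp
      have hp0 : 0 < p := Nat.pos_of_mem_primeFactors hp1
      have hp0' : (0 : ℝ) < p := by exact_mod_cast hp0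
      have h5 := SF_dvd_le hu huv (c := p) hp0
      have h6 : 1 ≤ 3 * X / p := by rwa [le_div_iff₀ hp0', one_mul]
      rw [mul_one_div, add_div]
      linarith
    refine (Finset.sum_le_sum h4).trans ?_
    rw [← Finset.mul_sum]
    refine mul_le_mul_of_nonneg_left ?_ (by linarith)
    unfold Rz
    refine Finset.sum_le_sum_of_subset_of_nonneg (fun p hp => ?_) (fun _ _ _ => by positivity)
    obtain ⟨hp1, hp2, hp3⟩ := Finset.mem_filter.mp hp
    exact Finset.mem_filter.mpr ⟨hp1, hp2⟩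
  linarith

/-- the windows -/
theorem SF_win {x H : ℝ} (_hH : 0 ≤ H) (hx : H / 2 ≤ x) :
    win x H = SF_I (x - H / 2) (x + H / 2) := by
  ext n
  rw [win, Finset.mem_filter, SF_mem (by linarith), Finset.mem_range, abs_lt]
  constructor
  · rintro ⟨-, h1, h2⟩
    exact ⟨by linarith, by linarith⟩
  · rintro ⟨h1, h2⟩
    refine ⟨?_, by linarith, by linarith⟩
    have h3 : (n : ℝ) ≤ ⌈x + H⌉₊ := by linarith [Nat.le_ceil (x + H)]
    have h4 : n ≤ ⌈x + H⌉₊ := by exact_mod_cast h3
    omega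

/-- the sieve condition -/
def SF_G (z d n : ℕ) : Prop := ∀ p ∈ Nat.primesBelow (z + 1), ¬ SF_c d p ∣ n

theorem SF_G_of {z d n : ℕ} (h1 : Squarefree n) (h2 : Nat.Coprime n d) : SF_G z d n := by
  intro p hp h
  have hpp := Nat.prime_of_mem_primesBelow hp
  unfold SF_c at h
  split_ifs at h with h3
  · exact Nat.not_coprime_of_dvd_of_dvd hpp.one_lt h h3 h2
  · rw [Nat.squarefree_iff_prime_squarefree] at h1
    exact h1 p hpp (by rw [← pow_two]; exact h)

theorem SF_of_G {z d n : ℕ} (hG : SF_G z d n) (h : ¬ (Squarefree n ∧ Nat.Coprime n d)) :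
    SF_Bad z d n := by
  by_contra hb
  apply h
  constructor
  · rw [Nat.squarefree_iff_prime_squarefree]
    intro p hp hpn
    rw [← pow_two] at hpn
    by_cases hzp : z < p
    · exact hb ⟨p, hp, hzp, Or.inl hpn⟩
    · refine hG p (Nat.mem_primesBelow.mpr ⟨by omega, hp⟩) ?_
      unfold SF_c
      split_ifs
      · exact (Dvd.intro_left p (by ring)).trans hpn
      · exact hpn
  · by_contra hc
    obtain ⟨p, hp, hpn, hpd⟩ := Nat.Prime.not_coprime_iff_dvd.mp hc
    by_cases hzp : z < p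
    · exact hb ⟨p, hp, hzp, Or.inr ⟨hpd, hpn⟩⟩
    · refine hG p (Nat.mem_primesBelow.mpr ⟨by omega, hp⟩) ?_
      unfold SF_c
      rw [if_pos hpd]
      exact hpn

/-- the pointwise estimate -/
theorem SF_point {z d : ℕ} (hd : 0 < d) (hz : 1 ≤ z) {x H : ℝ} (hH : 1 ≤ H) (hx : H / 2 ≤ x) :
    |((sfc d x H).card : ℝ) / H - rho d| ≤ (((win x H).filter (SF_Bad z d)).card : ℝ) / H +
      (2 ^ (Nat.primesBelow (z + 1)).card / H + (1 / (z : ℝ) + Rz z d)) := by
  have hH0 : 0 < H := by linarith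
  have h1 : (sfc d x H).card ≤ ((win x H).filter (SF_G z d)).card := by
    refine Finset.card_le_card fun n hn => ?_
    obtain ⟨hn1, hn2, hn3⟩ := Finset.mem_filter.mp hn
    exact Finset.mem_filter.mpr ⟨hn1, SF_G_of hn2 hn3⟩
  have h2 : ((win x H).filter (SF_G z d)).card ≤
      (sfc d x H).card + ((win x H).filter (SF_Bad z d)).card := by
    refine (Finset.card_le_card (fun n hn => ?_)).trans (Finset.card_union_le _ _)
    obtain ⟨hn1, hn2⟩ := Finset.mem_filter.mp hn
    rw [Finset.mem_union]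
    by_cases h : Squarefree n ∧ Nat.Coprime n d
    · exact Or.inl (Finset.mem_filter.mpr ⟨hn1, h⟩)
    · exact Or.inr (Finset.mem_filter.mpr ⟨hn1, SF_of_G hn2 h⟩)
  have h1' : ((sfc d x H).card : ℝ) ≤ ((win x H).filter (SF_G z d)).card := by exact_mod_cast h1
  have h2' : (((win x H).filter (SF_G z d)).card : ℝ) ≤
      (sfc d x H).card + ((win x H).filter (SF_Bad z d)).card := by exact_mod_cast h2
  have h3 : |(((win x H).filter (SF_G z d)).card : ℝ) - H * SF_rz d z| ≤
      2 ^ (Nat.primesBelow (z + 1)).card := by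
    have h4 := SF_sieve (SF_c d) (Nat.primesBelow (z + 1))
      (fun p hp => SF_c_pos d (Nat.prime_of_mem_primesBelow hp))
      (fun p hp p' hp' hne => SF_c_cop d (Nat.prime_of_mem_primesBelow hp)
        (Nat.prime_of_mem_primesBelow hp') hne) (x - H / 2) (x + H / 2) (by linarith)
        (by linarith)
    rw [← SF_win hH0.le hx, show x + H / 2 - (x - H / 2) = H by ring] at h4
    convert h4
    · rfl
    · rfl
  have h4 := SF_rho hd hz
  obtain ⟨S, hS⟩ : ∃ S : ℝ, S = ((sfc d x H).card : ℝ) := ⟨_, rfl⟩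
  obtain ⟨G, hG⟩ : ∃ G : ℝ, G = (((win x H).filter (SF_G z d)).card : ℝ) := ⟨_, rfl⟩
  obtain ⟨E, hE⟩ : ∃ E : ℝ, E = (((win x H).filter (SF_Bad z d)).card : ℝ) := ⟨_, rfl⟩
  obtain ⟨Q, hQ⟩ : ∃ Q : ℝ, Q = 2 ^ (Nat.primesBelow (z + 1)).card := ⟨_, rfl⟩
  rw [← hS, ← hG] at h1'
  rw [← hS, ← hG, ← hE] at h2'
  rw [← hG, ← hQ] at h3
  rw [← hS, ← hE, ← hQ]
  have e : S / H - rho d = (S - G) / H + (G - H * SF_rz d z) / H + (SF_rz d z - rho d) := by
    field_simp
    ring
  have h5 : |(S - G) / H| ≤ E / H := by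
    rw [abs_div, abs_of_pos hH0]
    exact div_le_div_of_nonneg_right (by rw [abs_le]; constructor <;> linarith) hH0.le
  have h6 : |(G - H * SF_rz d z) / H| ≤ Q / H := by
    rw [abs_div, abs_of_pos hH0]
    exact div_le_div_of_nonneg_right h3 hH0.le
  rw [e]
  have h7 := abs_add_le ((S - G) / H + (G - H * SF_rz d z) / H) (SF_rz d z - rho d)
  have h8 := abs_add_le ((S - G) / H) ((G - H * SF_rz d z) / H)
  linarith

/-! ### Averages -/

/-- the number of the elements of `S` in the window -/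
noncomputable def SF_cnt (S : Finset ℕ) (H x : ℝ) : ℝ :=
  ∑ n ∈ S, if |(n : ℝ) - x| < H / 2 then (1 : ℝ) else 0

theorem SF_ind (n : ℕ) (H : ℝ) : (fun x : ℝ => if |(n : ℝ) - x| < H / 2 then (1 : ℝ) else 0) =
    (Set.Ioo ((n : ℝ) - H / 2) (n + H / 2)).indicator (fun _ => (1 : ℝ)) := by
  funext x
  rw [Set.indicator_apply]
  have h : |(n : ℝ) - x| < H / 2 ↔ x ∈ Set.Ioo ((n : ℝ) - H / 2) (n + H / 2) := by
    rw [abs_lt, Set.mem_Ioo]
    constructor
    · rintro ⟨h1, h2⟩
      exact ⟨by linarith, by linarith⟩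
    · rintro ⟨h1, h2⟩
      exact ⟨by linarith, by linarith⟩
  simp only [h]

theorem SF_ind_int (n : ℕ) (H : ℝ) :
    Integrable (fun x : ℝ => if |(n : ℝ) - x| < H / 2 then (1 : ℝ) else 0) := by
  rw [SF_ind]
  exact (integrable_indicator_iff measurableSet_Ioo).mpr
    (integrableOn_const (by rw [Real.volume_Ioo]; exact ENNReal.ofReal_ne_top))

theorem SF_cnt_int (S : Finset ℕ) (H a b : ℝ) : IntervalIntegrable (SF_cnt S H) volume a b := by
  have h : Integrable (SF_cnt S H) := integrable_finsetSum _ fun n _ => SF_ind_int n H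
  exact h.intervalIntegrable

theorem SF_cnt_le (S : Finset ℕ) {H a b : ℝ} (hH : 0 ≤ H) (hab : a ≤ b) :
    ∫ x in a..b, SF_cnt S H x ≤ S.card * H := by
  unfold SF_cnt
  rw [intervalIntegral.integral_finsetSum (fun n _ => (SF_ind_int n H).intervalIntegrable)]
  rw [← nsmul_eq_mul, ← Finset.sum_const]
  refine Finset.sum_le_sum fun n _ => ?_
  rw [intervalIntegral.integral_of_le hab]
  refine (setIntegral_le_integral (SF_ind_int n H) (Eventually.of_forall fun x => by
    show (0 : ℝ) ≤ if |(n : ℝ) - x| < H / 2 then (1 : ℝ) else 0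
    split_ifs <;> norm_num)).trans ?_
  rw [SF_ind, integral_indicator_const _ measurableSet_Ioo, smul_eq_mul, mul_one,
    Real.volume_real_Ioo_of_le (by linarith)]
  linarith

theorem SF_cnt_eq {a b H : ℝ} (hH : 0 ≤ H) (ha : H / 2 ≤ a) (G : ℕ → Prop) [DecidablePred G] {x : ℝ}
    (hx : x ∈ Set.Icc a b) :
    (((win x H).filter G).card : ℝ) =
      SF_cnt ((SF_I (a - H / 2) (b + H / 2)).filter G) H x := by
  unfold SF_cnt
  rw [Finset.sum_boole, Finset.filter_filter]
  congr 2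
  rw [SF_win hH (ha.trans hx.1)]
  ext n
  rw [Finset.mem_filter, Finset.mem_filter, SF_mem (by linarith [hx.1]), SF_mem (by linarith),
    abs_lt]
  constructor
  · rintro ⟨⟨h1, h2⟩, h3⟩
    exact ⟨⟨by linarith [hx.1], by linarith [hx.2]⟩, h3, by linarith, by linarith⟩
  · rintro ⟨⟨h1, h2⟩, h3, h4, h5⟩
    exact ⟨⟨by linarith, by linarith⟩, h3⟩

/-- **SF** -/
theorem t_SF : S_SF := by
  intro q hq
  have hq0 : (1 : ℝ) ≤ q := by exact_mod_cast hq
  refine ⟨3 + 12 * q, by positivity, fun z hz2 => ?_⟩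
  have hz : 1 ≤ z := by omega
  refine ⟨7 * q + 2 ^ (Nat.primesBelow (z + 1)).card, by positivity, ?_⟩
  intro X a b H d hd hX hXa hbX hab hH hHX
  have hX0 : 0 < X := by linarith
  have hH0 : 0 < H := by linarith
  have h4q : (0 : ℝ) < 4 * q := by positivity
  have hXq : X / (4 * q) ≤ X / 4 := by
    apply div_le_div_of_nonneg_left hX0.le (by norm_num) (by linarith)
  have hba : 0 < b - a := lt_of_lt_of_le (by positivity) hab
  have haH : H / 2 ≤ a := by linarith
  obtain ⟨K, hK⟩ : ∃ K : ℝ, K = 2 ^ (Nat.primesBelow (z + 1)).card / H +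
    (1 / (z : ℝ) + Rz z d) := ⟨_, rfl⟩
  obtain ⟨SB, hSB⟩ : ∃ SB : Finset ℕ, SB = (SF_I (a - H / 2) (b + H / 2)).filter (SF_Bad z d) :=
    ⟨_, rfl⟩
  -- the integral
  have h1 : ∫ x in a..b, |((sfc d x H).card : ℝ) / H - rho d| ≤ SB.card + (b - a) * K := by
    have e1 : ∫ x in a..b, |((sfc d x H).card : ℝ) / H - rho d| =
        ∫ x in a..b, |SF_cnt ((SF_I (a - H / 2) (b + H / 2)).filter
          (fun n => Squarefree n ∧ Nat.Coprime n d)) H x / H - rho d| := by
      refine intervalIntegral.integral_congr fun x hx => ?_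
      rw [Set.uIcc_of_le (by linarith)] at hx
      rw [← SF_cnt_eq hH0.le haH _ hx]
      rfl
    rw [e1]
    have h2 : ∫ x in a..b, |SF_cnt ((SF_I (a - H / 2) (b + H / 2)).filter
          (fun n => Squarefree n ∧ Nat.Coprime n d)) H x / H - rho d| ≤
        ∫ x in a..b, (SF_cnt SB H x / H + K) := by
      refine intervalIntegral.integral_mono_on (by linarith) ?_ ?_ ?_
      · exact (((SF_cnt_int _ H a b).div_const H).sub intervalIntegrable_const).abs
      · exact ((SF_cnt_int _ H a b).div_const H).add intervalIntegrable_const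
      · intro x hx
        rw [← SF_cnt_eq hH0.le haH _ hx, hSB, ← SF_cnt_eq hH0.le haH _ hx, hK]
        exact SF_point hd hz hH (haH.trans hx.1)
    refine h2.trans ?_
    rw [intervalIntegral.integral_add ((SF_cnt_int _ H a b).div_const H)
      intervalIntegrable_const, intervalIntegral.integral_div, intervalIntegral.integral_const,
      smul_eq_mul]
    have h3 := SF_cnt_le SB hH0.le (show a ≤ b by linarith)
    have h4 : (∫ x in a..b, SF_cnt SB H x) / H ≤ SB.card := by
      rw [div_le_iff₀ hH0]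
      exact h3
    linarith
  have h2 := SF_bad_card (X := X) (u := a - H / 2) (v := b + H / 2) (z := z) (d := d)
    (by linarith) (by linarith) (by linarith) hz hd
  rw [← hSB] at h2
  have e3 : b + H / 2 - (a - H / 2) = b - a + H := by ring
  rw [e3] at h2
  have hR : 0 ≤ Rz z d := by
    unfold Rz
    exact Finset.sum_nonneg fun _ _ => by positivity
  have hz0 : (0 : ℝ) < z := by exact_mod_cast hz
  have hHba : H ≤ b - a := hHX.trans hab
  have hXba : X ≤ 4 * q * (b - a) := by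
    rw [div_le_iff₀ h4q] at hab
    linarith
  -- the first term
  have h3 : (b - a + H) / z ≤ (b - a) * (2 / z) := by
    rw [mul_div_assoc', div_le_div_iff_of_pos_right hz0]
    linarith
  have h4 : Real.sqrt (3 * X) ≤ (b - a) * (7 * q / Real.sqrt H) := by
    have hs : 0 < Real.sqrt H := Real.sqrt_pos.mpr hH0
    have hsX : 0 < Real.sqrt X := Real.sqrt_pos.mpr hX0
    have h5 : Real.sqrt H ≤ Real.sqrt X := Real.sqrt_le_sqrt (by linarith)
    rw [mul_div_assoc', le_div_iff₀ hs, Real.sqrt_mul (by norm_num)]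
    have h6 : Real.sqrt X * Real.sqrt X = X := Real.mul_self_sqrt hX0.le
    have h7 : Real.sqrt 3 ≤ 7 / 4 := by
      rw [Real.sqrt_le_left (by norm_num)]
      norm_num
    calc Real.sqrt 3 * Real.sqrt X * Real.sqrt H ≤ 7 / 4 * Real.sqrt X * Real.sqrt X := by
          apply mul_le_mul (mul_le_mul_of_nonneg_right h7 hsX.le) h5 hs.le (by positivity)
      _ = 7 / 4 * X := by rw [mul_assoc, h6]
      _ ≤ (b - a) * (7 * q) := by nlinarith
  have h5 : (b - a + H + 3 * X) * Rz z d ≤ (b - a) * ((2 + 12 * q) * Rz z d) := by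
    rw [← mul_assoc]
    refine mul_le_mul_of_nonneg_right ?_ hR
    nlinarith
  have h6 : (SB.card : ℝ) ≤ (b - a) * (2 / z + 7 * q / Real.sqrt H + (2 + 12 * q) * Rz z d) := by
    have : (b - a) * (2 / z + 7 * q / Real.sqrt H + (2 + 12 * q) * Rz z d) =
        (b - a) * (2 / z) + (b - a) * (7 * q / Real.sqrt H) +
          (b - a) * ((2 + 12 * q) * Rz z d) := by ring
    rw [this]
    linarith
  have h7 : dev d a b H ≤ (2 / z + 7 * q / Real.sqrt H + (2 + 12 * q) * Rz z d) + K := by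
    unfold dev
    rw [one_div_mul_eq_div, div_le_iff₀ hba]
    have : ((2 / z + 7 * q / Real.sqrt H + (2 + 12 * q) * Rz z d) + K) * (b - a) =
        (b - a) * (2 / z + 7 * q / Real.sqrt H + (2 + 12 * q) * Rz z d) + (b - a) * K := by ring
    rw [this]
    linarith
  refine h7.trans ?_
  rw [hK]
  have hs : 0 < Real.sqrt H := Real.sqrt_pos.mpr hH0
  have h8 : (2 : ℝ) ^ (Nat.primesBelow (z + 1)).card / H ≤
      2 ^ (Nat.primesBelow (z + 1)).card / Real.sqrt H := by
    apply div_le_div_of_nonneg_left (by positivity) hs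
    rw [Real.sqrt_le_left hH0.le]
    nlinarith
  have h9 : (3 + 12 * (q : ℝ)) * (1 / z + Rz z d) = 3 / z + 12 * q / z + (3 + 12 * q) * Rz z d := by
    ring
  have h10 : (7 * (q : ℝ) + 2 ^ (Nat.primesBelow (z + 1)).card) / Real.sqrt H =
      7 * q / Real.sqrt H + 2 ^ (Nat.primesBelow (z + 1)).card / Real.sqrt H := add_div _ _ _
  have h11 : (0 : ℝ) ≤ 12 * q / z := by positivity
  have h12 : (3 : ℝ) / z = 2 / z + 1 / z := by ring
  rw [h9, h10, h12]
  linarith

end Pool.Agent.N282.GC
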