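import Pool.Agent.N282.GC.Stm

/-!
# Project GC: prime divisors of most integers (helper901)
-/

set_option autoImplicit false

open MeasureTheory Filter Topology Classical

namespace Pool.Agent.N282.GC

theorem Sf2_nonneg (z d : ℕ) : 0 ≤ Rz z d :=
  Finset.sum_nonneg fun p _ => by positivity

theorem Sf2_mult (D n : ℕ) : ((Finset.Icc 1 D).filter fun d => n ∣ d).card = D / n := by
  rw [← Nat.Ioc_filter_dvd_card_eq_div]
  congr 1

theorem Sf2_sum (z D : ℕ) (hz : 1 ≤ z) : ∑ d ∈ Finset.Icc 1 D, Rz z d ≤ (D : ℝ) / z := by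
  have h1 : ∀ d ∈ Finset.Icc 1 D, Rz z d ≤ ∑ n ∈ Finset.Ioc z D, if n ∣ d then 1 / (n : ℝ) else 0 := by
    intro d hd
    rw [Finset.mem_Icc] at hd
    rw [← Finset.sum_filter]
    refine Finset.sum_le_sum_of_subset_of_nonneg ?_ fun n _ _ => by positivity
    intro p hp
    rw [Finset.mem_filter, Nat.mem_primeFactors] at hp
    rw [Finset.mem_filter, Finset.mem_Ioc]
    exact ⟨⟨hp.2, (Nat.le_of_dvd (by omega) hp.1.2.1).trans hd.2⟩, hp.1.2.1⟩
  refine (Finset.sum_le_sum h1).trans ?_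
  rw [Finset.sum_comm]
  have h2 : ∀ n ∈ Finset.Ioc z D, (∑ d ∈ Finset.Icc 1 D, if n ∣ d then 1 / (n : ℝ) else 0) ≤
      (D : ℝ) * ((n : ℝ) ^ 2)⁻¹ := by
    intro n hn
    rw [Finset.mem_Ioc] at hn
    have hn0 : (0 : ℝ) < n := by exact_mod_cast (by omega : 0 < n)
    rw [← Finset.sum_filter, Finset.sum_const, nsmul_eq_mul, Sf2_mult]
    have h3 : ((D / n : ℕ) : ℝ) ≤ (D : ℝ) / n := Nat.cast_div_le
    calc ((D / n : ℕ) : ℝ) * (1 / (n : ℝ)) ≤ ((D : ℝ) / n) * (1 / (n : ℝ)) :=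
          mul_le_mul_of_nonneg_right h3 (by positivity)
      _ = (D : ℝ) * ((n : ℝ) ^ 2)⁻¹ := by
          field_simp
  refine (Finset.sum_le_sum h2).trans ?_
  rw [← Finset.mul_sum]
  rcases le_or_gt z D with hzD | hzD
  · have h3 := sum_Ioc_inv_sq_le_sub (α := ℝ) (by omega : z ≠ 0) hzD
    have h4 : (0 : ℝ) ≤ (D : ℝ)⁻¹ := by positivity
    rw [div_eq_mul_inv]
    exact mul_le_mul_of_nonneg_left (by linarith) (Nat.cast_nonneg D)
  · rw [Finset.Ioc_eq_empty_of_le hzD.le, Finset.sum_empty, mul_zero]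
    positivity

theorem Sf2_markov (z D : ℕ) (hz : 1 ≤ z) {B : ℝ} (hB : 0 < B) :
    (((Finset.Icc 1 D).filter fun d => B < Rz z d).card : ℝ) ≤ (D : ℝ) / (z * B) := by
  have h1 : (((Finset.Icc 1 D).filter fun d => B < Rz z d).card : ℝ) * B ≤ (D : ℝ) / z := by
    refine le_trans ?_ (Sf2_sum z D hz)
    calc (((Finset.Icc 1 D).filter fun d => B < Rz z d).card : ℝ) * B =
        ∑ d ∈ (Finset.Icc 1 D).filter (fun d => B < Rz z d), B := by
          rw [Finset.sum_const, nsmul_eq_mul]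
      _ ≤ ∑ d ∈ (Finset.Icc 1 D).filter (fun d => B < Rz z d), Rz z d :=
          Finset.sum_le_sum fun d hd => (Finset.mem_filter.1 hd).2.le
      _ ≤ ∑ d ∈ Finset.Icc 1 D, Rz z d :=
          Finset.sum_le_sum_of_subset_of_nonneg (Finset.filter_subset _ _) fun d _ _ => Sf2_nonneg z d
  rw [← div_div, le_div_iff₀ hB]
  exact h1

theorem t_SF2 : S_SF2 := by
  intro η hη
  obtain ⟨z, hz⟩ : ∃ z : ℕ, z = max 2 (max ⌈1 / η⌉₊ ⌈1 / η ^ 2⌉₊) := ⟨_, rfl⟩
  have hz2 : 2 ≤ z := by rw [hz]; exact le_max_left _ _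
  have hz0 : (0 : ℝ) < z := by exact_mod_cast (by omega : 0 < z)
  have h1 : 1 / η ≤ z := by
    refine (Nat.le_ceil _).trans ?_
    exact_mod_cast (by rw [hz]; exact (le_max_left _ _).trans (le_max_right _ _) : ⌈1 / η⌉₊ ≤ z)
  have h2 : 1 / η ^ 2 ≤ z := by
    refine (Nat.le_ceil _).trans ?_
    exact_mod_cast (by rw [hz]; exact (le_max_right _ _).trans (le_max_right _ _) : ⌈1 / η ^ 2⌉₊ ≤ z)
  refine ⟨z, hz2, ?_, fun D => ?_⟩
  · rw [div_le_iff₀ hη] at h1
    rw [div_le_iff₀ hz0]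
    linarith
  · refine (Sf2_markov z D (by omega) hη).trans ?_
    rw [div_le_iff₀ (by positivity)]
    rw [div_le_iff₀ (by positivity)] at h2
    have hD : (0 : ℝ) ≤ D := Nat.cast_nonneg D
    nlinarith

theorem t_RHO : S_RHO := by
  intro η hη
  have hπ : 0 < 6 / Real.pi ^ 2 := by positivity
  refine ⟨6 / Real.pi ^ 2 * Real.exp (-(1 / η)), by positivity, fun D => ?_⟩
  have h1 : ∀ d : ℕ, 6 / Real.pi ^ 2 * Real.exp (-Rz 1 d) ≤ rho d := by
    intro d
    unfold rho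
    refine mul_le_mul_of_nonneg_left ?_ hπ.le
    have h2 : Rz 1 d = ∑ p ∈ d.primeFactors, 1 / (p : ℝ) := by
      unfold Rz
      congr 1
      refine Finset.filter_true_of_mem fun p hp => ?_
      exact (Nat.prime_of_mem_primeFactors hp).one_lt
    rw [h2, ← Finset.sum_neg_distrib, Real.exp_sum]
    refine Finset.prod_le_prod (fun p _ => (Real.exp_pos _).le) fun p hp => ?_
    have hp0 : (0 : ℝ) < p := by exact_mod_cast (Nat.prime_of_mem_primeFactors hp).pos
    rw [Real.exp_neg, le_div_iff₀ (by positivity), inv_mul_le_iff₀ (Real.exp_pos _)]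
    have h3 := Real.add_one_le_exp (1 / (p : ℝ))
    have h4 := mul_le_mul_of_nonneg_right h3 hp0.le
    have h5 : (1 / (p : ℝ) + 1) * p = p + 1 := by
      field_simp
      ring
    linarith
  refine le_trans ?_ ((Sf2_markov 1 D le_rfl (B := 1 / η) (by positivity)).trans (le_of_eq ?_))
  · norm_cast
    refine Finset.card_le_card fun d hd => ?_
    rw [Finset.mem_filter] at hd ⊢
    refine ⟨hd.1, ?_⟩
    have h2 := lt_of_le_of_lt (h1 d) hd.2
    have h3 := lt_of_mul_lt_mul_left h2 hπ.le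
    have h4 := Real.exp_lt_exp.1 h3
    linarith
  · push_cast
    field_simp

end Pool.Agent.N282.GC
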