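import Pool.Agent.N282.GC.Stm

/-!
# Project GC (helper282), part TR2 (helper364): the variance for all lengths
-/

set_option autoImplicit false

open MeasureTheory Filter Topology Classical

namespace Pool.Agent.N282.GC

/-! ### The net -/

lemma TR2_nt_pos (q i : ℕ) : 0 < nt q i := Real.rpow_pos_of_pos two_pos _

lemma TR2_nt_mono (q : ℕ) {i j : ℕ} (h : i ≤ j) : nt q i ≤ nt q j := by
  unfold nt
  refine Real.rpow_le_rpow_of_exponent_le one_le_two ?_
  gcongr

lemma TR2_nt_one (q i : ℕ) : 1 ≤ nt q i := by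
  unfold nt
  exact Real.one_le_rpow one_le_two (by positivity)

lemma TR2_nt_add {q : ℕ} (hq : 1 ≤ q) (i : ℕ) : nt q (i + q) = 2 * nt q i := by
  unfold nt
  have hq0 : (q : ℝ) ≠ 0 := by positivity
  have h : ((i + q : ℕ) : ℝ) / q = (i : ℝ) / q + 1 := by
    push_cast
    field_simp
  rw [h, Real.rpow_add two_pos, Real.rpow_one, mul_comm]

lemma TR2_two_rpow {q : ℕ} (hq : 1 ≤ q) : (2 : ℝ) ^ (1 / (q : ℝ)) ≤ 1 + 1 / q := by
  have hq0 : (0 : ℝ) < q := by exact_mod_cast hq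
  have h1 : (2 : ℝ) ≤ (1 + 1 / q) ^ q := by
    have h2 := one_add_mul_le_pow (a := 1 / (q : ℝ)) (by
      have : (0 : ℝ) < 1 / q := by positivity
      linarith) q
    rw [mul_one_div_cancel hq0.ne'] at h2
    linarith
  calc (2 : ℝ) ^ (1 / (q : ℝ)) ≤ ((1 + 1 / q) ^ q) ^ (1 / (q : ℝ)) :=
        Real.rpow_le_rpow (by norm_num) h1 (by positivity)
    _ = 1 + 1 / q := by
        rw [one_div (q : ℝ)]
        exact Real.pow_rpow_inv_natCast (by positivity) (by omega)

lemma TR2_nt_succ {q : ℕ} (hq : 1 ≤ q) (i : ℕ) : nt q (i + 1) ≤ (1 + 1 / q) * nt q i := by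
  unfold nt
  have h : ((i + 1 : ℕ) : ℝ) / q = (i : ℝ) / q + 1 / q := by
    push_cast
    ring
  rw [h, Real.rpow_add two_pos, mul_comm]
  exact mul_le_mul_of_nonneg_right (TR2_two_rpow hq) (by positivity)

lemma TR2_nt_ex {q : ℕ} (hq : 1 ≤ q) {x : ℝ} (hx : 1 ≤ x) :
    ∃ j : ℕ, nt q j ≤ x ∧ x < nt q (j + 1) := by
  have hq0 : (0 : ℝ) < q := by exact_mod_cast hq
  have hx0 : 0 < x := by linarith
  have hl : 0 ≤ Real.logb 2 x := Real.logb_nonneg one_lt_two hx
  have he : (2 : ℝ) ^ Real.logb 2 x = x := Real.rpow_logb two_pos (by norm_num) hx0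
  refine ⟨⌊q * Real.logb 2 x⌋₊, ?_, ?_⟩
  · have h1 := Nat.floor_le (mul_nonneg hq0.le hl)
    unfold nt
    calc (2 : ℝ) ^ ((⌊q * Real.logb 2 x⌋₊ : ℝ) / q) ≤ (2 : ℝ) ^ Real.logb 2 x := by
          refine Real.rpow_le_rpow_of_exponent_le one_le_two ?_
          rw [div_le_iff₀ hq0]
          linarith
      _ = x := he
  · have h1 := Nat.lt_floor_add_one (q * Real.logb 2 x)
    unfold nt
    calc x = (2 : ℝ) ^ Real.logb 2 x := he.symm
      _ < (2 : ℝ) ^ (((⌊q * Real.logb 2 x⌋₊ + 1 : ℕ) : ℝ) / q) := by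
          refine Real.rpow_lt_rpow_of_exponent_lt one_lt_two ?_
          rw [lt_div_iff₀ hq0]
          push_cast
          linarith

/-! ### Integrability -/

/-- a finite version of `M` -/
noncomputable def TR2_Mn (F : ℕ → ℝ) (N : ℕ) (H x : ℝ) : ℝ :=
  ∑ n ∈ Finset.range (N + 1), if |(n : ℝ) - x| < H / 2 then F n else 0

lemma TR2_M_eq (F : ℕ → ℝ) {x H : ℝ} (hH : 0 ≤ H) {N : ℕ} (hN : x + H ≤ N) :
    M F x H = TR2_Mn F N H x := by
  unfold M TR2_Mn win
  rw [← Finset.sum_filter]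
  refine Finset.sum_congr ?_ fun _ _ => rfl
  ext n
  rw [Finset.mem_filter, Finset.mem_filter, Finset.mem_range, Finset.mem_range]
  refine and_congr_left fun h => ?_
  have h1 : (n : ℝ) ≤ x + H := by
    have := (abs_lt.1 h).2
    linarith
  constructor
  · intro _
    have h2 : n ≤ N := by exact_mod_cast h1.trans hN
    omega
  · intro _
    have h2 : n ≤ ⌈x + H⌉₊ := by exact_mod_cast h1.trans (Nat.le_ceil _)
    omega

lemma TR2_Mn_meas (F : ℕ → ℝ) (N : ℕ) (H : ℝ) : Measurable (TR2_Mn F N H) := by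
  unfold TR2_Mn
  refine Finset.measurable_sum _ fun n _ => ?_
  refine Measurable.ite ?_ measurable_const measurable_const
  exact measurableSet_lt ((measurable_const.sub measurable_id).abs) measurable_const

lemma TR2_Mn_le {F : ℕ → ℝ} (hF : ∀ n, |F n| ≤ 1) (N : ℕ) (H x : ℝ) :
    |TR2_Mn F N H x| ≤ N + 1 := by
  unfold TR2_Mn
  refine (Finset.abs_sum_le_sum_abs _ _).trans ?_
  calc ∑ n ∈ Finset.range (N + 1), |if |(n : ℝ) - x| < H / 2 then F n else 0|
      ≤ ∑ n ∈ Finset.range (N + 1), (1 : ℝ) := by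
        refine Finset.sum_le_sum fun n _ => ?_
        split_ifs
        · exact hF n
        · rw [abs_zero]
          exact zero_le_one
    _ = N + 1 := by
        rw [Finset.sum_const, Finset.card_range, nsmul_eq_mul, mul_one]
        push_cast
        ring

lemma TR2_int {F : ℕ → ℝ} (hF : ∀ n, |F n| ≤ 1) {H H' : ℝ} (hH : 0 ≤ H) (hH' : 0 ≤ H')
    (c c' a b : ℝ) :
    IntervalIntegrable (fun x => (c * M F x H + c' * M F x H') ^ 2) volume a b := by
  obtain ⟨N, hN⟩ := exists_nat_ge (max a b + H + H')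
  rw [intervalIntegrable_iff]
  have h1 : IntegrableOn (fun x => (c * TR2_Mn F N H x + c' * TR2_Mn F N H' x) ^ 2)
      (Set.uIoc a b) volume := by
    refine Measure.integrableOn_of_bounded (M := ((|c| + |c'|) * (N + 1)) ^ 2) ?_ ?_ ?_
    · rw [Set.uIoc]
      exact measure_Ioc_lt_top.ne
    · exact ((((TR2_Mn_meas F N H).const_mul c).add
        ((TR2_Mn_meas F N H').const_mul c')).pow_const 2).aestronglyMeasurable
    · refine Filter.Eventually.of_forall fun x => ?_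
      rw [Real.norm_eq_abs, abs_pow]
      refine pow_le_pow_left₀ (abs_nonneg _) ?_ 2
      calc |c * TR2_Mn F N H x + c' * TR2_Mn F N H' x|
          ≤ |c * TR2_Mn F N H x| + |c' * TR2_Mn F N H' x| := abs_add_le _ _
        _ = |c| * |TR2_Mn F N H x| + |c'| * |TR2_Mn F N H' x| := by rw [abs_mul, abs_mul]
        _ ≤ |c| * (N + 1) + |c'| * (N + 1) :=
            add_le_add (mul_le_mul_of_nonneg_left (TR2_Mn_le hF N H x) (abs_nonneg _))
              (mul_le_mul_of_nonneg_left (TR2_Mn_le hF N H' x) (abs_nonneg _))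
        _ = (|c| + |c'|) * (N + 1) := by ring
  refine h1.congr_fun ?_ measurableSet_uIoc
  intro x hx
  have hx1 : x ≤ max a b := (Set.mem_uIoc.1 hx).elim (fun h => h.2.trans (le_max_right _ _))
    (fun h => h.2.trans (le_max_left _ _))
  have e1 : M F x H = TR2_Mn F N H x := TR2_M_eq F hH (by linarith)
  have e2 : M F x H' = TR2_Mn F N H' x := TR2_M_eq F hH' (by linarith)
  change (c * TR2_Mn F N H x + c' * TR2_Mn F N H' x) ^ 2 = (c * M F x H + c' * M F x H') ^ 2
  rw [e1, e2]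

lemma TR2_int1 {F : ℕ → ℝ} (hF : ∀ n, |F n| ≤ 1) {H : ℝ} (hH : 0 ≤ H) (a b : ℝ) :
    IntervalIntegrable (fun x => M F x H ^ 2) volume a b := by
  have h := TR2_int hF hH hH 1 0 a b
  simpa using h

lemma TR2_int2 {F : ℕ → ℝ} (hF : ∀ n, |F n| ≤ 1) {H H' : ℝ} (hH : 0 ≤ H) (hH' : 0 ≤ H')
    (a b : ℝ) : IntervalIntegrable (fun x => (M F x H - M F x H') ^ 2) volume a b := by
  have h := TR2_int hF hH hH' 1 (-1) a b
  simpa [sub_eq_add_neg] using h

/-! ### The sum over the net -/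

lemma TR2_range {F : ℕ → ℝ} (hF : ∀ n, |F n| ≤ 1) {q : ℕ} {h r δ : ℝ} (hh : 0 ≤ h) (m n : ℕ)
    (hmn : m ≤ n)
    (H : ∀ i, m ≤ i → i < n → |mom F 2 (nt q i) (nt q (i + 1)) h - r| ≤ δ) :
    |(∫ x in (nt q m)..(nt q n), M F x h ^ 2) - (nt q n - nt q m) * r| ≤
      (nt q n - nt q m) * δ := by
  induction n, hmn using Nat.le_induction with
  | base => simp
  | succ n hmn ih =>
    have h1 := ih fun i hi hin => H i hi (by omega)
    have h2 := H n hmn (by omega)
    rw [← intervalIntegral.integral_add_adjacent_intervals (TR2_int1 hF hh (nt q m) (nt q n))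
      (TR2_int1 hF hh (nt q n) (nt q (n + 1)))]
    have h3 : |(∫ x in (nt q n)..(nt q (n + 1)), M F x h ^ 2) - (nt q (n + 1) - nt q n) * r| ≤
        (nt q (n + 1) - nt q n) * δ := by
      rcases (TR2_nt_mono q (Nat.le_succ n)).eq_or_lt with h4 | h4
      · rw [← h4]
        simp
      · have h5 : 0 < nt q (n + 1) - nt q n := sub_pos.2 h4
        have h6 : (∫ x in (nt q n)..(nt q (n + 1)), M F x h ^ 2) =
            (nt q (n + 1) - nt q n) * mom F 2 (nt q n) (nt q (n + 1)) h := by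
          unfold mom
          rw [← mul_assoc, mul_one_div_cancel h5.ne', one_mul]
        rw [h6, ← mul_sub, abs_mul, abs_of_pos h5]
        exact mul_le_mul_of_nonneg_left h2 h5.le
    rw [abs_le] at h1 h3 ⊢
    constructor <;> nlinarith [h1.1, h1.2, h3.1, h3.2]

/-- the mean square for the lengths of the net -/
lemma TR2_net {F : ℕ → ℝ} (hF : ∀ n, |F n| ≤ 1) {q : ℕ} (hq : 1 ≤ q) {ρ δ h X : ℝ} (hρ0 : 0 ≤ ρ)
    (hρ1 : ρ ≤ 1) (hδ0 : 0 ≤ δ) (hδ1 : δ ≤ 1) (hh : 0 ≤ h) (hX : 1 ≤ X)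
    (H : ∀ i, X / 2 ≤ nt q i → nt q i ≤ 2 * X → nt q (i + 1) ≤ 4 * X →
      |mom F 2 (nt q i) (nt q (i + 1)) h - ρ * h| ≤ δ * h) :
    |(1 / X) * (∫ x in X..2 * X, M F x h ^ 2) - ρ * h| ≤ (δ + 4 / q) * h := by
  have hX0 : 0 < X := by linarith
  have hq0 : (0 : ℝ) < q := by exact_mod_cast hq
  have hq1 : (1 : ℝ) ≤ q := by exact_mod_cast hq
  obtain ⟨m, hm1, hm2⟩ := TR2_nt_ex hq hX
  have ha' := TR2_nt_succ hq m
  have haa := TR2_nt_mono q (Nat.le_succ m)
  have ha0 := TR2_nt_pos q m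
  obtain ⟨u, hu⟩ : ∃ u : ℝ, u = 1 / (q : ℝ) := ⟨_, rfl⟩
  have hu0 : 0 < u := by rw [hu]; positivity
  have hu1 : u ≤ 1 := by rw [hu, div_le_one hq0]; exact hq1
  have h4u : (4 : ℝ) / q = 4 * u := by rw [hu]; ring
  rw [← hu] at ha'
  rw [h4u]
  have hI : ∀ i, m ≤ i → i ≤ m + q → |mom F 2 (nt q i) (nt q (i + 1)) h - ρ * h| ≤ δ * h := by
    intro i h1 h2
    refine H i ?_ ?_ ?_
    · have := TR2_nt_mono q h1
      nlinarith
    · have h3 := TR2_nt_mono q h2
      rw [TR2_nt_add hq] at h3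
      linarith
    · have h3 : nt q (i + 1) ≤ nt q (m + 1 + q) := TR2_nt_mono q (by omega)
      rw [TR2_nt_add hq] at h3
      nlinarith
  have e1 : nt q (m + 1 + q) = 2 * nt q (m + 1) := TR2_nt_add hq _
  have e2 : nt q (m + q) = 2 * nt q m := TR2_nt_add hq _
  have hU := TR2_range hF hh m (m + 1 + q) (by omega) (r := ρ * h) (δ := δ * h)
    (fun i h1 h2 => hI i h1 (by omega))
  have hL := TR2_range hF hh (m + 1) (m + q) (by omega) (r := ρ * h) (δ := δ * h)
    (fun i h1 h2 => hI i (by omega) (by omega))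
  have hnn : ∀ c d : ℝ, 0 ≤ᵐ[volume.restrict (Set.Ioc c d)] (fun x => M F x h ^ 2) := fun c d =>
    Filter.Eventually.of_forall fun x => sq_nonneg _
  have hIU : (∫ x in X..2 * X, M F x h ^ 2) ≤
      ∫ x in (nt q m)..(nt q (m + 1 + q)), M F x h ^ 2 :=
    intervalIntegral.integral_mono_interval hm1 (by linarith) (by rw [e1]; linarith) (hnn _ _)
      (TR2_int1 hF hh _ _)
  have hLI : (∫ x in (nt q (m + 1))..(nt q (m + q)), M F x h ^ 2) ≤
      ∫ x in X..2 * X, M F x h ^ 2 :=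
    intervalIntegral.integral_mono_interval hm2.le (TR2_nt_mono q (by omega))
      (by rw [e2]; linarith) (hnn _ _) (TR2_int1 hF hh _ _)
  rw [e1] at hU
  rw [e2] at hL
  have hU2 := (abs_le.1 hU).2
  have hL2 := (abs_le.1 hL).1
  rw [e1] at hIU
  rw [e2] at hLI
  generalize (∫ x in (nt q m)..(2 * nt q (m + 1)), M F x h ^ 2) = U at *
  generalize (∫ x in (nt q (m + 1))..(2 * nt q m), M F x h ^ 2) = L at *
  generalize (∫ x in X..2 * X, M F x h ^ 2) = I at *
  generalize nt q m = a at *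
  generalize nt q (m + 1) = a' at *
  have hup : I ≤ X * ((ρ * h + δ * h) + 4 * u * h) := by
    have h1 : I ≤ (2 * a' - a) * (ρ * h + δ * h) := by linarith
    have h2 : 2 * a' - a ≤ (1 + 2 * u) * X := by nlinarith
    have h3 : 0 ≤ ρ * h + δ * h := by positivity
    have h4 : ρ * h + δ * h ≤ 2 * h := by nlinarith
    calc I ≤ (2 * a' - a) * (ρ * h + δ * h) := h1
      _ ≤ ((1 + 2 * u) * X) * (ρ * h + δ * h) := mul_le_mul_of_nonneg_right h2 h3
      _ = X * ((ρ * h + δ * h) + 2 * u * (ρ * h + δ * h)) := by ring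
      _ ≤ X * ((ρ * h + δ * h) + 2 * u * (2 * h)) := by
          refine mul_le_mul_of_nonneg_left (add_le_add le_rfl ?_) hX0.le
          exact mul_le_mul_of_nonneg_left h4 (by positivity)
      _ = X * ((ρ * h + δ * h) + 4 * u * h) := by ring
  have hlo : X * (ρ * h - 4 * u * h - δ * h) ≤ I := by
    have h1 : (2 * a - a') * (ρ * h) - (2 * a - a') * (δ * h) ≤ I := by linarith
    have h2 : 2 * a - a' ≤ X := by linarith
    have h3 : X * (1 - 2 * u) ≤ 2 * a - a' := by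
      -- a' ≤ (1+u) a, X < a'
      have h5 : X ≤ (1 + u) * a := by linarith
      have h6 : X * (1 - 2 * u) ≤ (1 - u) * a := by nlinarith
      linarith
    have h4 : 0 ≤ δ * h := by positivity
    have h5 : 0 ≤ ρ * h := by positivity
    have h6 : ρ * h ≤ h := by nlinarith
    calc X * (ρ * h - 4 * u * h - δ * h) ≤ X * (ρ * h - 2 * u * h - δ * h) := by
          refine mul_le_mul_of_nonneg_left ?_ hX0.le
          nlinarith [mul_nonneg hu0.le hh]
      _ ≤ X * (ρ * h - 2 * u * (ρ * h) - δ * h) := by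
          refine mul_le_mul_of_nonneg_left ?_ hX0.le
          nlinarith [mul_le_mul_of_nonneg_left h6 hu0.le]
      _ = X * (1 - 2 * u) * (ρ * h) - X * (δ * h) := by ring
      _ ≤ (2 * a - a') * (ρ * h) - (2 * a - a') * (δ * h) :=
          sub_le_sub (mul_le_mul_of_nonneg_right h3 h5) (mul_le_mul_of_nonneg_right h2 h4)
      _ ≤ I := h1
  rw [abs_le]
  constructor
  · have h1 : (ρ * h - 4 * u * h - δ * h) ≤ 1 / X * I := by
      rw [one_div, inv_mul_eq_div, le_div_iff₀ hX0]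
      linarith
    linarith
  · have h1 : 1 / X * I ≤ (ρ * h + δ * h) + 4 * u * h := by
      rw [one_div, inv_mul_eq_div, div_le_iff₀ hX0]
      linarith
    linarith

/-- comparison of the mean squares -/
lemma TR2_cmp {F : ℕ → ℝ} (hF : ∀ n, |F n| ≤ 1) {H h X θ : ℝ} (hH : 0 ≤ H) (hh : 0 ≤ h)
    (hX : 0 < X) (hθ : 0 < θ) :
    (1 / X) * (∫ x in X..2 * X, M F x H ^ 2) ≤
      (1 + θ) * ((1 / X) * ∫ x in X..2 * X, M F x h ^ 2) +
        (1 + 1 / θ) * ((1 / X) * ∫ x in X..2 * X, (M F x H - M F x h) ^ 2) := by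
  have h1 := (TR2_int1 hF hh X (2 * X)).const_mul (1 + θ)
  have h2 := (TR2_int2 hF hH hh X (2 * X)).const_mul (1 + 1 / θ)
  have h3 : (∫ x in X..2 * X, M F x H ^ 2) ≤
      ∫ x in X..2 * X, ((1 + θ) * M F x h ^ 2 + (1 + 1 / θ) * (M F x H - M F x h) ^ 2) := by
    refine intervalIntegral.integral_mono_on (by linarith) (TR2_int1 hF hH X (2 * X))
      (h1.add h2) fun x _ => ?_
    have h4 : (1 + θ) * M F x h ^ 2 + (1 + 1 / θ) * (M F x H - M F x h) ^ 2 - M F x H ^ 2 =
        (θ * M F x h - (M F x H - M F x h)) ^ 2 / θ := by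
      field_simp
      ring
    have h5 : 0 ≤ (θ * M F x h - (M F x H - M F x h)) ^ 2 / θ := by positivity
    linarith
  rw [intervalIntegral.integral_add h1 h2, intervalIntegral.integral_const_mul,
    intervalIntegral.integral_const_mul] at h3
  have h4 := mul_le_mul_of_nonneg_left h3 (one_div_nonneg.2 hX.le)
  linarith

lemma TR2_gm : gm 2 = 1 := by
  unfold gm
  rw [if_pos (by decide)]
  norm_num [Nat.doubleFactorial]

theorem t_TR2 (hCH : S_CH) : S_TR2 := by
  intro ε η hε hε2 hη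
  obtain ⟨C, hC0, hC⟩ := hCH (ε / 2) (by linarith) (by linarith)
  obtain ⟨e, he0, he1, heη⟩ : ∃ e : ℝ, 0 < e ∧ e ≤ 1 ∧ e ≤ η :=
    ⟨min η 1, lt_min hη one_pos, min_le_right _ _, min_le_left _ _⟩
  obtain ⟨q, hq1, hq2⟩ : ∃ q : ℕ, 1 ≤ q ∧ 40 / e + 4 * (1 + 1 / (e / 52)) * C / e ≤ (q : ℝ) :=
    ⟨⌈40 / e + 4 * (1 + 1 / (e / 52)) * C / e⌉₊ + 1, by omega, by
      push_cast
      have := Nat.le_ceil (40 / e + 4 * (1 + 1 / (e / 52)) * C / e)
      linarith⟩
  have hq0 : (0 : ℝ) < q := by exact_mod_cast hq1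
  have hq1' : (1 : ℝ) ≤ q := by exact_mod_cast hq1
  have hp1 : 0 < 40 / e := by positivity
  have hp2 : 0 < 4 * (1 + 1 / (e / 52)) * C / e := by positivity
  have hqa : 40 / (q : ℝ) ≤ e := by
    rw [div_le_iff₀ hq0]
    have h1 : 40 / e ≤ (q : ℝ) := by linarith
    rw [div_le_iff₀ he0] at h1
    linarith
  have hqb : (1 + 1 / (e / 52)) * C / q ≤ e / 4 := by
    rw [div_le_iff₀ hq0]
    have h1 : 4 * (1 + 1 / (e / 52)) * C / e ≤ (q : ℝ) := by linarith
    rw [div_le_iff₀ he0] at h1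
    linarith
  refine ⟨q, e / 8, hq1, by positivity, ?_⟩
  intro X1
  obtain ⟨X2, hX2, hC2⟩ := hC q hq1 X1
  refine ⟨max X2 (max (2 * X1) ((2 : ℝ) ^ (2 / ε))), hX2.trans (le_max_left _ _), ?_⟩
  intro Y F ρ hF hρ0 hρ1 hNet X H hX hY hH1 hH2
  have hXa : X2 ≤ X := (le_max_left _ _).trans hX
  have hXb : 2 * X1 ≤ X := (le_max_left _ _).trans ((le_max_right _ _).trans hX)
  have hXc : (2 : ℝ) ^ (2 / ε) ≤ X := (le_max_right _ _).trans ((le_max_right _ _).trans hX)
  have hX1 : 1 ≤ X := hX2.trans hXa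
  have hX0 : 0 < X := by linarith
  have hX16 : 16 ≤ X := by
    refine le_trans ?_ hXc
    have h1 : (4 : ℝ) ≤ 2 / ε := by
      rw [le_div_iff₀ hε]
      linarith
    calc (16 : ℝ) = (2 : ℝ) ^ (4 : ℝ) := by norm_num
      _ ≤ (2 : ℝ) ^ (2 / ε) := Real.rpow_le_rpow_of_exponent_le one_le_two h1
  have hXe : 2 ≤ X ^ (ε / 2) := by
    have h1 := Real.rpow_le_rpow (by positivity) hXc (by positivity : (0 : ℝ) ≤ ε / 2)
    rw [← Real.rpow_mul (by norm_num)] at h1
    have h2 : 2 / ε * (ε / 2) = 1 := by field_simp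
    rwa [h2, Real.rpow_one] at h1
  have hXε : X ^ ε = X ^ (ε / 2) * X ^ (ε / 2) := by
    rw [← Real.rpow_add hX0]
    congr 1
    ring
  have hH0 : 1 ≤ H := by
    refine le_trans ?_ hH1
    exact Real.one_le_rpow hX1 hε.le
  obtain ⟨j, hj1, hj2⟩ := TR2_nt_ex hq1 hH0
  have hj3 := TR2_nt_succ hq1 j
  have hj0 := TR2_nt_pos q j
  have hHh : H ≤ (1 + 1 / q) * nt q j := hj2.le.trans hj3
  have hu1 : 1 / (q : ℝ) ≤ 1 := by rw [div_le_one hq0]; exact hq1'
  have hhX : X ^ (ε / 2) ≤ nt q j := by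
    have h1 : H ≤ 2 * nt q j := hHh.trans (mul_le_mul_of_nonneg_right (by linarith) hj0.le)
    nlinarith
  have hhX2 : nt q j ≤ X ^ (1 - ε) := hj1.trans hH2
  have hNet' : Net F ρ q 2 (ε / 2 / 8) 1 X1 Y := by
    intro i k h1 h2 h3 h4
    have hn1 := TR2_nt_one q i
    refine (hNet i k h1 h2 (le_trans ?_ h3) (h4.trans ?_)).trans ?_
    · exact Real.rpow_le_rpow_of_exponent_le hn1 (by linarith)
    · exact Real.rpow_le_rpow_of_exponent_le hn1 (by linarith)
    · refine mul_le_mul_of_nonneg_right (by linarith) ?_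
      exact Real.rpow_nonneg (TR2_nt_pos q k).le _
  have hE := hC2 Y F ρ hF hρ0 hρ1 hNet' X (nt q j) H hXa hY hhX
    (hhX2.trans (Real.rpow_le_rpow_of_exponent_le hX1 (by linarith))) hj1 hHh
  have hB := TR2_net hF hq1 hρ0 hρ1 (by positivity : (0 : ℝ) ≤ e / 8) (by linarith) hj0.le hX1
    (fun i h1 h2 h3 => by
      have h4 := hNet i j (by linarith) (by linarith) ?_ ?_
      · rw [TR2_gm, one_mul] at h4
        have h5 : ((2 : ℕ) : ℝ) / 2 = 1 := by norm_num
        rw [h5, Real.rpow_one, Real.rpow_one] at h4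
        exact h4
      · refine le_trans ?_ hhX
        have h5 : nt q i ≤ X ^ (2 : ℝ) := by
          have : X ^ (2 : ℝ) = X * X := by
            rw [← sq]
            exact_mod_cast Real.rpow_natCast X 2
          rw [this]
          nlinarith
        calc nt q i ^ (ε / 32) ≤ (X ^ (2 : ℝ)) ^ (ε / 32) :=
              Real.rpow_le_rpow (TR2_nt_pos q i).le h5 (by positivity)
          _ = X ^ (2 * (ε / 32)) := by rw [← Real.rpow_mul hX0.le]
          _ ≤ X ^ (ε / 2) := Real.rpow_le_rpow_of_exponent_le hX1 (by linarith)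
      · refine hhX2.trans ?_
        have h5 : X ^ (1 - ε) * 2 ≤ X ^ (1 - ε / 32) := by
          calc X ^ (1 - ε) * 2 ≤ X ^ (1 - ε) * X ^ (ε / 2) :=
                mul_le_mul_of_nonneg_left hXe (by positivity)
            _ = X ^ (1 - ε + ε / 2) := (Real.rpow_add hX0 _ _).symm
            _ ≤ X ^ (1 - ε / 32) := Real.rpow_le_rpow_of_exponent_le hX1 (by linarith)
        have h6 : (2 : ℝ) ^ (1 - ε / 32) ≤ 2 := by
          calc (2 : ℝ) ^ (1 - ε / 32) ≤ (2 : ℝ) ^ (1 : ℝ) :=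
                Real.rpow_le_rpow_of_exponent_le one_le_two (by linarith)
            _ = 2 := Real.rpow_one 2
        have h7 : X ^ (1 - ε) ≤ (X / 2) ^ (1 - ε / 32) := by
          rw [Real.div_rpow hX0.le (by norm_num), le_div_iff₀ (by positivity)]
          exact (mul_le_mul_of_nonneg_left h6 (by positivity)).trans h5
        exact h7.trans (Real.rpow_le_rpow (by positivity) h1 (by linarith)))
  have hc1 := TR2_cmp hF (by linarith : (0 : ℝ) ≤ H) hj0.le hX0 (by positivity : 0 < e / 52)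
  have hc2 := TR2_cmp hF hj0.le (by linarith : (0 : ℝ) ≤ H) hX0 (by positivity : 0 < e / 52)
  have hsym : (∫ x in X..2 * X, (M F x (nt q j) - M F x H) ^ 2) =
      ∫ x in X..2 * X, (M F x H - M F x (nt q j)) ^ 2 := by
    refine intervalIntegral.integral_congr fun x _ => ?_
    ring
  rw [hsym] at hc2
  generalize (1 / X) * (∫ x in X..2 * X, (M F x H - M F x (nt q j)) ^ 2) = E at *
  generalize (1 / X) * (∫ x in X..2 * X, M F x H ^ 2) = A at *
  generalize (1 / X) * (∫ x in X..2 * X, M F x (nt q j) ^ 2) = B at *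
  generalize nt q j = h at *
  have hE2 : (1 + 1 / (e / 52)) * E ≤ e / 4 * h := by
    calc (1 + 1 / (e / 52)) * E ≤ (1 + 1 / (e / 52)) * (C * h / q) :=
          mul_le_mul_of_nonneg_left hE (by positivity)
      _ = ((1 + 1 / (e / 52)) * C / q) * h := by ring
      _ ≤ e / 4 * h := mul_le_mul_of_nonneg_right hqb hj0.le
  have hq4 : 4 / (q : ℝ) ≤ e / 10 := by
    have : 4 / (q : ℝ) = (40 / q) / 10 := by ring
    rw [this]
    linarith
  have hq5 : 1 / (q : ℝ) ≤ e / 40 := by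
    have : 1 / (q : ℝ) = (40 / q) / 40 := by ring
    rw [this]
    linarith
  have hB2 : |B - ρ * h| ≤ (e / 8 + e / 10) * h :=
    hB.trans (mul_le_mul_of_nonneg_right (by linarith) hj0.le)
  have hρh : ρ * h ≤ h := by nlinarith
  have hρh0 : 0 ≤ ρ * h := by positivity
  have hBl := abs_le.1 hB2
  have heh : 0 < e * h := by positivity
  have heh1 : e * h ≤ h := by nlinarith
  have hB3 : B ≤ 2 * h := by linarith [hBl.2]
  have hB0 : -h ≤ B := by linarith [hBl.1]
  have hA1 : A ≤ B + e / 52 * (2 * h) + e / 4 * h := by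
    have h1 : e / 52 * B ≤ e / 52 * (2 * h) := mul_le_mul_of_nonneg_left hB3 (by positivity)
    linarith
  have hA2 : A ≤ 3 * h := by linarith
  have hB4 : B ≤ A + e / 52 * (3 * h) + e / 4 * h := by
    have h1 : e / 52 * A ≤ e / 52 * (3 * h) := mul_le_mul_of_nonneg_left hA2 (by positivity)
    linarith
  have hρH1 : ρ * h ≤ ρ * H := mul_le_mul_of_nonneg_left hj1 hρ0
  have hρH2 : ρ * H ≤ ρ * h + e / 40 * h := by
    have h1 : ρ * H ≤ ρ * ((1 + 1 / q) * h) := mul_le_mul_of_nonneg_left hHh hρ0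
    have h2 : ρ * ((1 + 1 / q) * h) = ρ * h + (1 / q) * (ρ * h) := by ring
    have h3 : (1 / (q : ℝ)) * (ρ * h) ≤ (e / 40) * h :=
      mul_le_mul hq5 hρh hρh0 (by positivity)
    linarith
  have hfin : e * h ≤ η * H := mul_le_mul heη hj1 hj0.le hη.le
  rw [abs_le]
  constructor
  · linarith [hBl.1]
  · linarith [hBl.2]

end Pool.Agent.N282.GC
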