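import Pool.Agent.N282.GC.Stm

/-!
# Project GC (helper282), part TRC (helper187): the distribution function for all `X` and `H`
-/

set_option autoImplicit false

open MeasureTheory Filter Topology Classical

namespace Pool.Agent.N282.GC

/-! ### the net -/

theorem Trc_nt_pos (q i : ℕ) : 0 < nt q i := Real.rpow_pos_of_pos two_pos _

theorem Trc_nt_one (q i : ℕ) : 1 ≤ nt q i := Real.one_le_rpow (by norm_num) (by positivity)

theorem Trc_nt_mono {q i j : ℕ} (h : i ≤ j) : nt q i ≤ nt q j := by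
  unfold nt
  refine Real.rpow_le_rpow_of_exponent_le (by norm_num) ?_
  have : (i : ℝ) ≤ j := by exact_mod_cast h
  exact div_le_div_of_nonneg_right this (by positivity)

theorem Trc_nt_succ (q i : ℕ) : nt q (i + 1) = nt q i * (2 : ℝ) ^ ((1 : ℝ) / q) := by
  unfold nt
  rw [← Real.rpow_add two_pos]
  congr 1
  push_cast
  ring

theorem Trc_two {q : ℕ} (hq : 1 ≤ q) : (2 : ℝ) ^ ((1 : ℝ) / q) ≤ 1 + 1 / q := by
  have hq' : (1 : ℝ) ≤ q := by exact_mod_cast hq
  have h := rpow_one_add_le_one_add_mul_self (s := 1) (p := 1 / (q : ℝ)) (by norm_num)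
    (by positivity) (by rw [div_le_one (by linarith)]; exact hq')
  rw [show (1 : ℝ) + 1 = 2 by norm_num, mul_one] at h
  exact h

theorem Trc_two' {q : ℕ} (hq : 1 ≤ q) : (2 : ℝ) ^ ((1 : ℝ) / q) ≤ 2 := by
  have hq' : (1 : ℝ) ≤ q := by exact_mod_cast hq
  have h1 : 1 / (q : ℝ) ≤ 1 := by rw [div_le_one (by linarith)]; exact hq'
  linarith [Trc_two hq]

theorem Trc_ex {q : ℕ} (hq : 1 ≤ q) {x : ℝ} (hx : 1 ≤ x) : ∃ j : ℕ, nt q j ≤ x ∧ x < nt q (j + 1) := by
  have hq' : (0 : ℝ) < q := by exact_mod_cast hq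
  have hx0 : 0 < x := by linarith
  have hl : 0 ≤ (q : ℝ) * Real.logb 2 x := mul_nonneg hq'.le (Real.logb_nonneg (by norm_num) hx)
  refine ⟨⌊(q : ℝ) * Real.logb 2 x⌋₊, ?_, ?_⟩
  · unfold nt
    rw [← Real.le_logb_iff_rpow_le (by norm_num) hx0, div_le_iff₀ hq']
    exact (Nat.floor_le hl).trans_eq (mul_comm _ _)
  · unfold nt
    rw [← Real.logb_lt_iff_lt_rpow (by norm_num) hx0, lt_div_iff₀ hq', mul_comm]
    push_cast
    exact Nat.lt_floor_add_one _

/-! ### the sums as measurable functions -/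

/-- the sum over the window, as a sum over a fixed range -/
noncomputable def Trc_G (F : ℕ → ℝ) (N : ℕ) (H x : ℝ) : ℝ :=
  ∑ n ∈ Finset.range (N + 1), if |(n : ℝ) - x| < H / 2 then F n else 0

theorem Trc_meas (F : ℕ → ℝ) (N : ℕ) (H : ℝ) : Measurable (Trc_G F N H) := by
  unfold Trc_G
  refine Finset.measurable_sum _ fun n _ => ?_
  refine Measurable.ite ?_ measurable_const measurable_const
  exact measurableSet_lt (by fun_prop) measurable_const

theorem Trc_bd {F : ℕ → ℝ} (hF : ∀ n, |F n| ≤ 1) (N : ℕ) (H x : ℝ) : |Trc_G F N H x| ≤ N + 1 := by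
  unfold Trc_G
  refine (Finset.abs_sum_le_sum_abs _ _).trans ?_
  refine (Finset.sum_le_sum (g := fun _ => (1 : ℝ)) fun n _ => ?_).trans ?_
  · split_ifs
    · exact hF n
    · rw [abs_zero]; exact zero_le_one
  · rw [Finset.sum_const, Finset.card_range, nsmul_eq_mul, mul_one]
    push_cast
    exact le_rfl

theorem Trc_eq (F : ℕ → ℝ) {N : ℕ} {H x : ℝ} (hN : ⌈x + H⌉₊ ≤ N) (hH : 0 ≤ H) :
    M F x H = Trc_G F N H x := by
  unfold M win Trc_G
  rw [Finset.sum_filter]
  refine Finset.sum_subset ?_ fun n _ hn => if_neg ?_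
  · intro n hn
    rw [Finset.mem_range] at hn ⊢
    omega
  · rw [Finset.mem_range, not_lt] at hn
    have h1 : x + H ≤ (⌈x + H⌉₊ : ℝ) := Nat.le_ceil _
    have h2 : ((⌈x + H⌉₊ + 1 : ℕ) : ℝ) ≤ n := by exact_mod_cast hn
    push_cast at h2
    rw [not_lt]
    have h3 : H / 2 ≤ (n : ℝ) - x := by linarith
    exact h3.trans (le_abs_self _)

/-! ### one interval -/

theorem Trc_ii {g : ℝ → ℝ} (hg : Measurable g) {B : ℝ} (hB : ∀ x, |g x| ≤ B) (a b : ℝ) :
    IntervalIntegrable g volume a b := by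
  rw [intervalIntegrable_iff]
  refine Measure.integrableOn_of_bounded (M := B) ?_ hg.aestronglyMeasurable ?_
  · exact (measure_Ioc_lt_top).ne
  · exact ae_of_all _ fun x => by rw [Real.norm_eq_abs]; exact hB x

theorem Trc_int {s η' : ℝ} {K : ℕ} {δ' : ℝ}
    (hM : ∀ ν : Measure ℝ, IsProbabilityMeasure ν → (∀ k : ℕ, Integrable (fun x => x ^ k) ν) →
      (∀ k ≤ K, |∫ x, x ^ k ∂ν - gm k| ≤ δ') → |(ν (Set.Iic s)).toReal - Phi s| ≤ η')
    {g : ℝ → ℝ} (hg : Measurable g) {B : ℝ} (hB : ∀ x, |g x| ≤ B) {a b : ℝ} (hab : a < b)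
    (hm : ∀ k ≤ K, |(1 / (b - a)) * (∫ x in a..b, g x ^ k) - gm k| ≤ δ') :
    |∫ x in a..b, ((if g x ≤ s then (1 : ℝ) else 0) - Phi s)| ≤ η' * (b - a) := by
  have hba : 0 < b - a := sub_pos.2 hab
  set μ : Measure ℝ := (ENNReal.ofReal (b - a))⁻¹ • volume.restrict (Set.Ioc a b) with hμ
  have hne : ENNReal.ofReal (b - a) ≠ 0 := by
    rw [Ne, ENNReal.ofReal_eq_zero]; linarith
  have hprob : IsProbabilityMeasure μ := by
    refine ⟨?_⟩
    rw [hμ, Measure.smul_apply, Measure.restrict_apply MeasurableSet.univ, Set.univ_inter,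
      Real.volume_Ioc, smul_eq_mul]
    exact ENNReal.inv_mul_cancel hne ENNReal.ofReal_ne_top
  have hint : ∀ f : ℝ → ℝ, ∫ x, f x ∂μ = (1 / (b - a)) * ∫ x in a..b, f x := by
    intro f
    rw [hμ, integral_smul_measure, intervalIntegral.integral_of_le hab.le, ENNReal.toReal_inv,
      ENNReal.toReal_ofReal hba.le, smul_eq_mul, one_div]
  set ν : Measure ℝ := μ.map g with hν
  have hνp : IsProbabilityMeasure ν := Measure.isProbabilityMeasure_map hg.aemeasurable
  have hB0 : 0 ≤ B := (abs_nonneg _).trans (hB 0)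
  have hpow : ∀ k : ℕ, Integrable (fun x => x ^ k) ν := by
    intro k
    rw [hν, integrable_map_measure (by fun_prop) hg.aemeasurable]
    refine Integrable.of_bound (C := B ^ k) ?_ ?_
    · exact ((measurable_id.pow_const k).comp hg).aestronglyMeasurable
    · refine ae_of_all _ fun x => ?_
      rw [Function.comp_apply, norm_pow, Real.norm_eq_abs]
      exact pow_le_pow_left₀ (abs_nonneg _) (hB x) k
  have h1 := hM ν hνp hpow fun k hk => by
    rw [hν, integral_map hg.aemeasurable (by fun_prop), hint]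
    exact hm k hk
  have h2 : (ν (Set.Iic s)).toReal = (1 / (b - a)) * ∫ x in a..b, (if g x ≤ s then (1 : ℝ) else 0) := by
    rw [← hint, ← measureReal_def, ← integral_indicator_one measurableSet_Iic, hν,
      integral_map hg.aemeasurable]
    · refine integral_congr_ae (ae_of_all _ fun x => ?_)
      show (Set.Iic s).indicator 1 (g x) = _
      rw [Set.indicator_apply]
      rfl
    · exact (measurable_one.indicator measurableSet_Iic).aestronglyMeasurable
  have hmi : Measurable fun x => (if g x ≤ s then (1 : ℝ) else 0) :=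
    Measurable.ite (measurableSet_le hg measurable_const) measurable_const measurable_const
  have hI : IntervalIntegrable (fun x => (if g x ≤ s then (1 : ℝ) else 0)) volume a b :=
    Trc_ii hmi (B := 1) (fun x => by split_ifs <;> norm_num) a b
  rw [intervalIntegral.integral_sub hI intervalIntegrable_const, intervalIntegral.integral_const, smul_eq_mul]
  rw [h2] at h1
  set A := ∫ x in a..b, (if g x ≤ s then (1 : ℝ) else 0)
  have e : A - (b - a) * Phi s = (b - a) * ((1 / (b - a)) * A - Phi s) := by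
    field_simp
  rw [e, abs_mul, abs_of_pos hba, mul_comm]
  exact mul_le_mul_of_nonneg_right h1 hba.le

/-! ### the sum over the net -/

theorem Trc_sum {q : ℕ} (hq : 1 ≤ q) {X : ℝ} (hX : 1 ≤ X) {u : ℝ → ℝ} (hu : Measurable u)
    (hb : ∀ x, |u x| ≤ 1) {η' : ℝ} (h0 : 0 ≤ η')
    (h : ∀ i : ℕ, X ≤ nt q i → nt q (i + 1) ≤ 2 * X →
      |∫ x in nt q i..nt q (i + 1), u x| ≤ η' * (nt q (i + 1) - nt q i)) :
    |∫ x in X..2 * X, u x| ≤ (η' + 3 / q) * X := by
  have hq' : (0 : ℝ) < q := by exact_mod_cast hq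
  have hii := fun a b => Trc_ii hu hb a b
  have hnb : ∀ a b : ℝ, a ≤ b → |∫ x in a..b, u x| ≤ b - a := by
    intro a b hab
    have h1 := intervalIntegral.norm_integral_le_of_norm_le_const (a := a) (b := b) (f := u) (C := 1)
      fun x _ => by rw [Real.norm_eq_abs]; exact hb x
    rw [Real.norm_eq_abs, one_mul, abs_of_nonneg (sub_nonneg.2 hab)] at h1
    exact h1
  obtain ⟨i0, ha1, ha2⟩ := Trc_ex hq hX
  obtain ⟨i1, hb1, hb2⟩ := Trc_ex hq (x := 2 * X) (by linarith)
  have e0 : nt q (i0 + 1) ≤ X * (1 + 1 / q) := by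
    rw [Trc_nt_succ]
    exact mul_le_mul ha1 (Trc_two hq) (by positivity) (by linarith)
  have e0' : nt q (i0 + 1) ≤ 2 * X := by
    rw [Trc_nt_succ, mul_comm]
    exact mul_le_mul (Trc_two' hq) ha1 (Trc_nt_pos _ _).le (by norm_num)
  have hi : i0 + 1 ≤ i1 := by
    by_contra hcon
    have h1 : i1 + 1 ≤ i0 + 1 := by omega
    have h2 := Trc_nt_mono (q := q) h1
    linarith
  have e1 : 2 * X - 2 * X / q ≤ nt q i1 := by
    have h1 : 2 * X < nt q i1 * (1 + 1 / q) := by
      refine hb2.trans_le ?_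
      rw [Trc_nt_succ]
      exact mul_le_mul_of_nonneg_left (Trc_two hq) (Trc_nt_pos _ _).le
    have h2 : nt q i1 * (1 + 1 / q) = nt q i1 + nt q i1 / q := by ring
    have h3 : nt q i1 / q ≤ 2 * X / q := div_le_div_of_nonneg_right hb1 hq'.le
    linarith
  have hsum := intervalIntegral.sum_integral_adjacent_intervals_Ico (μ := volume) (f := u) (a := nt q) hi
    fun k _ => hii _ _
  have hmid : |∫ x in nt q (i0 + 1)..nt q i1, u x| ≤ η' * (nt q i1 - nt q (i0 + 1)) := by
    rw [← hsum, ← Finset.sum_Ico_sub (nt q) hi, Finset.mul_sum]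
    refine (Finset.abs_sum_le_sum_abs _ _).trans (Finset.sum_le_sum fun i hi' => ?_)
    rw [Finset.mem_Ico] at hi'
    refine h i (ha2.le.trans (Trc_nt_mono hi'.1)) ((Trc_nt_mono hi'.2).trans hb1)
  have hsplit : ∫ x in X..2 * X, u x = (∫ x in X..nt q (i0 + 1), u x) +
      (∫ x in nt q (i0 + 1)..nt q i1, u x) + ∫ x in nt q i1..2 * X, u x := by
    rw [intervalIntegral.integral_add_adjacent_intervals (hii _ _) (hii _ _),
      intervalIntegral.integral_add_adjacent_intervals (hii _ _) (hii _ _)]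
  rw [hsplit]
  have f1 := hnb X (nt q (i0 + 1)) ha2.le
  have f2 := hnb (nt q i1) (2 * X) hb1
  have f3 : nt q i1 - nt q (i0 + 1) ≤ X := by linarith
  have f4 : η' * (nt q i1 - nt q (i0 + 1)) ≤ η' * X := mul_le_mul_of_nonneg_left f3 h0
  have f5 : (η' + 3 / q) * X = η' * X + X / q + 2 * X / q := by ring
  have f6 : X * (1 + 1 / q) = X + X / q := by ring
  rw [f5]
  refine (abs_add_le _ _).trans ?_
  refine (add_le_add (abs_add_le _ _) le_rfl).trans ?_
  linarith

/-! ### continuity of the normal distribution function -/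

theorem Trc_Phi_mono : Monotone Phi := fun _ _ h => (ProbabilityTheory.cdf _).mono h

theorem Trc_Phi_nonneg (t : ℝ) : 0 ≤ Phi t := ProbabilityTheory.cdf_nonneg _ _

theorem Trc_Phi_le (t : ℝ) : Phi t ≤ 1 := ProbabilityTheory.cdf_le_one _ _

theorem Trc_Phi_cont (t : ℝ) : ContinuousAt Phi t := by
  have hna : NullSingletonClass (ProbabilityTheory.gaussianReal 0 1) :=
    ProbabilityTheory.nullSingletonClass_gaussianReal one_ne_zero
  set f := ProbabilityTheory.cdf (ProbabilityTheory.gaussianReal 0 1) with hf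
  have h1 : f.measure {t} = 0 := by
    rw [hf, ProbabilityTheory.measure_cdf]
    exact measure_singleton t
  rw [StieltjesFunction.measure_singleton, ENNReal.ofReal_eq_zero, sub_nonpos] at h1
  have h2 : Function.leftLim f t ≤ f t := f.mono.leftLim_le le_rfl
  have h3 : ContinuousAt f t := by
    rw [f.mono.continuousAt_iff_leftLim_eq_rightLim, f.rightLim_eq]
    exact le_antisymm h2 h1
  exact h3

theorem Trc_kappa (t η : ℝ) (hη : 0 < η) : ∃ κ : ℝ, 0 < κ ∧ Phi (t + κ) ≤ Phi t + η ∧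
    Phi t - η ≤ Phi (t - κ) := by
  obtain ⟨d, hd, h⟩ := Metric.continuousAt_iff.1 (Trc_Phi_cont t) η hη
  refine ⟨d / 2, by positivity, ?_, ?_⟩
  · have h1 := h (x := t + d / 2) (by
      rw [Real.dist_eq, add_sub_cancel_left, abs_of_pos (by positivity)]; linarith)
    rw [Real.dist_eq] at h1
    linarith [(abs_lt.1 h1).2]
  · have h1 := h (x := t - d / 2) (by
      rw [Real.dist_eq, sub_sub_cancel_left, abs_neg, abs_of_pos (by positivity)]; linarith)
    rw [Real.dist_eq] at h1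
    linarith [(abs_lt.1 h1).1]

/-! ### the comparison of the two windows -/

theorem Trc_cmp {G g t κ σ S q : ℝ} (hκ : 0 < κ) (hσ : 0 < σ) (hS : 0 < S)
    (h1 : σ ≤ S) (h2 : S ≤ (1 + 1 / q) * σ) (ht : |t| / q ≤ κ / 2) :
    (if G / S ≤ t then (1 : ℝ) else 0) ≤ (if g / σ ≤ t + κ then (1 : ℝ) else 0) +
      (G - g) ^ 2 * (4 / (κ ^ 2 * σ ^ 2)) ∧
    (if g / σ ≤ t - κ then (1 : ℝ) else 0) ≤ (if G / S ≤ t then (1 : ℝ) else 0) +
      (G - g) ^ 2 * (4 / (κ ^ 2 * σ ^ 2)) := by
  have hD : 0 ≤ (G - g) ^ 2 * (4 / (κ ^ 2 * σ ^ 2)) := by positivity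
  have hbig : κ / 2 * σ < |G - g| → 1 ≤ (G - g) ^ 2 * (4 / (κ ^ 2 * σ ^ 2)) := by
    intro h
    have h3 : (κ / 2 * σ) ^ 2 ≤ (G - g) ^ 2 := by
      rw [← sq_abs (G - g)]
      exact pow_le_pow_left₀ (by positivity) h.le 2
    calc (1 : ℝ) = (κ / 2 * σ) ^ 2 * (4 / (κ ^ 2 * σ ^ 2)) := by field_simp; norm_num
      _ ≤ _ := mul_le_mul_of_nonneg_right h3 (by positivity)
  have hts : |t * S - t * σ| ≤ κ / 2 * σ := by
    rw [← mul_sub, abs_mul, abs_of_nonneg (sub_nonneg.2 h1)]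
    have h3 : S - σ ≤ σ / q := by
      have : (1 + 1 / q) * σ = σ + σ / q := by ring
      linarith
    calc |t| * (S - σ) ≤ |t| * (σ / q) := mul_le_mul_of_nonneg_left h3 (abs_nonneg _)
      _ = |t| / q * σ := by ring
      _ ≤ κ / 2 * σ := mul_le_mul_of_nonneg_right ht hσ.le
  rw [abs_le] at hts
  constructor
  · by_cases hG : G / S ≤ t
    · rw [if_pos hG]
      rw [div_le_iff₀ hS] at hG
      by_cases hs : κ / 2 * σ < |G - g|
      · have := hbig hs
        split_ifs <;> linarith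
      · rw [not_lt, abs_le] at hs
        rw [if_pos (by rw [div_le_iff₀ hσ]; linarith)]
        linarith
    · rw [if_neg hG]
      split_ifs <;> linarith
  · by_cases hg : g / σ ≤ t - κ
    · rw [if_pos hg]
      rw [div_le_iff₀ hσ] at hg
      by_cases hs : κ / 2 * σ < |G - g|
      · have := hbig hs
        split_ifs <;> linarith
      · rw [not_lt, abs_le] at hs
        rw [if_pos (by rw [div_le_iff₀ hS]; linarith)]
        linarith
    · rw [if_neg hg]
      split_ifs <;> linarith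

/-! ### the theorem -/

theorem t_TRC (h1 : S_CH) (h2 : S_MMU) : S_TRC := by
  intro ε η ρ0 t hε hε2 hη hρ0
  obtain ⟨κ, hκ, hκ1, hκ2⟩ := Trc_kappa t (η / 10) (by positivity)
  obtain ⟨Kp, δp, hδp, hMp⟩ := h2 (t + κ) (η / 10) (by positivity)
  obtain ⟨Km, δm, hδm, hMm⟩ := h2 (t - κ) (η / 10) (by positivity)
  obtain ⟨C, hC, hCH⟩ := h1 (ε / 4) (by positivity) (by linarith)
  set K : ℕ := max (max Kp Km) 2 with hK
  set δ' : ℝ := min δp δm with hδ'
  have hδ'0 : 0 < δ' := lt_min hδp hδm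
  set r : ℝ := min ρ0 1 with hr
  have hr0 : 0 < r := lt_min hρ0 one_pos
  have hr1 : r ≤ 1 := min_le_right _ _
  set δ : ℝ := min 1 (δ' * r ^ K) with hδ
  have hδ0 : 0 < δ := lt_min one_pos (by positivity)
  obtain ⟨q, hq⟩ := exists_nat_ge (40 * C / (κ ^ 2 * ρ0 * η) + 30 / η + 2 * |t| / κ + 1)
  have hp1 : 0 ≤ 40 * C / (κ ^ 2 * ρ0 * η) := by positivity
  have hp2 : 0 ≤ 30 / η := by positivity
  have hp3 : 0 ≤ 2 * |t| / κ := by positivity
  have hq1' : (1 : ℝ) ≤ q := by linarith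
  have hq1 : 1 ≤ q := by exact_mod_cast hq1'
  have hq0 : (0 : ℝ) < q := by linarith
  have hqa : 4 * C / (κ ^ 2 * ρ0 * q) ≤ η / 10 := by
    have h3 : 40 * C / (κ ^ 2 * ρ0 * η) ≤ q := by linarith
    rw [div_le_iff₀ (by positivity)] at h3 ⊢
    linarith
  have hqb : 3 / (q : ℝ) ≤ η / 10 := by
    have h3 : 30 / η ≤ q := by linarith
    rw [div_le_iff₀ (by positivity)] at h3 ⊢
    linarith
  have hqc : |t| / q ≤ κ / 2 := by
    have h3 : 2 * |t| / κ ≤ q := by linarith
    rw [div_le_iff₀ (by positivity)] at h3 ⊢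
    linarith
  refine ⟨q, K, δ, hq1, hδ0, fun X1 => ?_⟩
  obtain ⟨X2, hX2, hCH'⟩ := hCH q hq1 X1
  refine ⟨max (max X2 X1) (4 ^ (2 / ε)), le_max_of_le_left (le_max_of_le_left hX2),
    fun Y F ρ hF hρ hρ1 hN X H hX hXY hH1 hH2 => ?_⟩
  have hXX2 : X2 ≤ X := (le_max_left _ _).trans ((le_max_left _ _).trans hX)
  have hXX1 : X1 ≤ X := (le_max_right _ _).trans ((le_max_left _ _).trans hX)
  have hX1 : 1 ≤ X := hX2.trans hXX2
  have hX0 : 0 < X := by linarith
  have hρ' : 0 < ρ := hρ0.trans_le hρ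
  have h4 : 4 ≤ X ^ (ε / 2) := by
    have h3 : (4 : ℝ) ^ (2 / ε) ≤ X := (le_max_right _ _).trans hX
    have h5 := Real.rpow_le_rpow (by positivity) h3 (show 0 ≤ ε / 2 by positivity)
    rw [← Real.rpow_mul (by norm_num), show 2 / ε * (ε / 2) = 1 by field_simp, Real.rpow_one] at h5
    exact h5
  have hHone : 1 ≤ H := (Real.one_le_rpow hX1 hε.le).trans hH1
  have hH0 : 0 < H := by linarith
  obtain ⟨j, hj1, hj2⟩ := Trc_ex hq1 hHone
  set h : ℝ := nt q j with hh
  have hh0 : 0 < h := Trc_nt_pos _ _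
  have hHh : H ≤ (1 + 1 / q) * h := by
    refine hj2.le.trans ?_
    rw [Trc_nt_succ, mul_comm]
    exact mul_le_mul_of_nonneg_right (Trc_two hq1) hh0.le
  have hHh2 : H ≤ 2 * h := by
    refine hj2.le.trans ?_
    rw [Trc_nt_succ, mul_comm]
    exact mul_le_mul_of_nonneg_right (Trc_two' hq1) hh0.le
  -- powers of `X`
  have hpw : ∀ e : ℝ, e ≤ ε / 2 → 4 * X ^ e ≤ X ^ ε := by
    intro e he
    calc 4 * X ^ e ≤ X ^ (ε / 2) * X ^ (ε / 2) :=
          mul_le_mul h4 (Real.rpow_le_rpow_of_exponent_le hX1 he) (by positivity) (by positivity)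
      _ = X ^ ε := by rw [← Real.rpow_add hX0]; congr 1; ring
  have hhlow : ∀ e : ℝ, e ≤ ε / 2 → 2 * X ^ e ≤ h := by
    intro e he
    have := hpw e he
    linarith
  have hhup : ∀ e : ℝ, e ≤ ε → ∀ a, X ≤ a → h ≤ a ^ (1 - e) := by
    intro e he a ha
    have h3 : X ^ (1 - ε) ≤ a ^ (1 - e) := by
      refine (Real.rpow_le_rpow_of_exponent_le hX1 (by linarith : 1 - ε ≤ 1 - e)).trans ?_
      exact Real.rpow_le_rpow hX0.le ha (by linarith)
    exact (hj1.trans hH2).trans h3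
  -- the two windows
  have hL2 : (1 / X) * ∫ x in X..2 * X, (M F x H - M F x h) ^ 2 ≤ C * h / q := by
    refine hCH' Y F ρ hF hρ'.le hρ1 ?_ X h H hXX2 hXY ?_ (hhup _ (by linarith) X le_rfl) hj1 hHh
    · intro i j' a1 a2 a3 a4
      have e : ε / 4 / 8 = ε / 32 := by ring
      rw [e] at a3 a4
      refine (hN 2 (le_max_right _ _) i j' a1 a2 a3 a4).trans ?_
      refine mul_le_mul_of_nonneg_right (min_le_left _ _) ?_
      exact Real.rpow_nonneg (Trc_nt_pos _ _).le _
    · have := hhlow (ε / 4) (by linarith)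
      have h3 : 0 < X ^ (ε / 4) := Real.rpow_pos_of_pos hX0 _
      linarith
  set N : ℕ := ⌈2 * X + H⌉₊ with hNdef
  set G : ℝ → ℝ := Trc_G F N H with hG
  set g : ℝ → ℝ := Trc_G F N h with hg
  have hGm : Measurable G := Trc_meas F N H
  have hgm : Measurable g := Trc_meas F N h
  have hGb : ∀ x, |G x| ≤ N + 1 := Trc_bd hF N H
  have hgb : ∀ x, |g x| ≤ N + 1 := Trc_bd hF N h
  have hGe : ∀ x, x ≤ 2 * X → M F x H = G x := by
    intro x hx
    exact Trc_eq F (Nat.ceil_le_ceil (by linarith)) hH0.le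
  have hge : ∀ x, x ≤ 2 * X → M F x h = g x := by
    intro x hx
    exact Trc_eq F (Nat.ceil_le_ceil (by linarith)) hh0.le
  set σ : ℝ := Real.sqrt (ρ * h) with hσ
  set S : ℝ := Real.sqrt (ρ * H) with hS
  have hσ0 : 0 < σ := Real.sqrt_pos.2 (by positivity)
  have hS0 : 0 < S := Real.sqrt_pos.2 (by positivity)
  have hσS : σ ≤ S := Real.sqrt_le_sqrt (mul_le_mul_of_nonneg_left hj1 hρ'.le)
  have hσ2 : σ ^ 2 = ρ * h := Real.sq_sqrt (by positivity)
  have hSσ : S ≤ (1 + 1 / q) * σ := by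
    refine Real.sqrt_le_iff.2 ⟨by positivity, ?_⟩
    rw [mul_pow, hσ2]
    have h3 : 1 + 1 / (q : ℝ) ≤ (1 + 1 / (q : ℝ)) ^ 2 := by
      have h5 : 0 ≤ 1 / (q : ℝ) := by positivity
      have h6 := mul_nonneg h5 h5
      have h7 : (1 + 1 / (q : ℝ)) ^ 2 = 1 + 1 / (q : ℝ) + (1 / (q : ℝ) + 1 / (q : ℝ) * (1 / (q : ℝ))) := by
        ring
      linarith
    calc ρ * H ≤ ρ * ((1 + 1 / q) * h) := mul_le_mul_of_nonneg_left hHh hρ'.le
      _ = (1 + 1 / q) * (ρ * h) := by ring
      _ ≤ (1 + 1 / (q : ℝ)) ^ 2 * (ρ * h) := mul_le_mul_of_nonneg_right h3 (by positivity)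
  -- the moments
  have hmom : ∀ i : ℕ, X ≤ nt q i → nt q (i + 1) ≤ 2 * X → ∀ k ≤ K,
      |(1 / (nt q (i + 1) - nt q i)) * (∫ x in nt q i..nt q (i + 1), (g x / σ) ^ k) - gm k| ≤ δ' := by
    intro i ha hb k hk
    have hle : nt q i ≤ nt q (i + 1) := Trc_nt_mono (Nat.le_succ _)
    have hlow : nt q i ^ (ε / 32) ≤ h := by
      have h3 : nt q i ≤ 2 * X := hle.trans hb
      have h5 : nt q i ^ (ε / 32) ≤ (2 * X) ^ (ε / 32) := Real.rpow_le_rpow (Trc_nt_pos _ _).le h3 (by positivity)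
      have h6 : (2 * X) ^ (ε / 32) = 2 ^ (ε / 32) * X ^ (ε / 32) := Real.mul_rpow (by norm_num) hX0.le
      have h7 : (2 : ℝ) ^ (ε / 32) ≤ 2 := by
        calc (2 : ℝ) ^ (ε / 32) ≤ 2 ^ (1 : ℝ) := Real.rpow_le_rpow_of_exponent_le (by norm_num) (by linarith)
          _ = 2 := Real.rpow_one _
      have h8 := hhlow (ε / 32) (by linarith)
      have h9 : 2 ^ (ε / 32) * X ^ (ε / 32) ≤ 2 * X ^ (ε / 32) :=
        mul_le_mul_of_nonneg_right h7 (by positivity)
      linarith
    have hmm := hN k hk i j (hXX1.trans ha) (hb.trans (by linarith)) hlow (hhup _ (by linarith) _ ha)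
    have e1 : mom F k (nt q i) (nt q (i + 1)) (nt q j) =
        ((1 / (nt q (i + 1) - nt q i)) * (∫ x in nt q i..nt q (i + 1), (g x / σ) ^ k)) * σ ^ k := by
      unfold mom
      rw [mul_assoc, ← intervalIntegral.integral_mul_const]
      congr 1
      refine intervalIntegral.integral_congr fun x hx => ?_
      rw [Set.uIcc_of_le hle] at hx
      show M F x (nt q j) ^ k = (g x / σ) ^ k * σ ^ k
      rw [← hh, hge x (hx.2.trans hb), div_pow, div_mul_cancel₀ _ (pow_pos hσ0 k).ne']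
    have e2 : (ρ * nt q j) ^ ((k : ℝ) / 2) = σ ^ k := by
      rw [← hh, hσ, Real.sqrt_eq_rpow, ← Real.rpow_natCast, ← Real.rpow_mul (by positivity)]
      congr 1
      ring
    have e3 : nt q j ^ ((k : ℝ) / 2) = Real.sqrt h ^ k := by
      rw [← hh, Real.sqrt_eq_rpow, ← Real.rpow_natCast, ← Real.rpow_mul hh0.le]
      congr 1
      ring
    rw [e1, e2, e3, ← sub_mul, abs_mul, abs_of_pos (pow_pos hσ0 k)] at hmm
    have e4 : σ ^ k = Real.sqrt ρ ^ k * Real.sqrt h ^ k := by
      rw [hσ, Real.sqrt_mul hρ'.le, mul_pow]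
    have hsh : 0 < Real.sqrt h ^ k := pow_pos (Real.sqrt_pos.2 hh0) k
    rw [e4, ← mul_assoc] at hmm
    have h5 := le_of_mul_le_mul_right hmm hsh
    have h6 : r ^ K ≤ Real.sqrt ρ ^ k := by
      have h7 : r ≤ Real.sqrt ρ := by
        rw [Real.le_sqrt hr0.le hρ'.le]
        calc r ^ 2 ≤ r := pow_le_of_le_one hr0.le hr1 two_ne_zero
          _ ≤ ρ := (min_le_left _ _).trans hρ
      exact (pow_le_pow_of_le_one hr0.le hr1 hk).trans (pow_le_pow_left₀ hr0.le h7 k)
    have h8 : δ ≤ δ' * Real.sqrt ρ ^ k :=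
      (min_le_right _ _).trans (mul_le_mul_of_nonneg_left h6 hδ'0.le)
    exact le_of_mul_le_mul_right (h5.trans h8) (pow_pos (Real.sqrt_pos.2 hρ') k)
  have hgσm : Measurable fun x => g x / σ := hgm.div_const _
  have hgσb : ∀ x, |g x / σ| ≤ (N + 1) / σ := by
    intro x
    rw [abs_div, abs_of_pos hσ0]
    exact div_le_div_of_nonneg_right (hgb x) hσ0.le
  have hone : ∀ s : ℝ, (∀ ν : Measure ℝ, IsProbabilityMeasure ν →
      (∀ k : ℕ, Integrable (fun x => x ^ k) ν) → (∀ k ≤ K, |∫ x, x ^ k ∂ν - gm k| ≤ δ') →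
        |(ν (Set.Iic s)).toReal - Phi s| ≤ η / 10) →
      |∫ x in X..2 * X, ((if g x / σ ≤ s then (1 : ℝ) else 0) - Phi s)| ≤ (η / 10 + 3 / q) * X := by
    intro s hs
    refine Trc_sum hq1 hX1 ?_ ?_ (by positivity) ?_
    · exact (Measurable.ite (measurableSet_le hgσm measurable_const) measurable_const
        measurable_const).sub_const _
    · intro x
      have h3 := Trc_Phi_nonneg s
      have h5 := Trc_Phi_le s
      rw [abs_le]
      split_ifs <;> constructor <;> linarith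
    · intro i ha hb
      refine Trc_int hs hgσm hgσb ?_ (hmom i ha hb)
      rw [Trc_nt_succ]
      have h3 : (1 : ℝ) < 2 ^ ((1 : ℝ) / q) := Real.one_lt_rpow (by norm_num) (by positivity)
      exact lt_mul_of_one_lt_right (Trc_nt_pos _ _) h3
  have hplus := hone (t + κ) fun ν a1 a2 a3 => hMp ν a1 a2 fun k hk =>
    (a3 k (hk.trans ((le_max_left _ _).trans (le_max_left _ _)))).trans (min_le_left _ _)
  have hminus := hone (t - κ) fun ν a1 a2 a3 => hMm ν a1 a2 fun k hk =>
    (a3 k (hk.trans ((le_max_right _ _).trans (le_max_left _ _)))).trans (min_le_right _ _)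
  -- the integrals
  have hmp : ∀ s : ℝ, Measurable fun x => (if g x / σ ≤ s then (1 : ℝ) else 0) := fun s =>
    Measurable.ite (measurableSet_le hgσm measurable_const) measurable_const measurable_const
  have hip : ∀ s : ℝ, IntervalIntegrable (fun x => (if g x / σ ≤ s then (1 : ℝ) else 0)) volume X (2 * X) :=
    fun s => Trc_ii (hmp s) (B := 1) (fun x => by split_ifs <;> norm_num) _ _
  have hmE : Measurable fun x => (if G x / S ≤ t then (1 : ℝ) else 0) :=
    Measurable.ite (measurableSet_le (hGm.div_const _) measurable_const) measurable_const measurable_const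
  have hiE : IntervalIntegrable (fun x => (if G x / S ≤ t then (1 : ℝ) else 0)) volume X (2 * X) :=
    Trc_ii hmE (B := 1) (fun x => by split_ifs <;> norm_num) _ _
  have hmD : Measurable fun x => (G x - g x) ^ 2 * (4 / (κ ^ 2 * σ ^ 2)) :=
    ((hGm.sub hgm).pow_const 2).mul_const _
  have hiD : IntervalIntegrable (fun x => (G x - g x) ^ 2 * (4 / (κ ^ 2 * σ ^ 2))) volume X (2 * X) := by
    refine Trc_ii hmD (B := ((N + 1 : ℝ) + (N + 1)) ^ 2 * (4 / (κ ^ 2 * σ ^ 2))) (fun x => ?_) _ _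
    rw [abs_of_nonneg (by positivity)]
    refine mul_le_mul_of_nonneg_right ?_ (by positivity)
    rw [← sq_abs (G x - g x)]
    refine pow_le_pow_left₀ (abs_nonneg _) ?_ 2
    exact (abs_sub _ _).trans (add_le_add (hGb x) (hgb x))
  have hX2' : X ≤ 2 * X := by linarith
  have hDint : ∫ x in X..2 * X, (G x - g x) ^ 2 * (4 / (κ ^ 2 * σ ^ 2)) ≤ η / 10 * X := by
    have e1 : ∫ x in X..2 * X, (M F x H - M F x h) ^ 2 = ∫ x in X..2 * X, (G x - g x) ^ 2 := by
      refine intervalIntegral.integral_congr fun x hx => ?_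
      rw [Set.uIcc_of_le hX2'] at hx
      show (M F x H - M F x h) ^ 2 = _
      rw [hGe x hx.2, hge x hx.2]
    rw [e1] at hL2
    rw [intervalIntegral.integral_mul_const]
    have h3 : ∫ x in X..2 * X, (G x - g x) ^ 2 ≤ C * h / q * X := by
      rw [one_div, inv_mul_le_iff₀ hX0] at hL2
      linarith
    refine (mul_le_mul_of_nonneg_right h3 (by positivity)).trans ?_
    have e2 : C * h / q * X * (4 / (κ ^ 2 * σ ^ 2)) = 4 * C / (κ ^ 2 * ρ * q) * X := by
      rw [hσ2]
      field_simp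
    rw [e2]
    refine mul_le_mul_of_nonneg_right (le_trans ?_ hqa) hX0.le
    refine div_le_div_of_nonneg_left (by positivity) (by positivity) ?_
    refine mul_le_mul_of_nonneg_right (mul_le_mul_of_nonneg_left hρ (by positivity)) hq0.le
  have hcmp := fun x => Trc_cmp (G := G x) (g := g x) hκ hσ0 hS0 hσS hSσ hqc
  set IE : ℝ := ∫ x in X..2 * X, (if G x / S ≤ t then (1 : ℝ) else 0) with hIE
  have hup : IE ≤ (∫ x in X..2 * X, (if g x / σ ≤ t + κ then (1 : ℝ) else 0)) + η / 10 * X := by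
    have h3 := intervalIntegral.integral_mono hX2' hiE ((hip (t + κ)).add hiD) fun x => (hcmp x).1
    rw [intervalIntegral.integral_add (hip _) hiD] at h3
    linarith
  have hlo : (∫ x in X..2 * X, (if g x / σ ≤ t - κ then (1 : ℝ) else 0)) ≤ IE + η / 10 * X := by
    have h3 := intervalIntegral.integral_mono hX2' (hip (t - κ)) (hiE.add hiD) fun x => (hcmp x).2
    rw [intervalIntegral.integral_add hiE hiD] at h3
    linarith
  rw [intervalIntegral.integral_sub (hip _) intervalIntegrable_const, intervalIntegral.integral_const,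
    smul_eq_mul, abs_le] at hplus hminus
  have hvol : (volume {x : ℝ | x ∈ Set.Icc X (2 * X) ∧ M F x H / Real.sqrt (ρ * H) ≤ t}).toReal = IE := by
    have e1 : {x : ℝ | x ∈ Set.Icc X (2 * X) ∧ M F x H / Real.sqrt (ρ * H) ≤ t} =
        {x | G x / S ≤ t} ∩ Set.Icc X (2 * X) := by
      ext x
      rw [Set.mem_ofPred_eq, Set.mem_inter_iff, Set.mem_ofPred_eq]
      constructor
      · rintro ⟨a1, a2⟩
        rw [hGe x a1.2] at a2
        exact ⟨a2, a1⟩
      · rintro ⟨a2, a1⟩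
        rw [hGe x a1.2]
        exact ⟨a1, a2⟩
    have hms : MeasurableSet {x | G x / S ≤ t} := measurableSet_le (hGm.div_const _) measurable_const
    rw [e1, ← Measure.restrict_apply hms, hIE, intervalIntegral.integral_of_le hX2', ← measureReal_def,
      ← integral_indicator_one hms, ← integral_Icc_eq_integral_Ioc]
    refine integral_congr_ae (ae_of_all _ fun x => ?_)
    show ({x | G x / S ≤ t}).indicator 1 x = _
    rw [Set.indicator_apply]
    rfl
  rw [hvol]
  have hqq : 3 / (q : ℝ) * X ≤ η / 10 * X := mul_le_mul_of_nonneg_right hqb hX0.le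
  have e5 : (η / 10 + 3 / q) * X = η / 10 * X + 3 / q * X := by ring
  have e6 : 2 * X - X = X := by ring
  rw [e5, e6] at hplus hminus
  have g1 : X * Phi (t + κ) ≤ X * (Phi t + η / 10) := mul_le_mul_of_nonneg_left hκ1 hX0.le
  have g2 : X * (Phi t - η / 10) ≤ X * Phi (t - κ) := mul_le_mul_of_nonneg_left hκ2 hX0.le
  have e7 : IE / X - Phi t = (IE - Phi t * X) / X := by field_simp
  rw [e7, abs_div, abs_of_pos hX0, div_le_iff₀ hX0, abs_le]
  obtain ⟨p1, p2⟩ := hplus
  obtain ⟨m1, m2⟩ := hminus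
  have hηX := mul_pos hη hX0
  constructor <;> linarith

end Pool.Agent.N282.GC
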