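import Pool.Agent.N282.GC.W
import Pool.Agent.N282.GC.Rad
import Pool.Agent.N282.GC.Prd
import Pool.Agent.N282.GC.Pair
import Pool.Agent.N282.GC.Cl
import Pool.Agent.N282.GC.L2
import Pool.Agent.N282.GC.Pt
import Pool.Agent.N282.GC.Nm
import Pool.Agent.N282.GC.Sf
import Pool.Agent.N282.GC.Sf2
import Pool.Agent.N282.GC.Mmu
import Pool.Agent.N282.GC.Ch
import Pool.Agent.N282.GC.Tr2
import Pool.Agent.N282.GC.Trc
import Pool.Agent.N282.GC.Rnd
import Pool.Agent.N282.GC.Bc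
import Pool.Agent.N282.GC.Jac
import Pool.Agent.N282.GC.Cn
import Pool.Agent.N282.GC.Fin1
import Pool.Agent.N282.GC.Fin2

/-!
# Project GCM: all parts together
-/

set_option autoImplicit false

namespace Pool.Agent.N282.GC

theorem a_CL : S_CL := t_CL t_W t_RAD t_PRD t_PAIR

theorem a_L2 : S_L2 := t_L2 a_CL

theorem a_NM : S_NM := t_NM t_PT

theorem a_TR2 : S_TR2 := t_TR2 t_CH

theorem a_TRC : S_TRC := t_TRC t_CH t_MMU

theorem a_BC : S_BC := t_BC a_L2 a_NM t_SF t_RND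

theorem a_CN : S_CN := t_CN a_L2 a_NM t_SF t_SF2 t_JAC

end Pool.Agent.N282.GC
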