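import Pool.Agent.N282.GC.StmX

/-! # GCX/BAL: the number of balanced pairs -/

set_option autoImplicit false

namespace Pool.Agent.N282.GC

lemma bal_mem {k : ℕ} (A : Finset ℕ) (n : Fin k → ℕ) : n ∈ tup k A ↔ ∀ i, n i ∈ A := by
  unfold tup
  exact Fintype.mem_piFinset

/-- balanced tuples are permutations of each other -/
lemma bal_perm {k : ℕ} (n m : Fin k → ℕ) (h : Bal n m) : ∃ σ : Equiv.Perm (Fin k), m = n ∘ σ := by
  classical
  have hc : ∀ v : ℕ, Nonempty ({i // m i = v} ≃ {i // n i = v}) := by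
    intro v
    refine ⟨Fintype.equivOfCardEq ?_⟩
    rw [Fintype.card_subtype, Fintype.card_subtype]
    exact (h v).symm
  refine ⟨(Equiv.sigmaFiberEquiv m).symm.trans
    ((Equiv.sigmaCongrRight fun v => (hc v).some).trans (Equiv.sigmaFiberEquiv n)), ?_⟩
  funext i
  show m i = n (((hc (m i)).some ⟨i, rfl⟩ : {j // n j = m i}) : Fin k)
  exact ((hc (m i)).some ⟨i, rfl⟩).2.symm

lemma bal_of_perm {k : ℕ} (n : Fin k → ℕ) (σ : Equiv.Perm (Fin k)) : Bal n (n ∘ σ) := by
  classical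
  intro v
  refine Finset.card_bij' (fun i _ => σ.symm i) (fun i _ => σ i) ?_ ?_ ?_ ?_
  · intro i hi
    simpa using hi
  · intro i hi
    simpa using hi
  · intro i _
    simp
  · intro i _
    simp

lemma bal_upper (k S : ℕ) : bcount k S ≤ k.factorial * S ^ k := by
  classical
  unfold bcount
  have h1 : (((tup k (Finset.range S)) ×ˢ (tup k (Finset.range S))).filter
      fun t => Bal t.1 t.2) ⊆ ((tup k (Finset.range S)) ×ˢ
        (Finset.univ : Finset (Equiv.Perm (Fin k)))).image fun t => (t.1, t.1 ∘ t.2) := by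
    rintro ⟨n, m⟩ h
    rw [Finset.mem_filter, Finset.mem_product] at h
    obtain ⟨σ, hσ⟩ := bal_perm n m h.2
    rw [Finset.mem_image]
    exact ⟨(n, σ), Finset.mem_product.2 ⟨h.1.1, Finset.mem_univ _⟩, by rw [hσ]⟩
  refine (Finset.card_le_card h1).trans (Finset.card_image_le.trans (le_of_eq ?_))
  rw [Finset.card_product, Finset.card_univ, Fintype.card_perm, Fintype.card_fin]
  unfold tup
  rw [Fintype.card_piFinset]
  simp [mul_comm]

lemma bal_lower (k S : ℕ) : k.factorial * S.descFactorial k ≤ bcount k S := by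
  classical
  unfold bcount
  have h1 : k.factorial * S.descFactorial k =
      (Finset.univ : Finset ((Fin k ↪ Fin S) × Equiv.Perm (Fin k))).card := by
    rw [Finset.card_univ, Fintype.card_prod, Fintype.card_embedding_eq, Fintype.card_perm,
      Fintype.card_fin, Fintype.card_fin, mul_comm]
  rw [h1]
  refine Finset.card_le_card_of_injOn
    (fun p => ((fun i => (p.1 i : ℕ)), (fun i => (p.1 i : ℕ)) ∘ p.2)) ?_ ?_
  · rintro ⟨e, σ⟩ _
    rw [Finset.mem_coe, Finset.mem_filter, Finset.mem_product, bal_mem, bal_mem]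
    exact ⟨⟨fun i => Finset.mem_range.2 (e i).2, fun i => Finset.mem_range.2 (e (σ i)).2⟩,
      bal_of_perm _ σ⟩
  · rintro ⟨e, σ⟩ _ ⟨e', σ'⟩ _ h
    have h2 : (fun i => (e i : ℕ)) = fun i => (e' i : ℕ) := congrArg Prod.fst h
    have h3 : e = e' := by
      ext i
      exact congrFun h2 i
    subst h3
    have h4 : (fun i => (e i : ℕ)) ∘ σ = (fun i => (e i : ℕ)) ∘ σ' := congrArg Prod.snd h
    have h5 : σ = σ' := by
      ext i
      have h6 : (e (σ i) : ℕ) = (e (σ' i) : ℕ) := congrFun h4 i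
      exact congrArg Fin.val (e.injective (Fin.ext h6))
    rw [h5]

lemma bal_desc (S : ℕ) : ∀ k : ℕ, S ^ k ≤ S.descFactorial k + k ^ 2 * (1 + S) ^ (k - 1) := by
  intro k
  induction k with
  | zero => simp
  | succ k ih =>
    have h1 : S * S.descFactorial k ≤ S.descFactorial (k + 1) + k * (1 + S) ^ k := by
      rw [Nat.descFactorial_succ]
      have h2 : S.descFactorial k ≤ (1 + S) ^ k :=
        (Nat.descFactorial_le_pow S k).trans (Nat.pow_le_pow_left (by omega) k)
      have h3 : S ≤ (S - k) + k := by omega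
      calc S * S.descFactorial k ≤ ((S - k) + k) * S.descFactorial k :=
            Nat.mul_le_mul_right _ h3
        _ = (S - k) * S.descFactorial k + k * S.descFactorial k := by ring
        _ ≤ _ := Nat.add_le_add_left (Nat.mul_le_mul_left _ h2) _
    have h4 : S * (k ^ 2 * (1 + S) ^ (k - 1)) ≤ k ^ 2 * (1 + S) ^ k := by
      rcases Nat.eq_zero_or_pos k with h0 | h0
      · subst h0
        simp
      · obtain ⟨j, rfl⟩ : ∃ j, k = j + 1 := ⟨k - 1, by omega⟩
        have h5 : S * (1 + S) ^ j ≤ (1 + S) ^ (j + 1) := by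
          rw [pow_succ]
          calc S * (1 + S) ^ j ≤ (1 + S) * (1 + S) ^ j := Nat.mul_le_mul_right _ (by omega)
            _ = _ := by ring
        calc S * ((j + 1) ^ 2 * (1 + S) ^ (j + 1 - 1)) = (j + 1) ^ 2 * (S * (1 + S) ^ j) := by
              rw [Nat.add_sub_cancel]; ring
          _ ≤ _ := Nat.mul_le_mul_left _ h5
    calc S ^ (k + 1) = S * S ^ k := by ring
      _ ≤ S * (S.descFactorial k + k ^ 2 * (1 + S) ^ (k - 1)) := Nat.mul_le_mul_left _ ih
      _ = S * S.descFactorial k + S * (k ^ 2 * (1 + S) ^ (k - 1)) := by ring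
      _ ≤ (S.descFactorial (k + 1) + k * (1 + S) ^ k) + k ^ 2 * (1 + S) ^ k :=
          Nat.add_le_add h1 h4
      _ ≤ S.descFactorial (k + 1) + (k + 1) ^ 2 * (1 + S) ^ (k + 1 - 1) := by
          rw [Nat.add_sub_cancel]
          nlinarith [Nat.zero_le ((1 + S) ^ k)]

theorem t_BAL : S_BAL := by
  intro k
  refine ⟨(k.factorial : ℝ) * (k : ℝ) ^ 2 + 1, by positivity, ?_⟩
  intro S
  have h1 : (bcount k S : ℝ) ≤ (k.factorial : ℝ) * (S : ℝ) ^ k := by
    exact_mod_cast bal_upper k S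
  have h2 : (k.factorial : ℝ) * (S.descFactorial k : ℝ) ≤ (bcount k S : ℝ) := by
    exact_mod_cast bal_lower k S
  have h3 : (S : ℝ) ^ k ≤ (S.descFactorial k : ℝ) + (k : ℝ) ^ 2 * (1 + (S : ℝ)) ^ (k - 1) := by
    exact_mod_cast bal_desc S k
  have hf : (0 : ℝ) ≤ (k.factorial : ℝ) := Nat.cast_nonneg _
  have h4 := mul_le_mul_of_nonneg_left h3 hf
  rw [abs_le]
  rcases Nat.eq_zero_or_pos k with h0 | h0
  · subst h0
    simp only [Nat.descFactorial_zero, Nat.cast_one, pow_zero, Nat.cast_zero, mul_one,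
      Nat.factorial_zero] at h1 h2 ⊢
    have h5 : (0 : ℝ) ≤ (1 * 0 ^ 2 + 1) * (1 + (S : ℝ)) ^ ((0 : ℝ) - 1) := by positivity
    constructor <;> linarith
  · have h5 : (1 + (S : ℝ)) ^ ((k : ℝ) - 1) = (1 + (S : ℝ)) ^ (k - 1) := by
      rw [← Real.rpow_natCast]
      congr 1
      rw [Nat.cast_sub h0]
      simp
    rw [h5]
    have h6 : (0 : ℝ) ≤ (1 + (S : ℝ)) ^ (k - 1) := by positivity
    have h7 : (0 : ℝ) ≤ (k.factorial : ℝ) * ((k : ℝ) ^ 2 * (1 + (S : ℝ)) ^ (k - 1)) := by
      positivity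
    constructor <;> nlinarith

end Pool.Agent.N282.GC
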