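import Pool.Agent.N282.GC.Cl

/-!
# Project GCX: the general counting lemma, assembly (helper322; from `t_CL` of helper763)
-/

set_option autoImplicit false

open Classical

namespace Pool.Agent.N282.GC

theorem t_CLG (h1 : S_W) (h2 : S_RAD) (h3 : S_PRD) : S_CLG := by
  intro k ε hk hε hε2
  obtain ⟨C, hC, htwo⟩ := CL_two h1 h2 h3 k ε hk hε
  have hk0 : (0 : ℝ) < k := by exact_mod_cast hk
  set c0 : ℝ := min ε (1 / (4 * k : ℝ)) with hc0
  have hc0p : 0 < c0 := lt_min hε (by positivity)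
  set D : ℝ := 2 * (k : ℝ) ^ 2 * C with hD
  have hD0 : 0 < D := by positivity
  refine ⟨c0 / 4, max 4 (D ^ (4 / c0)), by positivity, by
    exact le_trans (by norm_num) (le_max_left _ _), ?_⟩
  intro X H hX hH1 hH2 T hT
  have hX4 : 4 ≤ X := (le_max_left _ _).trans hX
  have hXD : D ^ (4 / c0) ≤ X := (le_max_right _ _).trans hX
  have hX0 : 0 < X := by linarith
  have hH0 : 0 < H := lt_of_lt_of_le (Real.rpow_pos_of_pos hX0 _) hH1
  set Bd : ℝ := C * X ^ (2 - c0 / 2) * H ^ k with hBd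
  have hBd0 : 0 ≤ Bd := by
    have : 0 ≤ X ^ (2 - c0 / 2) := Real.rpow_nonneg hX0.le _
    positivity
  -- the pieces
  set P : (Fin k × (Fin k ⊕ Fin k)) → ((Fin k → ℕ) × (Fin k → ℕ)) → Prop := fun a t =>
    Sum.inl a.1 ≠ a.2 ∧ (X / 2) ^ (1 / (2 * k : ℝ)) ≤ Nat.gcd (Sum.elim t.1 t.2 a.2) (t.1 a.1) ∧
      ∀ v, a.2 = Sum.inl v → t.1 v ≠ t.1 a.1 with hPdef
  have hcov : T ⊆ Finset.univ.biUnion fun a => T.filter (P a) := by
    intro t ht
    obtain ⟨ht1, ht2, ht3, ht4, ht5, ht6⟩ := hT t ht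
    rw [Finset.mem_biUnion]
    obtain ⟨u, hu⟩ := ht6
    rcases hu with ⟨v, hv1, hv2⟩ | ⟨v, hv⟩
    · refine ⟨(u, Sum.inl v), Finset.mem_univ _, ?_⟩
      rw [Finset.mem_filter]
      refine ⟨ht, ?_, ?_, ?_⟩
      · intro h
        have h' : u = v := Sum.inl.inj h
        exact hv1 (by rw [h'])
      · rw [Nat.gcd_comm]
        exact hv2
      · intro v' hv'
        have h' : v = v' := Sum.inl.inj hv'
        rw [← h']
        exact hv1
    · refine ⟨(u, Sum.inr v), Finset.mem_univ _, ?_⟩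
      rw [Finset.mem_filter]
      refine ⟨ht, ?_, ?_, ?_⟩
      · intro h
        cases h
      · rw [Nat.gcd_comm]
        exact hv
      · intro v' hv'
        cases hv'
  have hpiece : ∀ a, ((T.filter (P a)).card : ℝ) * H ^ 2 ≤ Bd := by
    intro a
    by_cases ha : Sum.inl a.1 = a.2
    · have h0 : T.filter (P a) = ∅ := by
        rw [Finset.filter_eq_empty_iff]
        intro t _ h
        exact h.1 ha
      rw [h0, Finset.card_empty, Nat.cast_zero, zero_mul]
      exact hBd0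
    · refine htwo X H hX4 hH1 hH2 a.1 a.2 _ ha ?_
      intro t ht
      rw [Finset.mem_filter] at ht
      obtain ⟨ht0, hp1, hp2, hp3⟩ := ht
      obtain ⟨ht1, ht2, ht3, ht4, ht5, ht6⟩ := hT t ht0
      exact ⟨ht1, ht2, ht3, ht4, ht5, hp2, hp3⟩
  have hcard : (T.card : ℝ) ≤ ∑ a, ((T.filter (P a)).card : ℝ) := by
    have h := (Finset.card_le_card hcov).trans Finset.card_biUnion_le
    exact_mod_cast h
  have hmain : (T.card : ℝ) * H ^ 2 ≤ (2 * (k : ℝ) ^ 2) * Bd := by
    calc (T.card : ℝ) * H ^ 2 ≤ (∑ a, ((T.filter (P a)).card : ℝ)) * H ^ 2 :=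
          mul_le_mul_of_nonneg_right hcard (by positivity)
      _ = ∑ a, ((T.filter (P a)).card : ℝ) * H ^ 2 := by rw [Finset.sum_mul]
      _ ≤ ∑ _a : Fin k × (Fin k ⊕ Fin k), Bd := Finset.sum_le_sum fun a _ => hpiece a
      _ = (2 * (k : ℝ) ^ 2) * Bd := by
          rw [Finset.sum_const, Finset.card_univ, Fintype.card_prod, Fintype.card_sum,
            Fintype.card_fin, nsmul_eq_mul]
          push_cast
          ring
  refine hmain.trans ?_
  have hDX : D ≤ X ^ (c0 / 4) := by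
    have h5 : D = (D ^ (4 / c0)) ^ (c0 / 4) := by
      rw [← Real.rpow_mul hD0.le]
      have : 4 / c0 * (c0 / 4) = 1 := by field_simp
      rw [this, Real.rpow_one]
    rw [h5]
    exact Real.rpow_le_rpow (Real.rpow_nonneg hD0.le _) hXD (by positivity)
  have h6 : X ^ (c0 / 4) * X ^ (2 - c0 / 2) = X ^ (2 - c0 / 4) := by
    rw [← Real.rpow_add hX0]
    congr 1
    ring
  calc (2 * (k : ℝ) ^ 2) * Bd = D * X ^ (2 - c0 / 2) * H ^ k := by rw [hBd, hD]; ring
    _ ≤ X ^ (c0 / 4) * X ^ (2 - c0 / 2) * H ^ k := by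
        refine mul_le_mul_of_nonneg_right (mul_le_mul_of_nonneg_right hDX ?_) (by positivity)
        exact Real.rpow_nonneg hX0.le _
    _ = X ^ (2 - c0 / 4) * H ^ k := by rw [h6]

end Pool.Agent.N282.GC
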