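import Pool.Agent.N282.GC.StmX
import Pool.Agent.N282.GC.Fin2
import Pool.Agent.N282.GC.Tr2

/-!
# Project GCX: twists by characters and by n^(it), final theorems (helper282)
-/

set_option autoImplicit false

open MeasureTheory Filter Topology Classical

namespace Pool.Agent.N282.GC

theorem FX_norm {q : ℕ} (χ : DirichletCharacter ℂ q) (t : ℝ) (n : ℕ) : ‖fc χ t n‖ ≤ 1 := by
  unfold fc
  rw [norm_mul, norm_mul]
  have h1 : ‖((ArithmeticFunction.moebius n : ℤ) : ℂ)‖ ≤ 1 := by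
    rw [Complex.norm_intCast]
    have := ArithmeticFunction.abs_moebius_le_one (n := n)
    exact_mod_cast this
  have h2 : ‖χ n‖ ≤ 1 := χ.norm_le_one _
  have h3 : ‖Complex.exp (Complex.I * t * Real.log n)‖ = 1 := by
    have e : Complex.I * t * Real.log n = ((t * Real.log n : ℝ) : ℂ) * Complex.I := by
      push_cast
      ring
    rw [e, Complex.norm_exp_ofReal_mul_I]
  rw [h3, mul_one]
  calc _ ≤ (1 : ℝ) * 1 := mul_le_mul h1 h2 (norm_nonneg _) zero_le_one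
    _ = 1 := one_mul 1

theorem FX_abs {q : ℕ} (χ : DirichletCharacter ℂ q) (t : ℝ) (u : ℂ) (hu : ‖u‖ = 1) (n : ℕ) :
    |Fu (fc χ t) u n| ≤ 1 := by
  unfold Fu
  refine (Complex.abs_re_le_norm _).trans ?_
  rw [norm_mul, hu, one_mul]
  exact FX_norm χ t n

theorem FX_M (F : ℕ → ℂ) (u : ℂ) (x H : ℝ) : M (Fu F u) x H = (u * Mc F x H).re := by
  unfold M Mc Fu
  rw [Finset.mul_sum, Complex.re_sum]

theorem FX_sq (F : ℕ → ℂ) (x H : ℝ) :
    ‖Mc F x H‖ ^ 2 = M (Fu F 1) x H ^ 2 + M (Fu F Complex.I) x H ^ 2 := by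
  rw [FX_M, FX_M, ← Complex.normSq_eq_norm_sq, Complex.normSq_apply]
  simp
  ring

theorem FX_rho {q : ℕ} (h : q = 1 ∨ IsPrimePow q) : 4 / Real.pi ^ 2 ≤ rho q := by
  have hpi : (0 : ℝ) < Real.pi ^ 2 := by positivity
  rcases h with rfl | h
  · unfold rho
    simp
    gcongr
    norm_num
  · rw [isPrimePow_nat_iff] at h
    obtain ⟨p, k, hp, hk, rfl⟩ := h
    unfold rho
    rw [Nat.primeFactors_prime_pow hk.ne' hp, Finset.prod_singleton]
    have h2 : (2 : ℝ) ≤ p := by exact_mod_cast hp.two_le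
    have h3 : (2 : ℝ) / 3 ≤ p / (p + 1) := by
      rw [div_le_div_iff₀ (by norm_num) (by linarith)]
      linarith
    calc 4 / Real.pi ^ 2 = 6 / Real.pi ^ 2 * (2 / 3) := by ring
      _ ≤ _ := mul_le_mul_of_nonneg_left h3 (by positivity)

/-- `16 D ^ (c / 2) ≤ D ^ c` for large `D` -/
theorem FX_pow (c c' : ℝ) (hc : 0 < c) (hc' : c' ≤ c / 2) : ∃ D1 : ℝ, 1 ≤ D1 ∧ ∀ D : ℝ, D1 ≤ D →
    16 * D ^ c' ≤ D ^ c := by
  have : Tendsto (fun D : ℝ => D ^ (c / 2)) atTop atTop := tendsto_rpow_atTop (by positivity)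
  obtain ⟨D1, hD1⟩ := eventually_atTop.1 (this.eventually_ge_atTop 16)
  refine ⟨max D1 1, le_max_right _ _, fun D hD => ?_⟩
  have h8 := hD1 D ((le_max_left _ _).trans hD)
  have h9 : (1 : ℝ) ≤ D := (le_max_right _ _).trans hD
  have h10 : D ^ c = D ^ (c / 2) * D ^ (c / 2) := by
    rw [← Real.rpow_add (by linarith)]
    congr 1
    ring
  rw [h10]
  exact mul_le_mul h8 (Real.rpow_le_rpow_of_exponent_le h9 hc') (Real.rpow_nonneg (by linarith) _)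
    (Real.rpow_nonneg (by linarith) _)

theorem FX_meas (T : ℝ) (A B C : Set ℝ) (hA : A ⊆ B ∪ C) (hB : B ⊆ Set.Icc 0 T) (hC : C ⊆ Set.Icc 0 T) :
    (volume A).toReal ≤ (volume B).toReal + (volume C).toReal := by
  have hf : volume (Set.Icc (0 : ℝ) T) ≠ ⊤ := by
    rw [Real.volume_Icc]
    exact ENNReal.ofReal_ne_top
  have h1 : volume B ≠ ⊤ := ne_top_of_le_ne_top hf (measure_mono hB)
  have h2 : volume C ≠ ⊤ := ne_top_of_le_ne_top hf (measure_mono hC)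
  rw [← ENNReal.toReal_add h1 h2]
  exact ENNReal.toReal_mono (ENNReal.add_ne_top.2 ⟨h1, h2⟩) ((measure_mono hA).trans (measure_union_le _ _))

/-- the variance law for almost all `χ` and `t` -/
theorem FX_var (h1 : S_XCN) (h2 : S_TR2) (ε η : ℝ) (hε : 0 < ε) (he : ε < 1 / 2) (hη : 0 < η) :
    ∃ c X0 D0 : ℝ, 0 < c ∧ ∀ (q : ℕ) (_ : NeZero q) (T : ℝ), (q = 1 ∨ IsPrimePow q) → 1 ≤ T → D0 ≤ q * T →
      ∑ χ : DirichletCharacter ℂ q, (volume {t : ℝ | t ∈ Set.Icc 0 T ∧ ¬ ∀ X H : ℝ, X0 ≤ X → X ≤ (q * T) ^ c →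
        X ^ ε ≤ H → H ≤ X ^ (1 - ε) →
          |(1 / X) * (∫ x in X..2 * X, ‖Mc (fc χ t) x H‖ ^ 2) - rho q * H| ≤ η * (rho q * H)}).toReal ≤
        η * (q.totient * T) := by
  have hpi : (0 : ℝ) < Real.pi ^ 2 := by positivity
  obtain ⟨Q, δ, hQ, hδ, h4⟩ := h2 ε (η * (2 / Real.pi ^ 2)) hε he (by positivity)
  obtain ⟨c, X1, D0, hc, h5⟩ := h1 Q 2 (ε / 32) δ η hQ (by positivity) (by linarith) hδ hη
  obtain ⟨X2, hX2, h6⟩ := h4 X1
  obtain ⟨D1, hD1, h8⟩ := FX_pow c (c / 2) hc le_rfl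
  refine ⟨c / 2, X2, max D0 D1, by positivity, fun q hq T hqp hT hD => ?_⟩
  have hDa : D0 ≤ q * T := (le_max_left _ _).trans hD
  have hDb : D1 ≤ q * T := (le_max_right _ _).trans hD
  refine le_trans (Finset.sum_le_sum fun χ _ => ?_) (h5 q hq T hqp hT hDa)
  refine ENNReal.toReal_mono ?_ (measure_mono ?_)
  · refine ne_top_of_le_ne_top ?_ (measure_mono (t := Set.Icc (0 : ℝ) T) fun t ht => ht.1)
    rw [Real.volume_Icc]
    exact ENNReal.ofReal_ne_top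
  · rintro t ⟨ht, ht2⟩
    refine ⟨ht, fun hN => ht2 ?_⟩
    intro X H a1 a2 a3 a4
    have hX0 : 0 < X := by linarith
    have hH0 : 0 < H := lt_of_lt_of_le (Real.rpow_pos_of_pos hX0 _) a3
    have hr := FX_rho hqp
    have hr1 := FJ_rho_le q
    have hr0 : 0 < rho q := FJ_rho_pos q
    have hu : ∀ u : ℂ, ‖u‖ = 1 → |(1 / X) * (∫ x in X..2 * X, M (Fu (fc χ t) u) x H ^ 2) - rho q / 2 * H| ≤
        η * (2 / Real.pi ^ 2) * H := fun u hu =>
      h6 ((q * T) ^ c) (Fu (fc χ t) u) (rho q / 2) (FX_abs χ t u hu) (by positivity) (by linarith)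
        (hN u hu 2 le_rfl) X H a1 ((mul_le_mul_of_nonneg_left a2 (by norm_num)).trans (h8 _ hDb)) a3 a4
    have e1 : ∫ x in X..2 * X, ‖Mc (fc χ t) x H‖ ^ 2 = (∫ x in X..2 * X, M (Fu (fc χ t) 1) x H ^ 2) +
        ∫ x in X..2 * X, M (Fu (fc χ t) Complex.I) x H ^ 2 := by
      rw [← intervalIntegral.integral_add (TR2_int1 (FX_abs χ t 1 (by simp)) hH0.le _ _)
        (TR2_int1 (FX_abs χ t Complex.I (by simp)) hH0.le _ _)]
      simp only [FX_sq]
    rw [e1]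
    have b1 := hu 1 (by simp)
    have b2 := hu Complex.I (by simp)
    have b3 : η * (4 / Real.pi ^ 2 * H) ≤ η * (rho q * H) :=
      mul_le_mul_of_nonneg_left (mul_le_mul_of_nonneg_right hr hH0.le) hη.le
    rw [abs_le] at b1 b2 ⊢
    have e2 : η * (4 / Real.pi ^ 2 * H) = η * (2 / Real.pi ^ 2) * H + η * (2 / Real.pi ^ 2) * H := by ring
    constructor <;> nlinarith [b1.1, b1.2, b2.1, b2.2]

/-- finitely many points -/
theorem FX_fin (h1 : S_XCN) (h2 : S_TRC) (ε η : ℝ) (hε : 0 < ε) (he : ε < 1 / 2) (hη : 0 < η)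
    (G : Finset ℝ) : ∀ κ : ℝ, 0 < κ → ∃ c X0 D0 : ℝ, 0 < c ∧ ∀ (q : ℕ) (_ : NeZero q) (T : ℝ),
      (q = 1 ∨ IsPrimePow q) → 1 ≤ T → D0 ≤ q * T →
      ∑ χ : DirichletCharacter ℂ q, (volume {t : ℝ | t ∈ Set.Icc 0 T ∧ ¬ ∀ X H : ℝ, X0 ≤ X → X ≤ (q * T) ^ c →
        X ^ ε ≤ H → H ≤ X ^ (1 - ε) → ∀ u : ℂ, ‖u‖ = 1 → ∀ s ∈ G,
          |FJ_df (Fu (fc χ t) u) (rho q / 2) X H s - Phi s| ≤ η}).toReal ≤ κ * (q.totient * T) := by
  induction G using Finset.induction_on with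
  | empty =>
    intro κ hκ
    refine ⟨1, 0, 0, one_pos, fun q hq T _ hT _ => ?_⟩
    have h0 : ∀ χ : DirichletCharacter ℂ q, {t : ℝ | t ∈ Set.Icc 0 T ∧ ¬ ∀ X H : ℝ, 0 ≤ X → X ≤ (q * T) ^ (1 : ℝ) →
        X ^ ε ≤ H → H ≤ X ^ (1 - ε) → ∀ u : ℂ, ‖u‖ = 1 → ∀ s ∈ (∅ : Finset ℝ),
          |FJ_df (Fu (fc χ t) u) (rho q / 2) X H s - Phi s| ≤ η} = ∅ := fun χ => by
      ext t
      simp
    simp only [h0, measure_empty, ENNReal.toReal_zero, Finset.sum_const_zero]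
    positivity
  | insert s G _ ih =>
    intro κ hκ
    have hpi : (0 : ℝ) < Real.pi ^ 2 := by positivity
    obtain ⟨c', X0', D0', hc', ih⟩ := ih (κ / 2) (by positivity)
    obtain ⟨Q, K, δ, hQ, hδ, h4⟩ := h2 ε η (2 / Real.pi ^ 2) s hε he hη (by positivity)
    obtain ⟨c, X1, D0, hc, h5⟩ := h1 Q K (ε / 32) δ (κ / 2) hQ (by positivity) (by linarith) hδ (by positivity)
    obtain ⟨X2, hX2, h6⟩ := h4 X1
    obtain ⟨D1, hD1, h8⟩ := FX_pow c (min c' (c / 2)) hc (min_le_right _ _)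
    refine ⟨min c' (c / 2), max X0' X2, max D0' (max D0 D1), lt_min hc' (by positivity), fun q hq T hqp hT hD => ?_⟩
    have hDa : D0' ≤ q * T := (le_max_left _ _).trans hD
    have hDb : D0 ≤ q * T := (le_max_left _ _).trans ((le_max_right _ _).trans hD)
    have hDc : D1 ≤ q * T := (le_max_right _ _).trans ((le_max_right _ _).trans hD)
    have hqT : 1 ≤ q * T := hD1.trans hDc
    calc _ ≤ ∑ χ : DirichletCharacter ℂ q, ((volume {t : ℝ | t ∈ Set.Icc 0 T ∧ ¬ ∀ X H : ℝ, X0' ≤ X →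
          X ≤ (q * T) ^ c' → X ^ ε ≤ H → H ≤ X ^ (1 - ε) → ∀ u : ℂ, ‖u‖ = 1 → ∀ s ∈ G,
          |FJ_df (Fu (fc χ t) u) (rho q / 2) X H s - Phi s| ≤ η}).toReal +
          (volume {t : ℝ | t ∈ Set.Icc 0 T ∧ ¬ ∀ u : ℂ, ‖u‖ = 1 → ∀ k ≤ K,
            Net (Fu (fc χ t) u) (rho q / 2) Q k (ε / 32) δ X1 ((q * T) ^ c)}).toReal) := by
          refine Finset.sum_le_sum fun χ _ => FX_meas T _ _ _ ?_ (fun t ht => ht.1) (fun t ht => ht.1)
          rintro t ⟨ht, ht2⟩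
          by_contra hcon
          rw [Set.mem_union, not_or] at hcon
          obtain ⟨g1, g2⟩ := hcon
          have k1 : ∀ X H : ℝ, X0' ≤ X → X ≤ (q * T) ^ c' → X ^ ε ≤ H → H ≤ X ^ (1 - ε) → ∀ u : ℂ, ‖u‖ = 1 →
              ∀ s ∈ G, |FJ_df (Fu (fc χ t) u) (rho q / 2) X H s - Phi s| ≤ η := by
            by_contra h
            exact g1 ⟨ht, h⟩
          have k2 : ∀ u : ℂ, ‖u‖ = 1 → ∀ k ≤ K, Net (Fu (fc χ t) u) (rho q / 2) Q k (ε / 32) δ X1 ((q * T) ^ c) := by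
            by_contra h
            exact g2 ⟨ht, h⟩
          apply ht2
          intro X H a1 a2 a3 a4 u hu s' hs'
          have hr := FX_rho hqp
          have hr1 := FJ_rho_le q
          have hr0 : 0 < rho q := FJ_rho_pos q
          rcases Finset.mem_insert.1 hs' with rfl | hs'
          · exact h6 ((q * T) ^ c) (Fu (fc χ t) u) (rho q / 2) (FX_abs χ t u hu)
              (by
                have : 2 / Real.pi ^ 2 = 4 / Real.pi ^ 2 / 2 := by ring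
                rw [this]
                linarith) (by linarith) (k2 u hu) X H
              ((le_max_right _ _).trans a1) ((mul_le_mul_of_nonneg_left a2 (by norm_num)).trans (h8 _ hDc)) a3 a4
          · exact k1 X H ((le_max_left _ _).trans a1)
              (a2.trans (Real.rpow_le_rpow_of_exponent_le hqT (min_le_left _ _))) a3 a4 u hu s' hs'
      _ = _ := Finset.sum_add_distrib
      _ ≤ κ / 2 * (q.totient * T) + κ / 2 * (q.totient * T) := add_le_add (ih q hq T hqp hT hDa) (h5 q hq T hqp hT hDb)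
      _ = κ * (q.totient * T) := by ring

/-- the complex normal law for almost all `χ` and `t` -/
theorem FX_cdf (h1 : S_XCN) (h2 : S_TRC) (ε η : ℝ) (hε : 0 < ε) (he : ε < 1 / 2) (hη : 0 < η) :
    ∃ c X0 D0 : ℝ, 0 < c ∧ ∀ (q : ℕ) (_ : NeZero q) (T : ℝ), (q = 1 ∨ IsPrimePow q) → 1 ≤ T → D0 ≤ q * T →
      ∑ χ : DirichletCharacter ℂ q, (volume {t : ℝ | t ∈ Set.Icc 0 T ∧ ¬ ∀ X H : ℝ, X0 ≤ X → X ≤ (q * T) ^ c →
        X ^ ε ≤ H → H ≤ X ^ (1 - ε) → ∀ u : ℂ, ‖u‖ = 1 → ∀ s : ℝ,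
          |(volume {x : ℝ | x ∈ Set.Icc X (2 * X) ∧
            (u * Mc (fc χ t) x H).re / Real.sqrt (rho q / 2 * H) ≤ s}).toReal / X - Phi s| ≤ η}).toReal ≤
        η * (q.totient * T) := by
  obtain ⟨G, hG⟩ := FJ_grid (η / 3) (by positivity)
  obtain ⟨c, X0, D0, hc, h4⟩ := FX_fin h1 h2 ε (η / 3) hε he (by positivity) G η hη
  refine ⟨c, max X0 1, D0, hc, fun q hq T hqp hT hD => ?_⟩
  refine le_trans (Finset.sum_le_sum fun χ _ => ?_) (h4 q hq T hqp hT hD)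
  refine ENNReal.toReal_mono ?_ (measure_mono ?_)
  · refine ne_top_of_le_ne_top ?_ (measure_mono (t := Set.Icc (0 : ℝ) T) fun t ht => ht.1)
    rw [Real.volume_Icc]
    exact ENNReal.ofReal_ne_top
  · rintro t ⟨ht, ht2⟩
    refine ⟨ht, fun h => ht2 ?_⟩
    intro X H a1 a2 a3 a4 u hu s
    have hX0 : 0 < X := lt_of_lt_of_le one_pos ((le_max_right _ _).trans a1)
    have := hG (FJ_df (Fu (fc χ t) u) (rho q / 2) X H) (FJ_df_mono _ _ _ _ hX0)
      (fun t => FJ_df_nonneg _ _ _ _ t hX0) (fun t => FJ_df_le _ _ _ _ t hX0)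
      (h X H ((le_max_left _ _).trans a1) a2 a3 a4 u hu) s
    unfold FJ_df at this
    simp only [FX_M] at this
    linarith

end Pool.Agent.N282.GC
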