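import Pool.Agent.N282.GC.StmX

/-!
# Project GCX (helper282): orthogonality (S_ORT), by helper592
-/

set_option autoImplicit false

open MeasureTheory Filter Topology Classical

namespace Pool.Agent.N282.GC

/-- orthogonality of the characters -/
theorem ort_sum {q : ℕ} [NeZero q] (A B : ℕ) :
    ‖(1 / (q.totient : ℂ)) * ∑ χ : DirichletCharacter ℂ q, χ A * (starRingEnd ℂ) (χ B)‖ ≤ 1 ∧
    ((A : ZMod q) ≠ (B : ZMod q) →
      ∑ χ : DirichletCharacter ℂ q, χ A * (starRingEnd ℂ) (χ B) = 0) := by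
  have hq : (0 : ℝ) < q.totient := by
    exact_mod_cast Nat.totient_pos.mpr (Nat.pos_of_ne_zero (NeZero.ne q))
  by_cases hB : IsUnit (B : ZMod q)
  · have h1 : ∀ χ : DirichletCharacter ℂ q, (starRingEnd ℂ) (χ B) = χ ((B : ZMod q)⁻¹) := by
      intro χ
      have h2 : ‖χ (B : ZMod q)‖ = 1 := DirichletCharacter.unit_norm_eq_one χ hB.unit
      have h3 : χ (B : ZMod q) * χ ((B : ZMod q)⁻¹) = 1 := by
        rw [← map_mul, ZMod.mul_inv_of_unit _ hB, map_one]
      have h4 : χ (B : ZMod q) ≠ 0 := by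
        intro h
        rw [h, norm_zero] at h2
        exact zero_ne_one h2
      have h5 : (starRingEnd ℂ) (χ B) = (χ (B : ZMod q))⁻¹ := by
        rw [eq_comm, inv_eq_iff_eq_inv, ← mul_eq_one_iff_eq_inv₀ (by simpa using h4)]
        rw [Complex.mul_conj, Complex.normSq_eq_norm_sq, h2]
        norm_num
      rw [h5]
      exact inv_eq_of_mul_eq_one_right h3
    have h2 : ∑ χ : DirichletCharacter ℂ q, χ A * (starRingEnd ℂ) (χ B) =
        if (B : ZMod q) = (A : ZMod q) then (q.totient : ℂ) else 0 := by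
      rw [← DirichletCharacter.sum_char_inv_mul_char_eq ℂ hB (A : ZMod q)]
      refine Finset.sum_congr rfl fun χ _ => ?_
      rw [h1, mul_comm]
    rw [h2]
    refine ⟨?_, fun h => if_neg (Ne.symm h)⟩
    split_ifs
    · rw [one_div, inv_mul_cancel₀ (by exact_mod_cast hq.ne'), norm_one]
    · rw [mul_zero, norm_zero]
      exact zero_le_one
  · have h1 : ∑ χ : DirichletCharacter ℂ q, χ A * (starRingEnd ℂ) (χ B) = 0 := by
      refine Finset.sum_eq_zero fun χ _ => ?_
      rw [MulChar.map_nonunit χ hB, map_zero, mul_zero]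
    rw [h1, mul_zero, norm_zero]
    exact ⟨zero_le_one, fun _ => rfl⟩

/-- the difference of the logarithms -/
theorem ort_log {a b : ℝ} (ha : 0 < a) (hab : a < b) : (b - a) / b ≤ Real.log b - Real.log a := by
  have hb : 0 < b := ha.trans hab
  rw [← Real.log_div hb.ne' ha.ne']
  have h1 := Real.one_sub_inv_le_log_of_pos (div_pos hb ha)
  rw [inv_div] at h1
  have h2 : (b - a) / b = 1 - a / b := by field_simp
  rw [h2]
  exact h1

theorem ort_abs {a b N : ℝ} {q : ℝ} (hq : 0 < q) (ha : 0 < a) (hb : 0 < b) (haN : a ≤ N)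
    (hbN : b ≤ N) (hab : q ≤ |a - b|) : q / N ≤ |Real.log a - Real.log b| := by
  have hN : 0 < N := ha.trans_le haN
  rcases lt_trichotomy a b with h | h | h
  · have h1 := ort_log ha h
    rw [abs_sub_comm, abs_of_pos (sub_pos.2 h)] at hab
    rw [abs_sub_comm, abs_of_pos (sub_pos.2 (Real.log_lt_log ha h))]
    refine le_trans ?_ h1
    rw [div_le_div_iff₀ hN hb]
    nlinarith
  · rw [h, sub_self, abs_zero] at hab
    linarith
  · have h1 := ort_log hb h
    rw [abs_of_pos (sub_pos.2 h)] at hab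
    rw [abs_of_pos (sub_pos.2 (Real.log_lt_log hb h))]
    refine le_trans ?_ h1
    rw [div_le_div_iff₀ hN ha]
    nlinarith

/-- the integral -/
theorem ort_int {L : ℝ} (hL : L ≠ 0) (T : ℝ) :
    ‖∫ t in (0 : ℝ)..T, Complex.exp (Complex.I * t * L)‖ ≤ 2 / |L| := by
  have hc : Complex.I * (L : ℂ) ≠ 0 := mul_ne_zero Complex.I_ne_zero (by exact_mod_cast hL)
  have h1 : ∫ t in (0 : ℝ)..T, Complex.exp (Complex.I * t * L) =
      ∫ t in (0 : ℝ)..T, Complex.exp (Complex.I * L * t) := by
    refine intervalIntegral.integral_congr fun t _ => ?_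
    ring_nf
  rw [h1, integral_exp_mul_complex hc, norm_div]
  have h2 : ‖Complex.I * (L : ℂ)‖ = |L| := by
    rw [norm_mul, Complex.norm_I, one_mul, Complex.norm_real, Real.norm_eq_abs]
  rw [h2]
  have h3 : ‖Complex.exp (Complex.I * L * T) - Complex.exp (Complex.I * L * (0 : ℝ))‖ ≤ 2 := by
    have h4 : ∀ x : ℝ, ‖Complex.exp (Complex.I * L * x)‖ = 1 := by
      intro x
      have h5 : Complex.I * (L : ℂ) * x = ((L * x : ℝ) : ℂ) * Complex.I := by
        push_cast
        ring
      rw [h5]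
      exact Complex.norm_exp_ofReal_mul_I _
    calc _ ≤ ‖Complex.exp (Complex.I * L * T)‖ + ‖Complex.exp (Complex.I * L * (0 : ℝ))‖ :=
          norm_sub_le _ _
      _ = 2 := by
          rw [h4, h4]
          norm_num
  gcongr

theorem t_ORT : S_ORT := by
  intro q hq T A B N hT hA hB hAN hBN hAB
  have hq0 : (0 : ℝ) < q := by exact_mod_cast Nat.pos_of_ne_zero (NeZero.ne q)
  have hA' : (0 : ℝ) < A := by exact_mod_cast hA
  have hB' : (0 : ℝ) < B := by exact_mod_cast hB
  have hN : 0 < N := hA'.trans_le hAN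
  obtain ⟨h1, h2⟩ := ort_sum (q := q) A B
  have hfac : (1 / (q.totient : ℂ)) * ∑ χ : DirichletCharacter ℂ q,
      χ A * (starRingEnd ℂ) (χ B) * ((1 / T : ℝ) : ℂ) *
        ∫ t in (0 : ℝ)..T, Complex.exp (Complex.I * t * (Real.log A - Real.log B)) =
      ((1 / (q.totient : ℂ)) * ∑ χ : DirichletCharacter ℂ q, χ A * (starRingEnd ℂ) (χ B)) *
        (((1 / T : ℝ) : ℂ) *
        ∫ t in (0 : ℝ)..T, Complex.exp (Complex.I * t * ((Real.log A - Real.log B : ℝ) : ℂ))) := by
    rw [mul_assoc, Finset.sum_mul]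
    congr 1
    refine Finset.sum_congr rfl fun χ _ => ?_
    push_cast
    ring
  rw [hfac, norm_mul]
  by_cases hAB' : (A : ZMod q) = (B : ZMod q)
  · have h3 : (q : ℝ) ≤ |(A : ℝ) - B| := by
      have h4 : (q : ℤ) ∣ (A : ℤ) - B := by
        rw [← ZMod.intCast_zmod_eq_zero_iff_dvd]
        push_cast
        rw [hAB', sub_self]
      have h5 : (A : ℤ) - B ≠ 0 := sub_ne_zero.2 (by exact_mod_cast hAB)
      have h6 := Int.le_of_dvd (abs_pos.2 h5) ((dvd_abs _ _).2 h4)
      exact_mod_cast h6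
    have h4 := ort_abs hq0 hA' hB' hAN hBN h3
    have hL : Real.log A - Real.log B ≠ 0 := by
      intro h
      rw [h, abs_zero] at h4
      exact absurd h4 (not_le.2 (div_pos hq0 hN))
    have h5 := ort_int hL T
    have h6 : 2 / |Real.log A - Real.log B| ≤ 2 * N / q := by
      rw [div_le_div_iff₀ (abs_pos.2 hL) hq0]
      rw [div_le_iff₀ hN] at h4
      nlinarith
    have h7 : ‖((1 / T : ℝ) : ℂ) * ∫ t in (0 : ℝ)..T,
        Complex.exp (Complex.I * t * ((Real.log A - Real.log B : ℝ) : ℂ))‖ ≤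
        1 / T * (2 * N / q) := by
      rw [norm_mul, Complex.norm_real, Real.norm_of_nonneg (by positivity)]
      gcongr
      exact h5.trans h6
    refine (mul_le_mul h1 h7 (norm_nonneg _) zero_le_one).trans (le_of_eq ?_)
    field_simp
  · rw [h2 hAB', mul_zero, norm_zero, zero_mul]
    positivity

end Pool.Agent.N282.GC
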