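import Pool.Agent.N282.GC.StmX
import Pool.Agent.N282.GC.Cn
import Pool.Agent.N282.GC.L2

/-!
# Project GCX, part XCN: the net for almost all characters and almost all twists (helper169)
-/

set_option autoImplicit false

open MeasureTheory Filter Topology Classical

namespace Pool.Agent.N282.GC

/-! ### The functions -/

theorem Xcn_exp_norm (t : ℝ) (n : ℕ) : ‖Complex.exp (Complex.I * t * Real.log n)‖ = 1 := by
  have e : Complex.I * t * Real.log n = ((t * Real.log n : ℝ) : ℂ) * Complex.I := by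
    push_cast
    ring
  rw [e, Complex.norm_exp_ofReal_mul_I]

theorem Xcn_mu_norm (n : ℕ) : ‖((ArithmeticFunction.moebius n : ℤ) : ℂ)‖ ≤ 1 := by
  rw [Complex.norm_intCast]
  have := ArithmeticFunction.abs_moebius_le_one (n := n)
  exact_mod_cast this

theorem Xcn_fc_le {q : ℕ} (χ : DirichletCharacter ℂ q) (t : ℝ) (n : ℕ) : ‖fc χ t n‖ ≤ 1 := by
  unfold fc
  rw [norm_mul, norm_mul, Xcn_exp_norm, mul_one]
  exact mul_le_one₀ (Xcn_mu_norm n) (norm_nonneg _) (χ.norm_le_one _)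

theorem Xcn_fc_zero {q : ℕ} (χ : DirichletCharacter ℂ q) (t : ℝ) (n : ℕ) (h : ¬ Squarefree n) :
    fc χ t n = 0 := by
  unfold fc
  rw [ArithmeticFunction.moebius_eq_zero_of_not_squarefree h]
  simp

theorem Xcn_fc_sq {q : ℕ} (χ : DirichletCharacter ℂ q) (t : ℝ) (n : ℕ) :
    ‖fc χ t n‖ ^ 2 = if Squarefree n ∧ Nat.Coprime n q then 1 else 0 := by
  by_cases h1 : Squarefree n
  · by_cases h2 : Nat.Coprime n q
    · rw [if_pos ⟨h1, h2⟩]
      unfold fc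
      rw [norm_mul, norm_mul, Xcn_exp_norm, mul_one]
      have e1 : ‖((ArithmeticFunction.moebius n : ℤ) : ℂ)‖ = 1 := by
        rw [Complex.norm_intCast]
        have e1 := ArithmeticFunction.abs_moebius_eq_one_of_squarefree h1
        exact_mod_cast e1
      have e2 : ‖χ (n : ZMod q)‖ = 1 := by
        rw [← ZMod.coe_unitOfCoprime n h2]
        exact χ.unit_norm_eq_one _
      rw [e1, e2]
      norm_num
    · rw [if_neg (fun h => h2 h.2)]
      have e2 : χ (n : ZMod q) = 0 := χ.map_nonunit (by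
        rw [ZMod.isUnit_iff_coprime]
        exact h2)
      unfold fc
      rw [e2]
      simp
  · rw [if_neg (fun h => h1 h.1), Xcn_fc_zero χ t n h1]
    simp

theorem Xcn_fc_cont {q : ℕ} (χ : DirichletCharacter ℂ q) (n : ℕ) : Continuous fun t : ℝ => fc χ t n := by
  unfold fc
  fun_prop

/-- products of values -/
theorem Xcn_fc_prod {q k : ℕ} (χ : DirichletCharacter ℂ q) (t : ℝ) (n : Fin k → ℕ) (hn : ∀ i, n i ≠ 0) :
    ∏ i, fc χ t (n i) = ((∏ i, ((ArithmeticFunction.moebius (n i) : ℤ) : ℝ) : ℝ) : ℂ) * χ ((∏ i, n i : ℕ) : ZMod q) *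
      Complex.exp (Complex.I * t * Real.log ((∏ i, n i : ℕ) : ℝ)) := by
  unfold fc
  rw [Finset.prod_mul_distrib, Finset.prod_mul_distrib, ← Complex.exp_sum]
  congr 1
  · congr 1
    · push_cast
      rfl
    · rw [Nat.cast_prod, map_prod]
  · congr 1
    rw [← Finset.mul_sum]
    congr 1
    have h : Real.log ((∏ i, n i : ℕ) : ℝ) = ∑ i, Real.log (n i) := by
      rw [Nat.cast_prod, Real.log_prod]
      intro i _
      exact_mod_cast hn i
    rw [h]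
    push_cast
    rfl

/-! ### The probability measure -/

/-- the uniform probability on `[0, T]` -/
noncomputable def Xcn_nu (T : ℝ) : Measure ℝ := (ENNReal.ofReal T)⁻¹ • volume.restrict (Set.Icc 0 T)

theorem Xcn_nu_prob {T : ℝ} (hT : 0 < T) : IsProbabilityMeasure (Xcn_nu T) := by
  constructor
  unfold Xcn_nu
  rw [Measure.smul_apply, Measure.restrict_apply MeasurableSet.univ, Set.univ_inter, Real.volume_Icc,
    smul_eq_mul, sub_zero]
  exact ENNReal.inv_mul_cancel (by simpa using hT) ENNReal.ofReal_ne_top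

theorem Xcn_nu_int {E : Type*} [NormedAddCommGroup E] [NormedSpace ℝ E] {T : ℝ} (hT : 0 < T) (f : ℝ → E) :
    ∫ t, f t ∂(Xcn_nu T) = (1 / T) • ∫ t in (0 : ℝ)..T, f t := by
  unfold Xcn_nu
  rw [integral_smul_measure, intervalIntegral.integral_of_le hT.le, integral_Icc_eq_integral_Ioc,
    ENNReal.toReal_inv, ENNReal.toReal_ofReal hT.le, one_div]

theorem Xcn_nu_integrable {E : Type*} [NormedAddCommGroup E] {T : ℝ} (hT : 0 < T) (f : ℝ → E)
    (hf : Continuous f) : Integrable f (Xcn_nu T) := by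
  unfold Xcn_nu
  refine Integrable.smul_measure ?_ (by simpa using hT)
  exact hf.continuousOn.integrableOn_Icc

instance Xcn_ms (q : ℕ) : MeasurableSpace (DirichletCharacter ℂ q) := ⊤

instance Xcn_msc (q : ℕ) : MeasurableSingletonClass (DirichletCharacter ℂ q) := ⟨fun _ => trivial⟩

/-- the probability on the pairs `(χ, t)` -/
noncomputable def Xcn_P (q : ℕ) [NeZero q] (T : ℝ) : Measure (DirichletCharacter ℂ q × ℝ) :=
  (q.totient : ENNReal)⁻¹ • ∑ χ : DirichletCharacter ℂ q, Measure.map (fun t => (χ, t)) (Xcn_nu T)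

theorem Xcn_card (q : ℕ) [NeZero q] : Fintype.card (DirichletCharacter ℂ q) = q.totient := by
  rw [← Nat.card_eq_fintype_card]
  exact DirichletCharacter.card_eq_totient_of_hasEnoughRootsOfUnity ℂ q

theorem Xcn_P_prob (q : ℕ) [NeZero q] {T : ℝ} (hT : 0 < T) : IsProbabilityMeasure (Xcn_P q T) := by
  constructor
  have := Xcn_nu_prob hT
  unfold Xcn_P
  rw [Measure.smul_apply, Measure.finsetSum_apply]
  have h1 : ∀ χ ∈ (Finset.univ : Finset (DirichletCharacter ℂ q)),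
      Measure.map (fun t : ℝ => (χ, t)) (Xcn_nu T) Set.univ = 1 := by
    intro χ _
    rw [Measure.map_apply measurable_prodMk_left MeasurableSet.univ, Set.preimage_univ, measure_univ]
  rw [Finset.sum_congr rfl h1, Finset.sum_const, Finset.card_univ, Xcn_card, nsmul_eq_mul, mul_one,
    smul_eq_mul]
  refine ENNReal.inv_mul_cancel ?_ (by simp)
  have : 0 < q.totient := Nat.totient_pos.2 (Nat.pos_of_ne_zero (NeZero.ne q))
  simpa using this.ne'

theorem Xcn_P_int {E : Type*} [NormedAddCommGroup E] [NormedSpace ℝ E] (q : ℕ) [NeZero q] {T : ℝ} (hT : 0 < T)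
    (f : DirichletCharacter ℂ q × ℝ → E) (hf : ∀ χ, Continuous fun t => f (χ, t)) :
    ∫ ω, f ω ∂(Xcn_P q T) = (1 / (q.totient : ℝ)) • ∑ χ : DirichletCharacter ℂ q, (1 / T) •
      ∫ t in (0 : ℝ)..T, f (χ, t) := by
  unfold Xcn_P
  have hme : ∀ χ : DirichletCharacter ℂ q, MeasurableEmbedding (fun t : ℝ => (χ, t)) :=
    fun χ => measurableEmbedding_prodMk_left χ
  rw [integral_smul_measure, integral_finsetSum_measure]
  · rw [ENNReal.toReal_inv, ENNReal.toReal_natCast, one_div]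
    congr 1
    refine Finset.sum_congr rfl fun χ _ => ?_
    rw [(hme χ).integral_map, Xcn_nu_int hT]
  · intro χ _
    rw [(hme χ).integrable_map_iff]
    exact Xcn_nu_integrable hT _ (hf χ)

theorem Xcn_meas (q : ℕ) [NeZero q] (n : ℕ) :
    Measurable fun ω : DirichletCharacter ℂ q × ℝ => fc ω.1 ω.2 n := by
  refine measurable_from_prod_countable_right fun χ => ?_
  exact (Xcn_fc_cont χ n).measurable

/-! ### Continuity of `Jc` -/

/-- the measure of the set of centres in `[a, b]` whose window contains all the `n i` and `m i` -/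
noncomputable def Xcn_lam {k l : ℕ} (a b H : ℝ) (n : Fin k → ℕ) (m : Fin l → ℕ) : ℝ :=
  ∫ x in a..b, L2_ind H n x * L2_ind H m x

theorem Xcn_ind_int {k l : ℕ} (H : ℝ) (n : Fin k → ℕ) (m : Fin l → ℕ) (a b : ℝ) :
    IntervalIntegrable (fun x => L2_ind H n x * L2_ind H m x) volume a b := by
  have h1 : IntervalIntegrable (fun _ : ℝ => (1 : ℝ)) volume a b := intervalIntegrable_const
  refine h1.mono_fun ((L2_ind_meas H n).mul (L2_ind_meas H m)).aestronglyMeasurable ?_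
  refine Filter.Eventually.of_forall fun x => ?_
  show ‖L2_ind H n x * L2_ind H m x‖ ≤ ‖(1 : ℝ)‖
  rw [norm_one, Real.norm_eq_abs, abs_mul, abs_of_nonneg (L2_ind_nonneg H n x),
    abs_of_nonneg (L2_ind_nonneg H m x)]
  exact mul_le_one₀ (L2_ind_le_one H n x) (L2_ind_nonneg H m x) (L2_ind_le_one H m x)

theorem Xcn_win_sub {x b H : ℝ} {N : ℕ} (hH0 : 0 ≤ H) (hx : x ≤ b) (hN : b + H < N) :
    win x H ⊆ Finset.range N := by
  intro n hn
  rw [L2_mem_win hH0] at hn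
  rw [Finset.mem_range]
  have h2 : (n : ℝ) < N := by
    have := (abs_lt.mp hn).2
    linarith
  exact_mod_cast h2

theorem Xcn_UPc_eq (F : ℕ → ℂ) (k l : ℕ) {x b H : ℝ} {N : ℕ} (hH0 : 0 ≤ H) (hx : x ≤ b) (hN : b + H < N) :
    UPc F k l x H = ∑ n ∈ tup k (Finset.range N), ∑ m ∈ (tup l (Finset.range N)).filter (fun m => ¬ Bal n m),
      ((L2_ind H n x * L2_ind H m x : ℝ) : ℂ) * ((∏ i, F (n i)) * ∏ i, (starRingEnd ℂ) (F (m i))) := by
  unfold UPc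
  have h1 : ∀ k : ℕ, tup k (win x H) = (tup k (Finset.range N)).filter
      (fun n => ∀ i, |(n i : ℝ) - x| < H / 2) := by
    intro k
    ext n
    simp only [Finset.mem_filter, tup, Fintype.mem_piFinset]
    constructor
    · intro h2
      exact ⟨fun i => Xcn_win_sub hH0 hx hN (h2 i), fun i => (L2_mem_win hH0 _).mp (h2 i)⟩
    · rintro ⟨h2, h4⟩
      exact fun i => (L2_mem_win hH0 _).mpr (h4 i)
  rw [h1 k, h1 l, Finset.sum_filter]
  refine Finset.sum_congr rfl fun n _ => ?_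
  rw [Finset.filter_comm, Finset.sum_filter]
  by_cases h2 : ∀ i, |(n i : ℝ) - x| < H / 2
  · rw [if_pos h2]
    refine Finset.sum_congr rfl fun m _ => ?_
    unfold L2_ind
    rw [if_pos h2]
    split_ifs <;> simp
  · rw [if_neg h2]
    symm
    refine Finset.sum_eq_zero fun m _ => ?_
    unfold L2_ind
    rw [if_neg h2]
    simp

theorem Xcn_Jc_eq (F : ℕ → ℂ) (k l : ℕ) {a b H : ℝ} {N : ℕ} (hH0 : 0 ≤ H) (hab : a ≤ b) (hN : b + H < N) :
    Jc F k l a b H = ∑ n ∈ tup k (Finset.range N), ∑ m ∈ (tup l (Finset.range N)).filter (fun m => ¬ Bal n m),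
      (Xcn_lam a b H n m : ℂ) * ((∏ i, F (n i)) * ∏ i, (starRingEnd ℂ) (F (m i))) := by
  unfold Jc
  have h1 : ∫ x in a..b, UPc F k l x H = ∫ x in a..b, ∑ n ∈ tup k (Finset.range N),
      ∑ m ∈ (tup l (Finset.range N)).filter (fun m => ¬ Bal n m),
      ((L2_ind H n x * L2_ind H m x : ℝ) : ℂ) * ((∏ i, F (n i)) * ∏ i, (starRingEnd ℂ) (F (m i))) := by
    refine intervalIntegral.integral_congr fun x hx => ?_
    rw [Set.uIcc_of_le hab] at hx
    exact Xcn_UPc_eq F k l hH0 hx.2 hN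
  have hi : ∀ (n : Fin k → ℕ) (m : Fin l → ℕ), IntervalIntegrable (fun x =>
      ((L2_ind H n x * L2_ind H m x : ℝ) : ℂ) * ((∏ i, F (n i)) * ∏ i, (starRingEnd ℂ) (F (m i)))) volume a b := by
    intro n m
    refine IntervalIntegrable.mul_const ?_ _
    have := Xcn_ind_int H n m a b
    exact ⟨this.1.ofReal, this.2.ofReal⟩
  rw [h1, intervalIntegral.integral_finsetSum]
  · refine Finset.sum_congr rfl fun n _ => ?_
    rw [intervalIntegral.integral_finsetSum]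
    · refine Finset.sum_congr rfl fun m _ => ?_
      rw [intervalIntegral.integral_mul_const, intervalIntegral.integral_ofReal]
      rfl
    · intro m _
      exact hi n m
  · intro n _
    have h3 : (fun x => ∑ m ∈ (tup l (Finset.range N)).filter (fun m => ¬ Bal n m),
        ((L2_ind H n x * L2_ind H m x : ℝ) : ℂ) * ((∏ i, F (n i)) * ∏ i, (starRingEnd ℂ) (F (m i)))) =
        ∑ m ∈ (tup l (Finset.range N)).filter (fun m => ¬ Bal n m), fun x =>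
        ((L2_ind H n x * L2_ind H m x : ℝ) : ℂ) * ((∏ i, F (n i)) * ∏ i, (starRingEnd ℂ) (F (m i))) := by
      ext x
      simp
    rw [h3]
    exact IntervalIntegrable.sum _ fun m _ => hi n m

theorem Xcn_Jc_cont {q : ℕ} (χ : DirichletCharacter ℂ q) (k l : ℕ) {a b H : ℝ} (hH0 : 0 ≤ H) (hab : a ≤ b) :
    Continuous fun t : ℝ => Jc (fc χ t) k l a b H := by
  obtain ⟨N, hN⟩ := exists_nat_gt (b + H)
  have h1 : (fun t : ℝ => Jc (fc χ t) k l a b H) = fun t => ∑ n ∈ tup k (Finset.range N),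
      ∑ m ∈ (tup l (Finset.range N)).filter (fun m => ¬ Bal n m),
      (Xcn_lam a b H n m : ℂ) * ((∏ i, fc χ t (n i)) * ∏ i, (starRingEnd ℂ) (fc χ t (m i))) := by
    funext t
    exact Xcn_Jc_eq (fc χ t) k l hH0 hab hN
  rw [h1]
  refine continuous_finsetSum _ fun n _ => continuous_finsetSum _ fun m _ => ?_
  refine continuous_const.mul (Continuous.mul ?_ ?_)
  · exact continuous_finsetProd _ fun i _ => Xcn_fc_cont χ (n i)
  · exact continuous_finsetProd _ fun i _ => Complex.continuous_conj.comp (Xcn_fc_cont χ (m i))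

/-! ### Orthogonality -/

theorem Xcn_conj_exp (t L : ℝ) :
    (starRingEnd ℂ) (Complex.exp (Complex.I * t * L)) = Complex.exp (-(Complex.I * t * L)) := by
  rw [← Complex.exp_conj]
  congr 1
  simp

theorem Xcn_point {q k l : ℕ} (χ : DirichletCharacter ℂ q) (t : ℝ) (n n' : Fin k → ℕ) (m m' : Fin l → ℕ)
    (hn : ∀ i, n i ≠ 0) (hm : ∀ i, m i ≠ 0) (hn' : ∀ i, n' i ≠ 0) (hm' : ∀ i, m' i ≠ 0) :
    (∏ i, fc χ t (n i)) * (∏ i, (starRingEnd ℂ) (fc χ t (m i))) *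
      ((∏ i, (starRingEnd ℂ) (fc χ t (n' i))) * ∏ i, fc χ t (m' i)) =
    (((∏ i, ((ArithmeticFunction.moebius (n i) : ℤ) : ℝ)) * (∏ i, ((ArithmeticFunction.moebius (m i) : ℤ) : ℝ)) *
      (∏ i, ((ArithmeticFunction.moebius (n' i) : ℤ) : ℝ)) * (∏ i, ((ArithmeticFunction.moebius (m' i) : ℤ) : ℝ)) : ℝ) : ℂ) *
    (χ (((∏ i, n i) * (∏ i, m' i) : ℕ) : ZMod q) * (starRingEnd ℂ) (χ (((∏ i, m i) * (∏ i, n' i) : ℕ) : ZMod q))) *
    Complex.exp (Complex.I * t * (Real.log (((∏ i, n i) * (∏ i, m' i) : ℕ) : ℝ) -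
      Real.log (((∏ i, m i) * (∏ i, n' i) : ℕ) : ℝ))) := by
  have p0 : ∀ {k : ℕ} (n : Fin k → ℕ), (∀ i, n i ≠ 0) → ((∏ i, n i : ℕ) : ℝ) ≠ 0 := by
    intro k n hn
    have : (∏ i, n i) ≠ 0 := Finset.prod_ne_zero_iff.2 fun i _ => hn i
    exact_mod_cast this
  rw [← map_prod, ← map_prod, Xcn_fc_prod χ t n hn, Xcn_fc_prod χ t m hm, Xcn_fc_prod χ t n' hn',
    Xcn_fc_prod χ t m' hm']
  rw [Nat.cast_mul (∏ i, n i) (∏ i, m' i), Nat.cast_mul (∏ i, m i) (∏ i, n' i), map_mul, map_mul,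
    Nat.cast_mul (∏ i, n i) (∏ i, m' i), Nat.cast_mul (∏ i, m i) (∏ i, n' i),
    Real.log_mul (p0 n hn) (p0 m' hm'), Real.log_mul (p0 m hm) (p0 n' hn')]
  generalize Real.log ((∏ i, n i : ℕ) : ℝ) = L1
  generalize Real.log ((∏ i, m i : ℕ) : ℝ) = L2
  generalize Real.log ((∏ i, n' i : ℕ) : ℝ) = L3
  generalize Real.log ((∏ i, m' i : ℕ) : ℝ) = L4
  have e : Complex.exp (Complex.I * t * (((L1 + L4 : ℝ) : ℂ) - ((L2 + L3 : ℝ) : ℂ))) =
      Complex.exp (Complex.I * t * L1) * Complex.exp (-(Complex.I * t * L2)) *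
        Complex.exp (-(Complex.I * t * L3)) * Complex.exp (Complex.I * t * L4) := by
    rw [← Complex.exp_add, ← Complex.exp_add, ← Complex.exp_add]
    congr 1
    push_cast
    ring
  rw [e]
  simp only [map_mul, Xcn_conj_exp, Complex.conj_ofReal]
  push_cast
  ring

theorem Xcn_orth (hO : S_ORT) {q : ℕ} [NeZero q] {T X : ℝ} (hT : 1 ≤ T) {k l : ℕ}
    (n n' : Fin k → ℕ) (m m' : Fin l → ℕ) (hn : ∀ i, (n i : ℝ) ≤ 3 * X ∧ Squarefree (n i))
    (hm : ∀ i, (m i : ℝ) ≤ 3 * X ∧ Squarefree (m i)) (hn' : ∀ i, (n' i : ℝ) ≤ 3 * X ∧ Squarefree (n' i))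
    (hm' : ∀ i, (m' i : ℝ) ≤ 3 * X ∧ Squarefree (m' i))
    (hne : (∏ i, n i) * (∏ i, m' i) ≠ (∏ i, m i) * (∏ i, n' i)) (hX : 1 ≤ X) :
    ‖∫ ω, (∏ i, fc ω.1 ω.2 (n i)) * (∏ i, (starRingEnd ℂ) (fc ω.1 ω.2 (m i))) *
      ((∏ i, (starRingEnd ℂ) (fc ω.1 ω.2 (n' i))) * ∏ i, fc ω.1 ω.2 (m' i)) ∂(Xcn_P q T)‖ ≤
    2 * (3 * X) ^ (k + l) / (q * T) := by
  have hT0 : 0 < T := by linarith
  have z : ∀ {k : ℕ} (n : Fin k → ℕ), (∀ i, (n i : ℝ) ≤ 3 * X ∧ Squarefree (n i)) →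
      (∀ i, n i ≠ 0) ∧ 0 < (∏ i, n i) ∧ ((∏ i, n i : ℕ) : ℝ) ≤ (3 * X) ^ k := by
    intro k n hn
    refine ⟨fun i => (hn i).2.ne_zero, Finset.prod_pos fun i _ => Nat.pos_of_ne_zero (hn i).2.ne_zero, ?_⟩
    push_cast
    calc ∏ i, (n i : ℝ) ≤ ∏ _i : Fin k, (3 * X) :=
          Finset.prod_le_prod (fun _ _ => Nat.cast_nonneg _) fun i _ => (hn i).1
      _ = (3 * X) ^ k := by simp
  obtain ⟨n0, n1, n2⟩ := z n hn
  obtain ⟨m0, m1, m2⟩ := z m hm
  obtain ⟨n0', n1', n2'⟩ := z n' hn'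
  obtain ⟨m0', m1', m2'⟩ := z m' hm'
  rw [Xcn_P_int q hT0]
  swap
  · intro χ
    refine Continuous.mul (Continuous.mul ?_ ?_) (Continuous.mul ?_ ?_)
    · exact continuous_finsetProd _ fun i _ => Xcn_fc_cont χ (n i)
    · exact continuous_finsetProd _ fun i _ => Complex.continuous_conj.comp (Xcn_fc_cont χ (m i))
    · exact continuous_finsetProd _ fun i _ => Complex.continuous_conj.comp (Xcn_fc_cont χ (n' i))
    · exact continuous_finsetProd _ fun i _ => Xcn_fc_cont χ (m' i)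
  simp only [Xcn_point _ _ n n' m m' n0 m0 n0' m0']
  obtain ⟨M, hM⟩ : ∃ M : ℝ, M = (∏ i, ((ArithmeticFunction.moebius (n i) : ℤ) : ℝ)) *
    (∏ i, ((ArithmeticFunction.moebius (m i) : ℤ) : ℝ)) * (∏ i, ((ArithmeticFunction.moebius (n' i) : ℤ) : ℝ)) *
    (∏ i, ((ArithmeticFunction.moebius (m' i) : ℤ) : ℝ)) := ⟨_, rfl⟩
  rw [← hM]
  obtain ⟨A, hA⟩ : ∃ A : ℕ, A = (∏ i, n i) * (∏ i, m' i) := ⟨_, rfl⟩
  obtain ⟨B, hB⟩ : ∃ B : ℕ, B = (∏ i, m i) * (∏ i, n' i) := ⟨_, rfl⟩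
  rw [← hA, ← hB] at hne ⊢
  have hM1 : |M| ≤ 1 := by
    rw [hM, abs_mul, abs_mul, abs_mul]
    exact mul_le_one₀ (mul_le_one₀ (mul_le_one₀ (CN_mu_prod k n) (abs_nonneg _) (CN_mu_prod l m))
      (abs_nonneg _) (CN_mu_prod k n')) (abs_nonneg _) (CN_mu_prod l m')
  have hAN : (A : ℝ) ≤ (3 * X) ^ (k + l) := by
    rw [hA, Nat.cast_mul, pow_add]
    exact mul_le_mul n2 m2' (Nat.cast_nonneg _) (by positivity)
  have hBN : (B : ℝ) ≤ (3 * X) ^ (k + l) := by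
    rw [hB, Nat.cast_mul, add_comm k l, pow_add]
    exact mul_le_mul m2 n2' (Nat.cast_nonneg _) (by positivity)
  have hA0 : 0 < A := by rw [hA]; exact Nat.mul_pos n1 m1'
  have hB0 : 0 < B := by rw [hB]; exact Nat.mul_pos m1 n1'
  have hort := hO q inferInstance T A B ((3 * X) ^ (k + l)) hT0 hA0 hB0 hAN hBN hne
  have e : (1 / (q.totient : ℝ)) • ∑ χ : DirichletCharacter ℂ q, (1 / T) •
      ∫ t in (0 : ℝ)..T, (M : ℂ) * (χ A * (starRingEnd ℂ) (χ B)) *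
        Complex.exp (Complex.I * t * (Real.log A - Real.log B)) =
      (M : ℂ) * ((1 / (q.totient : ℂ)) * ∑ χ : DirichletCharacter ℂ q, χ A * (starRingEnd ℂ) (χ B) *
        ((1 / T : ℝ) : ℂ) * ∫ t in (0 : ℝ)..T, Complex.exp (Complex.I * t * (Real.log A - Real.log B))) := by
    rw [Complex.real_smul, Finset.mul_sum, Finset.mul_sum, Finset.mul_sum]
    refine Finset.sum_congr rfl fun χ _ => ?_
    rw [intervalIntegral.integral_const_mul, Complex.real_smul]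
    push_cast
    ring
  rw [e, norm_mul, Complex.norm_real, Real.norm_eq_abs]
  calc |M| * _ ≤ 1 * (2 * (3 * X) ^ (k + l) / (q * T)) :=
        mul_le_mul hM1 hort (norm_nonneg _) zero_le_one
    _ = _ := one_mul _

/-! ### Mean squares and Markov's inequality -/

theorem Xcn_msq (hO : S_ORT) {k l : ℕ} {ε c X0 : ℝ}
    (hL : ∀ X H a b : ℝ, X0 ≤ X → X ^ ε ≤ H → H ≤ X ^ (1 - ε) → X ≤ a → a ≤ b → b ≤ 2 * X →
      ∀ (Ω : Type) (_ : MeasurableSpace Ω) (P : Measure Ω) (_ : IsProbabilityMeasure P) (F : Ω → ℕ → ℂ) (δ : ℝ),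
      0 ≤ δ → (∀ n, Measurable fun ω => F ω n) → (∀ ω n, ‖F ω n‖ ≤ 1) → (∀ ω n, ¬ Squarefree n → F ω n = 0) →
      (∀ (n n' : Fin k → ℕ) (m m' : Fin l → ℕ), (∀ i, (n i : ℝ) ≤ 3 * X ∧ Squarefree (n i)) →
        (∀ i, (m i : ℝ) ≤ 3 * X ∧ Squarefree (m i)) → (∀ i, (n' i : ℝ) ≤ 3 * X ∧ Squarefree (n' i)) →
        (∀ i, (m' i : ℝ) ≤ 3 * X ∧ Squarefree (m' i)) →
        (∏ i, n i) * (∏ i, m' i) ≠ (∏ i, m i) * (∏ i, n' i) →
        ‖∫ ω, (∏ i, F ω (n i)) * (∏ i, (starRingEnd ℂ) (F ω (m i))) *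
          ((∏ i, (starRingEnd ℂ) (F ω (n' i))) * ∏ i, F ω (m' i)) ∂P‖ ≤ δ) →
      ∫ ω, ‖Jc (F ω) k l a b H‖ ^ 2 ∂P ≤ X ^ (2 - c) * H ^ (k + l) + δ * X ^ 2 * (2 * H) ^ (2 * (k + l)))
    {q : ℕ} [NeZero q] {T : ℝ} (hT : 1 ≤ T) {a b h : ℝ} (hX0 : X0 ≤ a) (ha : 1 ≤ a) (h1 : a ^ ε ≤ h)
    (h2 : h ≤ a ^ (1 - ε)) (hab : a ≤ b) (hb : b ≤ 2 * a) (hh : 0 ≤ h) :
    ∑ χ : DirichletCharacter ℂ q, ∫ t in (0 : ℝ)..T, ‖Jc (fc χ t) k l a b h‖ ^ 2 ≤
      (q.totient * T) * (a ^ (2 - c) * h ^ (k + l) +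
        2 * (3 * a) ^ (k + l) / (q * T) * a ^ 2 * (2 * h) ^ (2 * (k + l))) := by
  have hT0 : 0 < T := by linarith
  have hq0 : 0 < q := Nat.pos_of_ne_zero (NeZero.ne q)
  have hqR : (0 : ℝ) < q := by exact_mod_cast hq0
  have hφ : (0 : ℝ) < q.totient := by exact_mod_cast Nat.totient_pos.2 hq0
  have hm := hL a h a b hX0 h1 h2 le_rfl hab hb (DirichletCharacter ℂ q × ℝ) inferInstance (Xcn_P q T)
    (Xcn_P_prob q hT0) (fun ω => fc ω.1 ω.2) (2 * (3 * a) ^ (k + l) / (q * T)) (by positivity)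
    (fun n => Xcn_meas q n) (fun ω n => Xcn_fc_le ω.1 ω.2 n) (fun ω n => Xcn_fc_zero ω.1 ω.2 n)
    (fun n n' m m' hn hm hn' hm' hne => Xcn_orth hO hT n n' m m' hn hm hn' hm' hne ha)
  rw [Xcn_P_int q hT0] at hm
  swap
  · intro χ
    exact (Xcn_Jc_cont χ k l hh hab).norm.pow 2
  simp only [smul_eq_mul] at hm
  rw [← Finset.mul_sum, ← mul_assoc, one_div_mul_one_div, one_div, inv_mul_le_iff₀ (by positivity)] at hm
  exact hm

theorem Xcn_markov {f : ℝ → ℝ} (hf : Continuous f) {T τ : ℝ} (hT : 0 < T) (hτ : 0 ≤ τ) :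
    (volume {t : ℝ | t ∈ Set.Icc 0 T ∧ τ < f t}).toReal * τ ^ 2 ≤ ∫ t in (0 : ℝ)..T, f t ^ 2 := by
  have h1 := mul_meas_ge_le_integral_of_nonneg (μ := volume.restrict (Set.Icc 0 T)) (f := fun t => f t ^ 2)
    (Filter.Eventually.of_forall fun t => sq_nonneg (f t))
    ((hf.pow 2).continuousOn.integrableOn_Icc) (τ ^ 2)
  rw [integral_Icc_eq_integral_Ioc, ← intervalIntegral.integral_of_le hT.le] at h1
  refine le_trans ?_ h1
  rw [mul_comm]
  refine mul_le_mul_of_nonneg_left ?_ (sq_nonneg τ)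
  have hms : MeasurableSet {t : ℝ | τ ^ 2 ≤ f t ^ 2} :=
    measurableSet_le measurable_const (hf.pow 2).measurable
  rw [measureReal_restrict_apply hms]
  refine measureReal_mono ?_ ?_
  · rintro t ⟨ht1, ht2⟩
    exact ⟨pow_le_pow_left₀ hτ ht2.le 2, ht1⟩
  · refine ne_top_of_le_ne_top ?_ (measure_mono Set.inter_subset_right)
    rw [Real.volume_Icc]
    exact ENNReal.ofReal_ne_top

/-! ### The exceptional set of one pair of points of the net -/

/-- the conclusion of `S_XL2` -/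
def Xcn_L (ε c X0 : ℝ) (k l : ℕ) : Prop :=
  ∀ X H a b : ℝ, X0 ≤ X → X ^ ε ≤ H → H ≤ X ^ (1 - ε) → X ≤ a → a ≤ b → b ≤ 2 * X →
    ∀ (Ω : Type) (_ : MeasurableSpace Ω) (P : Measure Ω) (_ : IsProbabilityMeasure P) (F : Ω → ℕ → ℂ) (δ : ℝ),
    0 ≤ δ → (∀ n, Measurable fun ω => F ω n) → (∀ ω n, ‖F ω n‖ ≤ 1) → (∀ ω n, ¬ Squarefree n → F ω n = 0) →
    (∀ (n n' : Fin k → ℕ) (m m' : Fin l → ℕ), (∀ i, (n i : ℝ) ≤ 3 * X ∧ Squarefree (n i)) →
      (∀ i, (m i : ℝ) ≤ 3 * X ∧ Squarefree (m i)) → (∀ i, (n' i : ℝ) ≤ 3 * X ∧ Squarefree (n' i)) →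
      (∀ i, (m' i : ℝ) ≤ 3 * X ∧ Squarefree (m' i)) →
      (∏ i, n i) * (∏ i, m' i) ≠ (∏ i, m i) * (∏ i, n' i) →
      ‖∫ ω, (∏ i, F ω (n i)) * (∏ i, (starRingEnd ℂ) (F ω (m i))) *
        ((∏ i, (starRingEnd ℂ) (F ω (n' i))) * ∏ i, F ω (m' i)) ∂P‖ ≤ δ) →
    ∫ ω, ‖Jc (F ω) k l a b H‖ ^ 2 ∂P ≤ X ^ (2 - c) * H ^ (k + l) + δ * X ^ 2 * (2 * H) ^ (2 * (k + l))

theorem Xcn_L_mono {ε c c' X0 X0' : ℝ} {k l : ℕ} (h : Xcn_L ε c X0 k l) (hc : c' ≤ c) (hX : X0 ≤ X0')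
    (hX1 : 1 ≤ X0') : Xcn_L ε c' X0' k l := by
  intro X H a b g1 g2 g3 g4 g5 g6 Ω m P hP F δ g7 g8 g9 g10 g11
  refine (h X H a b (hX.trans g1) g2 g3 g4 g5 g6 Ω m P hP F δ g7 g8 g9 g10 g11).trans ?_
  have hX1' : 1 ≤ X := hX1.trans g1
  have hH : 0 ≤ H := le_trans (by positivity) g2
  have h1 : X ^ (2 - c) ≤ X ^ (2 - c') := Real.rpow_le_rpow_of_exponent_le hX1' (by linarith)
  have h2 := mul_le_mul_of_nonneg_right h1 (show 0 ≤ H ^ (k + l) by positivity)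
  linarith

theorem Xcn_unif (h : S_XL2) {ε : ℝ} {k : ℕ} (hk : 1 ≤ k) (hε : 0 < ε) (hε2 : ε < 1 / 2) :
    ∃ c X0 : ℝ, 0 < c ∧ 2 ≤ X0 ∧ ∀ s ≤ k, Xcn_L ε c X0 s (k - s) := by
  have key : ∀ m : ℕ, ∃ c X0 : ℝ, 0 < c ∧ 2 ≤ X0 ∧ ∀ s ≤ m, Xcn_L ε c X0 s (k - s) := by
    intro m
    induction m with
    | zero =>
      obtain ⟨c, X0, hc, hX0, hL⟩ := h 0 (k - 0) ε (by omega) hε hε2
      refine ⟨c, X0, hc, hX0, fun s hs => ?_⟩
      rw [Nat.le_zero.1 hs]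
      exact hL
    | succ m ih =>
      obtain ⟨c, X0, hc, hX0, hL⟩ := ih
      obtain ⟨c', X0', hc', hX0', hL'⟩ := h (m + 1) (k - (m + 1)) ε (by omega) hε hε2
      refine ⟨min c c', max X0 X0', lt_min hc hc', hX0.trans (le_max_left _ _), fun s hs => ?_⟩
      have h1 : (1 : ℝ) ≤ max X0 X0' := by
        have := le_max_left X0 X0'
        linarith
      rcases Nat.lt_or_ge s (m + 1) with hlt | hge
      · exact Xcn_L_mono (hL s (by omega)) (min_le_left _ _) (le_max_left _ _) h1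
      · have e : s = m + 1 := by omega
        rw [e]
        exact Xcn_L_mono hL' (min_le_right _ _) (le_max_right _ _) h1
  obtain ⟨c, X0, hc, hX0, hL⟩ := key k
  exact ⟨c, X0, hc, hX0, hL⟩

theorem Xcn_one (hO : S_ORT) {Q k s : ℕ} {ε δ c X0 Y : ℝ} (hQ : 1 ≤ Q) (hs : s ≤ k) (hε : 0 < ε) (hδ : 0 < δ)
    (hc : 0 < c) (hL : Xcn_L ε c X0 s (k - s)) {q : ℕ} [NeZero q] {T : ℝ} (hT : 1 ≤ T) {i j : ℕ}
    (hX0 : X0 ≤ nt Q i) (h1 : nt Q i ^ ε ≤ nt Q j)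
    (h2 : nt Q j ≤ nt Q i ^ (1 - ε)) (hY : nt Q i ≤ Y) (hYD : Y ^ (2 * (k : ℝ) + c) ≤ q * T) :
    ∑ χ : DirichletCharacter ℂ q, (volume {t : ℝ | t ∈ Set.Icc 0 T ∧
      δ * ((nt Q (i + 1) - nt Q i) * nt Q j ^ ((k : ℝ) / 2)) <
        ‖Jc (fc χ t) s (k - s) (nt Q i) (nt Q (i + 1)) (nt Q j)‖}).toReal ≤
      (16 * Q ^ 2 / δ ^ 2 * (1 + 2 * 12 ^ k)) * nt Q i ^ (-c) * (q.totient * T) := by
  obtain ⟨a, ha⟩ : ∃ a, a = nt Q i := ⟨_, rfl⟩
  obtain ⟨b, hb⟩ : ∃ b, b = nt Q (i + 1) := ⟨_, rfl⟩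
  obtain ⟨h, hh⟩ : ∃ h, h = nt Q j := ⟨_, rfl⟩
  have hbs := CN_nt_succ Q i
  rw [← ha, ← hb] at hbs
  rw [← ha, ← hh] at h1 h2
  rw [← ha] at hX0 hY
  rw [← ha, ← hb, ← hh]
  have hQ1 : (1 : ℝ) ≤ Q := by exact_mod_cast hQ
  have ha1 : 1 ≤ a := by
    rw [ha]
    unfold nt
    exact Real.one_le_rpow (by norm_num) (by positivity)
  have hh1 : 1 ≤ h := by
    rw [hh]
    unfold nt
    exact Real.one_le_rpow (by norm_num) (by positivity)
  have ha0 : 0 < a := by linarith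
  have hh0 : 0 < h := by linarith
  have hha : h ≤ a := by
    calc h ≤ a ^ (1 - ε) := h2
      _ ≤ a ^ (1 : ℝ) := Real.rpow_le_rpow_of_exponent_le ha1 (by linarith)
      _ = a := Real.rpow_one a
  obtain ⟨r1, r2⟩ := CN_root hQ
  have hb2 : b ≤ 2 * a := by
    rw [hbs]
    nlinarith
  have hba : a / (4 * Q) ≤ b - a := by
    rw [hbs]
    have e1 : a / (4 * Q) = a * (1 / (4 * (Q : ℝ))) := by ring
    rw [e1]
    have := mul_le_mul_of_nonneg_left r2 ha0.le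
    linarith
  have hab : a ≤ b := by
    have : 0 ≤ a / (4 * Q) := by positivity
    linarith
  have hT0 : 0 < T := by linarith
  have hq0 : 0 < q := Nat.pos_of_ne_zero (NeZero.ne q)
  have hqR : (0 : ℝ) < q := by exact_mod_cast hq0
  have hφ : (0 : ℝ) < q.totient := by exact_mod_cast Nat.totient_pos.2 hq0
  have hqT : (0 : ℝ) < q * T := by positivity
  have hφT : (0 : ℝ) < q.totient * T := by positivity
  have hm := Xcn_msq hO hL (q := q) hT hX0 ha1 h1 h2 hab hb2 hh0.le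
  have hks : s + (k - s) = k := by omega
  rw [hks] at hm
  have hak : a ^ (2 * (k : ℝ) + c) ≤ q * T :=
    (Real.rpow_le_rpow ha0.le hY (by positivity)).trans hYD
  have hsum : ∑ χ : DirichletCharacter ℂ q, ∫ t in (0 : ℝ)..T, ‖Jc (fc χ t) s (k - s) a b h‖ ^ 2 ≤
      (q.totient * T) * (a ^ 2 * h ^ k * ((1 + 2 * 12 ^ k) * a ^ (-c))) := by
    refine hm.trans (mul_le_mul_of_nonneg_left ?_ hφT.le)
    have e1 : a ^ (2 - c) = a ^ 2 * a ^ (-c) := by
      rw [← Real.rpow_two, ← Real.rpow_add ha0]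
      congr 1
    have e2 : 2 * (3 * a) ^ k / (q * T) * a ^ 2 * (2 * h) ^ (2 * k) =
        a ^ 2 * h ^ k * (2 * 12 ^ k * (a ^ k * h ^ k / (q * T))) := by
      have e3 : (3 * a) ^ k = 3 ^ k * a ^ k := by
        rw [mul_pow]
      have e4 : (2 * h) ^ (2 * k) = 4 ^ k * h ^ k * h ^ k := by
        rw [mul_pow, pow_mul, two_mul k, pow_add]; norm_num; ring
      have e5 : (12 : ℝ) ^ k = 3 ^ k * 4 ^ k := by rw [← mul_pow]; norm_num
      rw [e3, e4, e5]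
      ring
    have e6 : a ^ k * h ^ k / (q * T) ≤ a ^ (-c) := by
      rw [div_le_iff₀ hqT]
      calc a ^ k * h ^ k ≤ a ^ k * a ^ k :=
            mul_le_mul_of_nonneg_left (pow_le_pow_left₀ hh0.le hha k) (by positivity)
        _ = a ^ (-c) * a ^ (2 * (k : ℝ) + c) := by
            rw [← Real.rpow_add ha0, ← pow_add, ← Real.rpow_natCast]
            congr 1
            push_cast
            ring
        _ ≤ a ^ (-c) * (q * T) := mul_le_mul_of_nonneg_left hak (by positivity)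
    rw [e1, e2]
    have e7 : 2 * 12 ^ k * (a ^ k * h ^ k / (q * T)) ≤ 2 * 12 ^ k * a ^ (-c) :=
      mul_le_mul_of_nonneg_left e6 (by positivity)
    have e8 := mul_le_mul_of_nonneg_left e7 (show (0 : ℝ) ≤ a ^ 2 * h ^ k by positivity)
    linarith
  have hτ0 : 0 ≤ δ * ((b - a) * h ^ ((k : ℝ) / 2)) := by
    have : 0 ≤ b - a := by linarith
    positivity
  have hMk : (∑ χ : DirichletCharacter ℂ q, (volume {t : ℝ | t ∈ Set.Icc 0 T ∧
      δ * ((b - a) * h ^ ((k : ℝ) / 2)) < ‖Jc (fc χ t) s (k - s) a b h‖}).toReal) *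
      (δ * ((b - a) * h ^ ((k : ℝ) / 2))) ^ 2 ≤
      ∑ χ : DirichletCharacter ℂ q, ∫ t in (0 : ℝ)..T, ‖Jc (fc χ t) s (k - s) a b h‖ ^ 2 := by
    rw [Finset.sum_mul]
    exact Finset.sum_le_sum fun χ _ => Xcn_markov (Xcn_Jc_cont χ s (k - s) hh0.le hab).norm hT0 hτ0
  have hsq : (h ^ ((k : ℝ) / 2)) ^ 2 = h ^ k := by
    rw [← Real.rpow_natCast, ← Real.rpow_mul hh0.le, ← Real.rpow_natCast]
    congr 1
    push_cast
    ring
  have hlow : δ ^ 2 / (16 * Q ^ 2) * (a ^ 2 * h ^ k) ≤ (δ * ((b - a) * h ^ ((k : ℝ) / 2))) ^ 2 := by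
    have e1 : (δ * ((b - a) * h ^ ((k : ℝ) / 2))) ^ 2 = δ ^ 2 * ((b - a) ^ 2 * h ^ k) := by
      rw [mul_pow, mul_pow, hsq]
    rw [e1]
    have e2 : (a / (4 * Q)) ^ 2 ≤ (b - a) ^ 2 := pow_le_pow_left₀ (by positivity) hba 2
    have e3 : δ ^ 2 / (16 * Q ^ 2) * (a ^ 2 * h ^ k) = δ ^ 2 * ((a / (4 * Q)) ^ 2 * h ^ k) := by
      field_simp
      ring
    rw [e3]
    apply mul_le_mul_of_nonneg_left _ (by positivity)
    exact mul_le_mul_of_nonneg_right e2 (by positivity)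
  obtain ⟨n, hn⟩ : ∃ n : ℝ, n = ∑ χ : DirichletCharacter ℂ q, (volume {t : ℝ | t ∈ Set.Icc 0 T ∧
      δ * ((b - a) * h ^ ((k : ℝ) / 2)) < ‖Jc (fc χ t) s (k - s) a b h‖}).toReal := ⟨_, rfl⟩
  have hn0 : 0 ≤ n := by
    rw [hn]
    exact Finset.sum_nonneg fun _ _ => ENNReal.toReal_nonneg
  rw [← hn] at hMk ⊢
  have h5 : n * (δ ^ 2 / (16 * Q ^ 2) * (a ^ 2 * h ^ k)) ≤
      (q.totient * T) * (a ^ 2 * h ^ k * ((1 + 2 * 12 ^ k) * a ^ (-c))) :=
    (mul_le_mul_of_nonneg_left hlow hn0).trans (hMk.trans hsum)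
  have hpos : 0 < δ ^ 2 / (16 * Q ^ 2) * (a ^ 2 * h ^ k) := by positivity
  rw [← le_div_iff₀ hpos] at h5
  refine h5.trans (le_of_eq ?_)
  field_simp

theorem Xcn_Rz {q z : ℕ} (hq : q = 1 ∨ IsPrimePow q) (hz : 1 ≤ z) : Rz z q ≤ 1 / (z : ℝ) := by
  have hz0 : (0 : ℝ) < z := by exact_mod_cast hz
  unfold Rz
  rcases hq with rfl | hq
  · rw [Nat.primeFactors_one, Finset.filter_empty, Finset.sum_empty]
    positivity
  · obtain ⟨p, n, hp, hn, rfl⟩ := (isPrimePow_nat_iff q).1 hq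
    rw [Nat.primeFactors_prime_pow hn.ne' hp, Finset.filter_singleton]
    split_ifs with h
    · rw [Finset.sum_singleton]
      exact one_div_le_one_div_of_le hz0 (by exact_mod_cast h.le)
    · rw [Finset.sum_empty]
      positivity

theorem Xcn_k (h1 : S_XL2) (h2 : S_XNM) (h3 : S_SF) (h4 : S_ORT) (Q k : ℕ) (ε δ η : ℝ)
    (hQ : 1 ≤ Q) (hε : 0 < ε) (hε2 : ε < 1 / 2) (hδ : 0 < δ) (hη : 0 < η) :
    ∃ (c X1 : ℝ), 0 < c ∧ ∀ (q : ℕ) (_ : NeZero q) (T : ℝ), (q = 1 ∨ IsPrimePow q) → 1 ≤ T →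
      ∑ χ : DirichletCharacter ℂ q, (volume {t : ℝ | t ∈ Set.Icc 0 T ∧ ¬ ∀ u : ℂ, ‖u‖ = 1 →
        Net (Fu (fc χ t) u) (rho q / 2) Q k ε δ X1 ((q * T) ^ c)}).toReal ≤ η * (q.totient * T) := by
  rcases Nat.eq_zero_or_pos k with hk | hk
  · subst hk
    refine ⟨1, 1, one_pos, fun q _ T _ hT => ?_⟩
    have e : ∀ χ ∈ (Finset.univ : Finset (DirichletCharacter ℂ q)),
        (volume {t : ℝ | t ∈ Set.Icc 0 T ∧ ¬ ∀ u : ℂ, ‖u‖ = 1 →
        Net (Fu (fc χ t) u) (rho q / 2) Q 0 ε δ 1 ((q * T) ^ (1 : ℝ))}).toReal = 0 := by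
      intro χ _
      have e1 : {t : ℝ | t ∈ Set.Icc 0 T ∧ ¬ ∀ u : ℂ, ‖u‖ = 1 →
        Net (Fu (fc χ t) u) (rho q / 2) Q 0 ε δ 1 ((q * T) ^ (1 : ℝ))} = ∅ := by
        rw [Set.eq_empty_iff_forall_notMem]
        rintro t ⟨_, ht⟩
        exact ht fun u _ => CN_zero _ _ Q hQ ε δ 1 _ hδ
      rw [e1]
      simp
    rw [Finset.sum_congr rfl e, Finset.sum_const_zero]
    positivity
  obtain ⟨C, hC, hNM⟩ := h2 k hk
  obtain ⟨CS, hCS, hSF⟩ := h3 Q hQ
  -- the sieve level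
  obtain ⟨z, hz⟩ := exists_nat_ge (max 2 (8 * C * CS / δ))
  have hz2R : (2 : ℝ) ≤ z := (le_max_left _ _).trans hz
  have hz2 : 2 ≤ z := by exact_mod_cast hz2R
  have hz0 : (0 : ℝ) < z := by linarith
  have hzδ : 8 * C * CS / δ ≤ z := (le_max_right _ _).trans hz
  obtain ⟨Cz, hCz, hdev⟩ := hSF z hz2
  obtain ⟨c, X0, hc, hX0, hL⟩ := Xcn_unif h1 hk hε hε2
  obtain ⟨δ', hδ'⟩ : ∃ x : ℝ, x = δ / (2 * 2 ^ k) := ⟨_, rfl⟩
  have hδ'0 : 0 < δ' := by rw [hδ']; positivity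
  obtain ⟨A, hA⟩ : ∃ A : ℝ, A = 16 * Q ^ 2 / δ' ^ 2 * (1 + 2 * 12 ^ k) := ⟨_, rfl⟩
  have hQ1 : (1 : ℝ) ≤ Q := by exact_mod_cast hQ
  have hA0 : 0 ≤ A := by rw [hA]; positivity
  obtain ⟨i1, hi1⟩ := CN_tail (q := Q) hQ hc (show 0 ≤ ((k : ℝ) + 1) * A by positivity) hη
  obtain ⟨V, hV⟩ : ∃ V : ℝ, V = (4 * C * (Cz + 1) / δ) ^ 2 := ⟨_, rfl⟩
  have hV0 : 0 < V := by rw [hV]; positivity
  obtain ⟨X1, hX1⟩ : ∃ X1, X1 = max (max X0 (nt Q i1)) ((V + 4 * Q) ^ (1 / ε)) := ⟨_, rfl⟩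
  refine ⟨1 / (2 * (k : ℝ) + c), X1, by positivity, fun q _ T hqp hT => ?_⟩
  have hT0 : 0 < T := by linarith
  have hq0 : 0 < q := Nat.pos_of_ne_zero (NeZero.ne q)
  have hqR : (0 : ℝ) < q := by exact_mod_cast hq0
  have hφ : (0 : ℝ) < q.totient := by exact_mod_cast Nat.totient_pos.2 hq0
  have hqT : (0 : ℝ) < q * T := by positivity
  have hφT : (0 : ℝ) < q.totient * T := by positivity
  obtain ⟨Y, hY⟩ : ∃ Y : ℝ, Y = (q * T) ^ (1 / (2 * (k : ℝ) + c)) := ⟨_, rfl⟩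
  rw [← hY]
  have hYD : Y ^ (2 * (k : ℝ) + c) ≤ q * T := by
    rw [hY, ← Real.rpow_mul hqT.le, one_div, inv_mul_cancel₀ (by positivity), Real.rpow_one]
  have hRz := Xcn_Rz hqp (show 1 ≤ z by omega)
  obtain ⟨N, hN⟩ := CN_nt_unb hQ Y
  let bad : DirichletCharacter ℂ q → ℕ → ℕ → ℕ → Set ℝ := fun χ i j s =>
    {t : ℝ | t ∈ Set.Icc 0 T ∧ δ' * ((nt Q (i + 1) - nt Q i) * nt Q j ^ ((k : ℝ) / 2)) <
      ‖Jc (fc χ t) s (k - s) (nt Q i) (nt Q (i + 1)) (nt Q j)‖}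
  let js : ℕ → Finset ℕ := fun i => (Finset.range (i + 1)).filter fun j =>
    X0 ≤ nt Q i ∧ nt Q i ^ ε ≤ nt Q j ∧ nt Q j ≤ nt Q i ^ (1 - ε) ∧ nt Q i ≤ Y
  have hsub : ∀ χ : DirichletCharacter ℂ q, {t : ℝ | t ∈ Set.Icc 0 T ∧ ¬ ∀ u : ℂ, ‖u‖ = 1 →
      Net (Fu (fc χ t) u) (rho q / 2) Q k ε δ X1 Y} ⊆
      ⋃ i ∈ Finset.Ico i1 N, ⋃ j ∈ js i, ⋃ s ∈ Finset.range (k + 1), bad χ i j s := by
    rintro χ t ⟨htT, htN⟩
    by_contra hnot
    apply htN
    intro u hu i j g1 g2 g3 g4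
    obtain ⟨a, ha⟩ : ∃ a, a = nt Q i := ⟨_, rfl⟩
    obtain ⟨b, hb⟩ : ∃ b, b = nt Q (i + 1) := ⟨_, rfl⟩
    obtain ⟨h, hh⟩ : ∃ h, h = nt Q j := ⟨_, rfl⟩
    have ha1 : 1 ≤ a := by
      rw [ha]
      unfold nt
      exact Real.one_le_rpow (by norm_num) (by positivity)
    have hh1 : 1 ≤ h := by
      rw [hh]
      unfold nt
      exact Real.one_le_rpow (by norm_num) (by positivity)
    have ha0 : 0 < a := by linarith
    have hh0 : 0 < h := by linarith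
    have hbs := CN_nt_succ Q i
    obtain ⟨r1, r2⟩ := CN_root hQ
    have gX0 : X0 ≤ nt Q i := by
      refine le_trans ?_ g1
      rw [hX1]
      exact (le_max_left _ _).trans (le_max_left _ _)
    have gi1 : i1 ≤ i := by
      rw [← CN_nt_mono hQ]
      refine le_trans ?_ g1
      rw [hX1]
      exact (le_max_right _ _).trans (le_max_left _ _)
    have gV : V + 4 * Q ≤ a ^ ε := by
      have e1 : (V + 4 * Q) ^ (1 / ε) ≤ a := by
        rw [ha]
        refine le_trans ?_ g1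
        rw [hX1]
        exact le_max_right _ _
      calc V + 4 * Q = ((V + 4 * Q) ^ (1 / ε)) ^ ε := by
            rw [← Real.rpow_mul (by positivity), one_div, inv_mul_cancel₀ hε.ne', Real.rpow_one]
        _ ≤ a ^ ε := Real.rpow_le_rpow (by positivity) e1 hε.le
    have giY : nt Q i ≤ Y := ((CN_nt_mono hQ).2 (Nat.le_succ i)).trans g2
    have giN := hN i giY
    have gji : j ≤ i := by
      rw [← CN_nt_mono hQ]
      refine g4.trans ?_
      rw [← ha]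
      calc a ^ (1 - ε) ≤ a ^ (1 : ℝ) := Real.rpow_le_rpow_of_exponent_le ha1 (by linarith)
        _ = a := Real.rpow_one a
    have hJd : ∀ s ∈ Finset.range (k + 1), ‖Jc (fc χ t) s (k - s) a b h‖ ≤ δ' * ((b - a) * h ^ ((k : ℝ) / 2)) := by
      intro s hs
      by_contra hcon
      apply hnot
      rw [Set.mem_iUnion₂]
      refine ⟨i, Finset.mem_Ico.2 ⟨gi1, giN⟩, ?_⟩
      rw [Set.mem_iUnion₂]
      refine ⟨j, Finset.mem_filter.2 ⟨Finset.mem_range.2 (by omega), gX0, g3, g4, giY⟩, ?_⟩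
      rw [Set.mem_iUnion₂]
      refine ⟨s, hs, htT, ?_⟩
      rw [← ha, ← hb, ← hh]
      exact not_le.1 hcon
    rw [← ha, ← hb] at hbs
    rw [← ha, ← hh] at g3 g4
    rw [← ha, ← hb, ← hh]
    have hb2 : b ≤ 2 * a := by
      rw [hbs]
      nlinarith
    have hba : a / (4 * Q) ≤ b - a := by
      rw [hbs]
      have e1 : a / (4 * Q) = a * (1 / (4 * (Q : ℝ))) := by ring
      rw [e1]
      have := mul_le_mul_of_nonneg_left r2 ha0.le
      linarith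
    have hab : 0 < b - a := lt_of_lt_of_le (by positivity) hba
    have hhq : h ≤ a / (4 * Q) := by
      refine g4.trans ?_
      rw [Real.rpow_sub ha0, Real.rpow_one]
      apply div_le_div_of_nonneg_left ha0.le (by positivity)
      linarith
    have hdv := hdev a a b h q hq0 ha1 le_rfl hb2 hba hh1 hhq
    have hnm := hNM (fc χ t) q a b h u (Xcn_fc_sq χ t) hq0 ha0 (by linarith) hh1 hu
    have hsh : 0 < Real.sqrt h := Real.sqrt_pos.2 hh0
    have hVh : 4 * C * (Cz + 1) / δ ≤ Real.sqrt h := by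
      rw [Real.le_sqrt (by positivity) hh0.le, ← hV]
      linarith
    have hs1 : C * ((Cz + 1) / Real.sqrt h) ≤ δ / 4 := by
      rw [div_le_iff₀ hδ] at hVh
      rw [← mul_div_assoc, div_le_iff₀ hsh]
      linarith
    have hs2 : C * (CS * (1 / z + Rz z q)) ≤ δ / 4 := by
      have e1 : 1 / (z : ℝ) + Rz z q ≤ 2 * (1 / z) := by linarith
      calc C * (CS * (1 / z + Rz z q)) ≤ C * (CS * (2 * (1 / z))) := by
            apply mul_le_mul_of_nonneg_left _ hC.le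
            exact mul_le_mul_of_nonneg_left e1 hCS.le
        _ = (8 * C * CS) / z / 4 := by ring
        _ ≤ δ / 4 := by
            apply div_le_div_of_nonneg_right _ (by norm_num)
            rw [div_le_iff₀ hz0]
            rw [div_le_iff₀ hδ] at hzδ
            linarith
    obtain ⟨w, hw⟩ : ∃ w, w = h ^ ((k : ℝ) / 2) := ⟨_, rfl⟩
    have hw0 : 0 < w := by rw [hw]; positivity
    rw [← hw] at hnm hJd ⊢
    have hs3 : ∑ i ∈ Finset.range (k + 1), (k.choose i : ℝ) * ‖Jc (fc χ t) i (k - i) a b h‖ / (b - a) ≤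
        (δ / 2) * w := by
      calc ∑ i ∈ Finset.range (k + 1), (k.choose i : ℝ) * ‖Jc (fc χ t) i (k - i) a b h‖ / (b - a)
          ≤ ∑ i ∈ Finset.range (k + 1), (k.choose i : ℝ) * (δ' * w) := by
            refine Finset.sum_le_sum fun i hi => ?_
            rw [mul_div_assoc]
            apply mul_le_mul_of_nonneg_left _ (Nat.cast_nonneg _)
            rw [div_le_iff₀ hab]
            have := hJd i hi
            linarith
        _ = (2 : ℝ) ^ k * (δ' * w) := by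
            rw [← Finset.sum_mul]
            congr 1
            exact_mod_cast Nat.sum_range_choose k
        _ = (δ / 2) * w := by
            rw [hδ']
            field_simp
    have hs4 : C * w * (dev q a b h + 1 / Real.sqrt h) ≤ w * (δ / 2) := by
      have e1 : dev q a b h + 1 / Real.sqrt h ≤ CS * (1 / z + Rz z q) + (Cz + 1) / Real.sqrt h := by
        rw [add_div]
        linarith
      have e2 : C * (dev q a b h + 1 / Real.sqrt h) ≤ δ / 2 := by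
        have := mul_le_mul_of_nonneg_left e1 hC.le
        rw [mul_add] at this
        linarith
      calc C * w * (dev q a b h + 1 / Real.sqrt h) = w * (C * (dev q a b h + 1 / Real.sqrt h)) := by ring
        _ ≤ w * (δ / 2) := mul_le_mul_of_nonneg_left e2 hw0.le
    linarith
  have hfin : ∀ χ i j s, volume (bad χ i j s) ≠ ⊤ := by
    intro χ i j s
    refine ne_top_of_le_ne_top ?_ (measure_mono (show bad χ i j s ⊆ Set.Icc 0 T from fun t ht => ht.1))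
    rw [Real.volume_Icc]
    exact ENNReal.ofReal_ne_top
  have hmeas : ∀ χ : DirichletCharacter ℂ q, (volume {t : ℝ | t ∈ Set.Icc 0 T ∧ ¬ ∀ u : ℂ, ‖u‖ = 1 →
      Net (Fu (fc χ t) u) (rho q / 2) Q k ε δ X1 Y}).toReal ≤
      ∑ i ∈ Finset.Ico i1 N, ∑ j ∈ js i, ∑ s ∈ Finset.range (k + 1), (volume (bad χ i j s)).toReal := by
    intro χ
    have hU : volume (⋃ i ∈ Finset.Ico i1 N, ⋃ j ∈ js i, ⋃ s ∈ Finset.range (k + 1), bad χ i j s) ≠ ⊤ := by
      have hs : (⋃ i ∈ Finset.Ico i1 N, ⋃ j ∈ js i, ⋃ s ∈ Finset.range (k + 1), bad χ i j s) ⊆ Set.Icc 0 T := by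
        refine Set.iUnion₂_subset fun i _ => Set.iUnion₂_subset fun j _ => Set.iUnion₂_subset fun s _ => ?_
        exact fun t ht => ht.1
      refine ne_top_of_le_ne_top ?_ (measure_mono hs)
      rw [Real.volume_Icc]
      exact ENNReal.ofReal_ne_top
    refine (ENNReal.toReal_mono hU (measure_mono (hsub χ))).trans ?_
    refine (measureReal_biUnion_finset_le _ _).trans (Finset.sum_le_sum fun i _ => ?_)
    refine (measureReal_biUnion_finset_le _ _).trans (Finset.sum_le_sum fun j _ => ?_)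
    exact measureReal_biUnion_finset_le _ _
  calc ∑ χ : DirichletCharacter ℂ q, (volume {t : ℝ | t ∈ Set.Icc 0 T ∧ ¬ ∀ u : ℂ, ‖u‖ = 1 →
        Net (Fu (fc χ t) u) (rho q / 2) Q k ε δ X1 Y}).toReal
      ≤ ∑ χ : DirichletCharacter ℂ q, ∑ i ∈ Finset.Ico i1 N, ∑ j ∈ js i, ∑ s ∈ Finset.range (k + 1),
          (volume (bad χ i j s)).toReal := Finset.sum_le_sum fun χ _ => hmeas χ
    _ = ∑ i ∈ Finset.Ico i1 N, ∑ j ∈ js i, ∑ s ∈ Finset.range (k + 1),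
          ∑ χ : DirichletCharacter ℂ q, (volume (bad χ i j s)).toReal := by
        rw [Finset.sum_comm]
        refine Finset.sum_congr rfl fun i _ => ?_
        rw [Finset.sum_comm]
        refine Finset.sum_congr rfl fun j _ => ?_
        rw [Finset.sum_comm]
    _ ≤ ∑ i ∈ Finset.Ico i1 N, ∑ j ∈ js i, ∑ s ∈ Finset.range (k + 1), A * nt Q i ^ (-c) * (q.totient * T) := by
        refine Finset.sum_le_sum fun i _ => Finset.sum_le_sum fun j hj => Finset.sum_le_sum fun s hs => ?_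
        obtain ⟨-, f1, f2, f3, f4⟩ := Finset.mem_filter.1 hj
        have hsk : s ≤ k := by
          have := Finset.mem_range.1 hs
          omega
        have := Xcn_one h4 hQ hsk hε hδ'0 hc (hL s hsk) (q := q) hT f1 f2 f3 f4 hYD
        rw [← hA] at this
        exact this
    _ ≤ ∑ i ∈ Finset.Ico i1 N, (((i : ℝ) + 1) * (((k : ℝ) + 1) * A * nt Q i ^ (-c))) * (q.totient * T) := by
        refine Finset.sum_le_sum fun i _ => ?_
        rw [Finset.sum_const, Finset.sum_const, Finset.card_range, nsmul_eq_mul, nsmul_eq_mul]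
        have e1 : ((js i).card : ℝ) ≤ (i : ℝ) + 1 := by
          have e2 : (js i).card ≤ i + 1 := by
            refine (Finset.card_filter_le _ _).trans ?_
            rw [Finset.card_range]
          exact_mod_cast e2
        have e3 : 0 ≤ ((k + 1 : ℕ) : ℝ) * (A * nt Q i ^ (-c) * (q.totient * T)) := by
          have := CN_nt_pos Q i
          positivity
        calc ((js i).card : ℝ) * (((k + 1 : ℕ) : ℝ) * (A * nt Q i ^ (-c) * (q.totient * T)))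
            ≤ ((i : ℝ) + 1) * (((k + 1 : ℕ) : ℝ) * (A * nt Q i ^ (-c) * (q.totient * T))) :=
              mul_le_mul_of_nonneg_right e1 e3
          _ = _ := by
              push_cast
              ring
    _ = (∑ i ∈ Finset.Ico i1 N, (((i : ℝ) + 1) * (((k : ℝ) + 1) * A * nt Q i ^ (-c)))) * (q.totient * T) := by
        rw [Finset.sum_mul]
    _ ≤ η * (q.totient * T) := mul_le_mul_of_nonneg_right (hi1 N) hφT.le

theorem Xcn_all (h1 : S_XL2) (h2 : S_XNM) (h3 : S_SF) (h4 : S_ORT) (Q K : ℕ) (ε δ : ℝ)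
    (hQ : 1 ≤ Q) (hε : 0 < ε) (hε2 : ε < 1 / 2) (hδ : 0 < δ) : ∀ η : ℝ, 0 < η →
    ∃ (c X1 : ℝ), 0 < c ∧ ∀ (q : ℕ) (_ : NeZero q) (T : ℝ), (q = 1 ∨ IsPrimePow q) → 1 ≤ T →
      ∑ χ : DirichletCharacter ℂ q, (volume {t : ℝ | t ∈ Set.Icc 0 T ∧ ¬ ∀ u : ℂ, ‖u‖ = 1 → ∀ k ≤ K,
        Net (Fu (fc χ t) u) (rho q / 2) Q k ε δ X1 ((q * T) ^ c)}).toReal ≤ η * (q.totient * T) := by
  have hfin : ∀ (T : ℝ) (p : ℝ → Prop), volume {t : ℝ | t ∈ Set.Icc 0 T ∧ p t} ≠ ⊤ := by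
    intro T p
    refine ne_top_of_le_ne_top ?_ (measure_mono (show {t : ℝ | t ∈ Set.Icc 0 T ∧ p t} ⊆ Set.Icc 0 T from
      fun t ht => ht.1))
    rw [Real.volume_Icc]
    exact ENNReal.ofReal_ne_top
  induction K with
  | zero =>
    intro η hη
    obtain ⟨c, X1, hc, h⟩ := Xcn_k h1 h2 h3 h4 Q 0 ε δ η hQ hε hε2 hδ hη
    refine ⟨c, X1, hc, fun q hq T hqp hT => le_trans ?_ (h q hq T hqp hT)⟩
    refine Finset.sum_le_sum fun χ _ => ?_
    refine ENNReal.toReal_mono (hfin T _) (measure_mono ?_)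
    rintro t ⟨ht1, ht2⟩
    refine ⟨ht1, fun hn => ht2 fun u hu k hk => ?_⟩
    rw [Nat.le_zero.1 hk]
    exact hn u hu
  | succ K ih =>
    intro η hη
    obtain ⟨c, X1, hc, h⟩ := ih (η / 2) (by positivity)
    obtain ⟨c', X1', hc', h'⟩ := Xcn_k h1 h2 h3 h4 Q (K + 1) ε δ (η / 2) hQ hε hε2 hδ (by positivity)
    refine ⟨min c c', max X1 X1', lt_min hc hc', fun q hq T hqp hT => ?_⟩
    have hq1 : (1 : ℝ) ≤ q := by exact_mod_cast Nat.pos_of_ne_zero (NeZero.ne q)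
    have hqT : 1 ≤ (q : ℝ) * T := one_le_mul_of_one_le_of_one_le hq1 hT
    have e3 := h q hq T hqp hT
    have e4 := h' q hq T hqp hT
    have e5 : ∑ χ : DirichletCharacter ℂ q, (volume {t : ℝ | t ∈ Set.Icc 0 T ∧ ¬ ∀ u : ℂ, ‖u‖ = 1 → ∀ k ≤ K + 1,
        Net (Fu (fc χ t) u) (rho q / 2) Q k ε δ (max X1 X1') ((q * T) ^ (min c c'))}).toReal ≤
        ∑ χ : DirichletCharacter ℂ q, ((volume {t : ℝ | t ∈ Set.Icc 0 T ∧ ¬ ∀ u : ℂ, ‖u‖ = 1 → ∀ k ≤ K,
          Net (Fu (fc χ t) u) (rho q / 2) Q k ε δ X1 ((q * T) ^ c)}).toReal +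
        (volume {t : ℝ | t ∈ Set.Icc 0 T ∧ ¬ ∀ u : ℂ, ‖u‖ = 1 →
          Net (Fu (fc χ t) u) (rho q / 2) Q (K + 1) ε δ X1' ((q * T) ^ c')}).toReal) := by
      refine Finset.sum_le_sum fun χ _ => ?_
      rw [← ENNReal.toReal_add (hfin T _) (hfin T _)]
      refine ENNReal.toReal_mono (ENNReal.add_ne_top.2 ⟨hfin T _, hfin T _⟩) ?_
      refine le_trans (measure_mono ?_) (measure_union_le _ _)
      rintro t ⟨ht1, ht2⟩
      by_contra hcon
      rw [Set.mem_union, not_or] at hcon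
      obtain ⟨c1, c2⟩ := hcon
      apply ht2
      intro u hu k hk
      have d1 : ∀ u : ℂ, ‖u‖ = 1 → ∀ k ≤ K, Net (Fu (fc χ t) u) (rho q / 2) Q k ε δ X1 ((q * T) ^ c) := by
        by_contra hh
        exact c1 ⟨ht1, hh⟩
      have d2 : ∀ u : ℂ, ‖u‖ = 1 → Net (Fu (fc χ t) u) (rho q / 2) Q (K + 1) ε δ X1' ((q * T) ^ c') := by
        by_contra hh
        exact c2 ⟨ht1, hh⟩
      rcases Nat.lt_or_ge k (K + 1) with hlt | hge
      · exact CN_net_mono (d1 u hu k (by omega)) (le_max_left _ _)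
          (Real.rpow_le_rpow_of_exponent_le hqT (min_le_left _ _))
      · have hkK : k = K + 1 := by omega
        rw [hkK]
        exact CN_net_mono (d2 u hu) (le_max_right _ _)
          (Real.rpow_le_rpow_of_exponent_le hqT (min_le_right _ _))
    rw [Finset.sum_add_distrib] at e5
    linarith

theorem t_XCN (h1 : S_XL2) (h2 : S_XNM) (h3 : S_SF) (h4 : S_ORT) : S_XCN := by
  intro Q K ε δ η hQ hε hε2 hδ hη
  obtain ⟨c, X1, hc, h⟩ := Xcn_all h1 h2 h3 h4 Q K ε δ hQ hε hε2 hδ η hη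
  exact ⟨c, X1, 1, hc, fun q hq T hqp hT _ => h q hq T hqp hT⟩

end Pool.Agent.N282.GC
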