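import Pool.Agent.N282.GC.StmX
import Pool.Agent.N282.GC.L2

/-!
# Project GCX, part XL2: the mean square of the unbalanced part (helper297)
-/

set_option autoImplicit false

open MeasureTheory Filter Topology Classical

namespace Pool.Agent.N282.GC

lemma Xl2_forall {k l : ℕ} (n : Fin k → ℕ) (m : Fin l → ℕ) (P : ℕ → Prop) :
    (∀ i, P (Fin.append n m i)) ↔ (∀ i, P (n i)) ∧ ∀ i, P (m i) := by
  constructor
  · intro h
    refine ⟨fun i => ?_, fun i => ?_⟩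
    · have := h (Fin.castAdd l i)
      rwa [Fin.append_left] at this
    · have := h (Fin.natAdd k i)
      rwa [Fin.append_right] at this
  · rintro ⟨h1, h2⟩ i
    refine Fin.addCases (fun j => ?_) (fun j => ?_) i
    · rw [Fin.append_left]; exact h1 j
    · rw [Fin.append_right]; exact h2 j

lemma Xl2_prod {k l : ℕ} (n : Fin k → ℕ) (m : Fin l → ℕ) :
    ∏ i, Fin.append n m i = (∏ i, n i) * ∏ i, m i := by
  rw [Fin.prod_univ_add]
  simp only [Fin.append_left, Fin.append_right]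

lemma Xl2_inj {k l : ℕ} {n n' : Fin k → ℕ} {m m' : Fin l → ℕ}
    (h : Fin.append n m = Fin.append n' m') : n = n' ∧ m = m' := by
  constructor
  · ext i
    have := congrFun h (Fin.castAdd l i)
    rwa [Fin.append_left, Fin.append_left] at this
  · ext i
    have := congrFun h (Fin.natAdd k i)
    rwa [Fin.append_right, Fin.append_right] at this

/-- the unbalanced pairs of tuples of elements of `range N` -/
noncomputable def Xl2_U (k l N : ℕ) : Finset ((Fin k → ℕ) × (Fin l → ℕ)) :=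
  (tup k (Finset.range N) ×ˢ tup l (Finset.range N)).filter fun p => ¬ Bal p.1 p.2

/-- the length of the set of the centres -/
noncomputable def Xl2_lam {k l : ℕ} (a b H : ℝ) (p : (Fin k → ℕ) × (Fin l → ℕ)) : ℝ :=
  L2_lam a b H (Fin.append p.1 p.2)

/-- the product of the values -/
noncomputable def Xl2_v {k l : ℕ} (F : ℕ → ℂ) (p : (Fin k → ℕ) × (Fin l → ℕ)) : ℂ :=
  (∏ i, F (p.1 i)) * ∏ i, (starRingEnd ℂ) (F (p.2 i))

lemma Xl2_UP_eq (F : ℕ → ℂ) (k l : ℕ) {x H X : ℝ} {N : ℕ} (hH0 : 0 ≤ H) (hH : H ≤ X)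
    (hx : x ≤ 2 * X) (hN : 3 * X < N) :
    UPc F k l x H = ∑ p ∈ Xl2_U k l N, ((L2_ind H (Fin.append p.1 p.2) x : ℝ) : ℂ) * Xl2_v F p := by
  unfold UPc Xl2_U
  have h0 : ∑ n ∈ tup k (win x H), ∑ m ∈ (tup l (win x H)).filter (fun m => ¬ Bal n m),
      (∏ i, F (n i)) * ∏ i, (starRingEnd ℂ) (F (m i)) =
      ∑ p ∈ (tup k (win x H) ×ˢ tup l (win x H)).filter (fun p => ¬ Bal p.1 p.2), Xl2_v F p := by
    rw [Finset.sum_filter, Finset.sum_product]
    refine Finset.sum_congr rfl fun n _ => ?_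
    rw [Finset.sum_filter]
    rfl
  rw [h0]
  have h1 : (tup k (win x H) ×ˢ tup l (win x H)).filter (fun p => ¬ Bal p.1 p.2) =
      ((tup k (Finset.range N) ×ˢ tup l (Finset.range N)).filter fun p => ¬ Bal p.1 p.2).filter
        (fun p => ∀ i, |((Fin.append p.1 p.2 i : ℕ) : ℝ) - x| < H / 2) := by
    ext p
    have h5 := Xl2_forall p.1 p.2 (fun n => |((n : ℕ) : ℝ) - x| < H / 2)
    simp only [Finset.mem_filter, Finset.mem_product, tup, Fintype.mem_piFinset]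
    constructor
    · rintro ⟨⟨h2, h2'⟩, h3⟩
      exact ⟨⟨⟨fun i => L2_win_sub hH0 hH hx hN (h2 i), fun i => L2_win_sub hH0 hH hx hN (h2' i)⟩,
        h3⟩, h5.2 ⟨fun i => (L2_mem_win hH0 _).mp (h2 i), fun i => (L2_mem_win hH0 _).mp (h2' i)⟩⟩
    · rintro ⟨⟨_, h3⟩, h4⟩
      have h6 := h5.1 h4
      exact ⟨⟨fun i => (L2_mem_win hH0 _).mpr (h6.1 i), fun i => (L2_mem_win hH0 _).mpr (h6.2 i)⟩,
        h3⟩
  rw [h1, Finset.sum_filter]
  refine Finset.sum_congr rfl fun n _ => ?_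
  unfold L2_ind
  split_ifs <;> simp

lemma Xl2_J_eq (F : ℕ → ℂ) (k l : ℕ) {a b H X : ℝ} {N : ℕ} (hH0 : 0 ≤ H) (hH : H ≤ X)
    (hab : a ≤ b) (hb : b ≤ 2 * X) (hN : 3 * X < N) :
    Jc F k l a b H = ∑ p ∈ Xl2_U k l N, ((Xl2_lam a b H p : ℝ) : ℂ) * Xl2_v F p := by
  unfold Jc
  have h1 : ∫ x in a..b, UPc F k l x H =
      ∫ x in a..b, ∑ p ∈ Xl2_U k l N, ((L2_ind H (Fin.append p.1 p.2) x : ℝ) : ℂ) * Xl2_v F p := by
    refine intervalIntegral.integral_congr fun x hx => ?_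
    rw [Set.uIcc_of_le hab] at hx
    exact Xl2_UP_eq F k l hH0 hH (hx.2.trans hb) hN
  rw [h1, intervalIntegral.integral_finsetSum]
  · refine Finset.sum_congr rfl fun n _ => ?_
    rw [intervalIntegral.integral_mul_const, intervalIntegral.integral_ofReal]
    rfl
  · intro n _
    have h5 : IntervalIntegrable (fun x => ((L2_ind H (Fin.append n.1 n.2) x : ℝ) : ℂ))
        volume a b := ⟨(L2_ind_int H (Fin.append n.1 n.2) a b).1.ofReal,
      (L2_ind_int H (Fin.append n.1 n.2) a b).2.ofReal⟩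
    exact h5.mul_const _

lemma Xl2_sum_lam (K : ℕ) {a b H X : ℝ} (hH0 : 1 ≤ H) (hH : H ≤ X) (ha : X ≤ a)
    (hab : a ≤ b) (hb : b ≤ 2 * X) (W : Finset (Fin K → ℕ)) :
    ∑ n ∈ W, L2_lam a b H n ≤ X * (2 * H) ^ K := by
  have hX : 0 ≤ X := by linarith
  have h1 : ∑ n ∈ W, L2_lam a b H n = ∫ x in a..b, ∑ n ∈ W, L2_ind H n x := by
    rw [intervalIntegral.integral_finsetSum]
    · rfl
    · intro n _
      exact L2_ind_int H n a b
  rw [h1]
  have h2 : ∫ x in a..b, ∑ n ∈ W, L2_ind H n x ≤ ∫ _x in a..b, (2 * H) ^ K := by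
    refine intervalIntegral.integral_mono_on hab ?_ intervalIntegrable_const ?_
    · have h3 : (fun x => ∑ n ∈ W, L2_ind H n x) = ∑ n ∈ W, L2_ind H n := by
        ext x; simp
      rw [h3]
      exact IntervalIntegrable.sum _ fun n _ => L2_ind_int H n a b
    · intro x hx
      have h3 : ∑ n ∈ W, L2_ind H n x =
          ((W.filter fun n => ∀ i, |(n i : ℝ) - x| < H / 2).card : ℝ) := by
        rw [Finset.card_filter]
        push_cast
        rfl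
      rw [h3]
      have h4 : (W.filter fun n => ∀ i, |(n i : ℝ) - x| < H / 2) ⊆ tup K (win x H) := by
        intro n hn
        rw [Finset.mem_filter] at hn
        simp only [tup, Fintype.mem_piFinset]
        exact fun i => (L2_mem_win (by linarith) _).mpr (hn.2 i)
      have h5 : ((W.filter fun n => ∀ i, |(n i : ℝ) - x| < H / 2).card : ℝ) ≤
          ((win x H).card : ℝ) ^ K := by
        have h6 := Finset.card_le_card h4
        have h7 : (tup K (win x H)).card = (win x H).card ^ K := by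
          unfold tup
          rw [Fintype.card_piFinset]
          simp
        rw [h7] at h6
        exact_mod_cast h6
      refine h5.trans ?_
      refine pow_le_pow_left₀ (by positivity) ?_ K
      have h8 := L2_card_win (x := x) (H := H) (by linarith [hx.1]) (by linarith)
      linarith
  refine h2.trans ?_
  rw [intervalIntegral.integral_const, smul_eq_mul]
  refine mul_le_mul_of_nonneg_right (by linarith) (by positivity)

lemma Xl2_sum (k l N : ℕ) {a b H X : ℝ} (hH0 : 1 ≤ H) (hH : H ≤ X) (ha : X ≤ a)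
    (hab : a ≤ b) (hb : b ≤ 2 * X) :
    ∑ p ∈ Xl2_U k l N, Xl2_lam a b H p ≤ X * (2 * H) ^ (k + l) := by
  have h1 : ∑ p ∈ Xl2_U k l N, Xl2_lam a b H p =
      ∑ n ∈ (Xl2_U k l N).image (fun p => Fin.append p.1 p.2), L2_lam a b H n := by
    rw [Finset.sum_image]
    · rfl
    · intro p _ q _ h
      have := Xl2_inj h
      exact Prod.ext this.1 this.2
  rw [h1]
  exact Xl2_sum_lam (k + l) hH0 hH ha hab hb _

lemma Xl2_prod_le {k : ℕ} (F : ℕ → ℂ) (hF : ∀ n, ‖F n‖ ≤ 1) (n : Fin k → ℕ) :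
    ‖∏ i, F (n i)‖ ≤ 1 := by
  rw [norm_prod]
  exact Finset.prod_le_one (fun i _ => norm_nonneg _) fun i _ => hF _

lemma Xl2_v_le {k l : ℕ} (F : ℕ → ℂ) (hF : ∀ n, ‖F n‖ ≤ 1) (p : (Fin k → ℕ) × (Fin l → ℕ)) :
    ‖Xl2_v F p‖ ≤ 1 := by
  unfold Xl2_v
  rw [norm_mul]
  refine mul_le_one₀ (Xl2_prod_le F hF _) (norm_nonneg _) ?_
  exact Xl2_prod_le (fun n => (starRingEnd ℂ) (F n)) (fun n => by
    show ‖(starRingEnd ℂ) (F n)‖ ≤ 1
    rw [RCLike.norm_conj]; exact hF n) p.2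

lemma Xl2_v_zero {k l : ℕ} (F : ℕ → ℂ) (hF : ∀ n, ¬ Squarefree n → F n = 0)
    (p : (Fin k → ℕ) × (Fin l → ℕ))
    (h : ¬ ((∀ i, Squarefree (p.1 i)) ∧ ∀ i, Squarefree (p.2 i))) : Xl2_v F p = 0 := by
  unfold Xl2_v
  by_cases h1 : ∀ i, Squarefree (p.1 i)
  · have h2 : ¬ ∀ i, Squarefree (p.2 i) := fun h2 => h ⟨h1, h2⟩
    push Not at h2
    obtain ⟨i, hi⟩ := h2
    rw [Finset.prod_eq_zero (i := i) (s := Finset.univ)
      (f := fun i => (starRingEnd ℂ) (F (p.2 i))) (Finset.mem_univ i)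
      (by rw [hF _ hi, map_zero]), mul_zero]
  · push Not at h1
    obtain ⟨i, hi⟩ := h1
    rw [Finset.prod_eq_zero (i := i) (s := Finset.univ)
      (f := fun i => F (p.1 i)) (Finset.mem_univ i) (hF _ hi), zero_mul]

lemma Xl2_conj {k l : ℕ} (F : ℕ → ℂ) (p : (Fin k → ℕ) × (Fin l → ℕ)) :
    (starRingEnd ℂ) (Xl2_v F p) = (∏ i, (starRingEnd ℂ) (F (p.1 i))) * ∏ i, F (p.2 i) := by
  unfold Xl2_v
  rw [map_mul, map_prod, map_prod]
  simp only [Complex.conj_conj]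

theorem t_XL2 (h1 : S_CLG) (h2 : S_XPAIR) : S_XL2 := by
  intro k l ε hk hε hε2
  obtain ⟨c, X0, hc, hX0, hCL⟩ := h1 (k + l) ε hk hε hε2
  refine ⟨c, X0, hc, hX0, ?_⟩
  intro X H a b hX hH1 hH2 ha hab hb Ω _ P _ F δ hδ hFm hF1 hFs hE
  have hX2 : 2 ≤ X := hX0.trans hX
  have hX0' : 0 < X := by linarith
  have hH : 1 ≤ H := (Real.one_le_rpow (by linarith) hε.le).trans hH1
  have hHX : H ≤ X := by
    refine hH2.trans ?_
    calc X ^ (1 - ε) ≤ X ^ (1 : ℝ) := Real.rpow_le_rpow_of_exponent_le (by linarith) (by linarith)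
      _ = X := Real.rpow_one X
  obtain ⟨N, hN⟩ := exists_nat_gt (3 * X)
  have hH0 : 0 ≤ H := by linarith
  -- the expansion of the square
  set U := Xl2_U k l N with hU
  have hJ : ∀ ω, ((‖Jc (F ω) k l a b H‖ ^ 2 : ℝ) : ℂ) = ∑ t ∈ U ×ˢ U,
      ((Xl2_lam a b H t.1 * Xl2_lam a b H t.2 : ℝ) : ℂ) *
      (Xl2_v (F ω) t.1 * (starRingEnd ℂ) (Xl2_v (F ω) t.2)) := by
    intro ω
    rw [Complex.ofReal_pow, ← Complex.mul_conj', Xl2_J_eq (F ω) k l hH0 hHX hab hb hN, map_sum,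
      Finset.sum_mul_sum, Finset.sum_product]
    refine Finset.sum_congr rfl fun n _ => Finset.sum_congr rfl fun m _ => ?_
    rw [map_mul, Complex.conj_ofReal, Complex.ofReal_mul]
    ring
  have hmv : ∀ p : (Fin k → ℕ) × (Fin l → ℕ), Measurable fun ω => Xl2_v (F ω) p := by
    intro p
    unfold Xl2_v
    refine Measurable.mul ?_ ?_
    · exact Finset.measurable_prod _ fun i _ => hFm _
    · exact Finset.measurable_prod _ fun i _ => (Complex.continuous_conj.measurable).comp (hFm _)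
  have hmeas : ∀ t : ((Fin k → ℕ) × (Fin l → ℕ)) × ((Fin k → ℕ) × (Fin l → ℕ)),
      Measurable fun ω => Xl2_v (F ω) t.1 * (starRingEnd ℂ) (Xl2_v (F ω) t.2) := by
    intro t
    exact (hmv _).mul ((Complex.continuous_conj.measurable).comp (hmv _))
  have hle1 : ∀ (t : ((Fin k → ℕ) × (Fin l → ℕ)) × ((Fin k → ℕ) × (Fin l → ℕ))) ω,
      ‖Xl2_v (F ω) t.1 * (starRingEnd ℂ) (Xl2_v (F ω) t.2)‖ ≤ 1 := by
    intro t ω
    rw [norm_mul, RCLike.norm_conj]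
    exact mul_le_one₀ (Xl2_v_le _ (hF1 ω) _) (norm_nonneg _) (Xl2_v_le _ (hF1 ω) _)
  have hint : ∀ t : ((Fin k → ℕ) × (Fin l → ℕ)) × ((Fin k → ℕ) × (Fin l → ℕ)),
      Integrable (fun ω => Xl2_v (F ω) t.1 * (starRingEnd ℂ) (Xl2_v (F ω) t.2)) P := by
    intro t
    refine Integrable.mono' (integrable_const (1 : ℝ)) (hmeas t).aestronglyMeasurable ?_
    exact Filter.Eventually.of_forall fun ω => hle1 t ω
  have hEle1 : ∀ t : ((Fin k → ℕ) × (Fin l → ℕ)) × ((Fin k → ℕ) × (Fin l → ℕ)),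
      ‖∫ ω, Xl2_v (F ω) t.1 * (starRingEnd ℂ) (Xl2_v (F ω) t.2) ∂P‖ ≤ 1 := by
    intro t
    have h1 := norm_integral_le_of_norm_le_const (μ := P)
      (f := fun ω => Xl2_v (F ω) t.1 * (starRingEnd ℂ) (Xl2_v (F ω) t.2)) (C := 1)
      (Filter.Eventually.of_forall fun ω => hle1 t ω)
    simpa using h1
  have hEJ : ((∫ ω, ‖Jc (F ω) k l a b H‖ ^ 2 ∂P : ℝ) : ℂ) = ∑ t ∈ U ×ˢ U,
      ((Xl2_lam a b H t.1 * Xl2_lam a b H t.2 : ℝ) : ℂ) *
      ∫ ω, Xl2_v (F ω) t.1 * (starRingEnd ℂ) (Xl2_v (F ω) t.2) ∂P := by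
    rw [← integral_complex_ofReal]
    have e1 : (fun ω => ((‖Jc (F ω) k l a b H‖ ^ 2 : ℝ) : ℂ)) = fun ω => ∑ t ∈ U ×ˢ U,
      ((Xl2_lam a b H t.1 * Xl2_lam a b H t.2 : ℝ) : ℂ) *
      (Xl2_v (F ω) t.1 * (starRingEnd ℂ) (Xl2_v (F ω) t.2)) := funext hJ
    rw [e1, integral_finsetSum]
    · refine Finset.sum_congr rfl fun t _ => ?_
      rw [integral_const_mul]
    · intro t _
      exact (hint t).const_mul _
  have hEn : ∫ ω, ‖Jc (F ω) k l a b H‖ ^ 2 ∂P ≤ ∑ t ∈ U ×ˢ U,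
      (Xl2_lam a b H t.1 * Xl2_lam a b H t.2) *
      ‖∫ ω, Xl2_v (F ω) t.1 * (starRingEnd ℂ) (Xl2_v (F ω) t.2) ∂P‖ := by
    have e1 : ∫ ω, ‖Jc (F ω) k l a b H‖ ^ 2 ∂P =
        ‖((∫ ω, ‖Jc (F ω) k l a b H‖ ^ 2 ∂P : ℝ) : ℂ)‖ := by
      rw [Complex.norm_real, Real.norm_eq_abs, abs_of_nonneg (integral_nonneg fun ω => by positivity)]
    rw [e1, hEJ]
    refine (norm_sum_le _ _).trans (le_of_eq ?_)
    refine Finset.sum_congr rfl fun t _ => ?_
    rw [norm_mul, Complex.norm_real, Real.norm_eq_abs, abs_of_nonneg]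
    exact mul_nonneg (L2_lam_nonneg _ hab) (L2_lam_nonneg _ hab)
  refine hEn.trans ?_
  -- the pairs with square product
  set T := (U ×ˢ U).filter fun t : ((Fin k → ℕ) × (Fin l → ℕ)) × ((Fin k → ℕ) × (Fin l → ℕ)) =>
    (Xl2_lam a b H t.1 ≠ 0 ∧ Xl2_lam a b H t.2 ≠ 0) ∧
      ((∀ i, Squarefree (t.1.1 i)) ∧ ∀ i, Squarefree (t.1.2 i)) ∧
      ((∀ i, Squarefree (t.2.1 i)) ∧ ∀ i, Squarefree (t.2.2 i)) ∧
      (∏ i, t.1.1 i) * (∏ i, t.2.2 i) = (∏ i, t.1.2 i) * (∏ i, t.2.1 i) with hT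
  have hloc : ∀ p : (Fin k → ℕ) × (Fin l → ℕ), Xl2_lam a b H p ≠ 0 →
      (∀ i, X / 2 ≤ ((Fin.append p.1 p.2 i : ℕ) : ℝ) ∧
        ((Fin.append p.1 p.2 i : ℕ) : ℝ) ≤ 3 * X) ∧
      ∀ i j, |((Fin.append p.1 p.2 i : ℕ) : ℝ) - ((Fin.append p.1 p.2 j : ℕ) : ℝ)| ≤ H := by
    intro n hn
    obtain ⟨x, hx, h1⟩ := L2_lam_ne hab hn
    refine ⟨fun i => ?_, fun i j => ?_⟩
    · have h2 := abs_lt.mp (h1 i)
      constructor
      · linarith [hx.1, h2.1]
      · linarith [hx.2, h2.2]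
    · have h2 := abs_lt.mp (h1 i)
      have h3 := abs_lt.mp (h1 j)
      rw [abs_le]
      constructor <;> linarith [h2.1, h2.2, h3.1, h3.2]
  have hloc' : ∀ p : (Fin k → ℕ) × (Fin l → ℕ), Xl2_lam a b H p ≠ 0 →
      (∀ i, X / 2 ≤ p.1 i ∧ (p.1 i : ℝ) ≤ 3 * X) ∧ (∀ i, X / 2 ≤ p.2 i ∧ (p.2 i : ℝ) ≤ 3 * X) :=
    fun p hp => (Xl2_forall p.1 p.2 (fun n => X / 2 ≤ n ∧ (n : ℝ) ≤ 3 * X)).1 (hloc p hp).1
  have hcard : (T.card : ℝ) * H ^ 2 ≤ X ^ (2 - c) * H ^ (k + l) := by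
    have e0 : T.card = (T.image fun t => (Fin.append t.1.1 t.1.2, Fin.append t.2.1 t.2.2)).card := by
      rw [Finset.card_image_of_injective]
      intro t t' h
      have h3 := Xl2_inj (congrArg Prod.fst h)
      have h4 := Xl2_inj (congrArg Prod.snd h)
      exact Prod.ext (Prod.ext h3.1 h3.2) (Prod.ext h4.1 h4.2)
    rw [e0]
    refine hCL X H hX hH1 hH2 _ ?_
    intro s hs
    obtain ⟨t, ht, rfl⟩ := Finset.mem_image.1 hs
    rw [hT, Finset.mem_filter, Finset.mem_product] at ht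
    obtain ⟨⟨h1, h1'⟩, ⟨h3, h4⟩, h5, h6, h7⟩ := ht
    rw [hU, Xl2_U, Finset.mem_filter] at h1
    obtain ⟨h8, h9⟩ := hloc t.1 h3
    obtain ⟨h10, h11⟩ := hloc t.2 h4
    have h12 := hloc' t.1 h3
    have h13 := hloc' t.2 h4
    have h14 := (Xl2_forall t.1.1 t.1.2 Squarefree).2 h5
    have h15 := (Xl2_forall t.2.1 t.2.2 Squarefree).2 h6
    refine ⟨fun i => ⟨(h8 i).1, (h8 i).2, h14 i⟩, fun i => ⟨(h10 i).1, (h10 i).2, h15 i⟩, h9, h11,
      ?_, ?_⟩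
    · refine ⟨(∏ i, t.1.1 i) * (∏ i, t.2.2 i), ?_⟩
      show (∏ i, Fin.append t.1.1 t.1.2 i) * ∏ i, Fin.append t.2.1 t.2.2 i = _
      rw [Xl2_prod, Xl2_prod]
      nth_rewrite 2 [h7]
      ring
    · exact h2 k l X t.1.1 t.2.1 t.1.2 t.2.2 hX2 (fun i => ⟨(h12.1 i).1, h5.1 i⟩)
        (fun i => ⟨(h12.2 i).1, h5.2 i⟩) (fun i => ⟨(h13.1 i).1, h6.1 i⟩)
        (fun i => ⟨(h13.2 i).1, h6.2 i⟩) h7 h1.2
  -- bound for the terms
  have hterm : ∀ t ∈ U ×ˢ U, (Xl2_lam a b H t.1 * Xl2_lam a b H t.2) *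
      ‖∫ ω, Xl2_v (F ω) t.1 * (starRingEnd ℂ) (Xl2_v (F ω) t.2) ∂P‖ ≤
      (if t ∈ T then H ^ 2 else 0) + δ * (Xl2_lam a b H t.1 * Xl2_lam a b H t.2) := by
    intro t ht
    have hl1 : 0 ≤ Xl2_lam a b H t.1 := L2_lam_nonneg (a := a) (b := b) (H := H) _ hab
    have hl2 : 0 ≤ Xl2_lam a b H t.2 := L2_lam_nonneg (a := a) (b := b) (H := H) _ hab
    have hl3 : Xl2_lam a b H t.1 ≤ H := L2_lam_le (a := a) (b := b) (H := H) _ hk hab hH0
    have hl4 : Xl2_lam a b H t.2 ≤ H := L2_lam_le (a := a) (b := b) (H := H) _ hk hab hH0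
    have hll : 0 ≤ Xl2_lam a b H t.1 * Xl2_lam a b H t.2 := mul_nonneg hl1 hl2
    have hδll : 0 ≤ δ * (Xl2_lam a b H t.1 * Xl2_lam a b H t.2) := mul_nonneg hδ hll
    have hif : (0 : ℝ) ≤ if t ∈ T then H ^ 2 else 0 := by
      split_ifs <;> positivity
    by_cases htT : t ∈ T
    · rw [if_pos htT]
      have h1 := mul_le_mul_of_nonneg_left (hEle1 t) hll
      have h2 : Xl2_lam a b H t.1 * Xl2_lam a b H t.2 ≤ H ^ 2 := by
        rw [sq]
        exact mul_le_mul hl3 hl4 hl2 hH0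
      linarith
    · by_cases h0 : Xl2_lam a b H t.1 = 0
      · rw [h0, zero_mul, zero_mul]
        linarith [hif]
      by_cases h0' : Xl2_lam a b H t.2 = 0
      · rw [h0', mul_zero, zero_mul]
        linarith [hif]
      by_cases hs1 : (∀ i, Squarefree (t.1.1 i)) ∧ ∀ i, Squarefree (t.1.2 i)
      · by_cases hs2 : (∀ i, Squarefree (t.2.1 i)) ∧ ∀ i, Squarefree (t.2.2 i)
        · have hns : (∏ i, t.1.1 i) * (∏ i, t.2.2 i) ≠ (∏ i, t.1.2 i) * (∏ i, t.2.1 i) := by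
            intro hsq
            apply htT
            rw [hT, Finset.mem_filter]
            exact ⟨ht, ⟨h0, h0'⟩, hs1, hs2, hsq⟩
          have h12 := hloc' t.1 h0
          have h13 := hloc' t.2 h0'
          have h1 := hE t.1.1 t.2.1 t.1.2 t.2.2 (fun i => ⟨(h12.1 i).2, hs1.1 i⟩)
            (fun i => ⟨(h12.2 i).2, hs1.2 i⟩) (fun i => ⟨(h13.1 i).2, hs2.1 i⟩)
            (fun i => ⟨(h13.2 i).2, hs2.2 i⟩) hns
          have e1 : (fun ω => Xl2_v (F ω) t.1 * (starRingEnd ℂ) (Xl2_v (F ω) t.2)) = fun ω =>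
              (∏ i, F ω (t.1.1 i)) * (∏ i, (starRingEnd ℂ) (F ω (t.1.2 i))) *
              ((∏ i, (starRingEnd ℂ) (F ω (t.2.1 i))) * ∏ i, F ω (t.2.2 i)) := by
            funext ω
            rw [Xl2_conj]
            rfl
          rw [e1]
          have h2 := mul_le_mul_of_nonneg_left h1 hll
          linarith
        · have h1 : ∀ ω, Xl2_v (F ω) t.1 * (starRingEnd ℂ) (Xl2_v (F ω) t.2) = 0 := by
            intro ω
            rw [Xl2_v_zero (F ω) (hFs ω) _ hs2, map_zero, mul_zero]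
          simp_rw [h1]
          simp only [integral_zero, norm_zero, mul_zero]
          linarith [hif, hδll]
      · have h1 : ∀ ω, Xl2_v (F ω) t.1 * (starRingEnd ℂ) (Xl2_v (F ω) t.2) = 0 := by
          intro ω
          rw [Xl2_v_zero (F ω) (hFs ω) _ hs1, zero_mul]
        simp_rw [h1]
        simp only [integral_zero, norm_zero, mul_zero]
        linarith [hif, hδll]
  refine (Finset.sum_le_sum hterm).trans ?_
  rw [Finset.sum_add_distrib, ← Finset.mul_sum]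
  have h1 : ∑ t ∈ U ×ˢ U, (if t ∈ T then H ^ 2 else 0) = (T.card : ℝ) * H ^ 2 := by
    rw [← Finset.sum_filter]
    have h2 : (U ×ˢ U).filter (fun t => t ∈ T) = T := by
      ext t
      rw [Finset.mem_filter]
      refine ⟨fun h => h.2, fun h => ⟨?_, h⟩⟩
      rw [hT, Finset.mem_filter] at h
      exact h.1
    rw [h2, Finset.sum_const, nsmul_eq_mul]
  have h3 : ∑ t ∈ U ×ˢ U, Xl2_lam a b H t.1 * Xl2_lam a b H t.2 =
      (∑ n ∈ U, Xl2_lam a b H n) ^ 2 := by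
    rw [sq, Finset.sum_mul_sum, Finset.sum_product]
  have h4 : (∑ n ∈ U, Xl2_lam a b H n) ^ 2 ≤ X ^ 2 * (2 * H) ^ (2 * (k + l)) := by
    have h5 : 0 ≤ ∑ n ∈ U, Xl2_lam a b H n := Finset.sum_nonneg fun n _ => L2_lam_nonneg _ hab
    have h6 := pow_le_pow_left₀ h5 (Xl2_sum k l N hH hHX ha hab hb) 2
    refine h6.trans (le_of_eq ?_)
    rw [mul_pow, ← pow_mul, mul_comm (k + l) 2]
  rw [h1, h3]
  have h7 := mul_le_mul_of_nonneg_left h4 hδ
  have h8 : δ * (X ^ 2 * (2 * H) ^ (2 * (k + l))) = δ * X ^ 2 * (2 * H) ^ (2 * (k + l)) := by ring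
  linarith

end Pool.Agent.N282.GC
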