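import Pool.Agent.N282.GC.StmX
import Pool.Agent.N282.GC.Nm

/-!
# Project GCX, part XNM: the moments of the real parts (helper433)
-/

set_option autoImplicit false

open MeasureTheory Filter Topology Classical

namespace Pool.Agent.N282.GC

/-! ### Balanced pairs -/

theorem Xnm_count {k : ℕ} (n : Fin k → ℕ) (v : ℕ) :
    (Multiset.map n Finset.univ.val).count v = (Finset.univ.filter fun i => n i = v).card := by
  rw [Multiset.count_map, Finset.card_def, Finset.filter_val]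
  congr 1
  refine Multiset.filter_congr fun i _ => ?_
  exact eq_comm

theorem Xnm_bal_iff {k l : ℕ} (n : Fin k → ℕ) (m : Fin l → ℕ) :
    Bal n m ↔ Multiset.map n Finset.univ.val = Multiset.map m Finset.univ.val := by
  unfold Bal
  rw [Multiset.ext]
  refine forall_congr' fun v => ?_
  rw [Xnm_count, Xnm_count]

theorem Xnm_bal_card {k l : ℕ} {n : Fin k → ℕ} {m : Fin l → ℕ} (h : Bal n m) : k = l := by
  have h1 := congrArg Multiset.card ((Xnm_bal_iff n m).1 h)
  simpa using h1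

theorem Xnm_prod_eq {k l : ℕ} {n : Fin k → ℕ} {m : Fin l → ℕ} (h : Bal n m) (g : ℕ → ℂ) :
    ∏ i, g (m i) = ∏ i, g (n i) := by
  have h2 : ∀ {k : ℕ} (n : Fin k → ℕ),
      ∏ i, g (n i) = ((Multiset.map n Finset.univ.val).map g).prod := by
    intro k n
    rw [Multiset.map_map]
    rfl
  rw [h2, h2, (Xnm_bal_iff n m).1 h]

theorem Xnm_bal_val {k l : ℕ} {n : Fin k → ℕ} {m : Fin l → ℕ} (h : Bal n m) (i : Fin l) :
    ∃ i', n i' = m i := by
  have h1 : m i ∈ Multiset.map n Finset.univ.val := by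
    rw [(Xnm_bal_iff n m).1 h]
    exact Multiset.mem_map_of_mem _ (Finset.mem_univ i)
  obtain ⟨i', -, h2⟩ := Multiset.mem_map.1 h1
  exact ⟨i', h2⟩

theorem Xnm_bal_comp {k l : ℕ} {n : Fin k → ℕ} {m : Fin l → ℕ} (h : Bal n m) (g : ℕ → ℕ) :
    Bal (fun i => g (n i)) (fun i => g (m i)) := by
  rw [Xnm_bal_iff] at h ⊢
  have h2 : ∀ {k : ℕ} (n : Fin k → ℕ),
      Multiset.map (fun i => g (n i)) Finset.univ.val = (Multiset.map n Finset.univ.val).map g := by
    intro k n
    rw [Multiset.map_map]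
    rfl
  rw [h2, h2, h]

/-- the number of balanced pairs depends on the cardinality of the set only -/
theorem Xnm_bcount (k : ℕ) (A : Finset ℕ) :
    ((tup k A ×ˢ tup k A).filter fun t => Bal t.1 t.2).card = bcount k A.card := by
  let e := A.equivFin
  let g : ℕ → ℕ := fun v => if h : v < A.card then (e.symm ⟨v, h⟩ : ℕ) else 0
  let f : ℕ → ℕ := fun v => if h : v ∈ A then (e ⟨v, h⟩ : ℕ) else 0
  have hf : ∀ v ∈ A, f v < A.card ∧ g (f v) = v := by
    intro v hv
    have h1 : f v = (e ⟨v, hv⟩ : ℕ) := by simp only [f, dif_pos hv]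
    have h2 : f v < A.card := by rw [h1]; exact (e ⟨v, hv⟩).isLt
    refine ⟨h2, ?_⟩
    simp only [g, dif_pos h2]
    have h3 : (⟨f v, h2⟩ : Fin A.card) = e ⟨v, hv⟩ := Fin.ext h1
    rw [h3, Equiv.symm_apply_apply]
  have hg : ∀ v, v < A.card → g v ∈ A ∧ f (g v) = v := by
    intro v hv
    have h1 : g v = (e.symm ⟨v, hv⟩ : ℕ) := by simp only [g, dif_pos hv]
    have h2 : g v ∈ A := by rw [h1]; exact (e.symm ⟨v, hv⟩).2
    refine ⟨h2, ?_⟩
    simp only [f, dif_pos h2]
    have h3 : (⟨g v, h2⟩ : A) = e.symm ⟨v, hv⟩ := Subtype.ext h1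
    rw [h3, Equiv.apply_symm_apply]
  unfold bcount
  refine Finset.card_nbij' (fun t => (fun i => f (t.1 i), fun i => f (t.2 i)))
    (fun t => (fun i => g (t.1 i), fun i => g (t.2 i))) ?_ ?_ ?_ ?_
  · intro t ht
    rw [Finset.mem_coe, Finset.mem_filter, Finset.mem_product, tup, Fintype.mem_piFinset, Fintype.mem_piFinset] at ht
    rw [Finset.mem_coe, Finset.mem_filter, Finset.mem_product, tup, Fintype.mem_piFinset, Fintype.mem_piFinset]
    exact ⟨⟨fun i => Finset.mem_range.2 (hf _ (ht.1.1 i)).1,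
      fun i => Finset.mem_range.2 (hf _ (ht.1.2 i)).1⟩, Xnm_bal_comp ht.2 f⟩
  · intro t ht
    rw [Finset.mem_coe, Finset.mem_filter, Finset.mem_product, tup, Fintype.mem_piFinset, Fintype.mem_piFinset] at ht
    rw [Finset.mem_coe, Finset.mem_filter, Finset.mem_product, tup, Fintype.mem_piFinset, Fintype.mem_piFinset]
    exact ⟨⟨fun i => (hg _ (Finset.mem_range.1 (ht.1.1 i))).1,
      fun i => (hg _ (Finset.mem_range.1 (ht.1.2 i))).1⟩, Xnm_bal_comp ht.2 g⟩
  · intro t ht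
    rw [Finset.mem_coe, Finset.mem_filter, Finset.mem_product, tup, Fintype.mem_piFinset, Fintype.mem_piFinset] at ht
    exact Prod.ext (funext fun i => (hf _ (ht.1.1 i)).2) (funext fun i => (hf _ (ht.1.2 i)).2)
  · intro t ht
    rw [Finset.mem_coe, Finset.mem_filter, Finset.mem_product, tup, Fintype.mem_piFinset, Fintype.mem_piFinset] at ht
    exact Prod.ext (funext fun i => (hg _ (Finset.mem_range.1 (ht.1.1 i))).2)
      (funext fun i => (hg _ (Finset.mem_range.1 (ht.1.2 i))).2)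

/-! ### The powers -/

/-- the balanced part -/
noncomputable def Xnm_BA (F : ℕ → ℂ) (k l : ℕ) (x H : ℝ) : ℂ :=
  ∑ n ∈ tup k (win x H), ∑ m ∈ (tup l (win x H)).filter (fun m => Bal n m),
    (∏ i, F (n i)) * ∏ i, (starRingEnd ℂ) (F (m i))

theorem Xnm_pow (F : ℕ → ℂ) (k l : ℕ) (x H : ℝ) :
    Mc F x H ^ k * (starRingEnd ℂ) (Mc F x H) ^ l = Xnm_BA F k l x H + UPc F k l x H := by
  have h1 : ∀ (G : ℕ → ℂ) (k : ℕ),
      (∑ n ∈ win x H, G n) ^ k = ∑ n ∈ tup k (win x H), ∏ i, G (n i) := by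
    intro G k
    have h2 : (∑ n ∈ win x H, G n) ^ k = ∏ _i : Fin k, ∑ n ∈ win x H, G n := by
      rw [Finset.prod_const, Finset.card_univ, Fintype.card_fin]
    rw [h2, Finset.prod_univ_sum]
    rfl
  rw [Mc, map_sum, h1, h1, Finset.sum_mul_sum, Xnm_BA, UPc, ← Finset.sum_add_distrib]
  refine Finset.sum_congr rfl fun n _ => ?_
  exact (Finset.sum_filter_add_sum_filter_not _ _ _).symm

theorem Xnm_BA_eq {F : ℕ → ℂ} {d : ℕ}
    (hF : ∀ n, ‖F n‖ ^ 2 = if Squarefree n ∧ Nat.Coprime n d then 1 else 0) (k l : ℕ) (x H : ℝ) :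
    Xnm_BA F k l x H = if k = l then ((bcount k (sfc d x H).card : ℕ) : ℂ) else 0 := by
  have hterm : ∀ (n : Fin k → ℕ) (m : Fin l → ℕ), Bal n m →
      (∏ i, F (n i)) * ∏ i, (starRingEnd ℂ) (F (m i)) =
        if ∀ i, (Squarefree (n i) ∧ Nat.Coprime (n i) d) then 1 else 0 := by
    intro n m h
    rw [Xnm_prod_eq h (fun v => (starRingEnd ℂ) (F v)), ← Finset.prod_mul_distrib]
    have h1 : ∀ i, F (n i) * (starRingEnd ℂ) (F (n i)) =
        if Squarefree (n i) ∧ Nat.Coprime (n i) d then (1 : ℂ) else 0 := by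
      intro i
      rw [Complex.mul_conj, Complex.normSq_eq_norm_sq, hF]
      split_ifs <;> simp
    rw [Finset.prod_congr rfl fun i _ => h1 i, Finset.prod_ite_zero]
    simp
  by_cases hkl : k = l
  · subst hkl
    rw [if_pos rfl, ← Xnm_bcount]
    have h2 : ((tup k (sfc d x H) ×ˢ tup k (sfc d x H)).filter fun t => Bal t.1 t.2) =
        (tup k (win x H) ×ˢ tup k (win x H)).filter fun t => Bal t.1 t.2 ∧
          ∀ i, (Squarefree (t.1 i) ∧ Nat.Coprime (t.1 i) d) := by
      ext ⟨n, m⟩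
      rw [Finset.mem_filter, Finset.mem_product, tup, Fintype.mem_piFinset, Fintype.mem_piFinset,
        Finset.mem_filter, Finset.mem_product, tup, Fintype.mem_piFinset, Fintype.mem_piFinset]
      simp only [sfc, Finset.mem_filter]
      constructor
      · rintro ⟨⟨h1, h2⟩, h3⟩
        exact ⟨⟨fun i => (h1 i).1, fun i => (h2 i).1⟩, h3, fun i => (h1 i).2⟩
      · rintro ⟨⟨h1, h2⟩, h3, h4⟩
        refine ⟨⟨fun i => ⟨h1 i, h4 i⟩, fun i => ⟨h2 i, ?_⟩⟩, h3⟩
        obtain ⟨i', hi'⟩ := Xnm_bal_val h3 i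
        rw [← hi']
        exact h4 i'
    rw [h2, Finset.card_filter]
    push_cast
    rw [Finset.sum_product, Xnm_BA]
    refine Finset.sum_congr rfl fun n _ => ?_
    rw [Finset.sum_filter]
    refine Finset.sum_congr rfl fun m _ => ?_
    by_cases hB : Bal n m
    · rw [if_pos hB, hterm n m hB]
      by_cases h3 : ∀ i, (Squarefree (n i) ∧ Nat.Coprime (n i) d)
      · rw [if_pos h3, if_pos ⟨hB, h3⟩]
      · rw [if_neg h3, if_neg fun h => h3 h.2]
    · rw [if_neg hB, if_neg fun h => hB h.1]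
  · rw [if_neg hkl, Xnm_BA]
    refine Finset.sum_eq_zero fun n _ => Finset.sum_eq_zero fun m hm => ?_
    exact absurd (Xnm_bal_card (Finset.mem_filter.1 hm).2) hkl

/-! ### Integrability -/

theorem Xnm_int {E : Type} [NormedAddCommGroup E] (G : Finset ℕ → E) {a b H : ℝ} (hab : a ≤ b)
    (hH : 0 ≤ H) : IntervalIntegrable (fun x => G (win x H)) volume a b := by
  set N := ⌈b + H⌉₊ + 1 with hN
  let W : ℝ → Finset ℕ := fun x => (Finset.range N).filter fun n : ℕ => |(n : ℝ) - x| < H / 2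
  let _ : MeasurableSpace (Finset ℕ) := ⊤
  have _ : DiscreteMeasurableSpace (Finset ℕ) := ⟨fun _ => trivial⟩
  have hW : Measurable W := by
    apply measurable_to_countable'
    intro A
    have h1 : W ⁻¹' {A} = ⋂ n : ℕ,
        {x : ℝ | (n ∈ Finset.range N ∧ |(n : ℝ) - x| < H / 2) ↔ n ∈ A} := by
      ext x
      simp only [Set.mem_preimage, Set.mem_singleton_iff, Set.mem_iInter, Set.mem_ofPred_eq, W,
        Finset.ext_iff, Finset.mem_filter]
    rw [h1]
    refine MeasurableSet.iInter fun n => ?_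
    rw [measurableSet_setOfPred]
    refine Measurable.iff (Measurable.and measurable_const ?_) measurable_const
    rw [← measurableSet_setOfPred]
    exact measurableSet_lt (by fun_prop) measurable_const
  have hG : StronglyMeasurable (G ∘ W) :=
    (StronglyMeasurable.of_discrete (f := G)).comp_measurable hW
  have hB : ∀ x, ‖(G ∘ W) x‖ ≤ ∑ A ∈ (Finset.range N).powerset, ‖G A‖ := by
    intro x
    refine Finset.single_le_sum (f := fun A => ‖G A‖) (fun A _ => norm_nonneg _) ?_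
    rw [Finset.mem_powerset]
    exact Finset.filter_subset _ _
  have hI : IntervalIntegrable (G ∘ W) volume a b := by
    rw [intervalIntegrable_iff]
    exact Measure.integrableOn_of_bounded (M := ∑ A ∈ (Finset.range N).powerset, ‖G A‖) (by simp)
      hG.aestronglyMeasurable (ae_of_all _ hB)
  refine hI.congr ?_
  intro x hx
  rw [Set.uIoc_of_le hab] at hx
  have h2 : win x H = W x := by
    ext n
    rw [Nm_mem_win hH]
    simp only [W, Finset.mem_filter]
    constructor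
    · intro h
      exact ⟨Nm_win_range hx.2 ((Nm_mem_win hH n).2 h), h⟩
    · exact fun h => h.2
  simp only [Function.comp_apply, h2]

/-! ### The pointwise bound -/

theorem Xnm_gm (m : ℕ) (hm : 1 ≤ m) :
    gm (m + m) * 2 ^ m = ((m + m).choose m : ℝ) * (m.factorial : ℝ) := by
  unfold gm
  rw [if_pos ⟨m, rfl⟩]
  have h1 : (m + m - 1 + 1).factorial =
      (m + m - 1 + 1).doubleFactorial * (m + m - 1).doubleFactorial :=
    Nat.factorial_eq_mul_doubleFactorial _
  have h2 : m + m - 1 + 1 = m + m := by omega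
  rw [h2] at h1
  have h3 : (m + m).doubleFactorial = 2 ^ m * m.factorial := by
    rw [← two_mul]
    exact Nat.doubleFactorial_two_mul m
  have h4 : (m + m).choose m * m.factorial * m.factorial = (m + m).factorial :=
    Nat.add_choose_mul_factorial_mul_factorial m m
  have h5 : (Nat.doubleFactorial (m + m - 1)) * 2 ^ m = (m + m).choose m * m.factorial := by
    have hpos : 0 < m.factorial := Nat.factorial_pos m
    apply Nat.eq_of_mul_eq_mul_right hpos
    rw [h4, h1, h3]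
    ring
  exact_mod_cast h5

/-- the main value -/
noncomputable def Xnm_mv (j S : ℕ) : ℝ :=
  if Even j then (1 / 2 : ℝ) ^ j * (j.choose (j / 2) : ℝ) * (bcount (j / 2) S : ℝ) else 0

theorem Xnm_point (h : S_BAL) (j : ℕ) (hj : 1 ≤ j) : ∃ C : ℝ, 0 < C ∧ ∀ (S : ℕ) (ρ H : ℝ),
    0 ≤ ρ → ρ ≤ 1 → 1 ≤ H → (S : ℝ) ≤ H + 1 →
    |Xnm_mv j S - gm j * (ρ / 2 * H) ^ ((j : ℝ) / 2)| ≤
      C * H ^ ((j : ℝ) / 2) * (|(S : ℝ) / H - ρ| + 1 / Real.sqrt H) := by
  by_cases hev : Even j
  · obtain ⟨m, hm⟩ := hev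
    have hm1 : 1 ≤ m := by omega
    obtain ⟨C, hC, hB⟩ := h m
    refine ⟨C * 3 ^ ((m : ℝ) - 1) + m.factorial * (m * 2 ^ m), by positivity, ?_⟩
    intro S ρ H hρ0 hρ1 hH hS
    have hH0 : 0 < H := by linarith
    have hjm : j / 2 = m := by omega
    have hj2 : (j : ℝ) / 2 = (m : ℕ) := by
      rw [hm]
      push_cast
      ring
    have hm1' : (1 : ℝ) ≤ m := by exact_mod_cast hm1
    set c0 : ℝ := (1 / 2 : ℝ) ^ j * (j.choose m : ℝ) with hc0
    have hc00 : 0 ≤ c0 := by positivity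
    have hc01 : c0 ≤ 1 := by
      have h1 : (j.choose m : ℝ) ≤ 2 ^ j := by exact_mod_cast Nat.choose_le_two_pow j m
      calc c0 ≤ (1 / 2) ^ j * 2 ^ j := by rw [hc0]; gcongr
        _ = 1 := by rw [← mul_pow]; norm_num
    have e0 : Xnm_mv j S = c0 * bcount m S := by
      rw [Xnm_mv, if_pos ⟨m, hm⟩, hjm]
    have e1 : gm j * (ρ / 2 * H) ^ ((j : ℝ) / 2) = c0 * (m.factorial * (ρ * H) ^ m) := by
      rw [hj2, Real.rpow_natCast]
      have h1 := Xnm_gm m hm1
      rw [← hm] at h1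
      have h2 : (ρ / 2 * H) ^ m = (ρ * H) ^ m * (1 / 2) ^ m := by
        rw [← mul_pow]
        congr 1
        ring
      have h3 : (1 / 2 : ℝ) ^ j = (1 / 2) ^ m * (1 / 2) ^ m := by rw [hm, pow_add]
      have h4 : (2 : ℝ) ^ m * (1 / 2) ^ m = 1 := by
        rw [← mul_pow]
        norm_num
      rw [h2, hc0, h3]
      linear_combination (1 / 2 : ℝ) ^ m * (1 / 2) ^ m * (ρ * H) ^ m * h1 -
        gm j * (ρ * H) ^ m * (1 / 2) ^ m * h4
    have hsq : 1 / H ≤ 1 / Real.sqrt H := by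
      have h1 : Real.sqrt H ≤ H := Real.sqrt_le_iff.2 ⟨by linarith, by nlinarith⟩
      have h2 : 0 < Real.sqrt H := Real.sqrt_pos.2 hH0
      exact one_div_le_one_div_of_le h2 h1
    have e2 : (1 + (S : ℝ)) ^ ((m : ℝ) - 1) ≤ 3 ^ ((m : ℝ) - 1) * (H ^ m * (1 / Real.sqrt H)) := by
      have h1 : (1 + (S : ℝ)) ≤ 3 * H := by linarith
      calc (1 + (S : ℝ)) ^ ((m : ℝ) - 1) ≤ (3 * H) ^ ((m : ℝ) - 1) :=
            Real.rpow_le_rpow (by positivity) h1 (by linarith)
        _ = 3 ^ ((m : ℝ) - 1) * H ^ ((m : ℝ) - 1) := Real.mul_rpow (by norm_num) hH0.le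
        _ = 3 ^ ((m : ℝ) - 1) * (H ^ m * (1 / H)) := by
            rw [Real.rpow_sub hH0, Real.rpow_one, Real.rpow_natCast]
            ring
        _ ≤ _ := by gcongr
    have e3 : |(S : ℝ) ^ m - (ρ * H) ^ m| ≤ m * 2 ^ m * (H ^ m * |(S : ℝ) / H - ρ|) := by
      have h1 : (S : ℝ) ^ m - (ρ * H) ^ m = H ^ m * (((S : ℝ) / H) ^ m - ρ ^ m) := by
        rw [div_pow, mul_pow]
        field_simp
      rw [h1, abs_mul, abs_of_pos (by positivity : (0 : ℝ) < H ^ m)]
      have h2 := abs_pow_sub_pow_le ((S : ℝ) / H) ρ m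
      have h3 : max |(S : ℝ) / H| |ρ| ≤ 2 := by
        rw [max_le_iff, abs_of_nonneg (by positivity), abs_of_nonneg hρ0]
        refine ⟨?_, by linarith⟩
        rw [div_le_iff₀ hH0]
        linarith
      have h4 : max |(S : ℝ) / H| |ρ| ^ (m - 1) ≤ 2 ^ m := by
        calc max |(S : ℝ) / H| |ρ| ^ (m - 1) ≤ 2 ^ (m - 1) :=
              pow_le_pow_left₀ (le_max_of_le_left (abs_nonneg _)) h3 _
          _ ≤ 2 ^ m := pow_le_pow_right₀ (by norm_num) (by omega)
      have h6 : |((S : ℝ) / H) ^ m - ρ ^ m| ≤ |(S : ℝ) / H - ρ| * m * 2 ^ m := by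
        refine h2.trans ?_
        gcongr
      calc H ^ m * |((S : ℝ) / H) ^ m - ρ ^ m| ≤ H ^ m * (|(S : ℝ) / H - ρ| * m * 2 ^ m) := by
            gcongr
        _ = _ := by ring
    rw [e0, e1, ← mul_sub, abs_mul, abs_of_nonneg hc00, hj2, Real.rpow_natCast]
    have e4 := hB S
    have e5 : |(bcount m S : ℝ) - m.factorial * (ρ * H) ^ m| ≤
        |(bcount m S : ℝ) - m.factorial * (S : ℝ) ^ m| +
          m.factorial * |(S : ℝ) ^ m - (ρ * H) ^ m| := by
      have h1 : (bcount m S : ℝ) - m.factorial * (ρ * H) ^ m =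
          ((bcount m S : ℝ) - m.factorial * (S : ℝ) ^ m) +
            m.factorial * ((S : ℝ) ^ m - (ρ * H) ^ m) := by ring
      rw [h1]
      refine (abs_add_le _ _).trans ?_
      rw [abs_mul, Nat.abs_cast]
    have e6 : c0 * |(bcount m S : ℝ) - m.factorial * (ρ * H) ^ m| ≤
        |(bcount m S : ℝ) - m.factorial * (ρ * H) ^ m| :=
      mul_le_of_le_one_left (abs_nonneg _) hc01
    have e7 : C * (1 + (S : ℝ)) ^ ((m : ℝ) - 1) ≤
        C * (3 ^ ((m : ℝ) - 1) * (H ^ m * (1 / Real.sqrt H))) := by gcongr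
    have e8 : (m.factorial : ℝ) * |(S : ℝ) ^ m - (ρ * H) ^ m| ≤
        m.factorial * (m * 2 ^ m * (H ^ m * |(S : ℝ) / H - ρ|)) := by gcongr
    have e9 : 0 ≤ C * 3 ^ ((m : ℝ) - 1) * H ^ m * |(S : ℝ) / H - ρ| := by positivity
    have e10 : 0 ≤ (m.factorial : ℝ) * (m * 2 ^ m) * H ^ m * (1 / Real.sqrt H) := by positivity
    calc c0 * |(bcount m S : ℝ) - m.factorial * (ρ * H) ^ m|
        ≤ C * (3 ^ ((m : ℝ) - 1) * (H ^ m * (1 / Real.sqrt H))) +
          m.factorial * (m * 2 ^ m * (H ^ m * |(S : ℝ) / H - ρ|)) := by linarith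
      _ ≤ C * (3 ^ ((m : ℝ) - 1) * (H ^ m * (1 / Real.sqrt H))) +
          m.factorial * (m * 2 ^ m * (H ^ m * |(S : ℝ) / H - ρ|)) +
          (C * 3 ^ ((m : ℝ) - 1) * H ^ m * |(S : ℝ) / H - ρ| +
          (m.factorial : ℝ) * (m * 2 ^ m) * H ^ m * (1 / Real.sqrt H)) := by linarith
      _ = _ := by ring
  · refine ⟨1, one_pos, ?_⟩
    intro S ρ H hρ0 hρ1 hH hS
    have hH0 : 0 < H := by linarith
    have h1 : gm j = 0 := by
      unfold gm
      rw [if_neg hev]
    rw [Xnm_mv, if_neg hev, h1, zero_mul, sub_zero, abs_zero]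
    positivity

/-! ### The identity -/

theorem Xnm_id {F : ℕ → ℂ} {d : ℕ}
    (hF : ∀ n, ‖F n‖ ^ 2 = if Squarefree n ∧ Nat.Coprime n d then 1 else 0) {u : ℂ} (hu : ‖u‖ = 1)
    (j : ℕ) (x H : ℝ) :
    ((M (Fu F u) x H ^ j : ℝ) : ℂ) = ((Xnm_mv j (sfc d x H).card : ℝ) : ℂ) +
      ∑ i ∈ Finset.range (j + 1), ((1 / 2 : ℂ) ^ j * (j.choose i : ℂ) *
        (u ^ i * (starRingEnd ℂ) u ^ (j - i))) * UPc F i (j - i) x H := by
  have h1 : M (Fu F u) x H = (u * Mc F x H).re := by
    rw [M, Mc, Finset.mul_sum, Complex.re_sum]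
    rfl
  have h2 : u * (starRingEnd ℂ) u = 1 := by
    rw [Complex.mul_conj, Complex.normSq_eq_norm_sq, hu]
    norm_num
  rw [Complex.ofReal_pow, h1, Complex.re_eq_add_conj, div_pow, map_mul, add_pow]
  have h3 : ∀ i, (u * Mc F x H) ^ i *
      ((starRingEnd ℂ) u * (starRingEnd ℂ) (Mc F x H)) ^ (j - i) * (j.choose i : ℂ) / 2 ^ j =
      ((1 / 2 : ℂ) ^ j * (j.choose i : ℂ) * (u ^ i * (starRingEnd ℂ) u ^ (j - i))) *
        Xnm_BA F i (j - i) x H +
      ((1 / 2 : ℂ) ^ j * (j.choose i : ℂ) * (u ^ i * (starRingEnd ℂ) u ^ (j - i))) *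
        UPc F i (j - i) x H := by
    intro i
    rw [← mul_add, ← Xnm_pow, mul_pow, mul_pow, one_div, inv_pow]
    ring
  rw [Finset.sum_div, Finset.sum_congr rfl fun i _ => h3 i, Finset.sum_add_distrib]
  congr 1
  by_cases hev : Even j
  · obtain ⟨m, hm⟩ := hev
    rw [Finset.sum_eq_single m]
    · have h4 : j - m = m := by omega
      have h5 : j / 2 = m := by omega
      rw [h4, Xnm_BA_eq hF, if_pos rfl, ← mul_pow, h2, one_pow, mul_one, Xnm_mv,
        if_pos ⟨m, hm⟩, h5]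
      push_cast
      ring
    · intro i hi hne
      rw [Finset.mem_range] at hi
      rw [Xnm_BA_eq hF, if_neg (by omega), mul_zero]
    · intro hcon
      exact absurd (Finset.mem_range.2 (by omega)) hcon
  · rw [Xnm_mv, if_neg hev, Complex.ofReal_zero]
    refine Finset.sum_eq_zero fun i hi => ?_
    rw [Finset.mem_range] at hi
    rw [Xnm_BA_eq hF, if_neg, mul_zero]
    intro hcon
    exact hev ⟨i, by omega⟩

theorem Xnm_alg (P Q B c : ℝ) (T : ℂ) (hB : B ≠ 0) (h : (P : ℂ) = Q + T) :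
    ((1 / B * P - c : ℝ) : ℂ) = ((1 / B * (Q - B * c) : ℝ) : ℂ) + T / (B : ℂ) := by
  have hB' : (B : ℂ) ≠ 0 := by exact_mod_cast hB
  push_cast
  rw [h]
  field_simp
  ring

theorem t_XNM (h : S_BAL) : S_XNM := by
  intro j hj
  obtain ⟨C, hC, hpt⟩ := Xnm_point h j hj
  refine ⟨C, hC, ?_⟩
  intro F d a b H u hF hd ha hab hH hu
  have hH0 : 0 ≤ H := by linarith
  have hba : 0 < b - a := by linarith
  set c := gm j * (rho d / 2 * H) ^ ((j : ℝ) / 2) with hc
  let w : ℕ → ℂ := fun i => (1 / 2 : ℂ) ^ j * (j.choose i : ℂ) *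
    (u ^ i * (starRingEnd ℂ) u ^ (j - i))
  have hUPi : ∀ i, IntervalIntegrable (fun x => UPc F i (j - i) x H) volume a b := fun i =>
    Xnm_int (fun A => ∑ n ∈ tup i A, ∑ m ∈ (tup (j - i) A).filter (fun m => ¬ Bal n m),
      (∏ t, F (n t)) * ∏ t, (starRingEnd ℂ) (F (m t))) hab.le hH0
  have hmi : IntervalIntegrable (fun x => Xnm_mv j (sfc d x H).card) volume a b :=
    Xnm_int (fun A => Xnm_mv j (A.filter fun n => Squarefree n ∧ Nat.Coprime n d).card) hab.le hH0
  have hmiC : IntervalIntegrable (fun x => ((Xnm_mv j (sfc d x H).card : ℝ) : ℂ)) volume a b :=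
    Xnm_int (fun A => ((Xnm_mv j (A.filter fun n => Squarefree n ∧ Nat.Coprime n d).card : ℝ) : ℂ))
      hab.le hH0
  have hSi : IntervalIntegrable (fun x => ((sfc d x H).card : ℝ)) volume a b :=
    Xnm_int (fun A => ((A.filter fun n => Squarefree n ∧ Nat.Coprime n d).card : ℝ)) hab.le hH0
  have hdi : IntervalIntegrable (fun x => |((sfc d x H).card : ℝ) / H - rho d|) volume a b :=
    ((hSi.div_const H).sub intervalIntegrable_const).abs
  have hw : ∀ i, ‖w i‖ ≤ (j.choose i : ℝ) := by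
    intro i
    have h1 : ‖w i‖ = (1 / 2 : ℝ) ^ j * (j.choose i : ℝ) := by
      simp only [w, norm_mul, norm_pow, RCLike.norm_conj, hu, one_pow, mul_one, norm_div, norm_one,
        Complex.norm_natCast, Complex.norm_ofNat]
    rw [h1]
    exact mul_le_of_le_one_left (Nat.cast_nonneg _) (pow_le_one₀ (by norm_num) (by norm_num))
  have key : ((∫ x in a..b, M (Fu F u) x H ^ j : ℝ) : ℂ) =
      ((∫ x in a..b, Xnm_mv j (sfc d x H).card : ℝ) : ℂ) +
        ∑ i ∈ Finset.range (j + 1), w i * Jc F i (j - i) a b H := by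
    rw [← intervalIntegral.integral_ofReal, ← intervalIntegral.integral_ofReal,
      intervalIntegral.integral_congr (fun x _ => Xnm_id hF hu j x H)]
    have hs : ∀ i ∈ Finset.range (j + 1),
        IntervalIntegrable (fun x => w i * UPc F i (j - i) x H) volume a b :=
      fun i _ => (hUPi i).const_mul (w i)
    have hsum : IntervalIntegrable
        (fun x => ∑ i ∈ Finset.range (j + 1), w i * UPc F i (j - i) x H) volume a b :=
      Xnm_int (fun A => ∑ i ∈ Finset.range (j + 1), w i * ∑ n ∈ tup i A,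
        ∑ m ∈ (tup (j - i) A).filter (fun m => ¬ Bal n m),
      (∏ t, F (n t)) * ∏ t, (starRingEnd ℂ) (F (m t))) hab.le hH0
    have h1 := intervalIntegral.integral_add hmiC hsum
    have h2 := intervalIntegral.integral_finsetSum hs
    rw [h2] at h1
    refine h1.trans ?_
    congr 1
    refine Finset.sum_congr rfl fun i _ => ?_
    rw [intervalIntegral.integral_const_mul]
    rfl
  have h1 : ((mom (Fu F u) j a b H - c : ℝ) : ℂ) =
      (((1 / (b - a)) * ∫ x in a..b, (Xnm_mv j (sfc d x H).card - c) : ℝ) : ℂ) +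
        ∑ i ∈ Finset.range (j + 1), w i * (Jc F i (j - i) a b H / ((b - a : ℝ) : ℂ)) := by
    have h2 : ∫ x in a..b, (Xnm_mv j (sfc d x H).card - c) =
        (∫ x in a..b, Xnm_mv j (sfc d x H).card) - (b - a) * c := by
      rw [intervalIntegral.integral_sub hmi intervalIntegrable_const,
        intervalIntegral.integral_const, smul_eq_mul]
    have h3 : ∑ i ∈ Finset.range (j + 1), w i * (Jc F i (j - i) a b H / ((b - a : ℝ) : ℂ)) =
        (∑ i ∈ Finset.range (j + 1), w i * Jc F i (j - i) a b H) / ((b - a : ℝ) : ℂ) := by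
      rw [Finset.sum_div]
      refine Finset.sum_congr rfl fun i _ => ?_
      ring
    rw [h2, h3, mom]
    exact Xnm_alg _ _ _ _ _ hba.ne' key
  have h3 : |∫ x in a..b, (Xnm_mv j (sfc d x H).card - c)| ≤
      ∫ x in a..b, C * H ^ ((j : ℝ) / 2) *
        (|((sfc d x H).card : ℝ) / H - rho d| + 1 / Real.sqrt H) := by
    have h4 := intervalIntegral.norm_integral_le_of_norm_le
      (f := fun x => Xnm_mv j (sfc d x H).card - c)
      (g := fun x => C * H ^ ((j : ℝ) / 2) *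
        (|((sfc d x H).card : ℝ) / H - rho d| + 1 / Real.sqrt H))
      hab.le (μ := volume) (ae_of_all _ fun x _ => ?_)
      ((hdi.add intervalIntegrable_const).const_mul _)
    · rwa [Real.norm_eq_abs] at h4
    · rw [Real.norm_eq_abs, hc]
      refine hpt _ _ _ (Nm_rho d).1 (Nm_rho d).2 hH ?_
      refine le_trans ?_ (Nm_card_win (x := x) hH0)
      exact_mod_cast Finset.card_filter_le _ _
  have h5 : ∫ x in a..b, C * H ^ ((j : ℝ) / 2) *
      (|((sfc d x H).card : ℝ) / H - rho d| + 1 / Real.sqrt H) =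
      C * H ^ ((j : ℝ) / 2) * ((b - a) * (dev d a b H + 1 / Real.sqrt H)) := by
    rw [intervalIntegral.integral_const_mul,
      intervalIntegral.integral_add hdi intervalIntegrable_const,
      intervalIntegral.integral_const, smul_eq_mul, dev]
    field_simp
  have h6 : |mom (Fu F u) j a b H - c| = ‖((mom (Fu F u) j a b H - c : ℝ) : ℂ)‖ := by
    rw [Complex.norm_real, Real.norm_eq_abs]
  rw [h6, h1]
  refine (norm_add_le _ _).trans (add_le_add ?_ ?_)
  · rw [Complex.norm_real, Real.norm_eq_abs, abs_mul, abs_of_pos (by positivity : 0 < 1 / (b - a))]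
    rw [h5] at h3
    calc 1 / (b - a) * |∫ x in a..b, (Xnm_mv j (sfc d x H).card - c)|
        ≤ 1 / (b - a) * (C * H ^ ((j : ℝ) / 2) * ((b - a) * (dev d a b H + 1 / Real.sqrt H))) := by
          gcongr
      _ = C * H ^ ((j : ℝ) / 2) * (dev d a b H + 1 / Real.sqrt H) := by
          field_simp
  · refine (norm_sum_le _ _).trans (Finset.sum_le_sum fun i _ => ?_)
    rw [norm_mul, norm_div, Complex.norm_real, Real.norm_eq_abs, abs_of_pos hba, ← mul_div_assoc]
    have := hw i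
    gcongr

end Pool.Agent.N282.GC
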