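import Pool.Agent.N282.GC.StmX

/-! GCX/XPAIR (helper327 for helper282). -/

set_option autoImplicit false

open Finset

namespace Pool.Agent.N282.GC

theorem XPAIR_fact {k : ℕ} (n : Fin k → ℕ) (hn : ∀ i, Squarefree (n i)) {p : ℕ} (hp : p.Prime) :
    (∏ i, n i).factorization p = (univ.filter fun i => p ∣ n i).card := by
  rw [Nat.factorization_prod_apply fun i _ => (hn i).ne_zero, card_filter]
  refine sum_congr rfl fun i _ => ?_
  split_ifs with h
  · exact Nat.factorization_eq_one_of_squarefree (hn i) hp h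
  · exact Nat.factorization_eq_zero_of_not_dvd h

theorem XPAIR_all {k l : ℕ} {P : ℕ → Prop} {n : Fin k → ℕ} {m : Fin l → ℕ} (hn : ∀ i, P (n i))
    (hm : ∀ i, P (m i)) (u : Fin (k + l)) : P (Fin.append n m u) := by
  refine Fin.addCases (fun i => ?_) (fun i => ?_) u
  · rw [Fin.append_left]
    exact hn i
  · rw [Fin.append_right]
    exact hm i

theorem t_XPAIR : S_XPAIR := by
  classical
  intro k l X n n' m m' hX hn hm hn' hm' hS hP
  unfold Bal at hP
  push Not at hP
  obtain ⟨v0, hv0⟩ := hP
  obtain ⟨u, hu'⟩ : ∃ u : Fin (k + l), Fin.append n m u = v0 := by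
    by_contra hcon
    push Not at hcon
    apply hv0
    have h1 : (univ.filter fun i => n i = v0) = ∅ := by
      ext i
      have := hcon (Fin.castAdd l i)
      rw [Fin.append_left] at this
      simp [this]
    have h2 : (univ.filter fun i => m i = v0) = ∅ := by
      ext i
      have := hcon (Fin.natAdd k i)
      rw [Fin.append_right] at this
      simp [this]
    rw [h1, h2, card_empty, card_empty]
  have hk : 0 < k + l := lt_of_le_of_lt (Nat.zero_le _) u.2
  have hall : X / 2 ≤ v0 ∧ Squarefree v0 := by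
    have h := XPAIR_all (P := fun a : ℕ => X / 2 ≤ (a : ℝ) ∧ Squarefree a) hn hm u
    rw [hu'] at h
    exact h
  have hsn : ∀ i, Squarefree (n i) := fun i => (hn i).2
  have hsm : ∀ i, Squarefree (m i) := fun i => (hm i).2
  have hsn' : ∀ i, Squarefree (n' i) := fun i => (hn' i).2
  have hsm' : ∀ i, Squarefree (m' i) := fun i => (hm' i).2
  refine ⟨u, ?_⟩
  by_contra hcon
  push Not at hcon
  obtain ⟨hc1, hc2⟩ := hcon
  set w := Fin.append n m with hw
  set w' := Fin.append n' m' with hw'
  set τ : ℝ := (X / 2) ^ (1 / (2 * (k + l : ℕ) : ℝ)) with hτ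
  have hX2 : (1 : ℝ) ≤ X / 2 := by linarith
  have hτ1 : 1 ≤ τ := Real.one_le_rpow hX2 (by positivity)
  have hτp : τ ^ (2 * (k + l)) = X / 2 := by
    rw [hτ, ← Real.rpow_natCast, ← Real.rpow_mul (by linarith)]
    have h0 : (0 : ℝ) < ((k + l : ℕ) : ℝ) := by exact_mod_cast hk
    have e : (1 / (2 * ((k + l : ℕ) : ℝ))) * ((2 * (k + l) : ℕ) : ℝ) = 1 := by
      push_cast
      push_cast at h0
      field_simp
    rw [e, Real.rpow_one]
  -- the valuations
  have hval : ∀ p : ℕ, p.Prime → (univ.filter fun i => p ∣ n i).card +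
      (univ.filter fun i => p ∣ m' i).card = (univ.filter fun i => p ∣ m i).card +
      (univ.filter fun i => p ∣ n' i).card := by
    intro p hp
    have h1 := congrArg (fun t => t.factorization p) hS
    have hn0 : ∏ i, n i ≠ 0 := prod_ne_zero_iff.2 fun i _ => (hsn i).ne_zero
    have hm0 : ∏ i, m i ≠ 0 := prod_ne_zero_iff.2 fun i _ => (hsm i).ne_zero
    have hn0' : ∏ i, n' i ≠ 0 := prod_ne_zero_iff.2 fun i _ => (hsn' i).ne_zero
    have hm0' : ∏ i, m' i ≠ 0 := prod_ne_zero_iff.2 fun i _ => (hsm' i).ne_zero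
    rw [Nat.factorization_mul hn0 hm0', Nat.factorization_mul hm0 hn0', Finsupp.add_apply,
      Finsupp.add_apply, XPAIR_fact n hsn hp, XPAIR_fact m hsm hp, XPAIR_fact n' hsn' hp,
      XPAIR_fact m' hsm' hp] at h1
    exact h1
  -- every prime divisor of `v0` divides another element
  have hprime : ∀ p ∈ v0.primeFactors, p ∣
      (∏ j ∈ univ.filter (fun j => w j ≠ v0), Nat.gcd v0 (w j)) * ∏ j, Nat.gcd v0 (w' j) := by
    intro p hp
    have hpp := Nat.prime_of_mem_primeFactors hp
    have hpv := Nat.dvd_of_mem_primeFactors hp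
    by_contra hnd
    have h1 : ∀ j, w j ≠ v0 → ¬ p ∣ w j := by
      intro j hj hpj
      apply hnd
      refine Dvd.dvd.mul_right ?_ _
      exact (Nat.dvd_gcd hpv hpj).trans (dvd_prod_of_mem _ (mem_filter.2 ⟨mem_univ _, hj⟩))
    have h2 : ∀ j, ¬ p ∣ w' j := by
      intro j hpj
      apply hnd
      refine Dvd.dvd.mul_left ?_ _
      exact (Nat.dvd_gcd hpv hpj).trans (dvd_prod_of_mem _ (mem_univ _))
    have h3 : (univ.filter fun i => p ∣ m' i) = ∅ := by
      ext i
      have := h2 (Fin.natAdd k i)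
      rw [hw', Fin.append_right] at this
      simp [this]
    have h3' : (univ.filter fun i => p ∣ n' i) = ∅ := by
      ext i
      have := h2 (Fin.castAdd l i)
      rw [hw', Fin.append_left] at this
      simp [this]
    have h4 : (univ.filter fun i => p ∣ n i) = univ.filter fun i => n i = v0 := by
      ext i
      simp only [mem_filter, mem_univ, true_and]
      constructor
      · intro h
        by_contra h0
        have h5 := h1 (Fin.castAdd l i)
        rw [hw, Fin.append_left] at h5
        exact h5 h0 h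
      · intro h
        rw [h]
        exact hpv
    have h4' : (univ.filter fun i => p ∣ m i) = univ.filter fun i => m i = v0 := by
      ext i
      simp only [mem_filter, mem_univ, true_and]
      constructor
      · intro h
        by_contra h0
        have h5 := h1 (Fin.natAdd k i)
        rw [hw, Fin.append_right] at h5
        exact h5 h0 h
      · intro h
        rw [h]
        exact hpv
    have h5 := hval p hpp
    rw [h3, h3', h4, h4', card_empty, add_zero, card_empty, add_zero] at h5
    exact hv0 h5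
  have hsv : Squarefree v0 := hall.2
  have hdvd : v0 ∣ (∏ j ∈ univ.filter (fun j => w j ≠ v0), Nat.gcd v0 (w j)) *
      ∏ j, Nat.gcd v0 (w' j) := by
    have h1 := Finset.prod_primes_dvd (s := v0.primeFactors) _
      (fun p hp => (Nat.prime_of_mem_primeFactors hp).prime) hprime
    rwa [Nat.prod_primeFactors_of_squarefree hsv] at h1
  have hv00 : 0 < v0 := Nat.pos_of_ne_zero hsv.ne_zero
  have hg1 : ∀ a, 0 < Nat.gcd v0 a := fun a => Nat.gcd_pos_of_pos_left _ hv00
  have hle : v0 ≤ (∏ j ∈ univ.filter (fun j => w j ≠ v0), Nat.gcd v0 (w j)) *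
      ∏ j, Nat.gcd v0 (w' j) :=
    Nat.le_of_dvd (Nat.mul_pos (prod_pos fun j _ => hg1 _) (prod_pos fun j _ => hg1 _)) hdvd
  have hle' : (v0 : ℝ) ≤ (∏ j ∈ univ.filter (fun j => w j ≠ v0), (Nat.gcd v0 (w j) : ℝ)) *
      ∏ j, (Nat.gcd v0 (w' j) : ℝ) := by exact_mod_cast hle
  have hA : ∏ j ∈ univ.filter (fun j => w j ≠ v0), (Nat.gcd v0 (w j) : ℝ) ≤ τ ^ (k + l) := by
    calc ∏ j ∈ univ.filter (fun j => w j ≠ v0), (Nat.gcd v0 (w j) : ℝ) ≤
        ∏ j ∈ univ.filter (fun j => w j ≠ v0), τ := by
          refine prod_le_prod (fun j _ => Nat.cast_nonneg _) fun j hj => ?_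
          have := hc1 j (by rw [hu']; exact (mem_filter.1 hj).2)
          rw [hu'] at this
          exact this.le
      _ = τ ^ (univ.filter (fun j => w j ≠ v0)).card := prod_const _
      _ ≤ τ ^ (k + l) := by
          refine pow_le_pow_right₀ hτ1 ?_
          have := card_filter_le (univ : Finset (Fin (k + l))) (fun j => w j ≠ v0)
          rwa [card_univ, Fintype.card_fin] at this
  have hB : ∏ j, (Nat.gcd v0 (w' j) : ℝ) < τ ^ (k + l) := by
    calc ∏ j, (Nat.gcd v0 (w' j) : ℝ) < ∏ _j : Fin (k + l), τ := by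
          refine prod_lt_prod_of_nonempty (fun j _ => by exact_mod_cast hg1 _) (fun j _ => ?_)
            ⟨⟨0, hk⟩, mem_univ _⟩
          have := hc2 j
          rwa [hu'] at this
      _ = τ ^ (k + l) := by rw [prod_const, card_univ, Fintype.card_fin]
  have hB0 : 0 ≤ ∏ j, (Nat.gcd v0 (w' j) : ℝ) := prod_nonneg fun _ _ => Nat.cast_nonneg _
  have hτk : 0 < τ ^ (k + l) := by positivity
  have hv : X / 2 ≤ (v0 : ℝ) := hall.1
  have h1 : (v0 : ℝ) < τ ^ (k + l) * τ ^ (k + l) :=
    lt_of_le_of_lt hle' (lt_of_le_of_lt (mul_le_mul_of_nonneg_right hA hB0)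
      (mul_lt_mul_of_pos_left hB hτk))
  rw [← pow_add, ← two_mul, hτp] at h1
  linarith

end Pool.Agent.N282.GC
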