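import Pool.Agent.N282.GC.All
import Pool.Agent.N282.GC.Clg
import Pool.Agent.N282.GC.Xpair
import Pool.Agent.N282.GC.Xl2
import Pool.Agent.N282.GC.Bal
import Pool.Agent.N282.GC.Xnm
import Pool.Agent.N282.GC.Ort
import Pool.Agent.N282.GC.Xcn
import Pool.Agent.N282.GC.FinX

/-!
# Project GCX: all parts together
-/

set_option autoImplicit false

namespace Pool.Agent.N282.GC

theorem a_XCN : S_XCN := t_XCN (t_XL2 (t_CLG t_W t_RAD t_PRD) t_XPAIR) (t_XNM t_BAL) t_SF t_ORT

end Pool.Agent.N282.GC
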