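import Pool.Agent.N282.GC.Stm

/-!
# Project GC: the net for almost all signs
-/

set_option autoImplicit false

open MeasureTheory Filter Topology Classical

namespace Pool.Agent.N282.GC

/-! ### the unpaired part as a finite sum -/

lemma BC_win {x b h : ℝ} (hxb : x ≤ b) (hh : 0 < h) :
    win x h = (Finset.range (⌈b + h⌉₊ + 1)).filter fun n : ℕ => |(n : ℝ) - x| < h / 2 := by
  ext n
  simp only [win, Finset.mem_filter, Finset.mem_range]
  constructor
  · rintro ⟨h1, h2⟩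
    refine ⟨lt_of_lt_of_le h1 ?_, h2⟩
    have : ⌈x + h⌉₊ ≤ ⌈b + h⌉₊ := Nat.ceil_le_ceil (by linarith)
    omega
  · rintro ⟨h1, h2⟩
    refine ⟨?_, h2⟩
    rw [Nat.lt_succ_iff]
    have h3 : (n : ℝ) ≤ ⌈x + h⌉₊ := by
      have h4 := (abs_lt.1 h2).2
      have h5 := Nat.le_ceil (x + h)
      linarith
    exact_mod_cast h3

/-- the indicator function of the tuples in the window -/
noncomputable def BC_ind (k : ℕ) (n : Fin k → ℕ) (x h : ℝ) : ℝ :=
  if ∀ i, |(n i : ℝ) - x| < h / 2 then 1 else 0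

lemma BC_UP (F : ℕ → ℝ) (k : ℕ) {x b h : ℝ} (hxb : x ≤ b) (hh : 0 < h) :
    UP F k x h = ∑ n ∈ (tup k (Finset.range (⌈b + h⌉₊ + 1))).filter (fun n => ¬ Paired n),
      (∏ i, F (n i)) * BC_ind k n x h := by
  unfold UP
  rw [BC_win hxb hh]
  have e : (tup k ((Finset.range (⌈b + h⌉₊ + 1)).filter fun n : ℕ => |(n : ℝ) - x| < h / 2)).filter
      (fun n => ¬ Paired n) =
      ((tup k (Finset.range (⌈b + h⌉₊ + 1))).filter (fun n => ¬ Paired n)).filter
        (fun n => ∀ i, |(n i : ℝ) - x| < h / 2) := by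
    ext n
    simp only [tup, Finset.mem_filter, Fintype.mem_piFinset]
    constructor
    · rintro ⟨h1, h2⟩
      exact ⟨⟨fun i => (h1 i).1, h2⟩, fun i => (h1 i).2⟩
    · rintro ⟨⟨h1, h2⟩, h3⟩
      exact ⟨fun i => ⟨h1 i, h3 i⟩, h2⟩
  rw [e, Finset.sum_filter]
  refine Finset.sum_congr rfl fun n _ => ?_
  unfold BC_ind
  split_ifs <;> simp

lemma BC_ind_meas (k : ℕ) (n : Fin k → ℕ) (h : ℝ) : Measurable fun x => BC_ind k n x h := by
  unfold BC_ind
  apply Measurable.ite _ measurable_const measurable_const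
  have e : {x : ℝ | ∀ i, |(n i : ℝ) - x| < h / 2} = ⋂ i, {x : ℝ | |(n i : ℝ) - x| < h / 2} := by
    ext x
    simp
  rw [e]
  exact MeasurableSet.iInter fun i =>
    (isOpen_lt (by fun_prop) continuous_const).measurableSet

lemma BC_ind_int (k : ℕ) (n : Fin k → ℕ) (h a b : ℝ) :
    IntervalIntegrable (fun x => BC_ind k n x h) volume a b := by
  apply (intervalIntegrable_const (c := (1 : ℝ)) (μ := volume)).mono_fun'
  · exact (BC_ind_meas k n h).aestronglyMeasurable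
  · refine Eventually.of_forall fun x => ?_
    unfold BC_ind
    beta_reduce
    split_ifs <;> simp

lemma BC_J (F : ℕ → ℝ) (k : ℕ) {a b h : ℝ} (hab : a ≤ b) (hh : 0 < h) :
    J F k a b h = ∑ n ∈ (tup k (Finset.range (⌈b + h⌉₊ + 1))).filter (fun n => ¬ Paired n),
      (∏ i, F (n i)) * ∫ x in a..b, BC_ind k n x h := by
  unfold J
  have h1 : ∫ x in a..b, UP F k x h = ∫ x in a..b,
      ∑ n ∈ (tup k (Finset.range (⌈b + h⌉₊ + 1))).filter (fun n => ¬ Paired n),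
      (∏ i, F (n i)) * BC_ind k n x h := by
    apply intervalIntegral.integral_congr
    intro x hx
    rw [Set.uIcc_of_le hab] at hx
    exact BC_UP F k hx.2 hh
  rw [h1, intervalIntegral.integral_finsetSum]
  · refine Finset.sum_congr rfl fun n _ => ?_
    rw [intervalIntegral.integral_const_mul]
  · intro n _
    exact (BC_ind_int k n h a b).const_mul _

lemma BC_J_meas {Ω : Type} [MeasurableSpace Ω] {F : Ω → ℕ → ℝ} (hF : ∀ n, Measurable fun ω => F ω n)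
    (k : ℕ) {a b h : ℝ} (hab : a ≤ b) (hh : 0 < h) : Measurable fun ω => J (F ω) k a b h := by
  have e : (fun ω => J (F ω) k a b h) = fun ω =>
      ∑ n ∈ (tup k (Finset.range (⌈b + h⌉₊ + 1))).filter (fun n => ¬ Paired n),
      (∏ i, F ω (n i)) * ∫ x in a..b, BC_ind k n x h := by
    funext ω
    exact BC_J (F ω) k hab hh
  rw [e]
  apply Finset.measurable_sum
  intro n _
  apply Measurable.mul_const
  apply Finset.measurable_prod
  intro i _
  exact hF _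

lemma BC_J_int {Ω : Type} [MeasurableSpace Ω] {P : Measure Ω} [IsProbabilityMeasure P]
    {F : Ω → ℕ → ℝ} (hF : ∀ n, Measurable fun ω => F ω n) (hF1 : ∀ ω n, |F ω n| ≤ 1)
    (k : ℕ) {a b h : ℝ} (hab : a ≤ b) (hh : 0 < h) :
    Integrable (fun ω => J (F ω) k a b h ^ 2) P := by
  obtain ⟨B, hB⟩ : ∃ B, B = ∑ n ∈ (tup k (Finset.range (⌈b + h⌉₊ + 1))).filter
      (fun n => ¬ Paired n), |∫ x in a..b, BC_ind k n x h| := ⟨_, rfl⟩
  have hb : ∀ ω, |J (F ω) k a b h| ≤ B := by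
    intro ω
    rw [BC_J (F ω) k hab hh, hB]
    refine (Finset.abs_sum_le_sum_abs _ _).trans (Finset.sum_le_sum fun n _ => ?_)
    rw [abs_mul, Finset.abs_prod]
    have h1 : ∏ i, |F ω (n i)| ≤ 1 := Finset.prod_le_one (fun i _ => abs_nonneg _)
      (fun i _ => hF1 ω _)
    calc (∏ i, |F ω (n i)|) * |∫ x in a..b, BC_ind k n x h| ≤
        1 * |∫ x in a..b, BC_ind k n x h| := mul_le_mul_of_nonneg_right h1 (abs_nonneg _)
      _ = _ := one_mul _
  apply Integrable.of_bound ((BC_J_meas hF k hab hh).pow_const 2).aestronglyMeasurable (B ^ 2)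
  refine Eventually.of_forall fun ω => ?_
  rw [Real.norm_eq_abs, abs_pow]
  exact pow_le_pow_left₀ (abs_nonneg _) (hb ω) 2

/-! ### random signs -/

lemma BC_fs_meas {Ω : Type} [MeasurableSpace Ω] {s : ℕ → Ω → ℝ} (hs : ∀ p, Measurable (s p))
    (n : ℕ) : Measurable fun ω => fs (fun p => s p ω) n := by
  unfold fs
  apply Measurable.const_mul
  apply Finset.measurable_prod
  intro p _
  exact hs p

lemma BC_fs_sq {t : ℕ → ℝ} (ht : ∀ p, t p = 1 ∨ t p = -1) (n : ℕ) :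
    fs t n ^ 2 = if Squarefree n ∧ Nat.Coprime n 1 then 1 else 0 := by
  have h1 : (∏ p ∈ n.primeFactors, t p) ^ 2 = 1 := by
    rw [← Finset.prod_pow]
    apply Finset.prod_eq_one
    intro p _
    rcases ht p with h | h <;> rw [h] <;> norm_num
  unfold fs
  rw [mul_pow, h1, mul_one]
  have h2 : (((ArithmeticFunction.moebius n : ℤ) : ℝ)) ^ 2 =
      ((ArithmeticFunction.moebius n ^ 2 : ℤ) : ℝ) := by push_cast; rfl
  rw [h2, ArithmeticFunction.moebius_sq]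
  simp only [Nat.coprime_one_right_eq_true, and_true]
  split_ifs <;> simp

lemma BC_fs_abs {t : ℕ → ℝ} (ht : ∀ p, t p = 1 ∨ t p = -1) (n : ℕ) : |fs t n| ≤ 1 := by
  have h1 := BC_fs_sq ht n
  have h2 : fs t n ^ 2 ≤ 1 := by
    rw [h1]
    split_ifs <;> norm_num
  rwa [sq_le_one_iff_abs_le_one] at h2

lemma BC_fs_zero (t : ℕ → ℝ) (n : ℕ) (hn : ¬ Squarefree n) : fs t n = 0 := by
  unfold fs
  rw [ArithmeticFunction.moebius_eq_zero_of_not_squarefree hn]
  simp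

lemma BC_rho : rho 1 = 6 / Real.pi ^ 2 := by
  unfold rho
  simp

lemma BC_Rz (z : ℕ) : Rz z 1 = 0 := by
  unfold Rz
  simp

/-! ### the net -/

lemma BC_nt_pos (q i : ℕ) : 0 < nt q i := by
  unfold nt
  positivity

lemma BC_nt_le {q : ℕ} (hq : 1 ≤ q) {i j : ℕ} : nt q i ≤ nt q j ↔ i ≤ j := by
  unfold nt
  have hq0 : (0 : ℝ) < q := by exact_mod_cast hq
  rw [Real.rpow_le_rpow_left_iff (by norm_num), div_le_div_iff_of_pos_right hq0, Nat.cast_le]

lemma BC_nt_one (q i : ℕ) : 1 ≤ nt q i := by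
  unfold nt
  apply Real.one_le_rpow (by norm_num)
  positivity

lemma BC_nt_succ {q : ℕ} (hq : 1 ≤ q) (i : ℕ) :
    nt q (i + 1) ≤ 2 * nt q i ∧ nt q i / (4 * q) ≤ nt q (i + 1) - nt q i := by
  have hq0 : (0 : ℝ) < q := by exact_mod_cast hq
  have hq1 : (1 : ℝ) ≤ q := by exact_mod_cast hq
  have e : nt q (i + 1) = nt q i * (2 : ℝ) ^ (1 / (q : ℝ)) := by
    unfold nt
    rw [← Real.rpow_add (by norm_num)]
    congr 1
    push_cast
    ring
  have hp := BC_nt_pos q i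
  have h1 : (2 : ℝ) ^ (1 / (q : ℝ)) ≤ 2 := by
    calc (2 : ℝ) ^ (1 / (q : ℝ)) ≤ (2 : ℝ) ^ (1 : ℝ) := by
          apply Real.rpow_le_rpow_of_exponent_le (by norm_num)
          rw [div_le_one hq0]
          exact hq1
      _ = 2 := Real.rpow_one 2
  have h2 : 1 + 1 / (4 * (q : ℝ)) ≤ (2 : ℝ) ^ (1 / (q : ℝ)) := by
    rw [Real.rpow_def_of_pos (by norm_num)]
    have h3 := Real.add_one_le_exp (Real.log 2 * (1 / (q : ℝ)))
    have h4 := Real.log_two_gt_d9
    have h5 : 1 / (4 * (q : ℝ)) ≤ Real.log 2 * (1 / (q : ℝ)) := by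
      have : 1 / (4 * (q : ℝ)) = 1 / 4 * (1 / (q : ℝ)) := by
        field_simp
      rw [this]
      apply mul_le_mul_of_nonneg_right _ (by positivity)
      linarith
    linarith
  rw [e]
  constructor
  · nlinarith
  · have h3 : nt q i * (1 + 1 / (4 * (q : ℝ))) ≤ nt q i * (2 : ℝ) ^ (1 / (q : ℝ)) :=
      mul_le_mul_of_nonneg_left h2 hp.le
    have h4 : nt q i * (1 + 1 / (4 * (q : ℝ))) = nt q i + nt q i / (4 * q) := by
      field_simp
    linarith

lemma BC_nt_rpow (q i : ℕ) (c : ℝ) : nt q i ^ (-c) = ((2 : ℝ) ^ (-(c / q))) ^ i := by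
  unfold nt
  rw [← Real.rpow_mul (by norm_num), ← Real.rpow_natCast, ← Real.rpow_mul (by norm_num)]
  congr 1
  ring

lemma BC_summable {q : ℕ} (hq : 1 ≤ q) {c : ℝ} (hc : 0 < c) (D : ℝ) :
    Summable fun i : ℕ => ((i : ℝ) + 1) * (D * nt q i ^ (-c)) := by
  have hq0 : (0 : ℝ) < q := by exact_mod_cast hq
  set r : ℝ := (2 : ℝ) ^ (-(c / q)) with hr
  have hr0 : 0 < r := by positivity
  have hr1 : r < 1 := by
    apply Real.rpow_lt_one_of_one_lt_of_neg (by norm_num)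
    have : 0 < c / q := by positivity
    linarith
  have hn : ‖r‖ < 1 := by
    rw [Real.norm_of_nonneg hr0.le]
    exact hr1
  have h1 := (summable_pow_mul_geometric_of_norm_lt_one 1 hn).add
    (summable_pow_mul_geometric_of_norm_lt_one 0 hn)
  refine (h1.mul_left D).congr fun i => ?_
  rw [BC_nt_rpow, ← hr]
  ring

/-! ### the main lemma -/

section core

variable {Ω : Type} [MeasurableSpace Ω] {P : Measure Ω} [IsProbabilityMeasure P] {s : ℕ → Ω → ℝ}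

/-- the probability that the unpaired part is large -/
lemma BC_prob {F : Ω → ℕ → ℝ} (hF : ∀ n, Measurable fun ω => F ω n) (hF1 : ∀ ω n, |F ω n| ≤ 1)
    (q k : ℕ) (hq : 1 ≤ q) {a b h δ c : ℝ} (ha : 0 < a) (hh : 0 < h) (hδ : 0 < δ)
    (hab : a / (4 * q) ≤ b - a)
    (hL : ∫ ω, J (F ω) k a b h ^ 2 ∂P ≤ a ^ (2 - c) * h ^ k) :
    P {ω | δ / 2 * (b - a) * h ^ ((k : ℝ) / 2) < |J (F ω) k a b h|} ≤
      ENNReal.ofReal (64 * q ^ 2 / δ ^ 2 * a ^ (-c)) := by
  have hq0 : (0 : ℝ) < q := by exact_mod_cast hq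
  have hab' : 0 < b - a := lt_of_lt_of_le (by positivity) hab
  have hab1 : a ≤ b := by linarith
  set t := (δ / 2 * (b - a) * h ^ ((k : ℝ) / 2)) ^ 2 with ht
  have hb0 : 0 < δ / 2 * (b - a) * h ^ ((k : ℝ) / 2) := by positivity
  have ht0 : 0 < t := by positivity
  have h1 := mul_meas_ge_le_integral_of_nonneg (μ := P) (f := fun ω => J (F ω) k a b h ^ 2)
    (Eventually.of_forall fun ω => sq_nonneg _) (BC_J_int hF hF1 k hab1 hh) t
  have h2 : {ω | δ / 2 * (b - a) * h ^ ((k : ℝ) / 2) < |J (F ω) k a b h|} ⊆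
      {ω | t ≤ J (F ω) k a b h ^ 2} := by
    intro ω hω
    simp only [Set.mem_ofPred_eq] at hω ⊢
    rw [ht, ← sq_abs (J (F ω) k a b h)]
    exact pow_le_pow_left₀ hb0.le hω.le 2
  have h3 : P.real {ω | t ≤ J (F ω) k a b h ^ 2} ≤ 64 * q ^ 2 / δ ^ 2 * a ^ (-c) := by
    have h4 : t * P.real {ω | t ≤ J (F ω) k a b h ^ 2} ≤ a ^ (2 - c) * h ^ k := h1.trans hL
    have e1 : (h ^ ((k : ℝ) / 2)) ^ 2 = h ^ k := by
      rw [← Real.rpow_natCast, ← Real.rpow_mul hh.le, ← Real.rpow_natCast]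
      congr 1
      push_cast
      ring
    have e2 : t = δ ^ 2 / 4 * (b - a) ^ 2 * h ^ k := by
      rw [ht, mul_pow, mul_pow, e1]
      ring
    have h5 : δ ^ 2 / 4 * (a / (4 * q)) ^ 2 * h ^ k ≤ t := by
      rw [e2]
      gcongr
    have h6 : a ^ (2 - c) = a ^ 2 * a ^ (-c) := by
      rw [sub_eq_add_neg, Real.rpow_add ha, Real.rpow_two]
    rw [h6] at h4
    have h7 : 0 < δ ^ 2 / 4 * (a / (4 * q)) ^ 2 * h ^ k := by positivity
    have h8 : (δ ^ 2 / 4 * (a / (4 * q)) ^ 2 * h ^ k) *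
        P.real {ω | t ≤ J (F ω) k a b h ^ 2} ≤ a ^ 2 * a ^ (-c) * h ^ k :=
      (mul_le_mul_of_nonneg_right h5 measureReal_nonneg).trans h4
    have h9 : P.real {ω | t ≤ J (F ω) k a b h ^ 2} ≤
        (a ^ 2 * a ^ (-c) * h ^ k) / (δ ^ 2 / 4 * (a / (4 * q)) ^ 2 * h ^ k) := by
      rw [le_div_iff₀ h7]
      linarith
    refine h9.trans (le_of_eq ?_)
    have hhk : h ^ k ≠ 0 := by positivity
    have hac : a ^ (-c) ≠ 0 := by positivity
    field_simp
    ring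
  calc P {ω | δ / 2 * (b - a) * h ^ ((k : ℝ) / 2) < |J (F ω) k a b h|} ≤
      P {ω | t ≤ J (F ω) k a b h ^ 2} := measure_mono h2
    _ = ENNReal.ofReal (P.real {ω | t ≤ J (F ω) k a b h ^ 2}) := by
        rw [measureReal_def, ENNReal.ofReal_toReal (measure_ne_top _ _)]
    _ ≤ _ := ENNReal.ofReal_le_ofReal h3

end core

/-- the deterministic part -/
lemma BC_det (h2 : S_NM) (h3 : S_SF) (q k : ℕ) (ε δ : ℝ) (hq : 1 ≤ q) (hk : 1 ≤ k) (hε : 0 < ε)
    (hδ : 0 < δ) : ∃ A : ℝ, 1 ≤ A ∧ ∀ F : ℕ → ℝ,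
    (∀ n, F n ^ 2 = if Squarefree n ∧ Nat.Coprime n 1 then 1 else 0) → ∀ i j : ℕ, A ≤ nt q i →
    nt q i ^ ε ≤ nt q j → nt q j ≤ nt q i ^ (1 - ε) →
    |J F k (nt q i) (nt q (i + 1)) (nt q j)| ≤
      δ / 2 * (nt q (i + 1) - nt q i) * nt q j ^ ((k : ℝ) / 2) →
    |mom F k (nt q i) (nt q (i + 1)) (nt q j) -
      gm k * (6 / Real.pi ^ 2 * nt q j) ^ ((k : ℝ) / 2)| ≤ δ * nt q j ^ ((k : ℝ) / 2) := by
  obtain ⟨C, hC, hNM⟩ := h2 k hk
  obtain ⟨C', hC', hSF⟩ := h3 q hq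
  obtain ⟨z, hz⟩ : ∃ z : ℕ, z = max 2 ⌈4 * C * C' / δ⌉₊ := ⟨_, rfl⟩
  have hz2 : 2 ≤ z := by rw [hz]; exact le_max_left _ _
  have hz0 : (0 : ℝ) < z := by exact_mod_cast (by omega : 0 < z)
  have hz1 : 4 * C * C' / δ ≤ z := by
    refine (Nat.le_ceil _).trans ?_
    rw [hz]
    exact_mod_cast le_max_right _ _
  obtain ⟨Cz, hCz, hSFz⟩ := hSF z hz2
  have hq0 : (0 : ℝ) < q := by exact_mod_cast hq
  obtain ⟨A, hA⟩ := eventually_atTop.1 ((tendsto_rpow_atTop hε).eventually_ge_atTop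
    (max (4 * (q : ℝ)) ((4 * C * (Cz + 1) / δ) ^ 2)))
  refine ⟨max A 1, le_max_right _ _, fun F hF i j hi h1 h1' hJ => ?_⟩
  have hA' := hA (nt q i) ((le_max_left _ _).trans hi)
  have hA1 : 4 * (q : ℝ) ≤ nt q i ^ ε := (le_max_left _ _).trans hA'
  have hA2 : (4 * C * (Cz + 1) / δ) ^ 2 ≤ nt q i ^ ε := (le_max_right _ _).trans hA'
  obtain ⟨hs1, hs2⟩ := BC_nt_succ hq i
  have hap := BC_nt_pos q i
  have hhp := BC_nt_pos q j
  have ha1 := BC_nt_one q i
  have hh1 := BC_nt_one q j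
  have hb := BC_nt_pos q (i + 1)
  set a := nt q i with had
  set b := nt q (i + 1) with hbd
  set h := nt q j with hhd
  have hba : 0 < b - a := lt_of_lt_of_le (by positivity) hs2
  have hha : h ≤ a / (4 * q) := by
    rw [le_div_iff₀ (by positivity)]
    calc h * (4 * q) ≤ a ^ (1 - ε) * a ^ ε := by gcongr
      _ = a := by
        rw [← Real.rpow_add hap]
        norm_num
  have hdev := hSFz a a b h 1 one_pos ha1 le_rfl hs1 hs2 hh1 hha
  rw [BC_Rz, add_zero] at hdev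
  have hmain := hNM F 1 a b h hF one_pos hap (by linarith) hh1
  rw [BC_rho] at hmain
  refine hmain.trans ?_
  have hJ' : |J F k a b h| / (b - a) ≤ δ / 2 * h ^ ((k : ℝ) / 2) := by
    rw [div_le_iff₀ hba]
    linarith
  have hsq : 0 < Real.sqrt h := Real.sqrt_pos.2 hhp
  have hsq2 : 4 * C * (Cz + 1) / δ ≤ Real.sqrt h := by
    apply Real.le_sqrt_of_sq_le
    exact hA2.trans h1
  have hA3 : C * ((Cz + 1) / Real.sqrt h) ≤ δ / 4 := by
    rw [div_le_iff₀ hδ] at hsq2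
    rw [← mul_div_assoc, div_le_iff₀ hsq]
    linarith
  have hA4 : C * (C' * (1 / z)) ≤ δ / 4 := by
    rw [div_le_iff₀ hδ] at hz1
    have e : C * (C' * (1 / (z : ℝ))) = C * C' / z := by ring
    rw [e, div_le_iff₀ hz0]
    linarith
  have hA5 : C * (dev 1 a b h + 1 / Real.sqrt h) ≤ δ / 2 := by
    have e : C * (dev 1 a b h + 1 / Real.sqrt h) ≤
        C * ((C' * (1 / z) + Cz / Real.sqrt h) + 1 / Real.sqrt h) := by gcongr
    have e2 : C * ((C' * (1 / (z : ℝ)) + Cz / Real.sqrt h) + 1 / Real.sqrt h) =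
        C * (C' * (1 / z)) + C * ((Cz + 1) / Real.sqrt h) := by ring
    linarith
  have hk0 : 0 < h ^ ((k : ℝ) / 2) := by positivity
  calc C * h ^ ((k : ℝ) / 2) * (dev 1 a b h + 1 / Real.sqrt h) + |J F k a b h| / (b - a) =
      (C * (dev 1 a b h + 1 / Real.sqrt h)) * h ^ ((k : ℝ) / 2) + |J F k a b h| / (b - a) := by
        ring
    _ ≤ δ / 2 * h ^ ((k : ℝ) / 2) + δ / 2 * h ^ ((k : ℝ) / 2) := by
        apply add_le_add _ hJ'
        exact mul_le_mul_of_nonneg_right hA5 hk0.le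
    _ = _ := by ring

/-- the net for fixed parameters -/
lemma BC_core (h1 : S_L2) (h2 : S_NM) (h3 : S_SF) (h4 : S_RND) {Ω : Type} [MeasurableSpace Ω]
    {P : Measure Ω} [IsProbabilityMeasure P] {s : ℕ → Ω → ℝ} (hs : ∀ p, Measurable (s p))
    (hs1 : ∀ p ω, s p ω = 1 ∨ s p ω = -1) (hs0 : ∀ p, ∫ ω, s p ω ∂P = 0)
    (hsi : ProbabilityTheory.iIndepFun s P) (q k : ℕ) (ε δ : ℝ) (hq : 1 ≤ q) (hk : 1 ≤ k)
    (hε : 0 < ε) (hε2 : ε < 1 / 2) (hδ : 0 < δ) :
    ∀ᵐ ω ∂P, ∃ X1 : ℝ, ∀ Y : ℝ, Net (fs fun p => s p ω) (6 / Real.pi ^ 2) q k ε δ X1 Y := by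
  obtain ⟨A, hA1, hdet⟩ := BC_det h2 h3 q k ε δ hq hk hε hδ
  obtain ⟨c, X0, hc, hX0, hL⟩ := h1 k ε hk hε hε2
  have hFm : ∀ n, Measurable fun ω => fs (fun p => s p ω) n := BC_fs_meas hs
  have hF1 : ∀ (ω : Ω) (n : ℕ), |fs (fun p => s p ω) n| ≤ 1 := fun ω n =>
    BC_fs_abs (fun p => hs1 p ω) n
  have hFz : ∀ (ω : Ω) (n : ℕ), ¬ Squarefree n → fs (fun p => s p ω) n = 0 := fun ω n =>
    BC_fs_zero _ n
  -- the exceptional sets
  let S : ℕ → ℕ → Set Ω := fun i j => {ω | δ / 2 * (nt q (i + 1) - nt q i) *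
    nt q j ^ ((k : ℝ) / 2) < |J (fs fun p => s p ω) k (nt q i) (nt q (i + 1)) (nt q j)|}
  let G : ℕ → Finset ℕ := fun i => (Finset.range (i + 1)).filter fun j =>
    X0 ≤ nt q i ∧ nt q i ^ ε ≤ nt q j ∧ nt q j ≤ nt q i ^ (1 - ε)
  have hS : ∀ i, ∀ j ∈ G i, P (S i j) ≤ ENNReal.ofReal (64 * q ^ 2 / δ ^ 2 * nt q i ^ (-c)) := by
    intro i j hj
    obtain ⟨-, hj1, hj2, hj3⟩ := Finset.mem_filter.1 hj
    obtain ⟨hs1', hs2'⟩ := BC_nt_succ hq i
    have hq0 : (0 : ℝ) < q := by exact_mod_cast hq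
    have hap := BC_nt_pos q i
    have hba : 0 ≤ nt q (i + 1) - nt q i := le_trans (by positivity) hs2'
    apply BC_prob hFm hF1 q k hq hap (BC_nt_pos q j) hδ hs2'
    have h5 := hL (nt q i) (nt q j) (nt q i) (nt q (i + 1)) hj1 hj2 hj3 le_rfl (by linarith)
      hs1' Ω inferInstance P inferInstance (fun ω => fs fun p => s p ω) 0 le_rfl hFm hF1 hFz
      (by
        intro n m _ _ hn hm hsq
        rw [h4 Ω inferInstance P inferInstance s hs hs1 hs0 hsi k n m hn hm hsq, abs_zero])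
    rw [zero_mul, zero_mul, add_zero] at h5
    exact h5
  let B : ℕ → Set Ω := fun i => ⋃ j ∈ G i, S i j
  have hB : ∀ i, P (B i) ≤ ENNReal.ofReal (((i : ℝ) + 1) *
      (64 * q ^ 2 / δ ^ 2 * nt q i ^ (-c))) := by
    intro i
    have hnn : 0 ≤ 64 * (q : ℝ) ^ 2 / δ ^ 2 * nt q i ^ (-c) := by
      have := BC_nt_pos q i
      positivity
    calc P (B i) ≤ ∑ j ∈ G i, P (S i j) := measure_biUnion_finset_le _ _
      _ ≤ ∑ j ∈ G i, ENNReal.ofReal (64 * q ^ 2 / δ ^ 2 * nt q i ^ (-c)) :=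
          Finset.sum_le_sum (hS i)
      _ = ((G i).card : ENNReal) * ENNReal.ofReal (64 * q ^ 2 / δ ^ 2 * nt q i ^ (-c)) := by
          rw [Finset.sum_const, nsmul_eq_mul]
      _ ≤ ((i + 1 : ℕ) : ENNReal) * ENNReal.ofReal (64 * q ^ 2 / δ ^ 2 * nt q i ^ (-c)) := by
          gcongr
          calc (G i).card ≤ (Finset.range (i + 1)).card := Finset.card_filter_le _ _
            _ = i + 1 := Finset.card_range _
      _ = _ := by
          rw [ENNReal.ofReal_mul (p := (i : ℝ) + 1) (by positivity)]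
          congr 1
          rw [show ((i : ℝ) + 1) = ((i + 1 : ℕ) : ℝ) by push_cast; ring, ENNReal.ofReal_natCast]
  have hsum : (∑' i, P (B i)) ≠ ⊤ := by
    have h5 := (BC_summable hq hc (64 * (q : ℝ) ^ 2 / δ ^ 2)).tsum_ofReal_ne_top
    exact ne_top_of_le_ne_top h5 (ENNReal.tsum_le_tsum hB)
  filter_upwards [ae_eventually_notMem hsum] with ω hω
  obtain ⟨i0, hi0⟩ := eventually_atTop.1 hω
  refine ⟨max (max A X0) (nt q i0), fun Y i j hX hY hj1 hj2 => ?_⟩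
  have hA : A ≤ nt q i := ((le_max_left _ _).trans (le_max_left _ _)).trans hX
  have hX0' : X0 ≤ nt q i := ((le_max_right _ _).trans (le_max_left _ _)).trans hX
  have hi : i0 ≤ i := (BC_nt_le hq).1 ((le_max_right _ _).trans hX)
  have hji : j ≤ i := by
    apply (BC_nt_le hq).1
    refine hj2.trans ?_
    calc nt q i ^ (1 - ε) ≤ nt q i ^ (1 : ℝ) :=
          Real.rpow_le_rpow_of_exponent_le (BC_nt_one q i) (by linarith)
      _ = nt q i := Real.rpow_one _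
  apply hdet _ (fun n => BC_fs_sq (fun p => hs1 p ω) n) i j hA hj1 hj2
  by_contra hcon
  push Not at hcon
  apply hi0 i hi
  simp only [B, Set.mem_iUnion]
  refine ⟨j, ?_, hcon⟩
  simp only [G, Finset.mem_filter, Finset.mem_range]
  exact ⟨by omega, hX0', hj1, hj2⟩

lemma BC_zero (F : ℕ → ℝ) (q : ℕ) (hq : 1 ≤ q) (ε δ Y : ℝ) (hδ : 0 < δ) :
    Net F (6 / Real.pi ^ 2) q 0 ε δ 0 Y := by
  intro i j _ _ _ _
  have hq0 : (0 : ℝ) < q := by exact_mod_cast hq
  obtain ⟨-, hs2⟩ := BC_nt_succ hq i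
  have hap := BC_nt_pos q i
  have hba : 0 < nt q (i + 1) - nt q i := lt_of_lt_of_le (by positivity) hs2
  have e1 : mom F 0 (nt q i) (nt q (i + 1)) (nt q j) = 1 := by
    unfold mom
    simp only [pow_zero, intervalIntegral.integral_const, smul_eq_mul, mul_one]
    field_simp
  have e2 : gm 0 = 1 := by
    unfold gm
    simp
  rw [e1, e2]
  simp only [Nat.cast_zero, zero_div, Real.rpow_zero, mul_one, sub_self, abs_zero]
  exact hδ.le

lemma BC_mono {F : ℕ → ℝ} {ρ : ℝ} {q k : ℕ} {ε ε' δ δ' X1 Y : ℝ} (hε : ε' ≤ ε) (hδ : δ' ≤ δ)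
    (h : Net F ρ q k ε' δ' X1 Y) : Net F ρ q k ε δ X1 Y := by
  intro i j h1 h2 h3 h4
  have ha := BC_nt_one q i
  refine (h i j h1 h2 ?_ ?_).trans ?_
  · exact (Real.rpow_le_rpow_of_exponent_le ha hε).trans h3
  · exact h4.trans (Real.rpow_le_rpow_of_exponent_le ha (by linarith))
  · have := BC_nt_pos q j
    apply mul_le_mul_of_nonneg_right hδ (by positivity)

/-- (BC) the net for almost all signs -/
theorem t_BC (h1 : S_L2) (h2 : S_NM) (h3 : S_SF) (h4 : S_RND) : S_BC := by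
  intro Ω _ P _ s hs hs1 hs0 hsi
  have hcore : ∀ᵐ ω ∂P, ∀ q k n m : ℕ, 1 ≤ q → 1 ≤ k → ∃ X1 : ℝ, ∀ Y : ℝ,
      Net (fs fun p => s p ω) (6 / Real.pi ^ 2) q k (1 / ((n : ℝ) + 3)) (1 / ((m : ℝ) + 1))
        X1 Y := by
    rw [ae_all_iff]
    intro q
    rw [ae_all_iff]
    intro k
    rw [ae_all_iff]
    intro n
    rw [ae_all_iff]
    intro m
    by_cases hq : 1 ≤ q
    · by_cases hk : 1 ≤ k
      · have hn0 : (0 : ℝ) ≤ n := Nat.cast_nonneg n
        filter_upwards [BC_core h1 h2 h3 h4 hs hs1 hs0 hsi q k (1 / ((n : ℝ) + 3))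
          (1 / ((m : ℝ) + 1)) hq hk (by positivity)
          (by apply one_div_lt_one_div_of_lt <;> linarith) (by positivity)] with ω hω _ _
        exact hω
      · exact Eventually.of_forall fun ω _ hk' => absurd hk' hk
    · exact Eventually.of_forall fun ω hq' => absurd hq' hq
  filter_upwards [hcore] with ω hω
  intro q k ε δ hq hε hε2 hδ
  rcases Nat.eq_zero_or_pos k with hk | hk
  · subst hk
    exact ⟨0, fun Y => BC_zero _ q hq ε δ Y hδ⟩
  · obtain ⟨n, hn⟩ := exists_nat_one_div_lt hε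
    obtain ⟨m, hm⟩ := exists_nat_one_div_lt hδ
    obtain ⟨X1, hX1⟩ := hω q k n m hq hk
    refine ⟨X1, fun Y => BC_mono ?_ hm.le (hX1 Y)⟩
    refine le_trans ?_ hn.le
    have hn0 : (0 : ℝ) ≤ n := Nat.cast_nonneg n
    apply one_div_le_one_div_of_le (by positivity)
    linarith

end Pool.Agent.N282.GC
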