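import Mathlib

/-!
# Project GC: sums of bounded functions over short intervals, definitions (helper282)
-/

set_option autoImplicit false

open MeasureTheory Filter Topology Classical

namespace Pool.Agent.N282.GC

/-- the integers `n ≥ 0` with `|n - x| < H / 2` (for `x ≥ 0`, `H > 0` they are at most `⌈x + H⌉`) -/
noncomputable def win (x H : ℝ) : Finset ℕ :=
  (Finset.range (⌈x + H⌉₊ + 1)).filter fun n : ℕ => |(n : ℝ) - x| < H / 2

/-- the sum of `F` over the window of length `H` centred at `x` -/
noncomputable def M (F : ℕ → ℝ) (x H : ℝ) : ℝ := ∑ n ∈ win x H, F n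

/-- every value is taken an even number of times -/
def Paired {k : ℕ} (n : Fin k → ℕ) : Prop := ∀ v : ℕ, Even (Finset.univ.filter fun i => n i = v).card

/-- the `k`-tuples of a finite set -/
noncomputable def tup (k : ℕ) (A : Finset ℕ) : Finset (Fin k → ℕ) := Fintype.piFinset fun _ => A

/-- the part of `M F x H ^ k` given by the tuples which are not paired -/
noncomputable def UP (F : ℕ → ℝ) (k : ℕ) (x H : ℝ) : ℝ :=
  ∑ n ∈ (tup k (win x H)).filter (fun n => ¬ Paired n), ∏ i, F (n i)

/-- the part of `M F x H ^ k` given by the paired tuples -/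
noncomputable def PA (F : ℕ → ℝ) (k : ℕ) (x H : ℝ) : ℝ :=
  ∑ n ∈ (tup k (win x H)).filter (fun n => Paired n), ∏ i, F (n i)

/-- the integral of `UP` -/
noncomputable def J (F : ℕ → ℝ) (k : ℕ) (a b H : ℝ) : ℝ := ∫ x in a..b, UP F k x H

/-- the moments of the sums over the windows centred in `[a, b]` -/
noncomputable def mom (F : ℕ → ℝ) (k : ℕ) (a b H : ℝ) : ℝ := (1 / (b - a)) * ∫ x in a..b, M F x H ^ k

/-- the moments of the standard normal law -/
noncomputable def gm (k : ℕ) : ℝ := if Even k then (Nat.doubleFactorial (k - 1) : ℝ) else 0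

/-- the number of paired `k`-tuples of elements of a set with `S` elements -/
noncomputable def pcount (k S : ℕ) : ℕ := ((tup k (Finset.range S)).filter (fun n => Paired n)).card

/-- `gcd (e_i, ∏_{j < i} e_j)` -/
def gd {K : ℕ} (e : Fin K → ℕ) (i : Fin K) : ℕ := Nat.gcd (e i) (∏ j ∈ Finset.univ.filter (· < i), e j)

/-- the elements of the window which are squarefree and prime to `d` -/
noncomputable def sfc (d : ℕ) (x H : ℝ) : Finset ℕ :=
  (win x H).filter fun n => Squarefree n ∧ Nat.Coprime n d

/-- the density of the squarefree integers which are prime to `d` -/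
noncomputable def rho (d : ℕ) : ℝ := 6 / Real.pi ^ 2 * ∏ p ∈ d.primeFactors, (p : ℝ) / (p + 1)

/-- the mean deviation of the number of squarefree integers prime to `d` in the windows -/
noncomputable def dev (d : ℕ) (a b H : ℝ) : ℝ :=
  (1 / (b - a)) * ∫ x in a..b, |((sfc d x H).card : ℝ) / H - rho d|

/-- the sum of `1 / p` over the prime divisors `p > z` of `d` -/
noncomputable def Rz (z d : ℕ) : ℝ := ∑ p ∈ d.primeFactors.filter (fun p => z < p), 1 / (p : ℝ)

/-- the points of the net -/
noncomputable def nt (q i : ℕ) : ℝ := (2 : ℝ) ^ ((i : ℝ) / q)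

/-- moments of order `k` on the net, up to `Y` -/
def Net (F : ℕ → ℝ) (ρ : ℝ) (q k : ℕ) (ε δ X1 Y : ℝ) : Prop :=
  ∀ i j : ℕ, X1 ≤ nt q i → nt q (i + 1) ≤ Y → nt q i ^ ε ≤ nt q j → nt q j ≤ nt q i ^ (1 - ε) →
    |mom F k (nt q i) (nt q (i + 1)) (nt q j) - gm k * (ρ * nt q j) ^ ((k : ℝ) / 2)| ≤
      δ * nt q j ^ ((k : ℝ) / 2)

/-- the distribution function of the standard normal law -/
noncomputable def Phi (t : ℝ) : ℝ := ProbabilityTheory.cdf (ProbabilityTheory.gaussianReal 0 1) t

/-- the Moebius function times the signs `s_p` of the prime factors -/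
noncomputable def fs (s : ℕ → ℝ) (n : ℕ) : ℝ :=
  ((ArithmeticFunction.moebius n : ℤ) : ℝ) * ∏ p ∈ n.primeFactors, s p

/-- the Moebius function times the Jacobi symbol `(n / d)` -/
noncomputable def fj (d n : ℕ) : ℝ :=
  ((ArithmeticFunction.moebius n : ℤ) : ℝ) * ((jacobiSym n d : ℤ) : ℝ)

end Pool.Agent.N282.GC
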