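import Pool.Agent.N282.GC.Stm

/-!
# Project GC: counting in open intervals, densities (for `S_SF`)
-/

set_option autoImplicit false

open MeasureTheory Filter Topology Classical

namespace Pool.Agent.N282.GC

/-! ### Open intervals -/

/-- the naturals in the open interval `(u, v)` -/
noncomputable def SF_I (u v : ℝ) : Finset ℕ := Finset.Ico (⌊u⌋₊ + 1) ⌈v⌉₊

theorem SF_mem {u v : ℝ} (hu : 0 ≤ u) {n : ℕ} : n ∈ SF_I u v ↔ u < n ∧ (n : ℝ) < v := by
  rw [SF_I, Finset.mem_Ico, Nat.add_one_le_iff, Nat.floor_lt hu, Nat.lt_ceil]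

theorem SF_card {u v : ℝ} (hu : 0 ≤ u) (huv : u ≤ v) :
    |((SF_I u v).card : ℝ) - (v - u)| ≤ 1 := by
  rw [SF_I, Nat.card_Ico]
  have h1 := Nat.floor_le hu
  have h2 := Nat.lt_floor_add_one u
  have h3 := Nat.le_ceil v
  have h4 := Nat.ceil_lt_add_one (hu.trans huv)
  rcases le_total (⌊u⌋₊ + 1) ⌈v⌉₊ with h | h
  · rw [Nat.cast_sub h]
    push_cast
    rw [abs_le]
    constructor <;> linarith
  · rw [Nat.sub_eq_zero_of_le h]
    have h5 : (⌈v⌉₊ : ℝ) ≤ ⌊u⌋₊ + 1 := by exact_mod_cast h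
    push_cast
    rw [abs_le]
    constructor <;> linarith

/-- multiples of `c` -/
theorem SF_dvd {u v : ℝ} (hu : 0 ≤ u) {c : ℕ} (hc : 0 < c) (G : ℕ → Prop)
    (hG : ∀ k, G (c * k) ↔ G k) :
    ((SF_I u v).filter (fun n => G n ∧ c ∣ n)).card =
      ((SF_I (u / c) (v / c)).filter (fun n => G n)).card := by
  have hc' : (0 : ℝ) < c := by exact_mod_cast hc
  have e : (SF_I u v).filter (fun n => G n ∧ c ∣ n) =
      ((SF_I (u / c) (v / c)).filter (fun n => G n)).image (fun k => c * k) := by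
    ext n
    rw [Finset.mem_filter, Finset.mem_image, SF_mem hu]
    constructor
    · rintro ⟨⟨h1, h2⟩, h3, k, rfl⟩
      refine ⟨k, ?_, rfl⟩
      rw [Finset.mem_filter, SF_mem (by positivity)]
      push_cast at h1 h2
      refine ⟨⟨?_, ?_⟩, (hG k).1 h3⟩
      · rw [div_lt_iff₀ hc']; linarith
      · rw [lt_div_iff₀ hc']; linarith
    · rintro ⟨k, hk, rfl⟩
      rw [Finset.mem_filter, SF_mem (by positivity)] at hk
      obtain ⟨⟨h1, h2⟩, h3⟩ := hk
      rw [div_lt_iff₀ hc'] at h1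
      rw [lt_div_iff₀ hc'] at h2
      push_cast
      exact ⟨⟨by linarith, by linarith⟩, (hG k).2 h3, Dvd.intro _ rfl⟩
  rw [e, Finset.card_image_of_injective]
  intro k k' h
  exact Nat.eq_of_mul_eq_mul_left hc h

theorem SF_dvd_le {u v : ℝ} (hu : 0 ≤ u) (huv : u ≤ v) {c : ℕ} (hc : 0 < c) :
    (((SF_I u v).filter (fun n => c ∣ n)).card : ℝ) ≤ (v - u) / c + 1 := by
  have hc' : (0 : ℝ) < c := by exact_mod_cast hc
  have h1 := SF_dvd (v := v) hu hc (fun _ => True) (fun _ => Iff.rfl)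
  simp only [true_and, Finset.filter_true] at h1
  rw [h1]
  have h2 := (abs_le.mp (SF_card (u := u / c) (v := v / c) (by positivity)
    (div_le_div_of_nonneg_right huv hc'.le))).2
  have h3 : (v - u) / c = v / c - u / c := sub_div _ _ _
  linarith

theorem SF_sieve (c : ℕ → ℕ) (P : Finset ℕ) :
    (∀ p ∈ P, 0 < c p) → (∀ p ∈ P, ∀ p' ∈ P, p ≠ p' → Nat.Coprime (c p) (c p')) →
    ∀ u v : ℝ, 0 ≤ u → u ≤ v →
      |(((SF_I u v).filter (fun n => ∀ p ∈ P, ¬ c p ∣ n)).card : ℝ) -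
        (v - u) * ∏ p ∈ P, (1 - 1 / (c p : ℝ))| ≤ 2 ^ P.card := by
  induction P using Finset.induction_on with
  | empty =>
    intro _ _ u v hu huv
    have h := SF_card hu huv
    simpa using h
  | insert p0 P hp0 ih =>
    intro hc hcop u v hu huv
    have hc0 : 0 < c p0 := hc p0 (Finset.mem_insert_self _ _)
    have hc' : (0 : ℝ) < c p0 := by exact_mod_cast hc0
    have ih' := ih (fun p hp => hc p (Finset.mem_insert_of_mem hp))
      (fun p hp p' hp' hne => hcop p (Finset.mem_insert_of_mem hp) p'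
        (Finset.mem_insert_of_mem hp') hne)
    have h1 := ih' u v hu huv
    have h2 := ih' (u / c p0) (v / c p0) (by positivity) (div_le_div_of_nonneg_right huv hc'.le)
    have h3 : ((SF_I u v).filter (fun n => (∀ p ∈ P, ¬ c p ∣ n) ∧ c p0 ∣ n)).card =
        ((SF_I (u / c p0) (v / c p0)).filter (fun n => ∀ p ∈ P, ¬ c p ∣ n)).card := by
      have h := SF_dvd (v := v) hu hc0 (fun n => ∀ p ∈ P, ¬ c p ∣ n) (by
        intro k
        refine forall_congr' fun p => forall_congr' fun hp => ?_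
        have hcp : Nat.Coprime (c p) (c p0) := hcop p (Finset.mem_insert_of_mem hp) p0
          (Finset.mem_insert_self _ _) (fun e => hp0 (e ▸ hp))
        rw [hcp.dvd_mul_left])
      convert h
    have h4 : ((SF_I u v).filter (fun n => (∀ p ∈ P, ¬ c p ∣ n) ∧ c p0 ∣ n)).card +
        ((SF_I u v).filter (fun n => (∀ p ∈ P, ¬ c p ∣ n) ∧ ¬ c p0 ∣ n)).card =
        ((SF_I u v).filter (fun n => ∀ p ∈ P, ¬ c p ∣ n)).card := by
      have h := Finset.card_filter_add_card_filter_not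
        (s := (SF_I u v).filter (fun n => ∀ p ∈ P, ¬ c p ∣ n)) (fun n => c p0 ∣ n)
      rw [Finset.filter_filter, Finset.filter_filter] at h
      rw [← h]
    have e5 : (SF_I u v).filter (fun n => ∀ p ∈ insert p0 P, ¬ c p ∣ n) =
        (SF_I u v).filter (fun n => (∀ p ∈ P, ¬ c p ∣ n) ∧ ¬ c p0 ∣ n) := by
      refine Finset.filter_congr fun n _ => ?_
      rw [Finset.forall_mem_insert]
      exact and_comm
    rw [e5, Finset.prod_insert hp0, Finset.card_insert_of_notMem hp0, pow_succ]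
    rw [h3] at h4
    have h6 : (((SF_I u v).filter (fun n => (∀ p ∈ P, ¬ c p ∣ n) ∧ ¬ c p0 ∣ n)).card : ℝ) =
        ((SF_I u v).filter (fun n => ∀ p ∈ P, ¬ c p ∣ n)).card -
        ((SF_I (u / c p0) (v / c p0)).filter (fun n => ∀ p ∈ P, ¬ c p ∣ n)).card := by
      rw [eq_sub_iff_add_eq, add_comm]
      exact_mod_cast h4
    rw [h6]
    have h7 : (v - u) * ((1 - 1 / (c p0 : ℝ)) * ∏ p ∈ P, (1 - 1 / (c p : ℝ))) =
        (v - u) * (∏ p ∈ P, (1 - 1 / (c p : ℝ))) -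
        (v / c p0 - u / c p0) * ∏ p ∈ P, (1 - 1 / (c p : ℝ)) := by
      rw [← sub_div]
      ring
    rw [h7]
    rw [abs_le] at h1 h2 ⊢
    constructor <;> linarith [h1.1, h1.2, h2.1, h2.2]

/-! ### Products -/

theorem SF_prod (P : Finset ℕ) (x : ℕ → ℝ) (hx : ∀ p ∈ P, 0 ≤ x p ∧ x p ≤ 1) :
    1 - ∑ p ∈ P, x p ≤ ∏ p ∈ P, (1 - x p) ∧ 0 ≤ ∏ p ∈ P, (1 - x p) ∧
      ∏ p ∈ P, (1 - x p) ≤ 1 := by
  induction P using Finset.induction_on with
  | empty => simp
  | insert p0 P hp0 ih =>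
    obtain ⟨h1, h2, h3⟩ := ih (fun p hp => hx p (Finset.mem_insert_of_mem hp))
    obtain ⟨h4, h5⟩ := hx p0 (Finset.mem_insert_self _ _)
    rw [Finset.prod_insert hp0, Finset.sum_insert hp0]
    refine ⟨?_, ?_, ?_⟩
    · nlinarith
    · exact mul_nonneg (by linarith) h2
    · nlinarith

/-- the squares of the reciprocals of the naturals beyond `z` -/
theorem SF_tail {z : ℕ} (hz : 1 ≤ z) (P : Finset ℕ) (hP : ∀ p ∈ P, z < p) :
    ∑ p ∈ P, 1 / (p : ℝ) ^ 2 ≤ 1 / (z : ℝ) := by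
  have hz0 : z ≠ 0 := by omega
  let n := max z (P.sup id)
  have h1 := sum_Ioc_inv_sq_le_sub (α := ℝ) hz0 (le_max_left z (P.sup id))
  have h2 : ∑ p ∈ P, 1 / (p : ℝ) ^ 2 ≤ ∑ i ∈ Finset.Ioc z (max z (P.sup id)), ((i : ℝ) ^ 2)⁻¹ := by
    simp_rw [one_div]
    refine Finset.sum_le_sum_of_subset_of_nonneg (fun p hp => ?_) (fun _ _ _ => by positivity)
    rw [Finset.mem_Ioc]
    exact ⟨hP p hp, le_max_of_le_right (Finset.le_sup (f := id) hp)⟩
  have h3 : (0 : ℝ) ≤ ((max z (P.sup id) : ℕ) : ℝ)⁻¹ := by positivity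
  rw [one_div]
  linarith

/-- the Euler product of `ζ(2)` -/
theorem SF_zeta : Tendsto (fun n : ℕ => ∏ p ∈ Nat.primesBelow n, (1 - 1 / (p : ℝ) ^ 2)) atTop
    (𝓝 (6 / Real.pi ^ 2)) := by
  let f : ℕ →*₀ ℝ :=
    { toFun := fun n => 1 / (n : ℝ) ^ 2
      map_zero' := by simp
      map_one' := by simp
      map_mul' := by intro m n; push_cast; rw [mul_pow, one_div_mul_one_div] }
  have hsum : Summable (fun n => ‖f n‖) := by
    have h1 : (fun n => ‖f n‖) = fun n : ℕ => 1 / (n : ℝ) ^ 2 := by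
      funext n
      exact Real.norm_of_nonneg (by show (0 : ℝ) ≤ 1 / (n : ℝ) ^ 2; positivity)
    rw [h1]
    exact hasSum_zeta_two.summable
  have h2 := EulerProduct.eulerProduct_completely_multiplicative hsum
  have h3 : ∑' n, f n = Real.pi ^ 2 / 6 := hasSum_zeta_two.tsum_eq
  rw [h3] at h2
  have h4 := h2.inv₀ (by positivity)
  rw [inv_div] at h4
  refine h4.congr fun n => ?_
  rw [← Finset.prod_inv_distrib]
  refine Finset.prod_congr rfl fun p _ => ?_
  rw [inv_inv]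
  rfl

end Pool.Agent.N282.GC
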