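import Pool.Agent.N282.GC.SfA

/-!
# Project GC: the density of the sieved set (for `S_SF`)
-/

set_option autoImplicit false

open MeasureTheory Filter Topology Classical

namespace Pool.Agent.N282.GC

/-- the moduli -/
noncomputable def SF_c (d p : ℕ) : ℕ := if p ∣ d then p else p ^ 2

theorem SF_c_pos (d : ℕ) {p : ℕ} (hp : p.Prime) : 0 < SF_c d p := by
  unfold SF_c
  split_ifs
  · exact hp.pos
  · exact pow_pos hp.pos 2

theorem SF_c_cop (d : ℕ) {p p' : ℕ} (hp : p.Prime) (hp' : p'.Prime) (h : p ≠ p') :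
    Nat.Coprime (SF_c d p) (SF_c d p') := by
  have h1 : Nat.Coprime p p' := (Nat.coprime_primes hp hp').mpr h
  unfold SF_c
  split_ifs
  · exact h1
  · exact h1.pow_right 2
  · exact h1.pow_left 2
  · exact (h1.pow_left 2).pow_right 2

/-- the density of the sieved set -/
noncomputable def SF_rz (d z : ℕ) : ℝ := ∏ p ∈ Nat.primesBelow (z + 1), (1 - 1 / (SF_c d p : ℝ))

theorem SF_inv_le {p : ℕ} (hp : p.Prime) : (0 : ℝ) ≤ 1 / (p : ℝ) ^ 2 ∧ 1 / (p : ℝ) ^ 2 ≤ 1 := by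
  have h1 : (1 : ℝ) ≤ p := by exact_mod_cast hp.one_lt.le
  refine ⟨by positivity, ?_⟩
  rw [div_le_one (by positivity)]
  exact one_le_pow₀ h1

theorem SF_alpha {z : ℕ} (hz : 1 ≤ z) :
    (∏ p ∈ Nat.primesBelow (z + 1), (1 - 1 / (p : ℝ) ^ 2)) - 1 / (z : ℝ) ≤ 6 / Real.pi ^ 2 ∧
      6 / Real.pi ^ 2 ≤ ∏ p ∈ Nat.primesBelow (z + 1), (1 - 1 / (p : ℝ) ^ 2) := by
  have hpr : ∀ n : ℕ, ∀ p ∈ Nat.primesBelow n, (0 : ℝ) ≤ 1 / (p : ℝ) ^ 2 ∧
      1 / (p : ℝ) ^ 2 ≤ 1 := fun n p hp => SF_inv_le (Nat.prime_of_mem_primesBelow hp)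
  have hA := SF_prod (Nat.primesBelow (z + 1)) (fun p => 1 / (p : ℝ) ^ 2) (hpr _)
  have key : ∀ n : ℕ, z + 1 ≤ n →
      (∏ p ∈ Nat.primesBelow (z + 1), (1 - 1 / (p : ℝ) ^ 2)) - 1 / (z : ℝ) ≤
        ∏ p ∈ Nat.primesBelow n, (1 - 1 / (p : ℝ) ^ 2) ∧
      ∏ p ∈ Nat.primesBelow n, (1 - 1 / (p : ℝ) ^ 2) ≤
        ∏ p ∈ Nat.primesBelow (z + 1), (1 - 1 / (p : ℝ) ^ 2) := by
    intro n hn
    have hsub : Nat.primesBelow (z + 1) ⊆ Nat.primesBelow n := by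
      intro p hp
      rw [Nat.mem_primesBelow] at hp ⊢
      exact ⟨by omega, hp.2⟩
    have h1 := Finset.prod_sdiff (f := fun p : ℕ => (1 - 1 / (p : ℝ) ^ 2)) hsub
    have h2 := SF_prod (Nat.primesBelow n \ Nat.primesBelow (z + 1)) (fun p => 1 / (p : ℝ) ^ 2)
      (fun p hp => hpr n p (Finset.mem_sdiff.mp hp).1)
    have h3 := SF_tail hz (Nat.primesBelow n \ Nat.primesBelow (z + 1)) (by
      intro p hp
      rw [Finset.mem_sdiff, Nat.mem_primesBelow, Nat.mem_primesBelow] at hp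
      by_contra hcon
      exact hp.2 ⟨by omega, hp.1.2⟩)
    rw [← h1]
    obtain ⟨hA1, hA2, hA3⟩ := hA
    obtain ⟨h21, h22, h23⟩ := h2
    have hz0 : (0 : ℝ) ≤ 1 / z := by positivity
    constructor
    · nlinarith
    · nlinarith
  constructor
  · refine ge_of_tendsto SF_zeta ?_
    filter_upwards [eventually_ge_atTop (z + 1)] with n hn
    exact (key n hn).1
  · refine le_of_tendsto SF_zeta ?_
    filter_upwards [eventually_ge_atTop (z + 1)] with n hn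
    exact (key n hn).2

theorem SF_rho {d z : ℕ} (hd : 0 < d) (hz : 1 ≤ z) :
    |SF_rz d z - rho d| ≤ 1 / (z : ℝ) + Rz z d := by
  have hp1 : ∀ p ∈ d.primeFactors, (p : ℝ) / (p + 1) = 1 - 1 / ((p : ℝ) + 1) ∧
      (0 : ℝ) ≤ 1 / ((p : ℝ) + 1) ∧ 1 / ((p : ℝ) + 1) ≤ 1 := by
    intro p _
    refine ⟨?_, by positivity, ?_⟩
    · field_simp
      ring
    · rw [div_le_one (by positivity)]
      have : (0 : ℝ) ≤ p := Nat.cast_nonneg _
      linarith
  -- the finite product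
  have e1 : SF_rz d z = (∏ p ∈ Nat.primesBelow (z + 1), (1 - 1 / (p : ℝ) ^ 2)) *
      ∏ p ∈ d.primeFactors.filter (fun p => ¬ z < p), (p : ℝ) / (p + 1) := by
    have e2 : d.primeFactors.filter (fun p => ¬ z < p) =
        (Nat.primesBelow (z + 1)).filter (fun p => p ∣ d) := by
      ext p
      rw [Finset.mem_filter, Finset.mem_filter, Nat.mem_primeFactors, Nat.mem_primesBelow]
      constructor
      · rintro ⟨⟨h1, h2, _⟩, h3⟩
        exact ⟨⟨by omega, h1⟩, h2⟩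
      · rintro ⟨⟨h1, h2⟩, h3⟩
        exact ⟨⟨h2, h3, hd.ne'⟩, by omega⟩
    rw [e2, Finset.prod_filter, ← Finset.prod_mul_distrib]
    refine Finset.prod_congr rfl fun p hp => ?_
    have hpp := Nat.prime_of_mem_primesBelow hp
    have hp0 : (0 : ℝ) < p := by exact_mod_cast hpp.pos
    unfold SF_c
    split_ifs with h
    · field_simp
      ring
    · push_cast
      ring
  have e3 : rho d = 6 / Real.pi ^ 2 *
      ((∏ p ∈ d.primeFactors.filter (fun p => z < p), (p : ℝ) / (p + 1)) *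
      ∏ p ∈ d.primeFactors.filter (fun p => ¬ z < p), (p : ℝ) / (p + 1)) := by
    rw [Finset.prod_filter_mul_prod_filter_not]
    rfl
  have h1 : ∏ p ∈ d.primeFactors.filter (fun p => z < p), (p : ℝ) / (p + 1) =
      ∏ p ∈ d.primeFactors.filter (fun p => z < p), (1 - 1 / ((p : ℝ) + 1)) :=
    Finset.prod_congr rfl fun p hp => (hp1 p (Finset.mem_filter.mp hp).1).1
  have h2 : ∏ p ∈ d.primeFactors.filter (fun p => ¬ z < p), (p : ℝ) / (p + 1) =
      ∏ p ∈ d.primeFactors.filter (fun p => ¬ z < p), (1 - 1 / ((p : ℝ) + 1)) :=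
    Finset.prod_congr rfl fun p hp => (hp1 p (Finset.mem_filter.mp hp).1).1
  have h3 := SF_prod (d.primeFactors.filter (fun p => z < p)) (fun p => 1 / ((p : ℝ) + 1))
    (fun p hp => (hp1 p (Finset.mem_filter.mp hp).1).2)
  have h4 := SF_prod (d.primeFactors.filter (fun p => ¬ z < p)) (fun p => 1 / ((p : ℝ) + 1))
    (fun p hp => (hp1 p (Finset.mem_filter.mp hp).1).2)
  have h5 : ∑ p ∈ d.primeFactors.filter (fun p => z < p), 1 / ((p : ℝ) + 1) ≤ Rz z d := by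
    unfold Rz
    refine Finset.sum_le_sum fun p hp => ?_
    have hpp : 0 < p := Nat.pos_of_mem_primeFactors (Finset.mem_filter.mp hp).1
    have hp0 : (0 : ℝ) < p := by exact_mod_cast hpp
    exact one_div_le_one_div_of_le hp0 (by linarith)
  obtain ⟨h6, h7⟩ := SF_alpha hz
  have hA := SF_prod (Nat.primesBelow (z + 1)) (fun p => 1 / (p : ℝ) ^ 2)
    (fun p hp => SF_inv_le (Nat.prime_of_mem_primesBelow hp))
  rw [e1, e3, h1, h2]
  obtain ⟨A, hAe⟩ : ∃ A, A = ∏ p ∈ Nat.primesBelow (z + 1), (1 - 1 / (p : ℝ) ^ 2) := ⟨_, rfl⟩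
  obtain ⟨B, hBe⟩ : ∃ B, B = ∏ p ∈ d.primeFactors.filter (fun p => ¬ z < p),
    (1 - 1 / ((p : ℝ) + 1)) := ⟨_, rfl⟩
  obtain ⟨D, hDe⟩ : ∃ D, D = ∏ p ∈ d.primeFactors.filter (fun p => z < p),
    (1 - 1 / ((p : ℝ) + 1)) := ⟨_, rfl⟩
  rw [← hAe] at h6 h7 hA ⊢
  rw [← hBe] at h4 ⊢
  rw [← hDe] at h3 ⊢
  obtain ⟨-, hA2, hA3⟩ := hA
  obtain ⟨-, hB2, hB3⟩ := h4
  obtain ⟨hD1, hD2, hD3⟩ := h3
  have hpi : 0 < 6 / Real.pi ^ 2 := by positivity
  obtain ⟨α, hα⟩ : ∃ α, α = 6 / Real.pi ^ 2 := ⟨_, rfl⟩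
  rw [← hα] at h6 h7 hpi ⊢
  have hR0 : 0 ≤ 1 - D := by linarith
  have hz0 : (0 : ℝ) ≤ 1 / z := by positivity
  have k1 : 0 ≤ A * B - α * (D * B) := by
    have : α * (D * B) ≤ A * (1 * B) :=
      mul_le_mul h7 (mul_le_mul_of_nonneg_right hD3 hB2) (mul_nonneg hD2 hB2) hA2
    linarith
  have k2 : A * B - α * (D * B) ≤ 1 / z + Rz z d := by
    have e : A * B - α * (D * B) = (A - α) * B + α * B * (1 - D) := by ring
    have k3 : (A - α) * B ≤ 1 / z := by nlinarith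
    have k4 : α * B * (1 - D) ≤ 1 - D := by
      have : α * B ≤ 1 := by nlinarith
      nlinarith
    rw [e]
    linarith
  rw [abs_of_nonneg k1]
  exact k2

end Pool.Agent.N282.GC
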