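import Pool.Agent.N282.GC.Defs

/-!
# Project GC: statements of the parts (helper282)
-/

set_option autoImplicit false

open MeasureTheory Filter Topology Classical

namespace Pool.Agent.N282.GC

/-! ## Counting tuples with square product -/

/-- weighted count of tuples chosen one after the other -/
def S_W : Prop := ∀ (K : ℕ) (T : ℝ) (L : Fin K → ℝ) (E : Finset (Fin K → ℕ)) (u : Fin K → (Fin K → ℕ) → ℝ),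
  1 ≤ T → (∀ i, 0 < L i) → (∀ i e e', (∀ j < i, e j = e' j) → u i e = u i e') →
  (∀ e ∈ E, ∀ i, 1 ≤ e i ∧ u i e ≤ e i ∧ (e i : ℝ) ≤ u i e + L i ∧
    ((∏ j ∈ Finset.univ.filter (· < i), e j).divisors.card : ℝ) ≤ T) →
  ∑ e ∈ E, ∏ i, (L i / (gd e i : ℝ) + 1)⁻¹ ≤ T ^ K

/-- the greatest common divisors with the previous elements are large -/
def S_RAD : Prop := ∀ (K : ℕ) (e : Fin K → ℕ), (∀ i, Squarefree (e i)) → IsSquare (∏ i, e i) →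
  ∏ i, e i ≤ (∏ i, gd e i) ^ 2

/-- the product of the numbers of choices -/
def S_PRD : Prop := ∀ (k : ℕ) (ε c : ℝ), 1 ≤ k → 0 < ε → 0 < c → ∃ C : ℝ, 0 < C ∧
  ∀ (X H : ℝ), 1 ≤ X → X ^ ε ≤ H → H ≤ X ^ (1 - ε) →
  ∀ (D L : Fin (2 * k) → ℝ) (f1 f2 v : Fin (2 * k)), f1 ≠ f2 → (∀ i, 1 ≤ D i ∧ D i ≤ 3 * X) →
    (∀ i, i = f1 ∨ i = f2 → L i = 3 * X) → (∀ i, i ≠ f1 → i ≠ f2 → L i = 2 * H) →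
    (X / 2) ^ k ≤ ∏ i, D i → (v = f1 ∨ v = f2 ∨ D v ≤ 2 * H) → X ^ c ≤ D v →
    (∏ i, (L i / D i + 1)) * H ^ 2 ≤ C * X ^ (2 - min ε c) * H ^ k

/-- two elements with a large greatest common divisor -/
def S_PAIR : Prop := ∀ (k : ℕ) (X : ℝ) (n m : Fin k → ℕ), 2 ≤ X → (∀ i, X / 2 ≤ n i) → (∀ i, X / 2 ≤ m i) →
  (∀ i, Squarefree (n i)) → (∀ i, Squarefree (m i)) → IsSquare ((∏ i, n i) * ∏ i, m i) → ¬ Paired n →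
  ∃ u : Fin k, (∃ v, n v ≠ n u ∧ (X / 2) ^ (1 / (2 * k : ℝ)) ≤ Nat.gcd (n u) (n v)) ∨
    ∃ v, (X / 2) ^ (1 / (2 * k : ℝ)) ≤ Nat.gcd (n u) (m v)

/-- pairs of tuples in two short intervals with square product, the first tuple not paired -/
def S_CL : Prop := ∀ (k : ℕ) (ε : ℝ), 1 ≤ k → 0 < ε → ε < 1 / 2 → ∃ c X0 : ℝ, 0 < c ∧ 2 ≤ X0 ∧
  ∀ X H : ℝ, X0 ≤ X → X ^ ε ≤ H → H ≤ X ^ (1 - ε) → ∀ T : Finset ((Fin k → ℕ) × (Fin k → ℕ)),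
    (∀ t ∈ T, (∀ i, X / 2 ≤ t.1 i ∧ (t.1 i : ℝ) ≤ 3 * X ∧ Squarefree (t.1 i)) ∧
      (∀ i, X / 2 ≤ t.2 i ∧ (t.2 i : ℝ) ≤ 3 * X ∧ Squarefree (t.2 i)) ∧
      (∀ i j, |(t.1 i : ℝ) - t.1 j| ≤ H) ∧ (∀ i j, |(t.2 i : ℝ) - t.2 j| ≤ H) ∧
      IsSquare ((∏ i, t.1 i) * ∏ i, t.2 i) ∧ ¬ Paired t.1) →
    (T.card : ℝ) * H ^ 2 ≤ X ^ (2 - c) * H ^ k

/-- general form of `S_CL`: the condition that the first tuple is not paired is replaced by the conclusion of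
`S_PAIR`; `S_CL` follows from it and `S_PAIR` -/
def S_CLG : Prop := ∀ (k : ℕ) (ε : ℝ), 1 ≤ k → 0 < ε → ε < 1 / 2 → ∃ c X0 : ℝ, 0 < c ∧ 2 ≤ X0 ∧
  ∀ X H : ℝ, X0 ≤ X → X ^ ε ≤ H → H ≤ X ^ (1 - ε) → ∀ T : Finset ((Fin k → ℕ) × (Fin k → ℕ)),
    (∀ t ∈ T, (∀ i, X / 2 ≤ t.1 i ∧ (t.1 i : ℝ) ≤ 3 * X ∧ Squarefree (t.1 i)) ∧
      (∀ i, X / 2 ≤ t.2 i ∧ (t.2 i : ℝ) ≤ 3 * X ∧ Squarefree (t.2 i)) ∧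
      (∀ i j, |(t.1 i : ℝ) - t.1 j| ≤ H) ∧ (∀ i j, |(t.2 i : ℝ) - t.2 j| ≤ H) ∧
      IsSquare ((∏ i, t.1 i) * ∏ i, t.2 i) ∧
      ∃ u : Fin k, (∃ v, t.1 v ≠ t.1 u ∧ (X / 2) ^ (1 / (2 * k : ℝ)) ≤ Nat.gcd (t.1 u) (t.1 v)) ∨
        ∃ v, (X / 2) ^ (1 / (2 * k : ℝ)) ≤ Nat.gcd (t.1 u) (t.2 v)) →
    (T.card : ℝ) * H ^ 2 ≤ X ^ (2 - c) * H ^ k

/-! ## Random functions -/

/-- mean square of the unpaired part -/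
def S_L2 : Prop := ∀ (k : ℕ) (ε : ℝ), 1 ≤ k → 0 < ε → ε < 1 / 2 → ∃ c X0 : ℝ, 0 < c ∧ 2 ≤ X0 ∧
  ∀ X H a b : ℝ, X0 ≤ X → X ^ ε ≤ H → H ≤ X ^ (1 - ε) → X ≤ a → a ≤ b → b ≤ 2 * X →
  ∀ (Ω : Type) (_ : MeasurableSpace Ω) (P : Measure Ω) (_ : IsProbabilityMeasure P) (F : Ω → ℕ → ℝ) (δ : ℝ),
    0 ≤ δ → (∀ n, Measurable fun ω => F ω n) → (∀ ω n, |F ω n| ≤ 1) → (∀ ω n, ¬ Squarefree n → F ω n = 0) →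
    (∀ n m : Fin k → ℕ, (∀ i, (n i : ℝ) ≤ 3 * X) → (∀ i, (m i : ℝ) ≤ 3 * X) →
      (∀ i, Squarefree (n i)) → (∀ i, Squarefree (m i)) →
      ¬ IsSquare ((∏ i, n i) * ∏ i, m i) → |∫ ω, (∏ i, F ω (n i)) * ∏ i, F ω (m i) ∂P| ≤ δ) →
    ∫ ω, J (F ω) k a b H ^ 2 ∂P ≤ X ^ (2 - c) * H ^ k + δ * X ^ 2 * (2 * H) ^ (2 * k)

/-- the number of paired tuples -/
def S_PT : Prop := ∀ k : ℕ, ∃ C : ℝ, 0 < C ∧ ∀ S : ℕ,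
  |(pcount k S : ℝ) - gm k * (S : ℝ) ^ ((k : ℝ) / 2)| ≤ C * (1 + (S : ℝ)) ^ (((k : ℝ) - 1) / 2)

/-- the moments in terms of the unpaired part and of the number of elements of the windows in the support -/
def S_NM : Prop := ∀ k : ℕ, 1 ≤ k → ∃ C : ℝ, 0 < C ∧ ∀ (F : ℕ → ℝ) (d : ℕ) (a b H : ℝ),
  (∀ n, F n ^ 2 = if Squarefree n ∧ Nat.Coprime n d then 1 else 0) → 0 < d → 0 < a → a < b → 1 ≤ H →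
  |mom F k a b H - gm k * (rho d * H) ^ ((k : ℝ) / 2)| ≤
    C * H ^ ((k : ℝ) / 2) * (dev d a b H + 1 / Real.sqrt H) + |J F k a b H| / (b - a)

/-! ## Squarefree integers prime to `d` in short intervals -/

def S_SF : Prop := ∀ q : ℕ, 1 ≤ q → ∃ C : ℝ, 0 < C ∧ ∀ z : ℕ, 2 ≤ z → ∃ Cz : ℝ, 0 < Cz ∧
  ∀ (X a b H : ℝ) (d : ℕ), 0 < d → 1 ≤ X → X ≤ a → b ≤ 2 * X → X / (4 * q) ≤ b - a → 1 ≤ H → H ≤ X / (4 * q) →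
    dev d a b H ≤ C * (1 / z + Rz z d) + Cz / Real.sqrt H

def S_SF2 : Prop := ∀ η : ℝ, 0 < η → ∃ z : ℕ, 2 ≤ z ∧ 1 / (z : ℝ) ≤ η ∧ ∀ D : ℕ,
  (((Finset.Icc 1 D).filter fun d => η < Rz z d).card : ℝ) ≤ η * D

def S_RHO : Prop := ∀ η : ℝ, 0 < η → ∃ ρ0 : ℝ, 0 < ρ0 ∧ ∀ D : ℕ,
  (((Finset.Icc 1 D).filter fun d => rho d < ρ0).card : ℝ) ≤ η * D

/-! ## From the net to all intervals -/

/-- the method of moments for the normal law -/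
def S_MMU : Prop := ∀ t η : ℝ, 0 < η → ∃ (K : ℕ) (δ : ℝ), 0 < δ ∧ ∀ ν : Measure ℝ, IsProbabilityMeasure ν →
  (∀ k : ℕ, Integrable (fun x => x ^ k) ν) → (∀ k ≤ K, |∫ x, x ^ k ∂ν - gm k| ≤ δ) →
  |(ν (Set.Iic t)).toReal - Phi t| ≤ η

/-- windows of nearly the same length -/
def S_CH : Prop := ∀ ε : ℝ, 0 < ε → ε < 1 / 2 → ∃ C : ℝ, 0 < C ∧ ∀ q : ℕ, 1 ≤ q → ∀ X1 : ℝ, ∃ X2 : ℝ, 1 ≤ X2 ∧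
  ∀ (Y : ℝ) (F : ℕ → ℝ) (ρ : ℝ), (∀ n, |F n| ≤ 1) → 0 ≤ ρ → ρ ≤ 1 → Net F ρ q 2 (ε / 8) 1 X1 Y →
  ∀ X H H' : ℝ, X2 ≤ X → 16 * X ≤ Y → X ^ ε ≤ H → H ≤ X ^ (1 - ε) → H ≤ H' → H' ≤ (1 + 1 / q) * H →
    (1 / X) * ∫ x in X..2 * X, (M F x H' - M F x H) ^ 2 ≤ C * H / q

/-- the variance -/
def S_TR2 : Prop := ∀ ε η : ℝ, 0 < ε → ε < 1 / 2 → 0 < η → ∃ (q : ℕ) (δ : ℝ), 1 ≤ q ∧ 0 < δ ∧
  ∀ X1 : ℝ, ∃ X2 : ℝ, 1 ≤ X2 ∧ ∀ (Y : ℝ) (F : ℕ → ℝ) (ρ : ℝ), (∀ n, |F n| ≤ 1) → 0 ≤ ρ → ρ ≤ 1 →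
  Net F ρ q 2 (ε / 32) δ X1 Y → ∀ X H : ℝ, X2 ≤ X → 16 * X ≤ Y → X ^ ε ≤ H → H ≤ X ^ (1 - ε) →
    |(1 / X) * (∫ x in X..2 * X, M F x H ^ 2) - ρ * H| ≤ η * H

/-- the distribution function -/
def S_TRC : Prop := ∀ ε η ρ0 t : ℝ, 0 < ε → ε < 1 / 2 → 0 < η → 0 < ρ0 → ∃ (q K : ℕ) (δ : ℝ), 1 ≤ q ∧ 0 < δ ∧
  ∀ X1 : ℝ, ∃ X2 : ℝ, 1 ≤ X2 ∧ ∀ (Y : ℝ) (F : ℕ → ℝ) (ρ : ℝ), (∀ n, |F n| ≤ 1) → ρ0 ≤ ρ → ρ ≤ 1 →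
  (∀ k, k ≤ K → Net F ρ q k (ε / 32) δ X1 Y) → ∀ X H : ℝ, X2 ≤ X → 16 * X ≤ Y → X ^ ε ≤ H → H ≤ X ^ (1 - ε) →
    |(volume {x : ℝ | x ∈ Set.Icc X (2 * X) ∧ M F x H / Real.sqrt (ρ * H) ≤ t}).toReal / X - Phi t| ≤ η

/-! ## Random signs and Jacobi symbols -/

/-- products of the values at random signs -/
def S_RND : Prop := ∀ (Ω : Type) (_ : MeasurableSpace Ω) (P : Measure Ω) (_ : IsProbabilityMeasure P)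
  (s : ℕ → Ω → ℝ), (∀ p, Measurable (s p)) → (∀ p ω, s p ω = 1 ∨ s p ω = -1) → (∀ p, ∫ ω, s p ω ∂P = 0) →
  ProbabilityTheory.iIndepFun s P → ∀ (k : ℕ) (n m : Fin k → ℕ), (∀ i, Squarefree (n i)) →
  (∀ i, Squarefree (m i)) → ¬ IsSquare ((∏ i, n i) * ∏ i, m i) →
    ∫ ω, (∏ i, fs (fun p => s p ω) (n i)) * ∏ i, fs (fun p => s p ω) (m i) ∂P = 0

/-- the net for almost all signs -/
def S_BC : Prop := ∀ (Ω : Type) (_ : MeasurableSpace Ω) (P : Measure Ω) (_ : IsProbabilityMeasure P)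
  (s : ℕ → Ω → ℝ), (∀ p, Measurable (s p)) → (∀ p ω, s p ω = 1 ∨ s p ω = -1) → (∀ p, ∫ ω, s p ω ∂P = 0) →
  ProbabilityTheory.iIndepFun s P → ∀ᵐ ω ∂P, ∀ (q k : ℕ) (ε δ : ℝ), 1 ≤ q → 0 < ε → ε < 1 / 2 → 0 < δ →
    ∃ X1 : ℝ, ∀ Y : ℝ, Net (fs fun p => s p ω) (6 / Real.pi ^ 2) q k ε δ X1 Y

/-- sums of Jacobi symbols over the lower entry -/
def S_JAC : Prop := ∀ (N D : ℕ), 0 < N → ¬ IsSquare N →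
  |∑ d ∈ (Finset.Icc 1 D).filter (fun d => Odd d), ((jacobiSym N d : ℤ) : ℝ)| ≤ 4 * N

/-- the net for almost all odd `d` -/
def S_CN : Prop := ∀ (q K : ℕ) (ε δ η : ℝ), 1 ≤ q → 0 < ε → ε < 1 / 2 → 0 < δ → 0 < η →
  ∃ (c X1 : ℝ) (D0 : ℕ), 0 < c ∧ ∀ D : ℕ, D0 ≤ D →
    (((Finset.Icc 1 D).filter fun d => Odd d ∧ ¬ ∀ k ≤ K, Net (fj d) (rho d) q k ε δ X1 ((D : ℝ) ^ c)).card : ℝ) ≤
      η * D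

/-! ## The exponential sum -/

/-- tuples with square product -/
def S_TC : Prop := ∀ (k : ℕ) (κ : ℝ), 1 ≤ k → 0 < κ → ∃ C : ℝ, 0 < C ∧ ∀ R : ℕ, 1 ≤ R →
  (((tup (2 * k) (Finset.Icc 1 R)).filter fun n => IsSquare (∏ i, n i)).card : ℝ) ≤ C * (R : ℝ) ^ ((k : ℝ) + κ)

/-- the exponential sum with the coefficients `μ(n) (n / d)` for almost all odd `d` -/
def S_SUP : Prop := ∀ ε A : ℝ, 0 < ε → 0 < A → ∃ c C : ℝ, 0 < c ∧ 0 < C ∧ ∀ D R0 : ℕ, 1 ≤ R0 →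
  (((Finset.Icc 1 D).filter fun d => Odd d ∧ ∃ R : ℕ, R0 ≤ R ∧ (R : ℝ) ≤ (D : ℝ) ^ c ∧ ∃ x : ℝ,
    (R : ℝ) ^ (1 / 2 + ε) < ‖∑ n ∈ Finset.Icc 1 R, ((fj d n : ℝ) : ℂ) *
      Complex.exp (2 * Real.pi * Complex.I * n * x)‖).card : ℝ) ≤ C * D * (R0 : ℝ) ^ (-A)

end Pool.Agent.N282.GC
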