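import Pool.Agent.N282.GC.Stm

/-!
# Project GCX: complex functions, twists by characters and by n^(it); definitions and statements (helper282)
-/

set_option autoImplicit false

open MeasureTheory Filter Topology Classical

namespace Pool.Agent.N282.GC

/-- the sum of a complex function over the window -/
noncomputable def Mc (F : ℕ → ℂ) (x H : ℝ) : ℂ := ∑ n ∈ win x H, F n

/-- every value is taken as often by `n` as by `m` -/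
def Bal {k l : ℕ} (n : Fin k → ℕ) (m : Fin l → ℕ) : Prop :=
  ∀ v : ℕ, (Finset.univ.filter fun i => n i = v).card = (Finset.univ.filter fun i => m i = v).card

/-- the unbalanced part of `M^k * conj M^l` -/
noncomputable def UPc (F : ℕ → ℂ) (k l : ℕ) (x H : ℝ) : ℂ :=
  ∑ n ∈ tup k (win x H), ∑ m ∈ (tup l (win x H)).filter (fun m => ¬ Bal n m),
    (∏ i, F (n i)) * ∏ i, (starRingEnd ℂ) (F (m i))

/-- the integral of `UPc` -/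
noncomputable def Jc (F : ℕ → ℂ) (k l : ℕ) (a b H : ℝ) : ℂ := ∫ x in a..b, UPc F k l x H

/-- the number of balanced pairs of `k`-tuples of a set with `S` elements -/
noncomputable def bcount (k S : ℕ) : ℕ :=
  (((tup k (Finset.range S)) ×ˢ (tup k (Finset.range S))).filter fun t => Bal t.1 t.2).card

/-- the real part of `u F` -/
noncomputable def Fu (F : ℕ → ℂ) (u : ℂ) (n : ℕ) : ℝ := (u * F n).re

/-- the Moebius function times `χ(n) n^(it)` -/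
noncomputable def fc {q : ℕ} (χ : DirichletCharacter ℂ q) (t : ℝ) (n : ℕ) : ℂ :=
  ((ArithmeticFunction.moebius n : ℤ) : ℂ) * χ n * Complex.exp (Complex.I * t * Real.log n)

/-- two elements with a large greatest common divisor, unbalanced tuples -/
def S_XPAIR : Prop := ∀ (k l : ℕ) (X : ℝ) (n n' : Fin k → ℕ) (m m' : Fin l → ℕ), 2 ≤ X →
  (∀ i, X / 2 ≤ n i ∧ Squarefree (n i)) → (∀ i, X / 2 ≤ m i ∧ Squarefree (m i)) →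
  (∀ i, X / 2 ≤ n' i ∧ Squarefree (n' i)) → (∀ i, X / 2 ≤ m' i ∧ Squarefree (m' i)) →
  (∏ i, n i) * (∏ i, m' i) = (∏ i, m i) * (∏ i, n' i) → ¬ Bal n m →
  ∃ u : Fin (k + l), (∃ v, (Fin.append n m) v ≠ (Fin.append n m) u ∧
      (X / 2) ^ (1 / (2 * (k + l : ℕ) : ℝ)) ≤ Nat.gcd ((Fin.append n m) u) ((Fin.append n m) v)) ∨
    ∃ v, (X / 2) ^ (1 / (2 * (k + l : ℕ) : ℝ)) ≤ Nat.gcd ((Fin.append n m) u) ((Fin.append n' m') v)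

/-- mean square of the unbalanced part -/
def S_XL2 : Prop := ∀ (k l : ℕ) (ε : ℝ), 1 ≤ k + l → 0 < ε → ε < 1 / 2 → ∃ c X0 : ℝ, 0 < c ∧ 2 ≤ X0 ∧
  ∀ X H a b : ℝ, X0 ≤ X → X ^ ε ≤ H → H ≤ X ^ (1 - ε) → X ≤ a → a ≤ b → b ≤ 2 * X →
  ∀ (Ω : Type) (_ : MeasurableSpace Ω) (P : Measure Ω) (_ : IsProbabilityMeasure P) (F : Ω → ℕ → ℂ) (δ : ℝ),
    0 ≤ δ → (∀ n, Measurable fun ω => F ω n) → (∀ ω n, ‖F ω n‖ ≤ 1) → (∀ ω n, ¬ Squarefree n → F ω n = 0) →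
    (∀ (n n' : Fin k → ℕ) (m m' : Fin l → ℕ), (∀ i, (n i : ℝ) ≤ 3 * X ∧ Squarefree (n i)) →
      (∀ i, (m i : ℝ) ≤ 3 * X ∧ Squarefree (m i)) → (∀ i, (n' i : ℝ) ≤ 3 * X ∧ Squarefree (n' i)) →
      (∀ i, (m' i : ℝ) ≤ 3 * X ∧ Squarefree (m' i)) →
      (∏ i, n i) * (∏ i, m' i) ≠ (∏ i, m i) * (∏ i, n' i) →
      ‖∫ ω, (∏ i, F ω (n i)) * (∏ i, (starRingEnd ℂ) (F ω (m i))) *
        ((∏ i, (starRingEnd ℂ) (F ω (n' i))) * ∏ i, F ω (m' i)) ∂P‖ ≤ δ) →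
    ∫ ω, ‖Jc (F ω) k l a b H‖ ^ 2 ∂P ≤ X ^ (2 - c) * H ^ (k + l) + δ * X ^ 2 * (2 * H) ^ (2 * (k + l))

/-- the number of balanced pairs -/
def S_BAL : Prop := ∀ k : ℕ, ∃ C : ℝ, 0 < C ∧ ∀ S : ℕ,
  |(bcount k S : ℝ) - (k.factorial : ℝ) * (S : ℝ) ^ k| ≤ C * (1 + (S : ℝ)) ^ ((k : ℝ) - 1)

/-- the moments of the real parts -/
def S_XNM : Prop := ∀ j : ℕ, 1 ≤ j → ∃ C : ℝ, 0 < C ∧ ∀ (F : ℕ → ℂ) (d : ℕ) (a b H : ℝ) (u : ℂ),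
  (∀ n, ‖F n‖ ^ 2 = if Squarefree n ∧ Nat.Coprime n d then 1 else 0) → 0 < d → 0 < a → a < b → 1 ≤ H → ‖u‖ = 1 →
  |mom (Fu F u) j a b H - gm j * (rho d / 2 * H) ^ ((j : ℝ) / 2)| ≤
    C * H ^ ((j : ℝ) / 2) * (dev d a b H + 1 / Real.sqrt H) +
      ∑ i ∈ Finset.range (j + 1), (j.choose i : ℝ) * ‖Jc F i (j - i) a b H‖ / (b - a)

/-- orthogonality over the characters modulo `q` and the twists by `n^(it)`, `0 ≤ t ≤ T` -/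
def S_ORT : Prop := ∀ (q : ℕ) (_ : NeZero q) (T : ℝ) (A B : ℕ) (N : ℝ), 0 < T → 0 < A → 0 < B → (A : ℝ) ≤ N →
  (B : ℝ) ≤ N → A ≠ B →
  ‖(1 / (q.totient : ℂ)) * ∑ χ : DirichletCharacter ℂ q, χ A * (starRingEnd ℂ) (χ B) * ((1 / T : ℝ) : ℂ) *
    ∫ t in (0 : ℝ)..T, Complex.exp (Complex.I * t * (Real.log A - Real.log B))‖ ≤ 2 * N / (q * T)

/-- the net for almost all `χ` modulo a prime power `q` and almost all `t` in `[0, T]` -/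
def S_XCN : Prop := ∀ (Q K : ℕ) (ε δ η : ℝ), 1 ≤ Q → 0 < ε → ε < 1 / 2 → 0 < δ → 0 < η →
  ∃ (c X1 D0 : ℝ), 0 < c ∧ ∀ (q : ℕ) (_ : NeZero q) (T : ℝ), (q = 1 ∨ IsPrimePow q) → 1 ≤ T → D0 ≤ q * T →
    ∑ χ : DirichletCharacter ℂ q, (volume {t : ℝ | t ∈ Set.Icc 0 T ∧ ¬ ∀ u : ℂ, ‖u‖ = 1 → ∀ k ≤ K,
      Net (Fu (fc χ t) u) (rho q / 2) Q k ε δ X1 ((q * T) ^ c)}).toReal ≤ η * (q.totient * T)

end Pool.Agent.N282.GC
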