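import Pool.Agent.N282.GC.Stm
import Pool.Agent.Helper112.Arith

/-!
# Project GC: the exponential sum with the coefficients `μ(n) (n / d)` (helper711)
-/

set_option autoImplicit false

open MeasureTheory Filter Topology Classical

namespace Pool.Agent.N282.GC

/-! ## tuples with square product -/

theorem t_TC : S_TC := by
  intro k κ hk hκ
  have hk0 : (0 : ℝ) < k := by exact_mod_cast hk
  obtain ⟨C, hC, hdiv⟩ := Pool.Agent.Helper112.divisor_bound (κ / (4 * k ^ 2)) (by positivity)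
  refine ⟨C ^ (2 * k), by positivity, ?_⟩
  intro R hR
  have hR0 : (0 : ℝ) < R := by exact_mod_cast hR
  have hR1 : (1 : ℝ) ≤ R := by exact_mod_cast hR
  -- all the tuples with square product are of this form
  have hsub : (tup (2 * k) (Finset.Icc 1 R)).filter (fun n => IsSquare (∏ i, n i)) ⊆
      (Finset.Icc 1 (R ^ k)).biUnion fun z => tup (2 * k) ((z * z).divisors) := by
    intro n hn
    obtain ⟨h1, z, hz⟩ := Finset.mem_filter.1 hn
    have h1' : ∀ i, 1 ≤ n i ∧ n i ≤ R := by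
      intro i
      have := (Fintype.mem_piFinset.1 h1) i
      exact Finset.mem_Icc.1 this
    have hpos : 0 < ∏ i, n i := Finset.prod_pos fun i _ => (h1' i).1
    have hle : ∏ i, n i ≤ R ^ (2 * k) := by
      calc ∏ i, n i ≤ ∏ _i : Fin (2 * k), R := Finset.prod_le_prod' fun i _ => (h1' i).2
        _ = R ^ (2 * k) := by simp
    rw [Finset.mem_biUnion]
    refine ⟨z, ?_, ?_⟩
    · rw [Finset.mem_Icc]
      constructor
      · rcases Nat.eq_zero_or_pos z with h | h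
        · rw [hz, h] at hpos
          simp at hpos
        · exact h
      · by_contra hcon
        push Not at hcon
        have h2 : R ^ k * R ^ k < z * z := Nat.mul_lt_mul'' hcon hcon
        rw [← pow_add, ← two_mul, ← hz] at h2
        omega
    · unfold tup
      rw [Fintype.mem_piFinset]
      intro i
      rw [Nat.mem_divisors, ← hz]
      exact ⟨Finset.dvd_prod_of_mem _ (Finset.mem_univ i), hpos.ne'⟩
  have hcard : ∀ z ∈ Finset.Icc 1 (R ^ k), ((tup (2 * k) ((z * z).divisors)).card : ℝ) ≤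
      C ^ (2 * k) * (R : ℝ) ^ κ := by
    intro z hz
    rw [Finset.mem_Icc] at hz
    have hz0 : 0 < z := hz.1
    have h1 : (tup (2 * k) ((z * z).divisors)).card = (z * z).divisors.card ^ (2 * k) := by
      unfold tup
      rw [Fintype.card_piFinset]
      simp
    rw [h1]
    push_cast
    have h2 := hdiv (z * z) (Nat.mul_pos hz0 hz0)
    have h3 : ((z * z : ℕ) : ℝ) ≤ (R : ℝ) ^ (2 * k : ℕ) := by
      have : z * z ≤ R ^ (2 * k) := by
        calc z * z ≤ R ^ k * R ^ k := Nat.mul_le_mul hz.2 hz.2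
          _ = R ^ (2 * k) := by rw [← pow_add, two_mul]
      exact_mod_cast this
    calc (((z * z).divisors.card : ℝ)) ^ (2 * k)
        ≤ (C * ((z * z : ℕ) : ℝ) ^ (κ / (4 * k ^ 2))) ^ (2 * k) :=
          pow_le_pow_left₀ (Nat.cast_nonneg _) h2 _
      _ ≤ (C * ((R : ℝ) ^ (2 * k : ℕ)) ^ (κ / (4 * k ^ 2))) ^ (2 * k) := by
          apply pow_le_pow_left₀ (by positivity)
          apply mul_le_mul_of_nonneg_left _ hC.le
          exact Real.rpow_le_rpow (Nat.cast_nonneg _) h3 (by positivity)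
      _ = C ^ (2 * k) * (R : ℝ) ^ κ := by
          rw [mul_pow]
          congr 1
          rw [← Real.rpow_natCast (R : ℝ) (2 * k), ← Real.rpow_mul hR0.le,
            ← Real.rpow_natCast _ (2 * k), ← Real.rpow_mul hR0.le]
          congr 1
          push_cast
          field_simp
          norm_num
  calc (((tup (2 * k) (Finset.Icc 1 R)).filter fun n => IsSquare (∏ i, n i)).card : ℝ)
      ≤ (((Finset.Icc 1 (R ^ k)).biUnion fun z => tup (2 * k) ((z * z).divisors)).card : ℝ) := by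
        exact_mod_cast Finset.card_le_card hsub
    _ ≤ ∑ z ∈ Finset.Icc 1 (R ^ k), ((tup (2 * k) ((z * z).divisors)).card : ℝ) := by
        exact_mod_cast Finset.card_biUnion_le
    _ ≤ ∑ _z ∈ Finset.Icc 1 (R ^ k), C ^ (2 * k) * (R : ℝ) ^ κ := Finset.sum_le_sum hcard
    _ = C ^ (2 * k) * (R : ℝ) ^ ((k : ℝ) + κ) := by
        rw [Finset.sum_const, Nat.card_Icc, nsmul_eq_mul, Real.rpow_add hR0, Real.rpow_natCast]
        push_cast
        ring

/-! ## the exponential sum -/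

/-- the exponential sum -/
noncomputable def SUP_S (d R : ℕ) (x : ℝ) : ℂ :=
  ∑ n ∈ Finset.Icc 1 R, ((fj d n : ℝ) : ℂ) * Complex.exp (2 * Real.pi * Complex.I * n * x)

lemma SUP_fj_le (d n : ℕ) : |fj d n| ≤ 1 := by
  unfold fj
  rw [abs_mul]
  have h1 : |((ArithmeticFunction.moebius n : ℤ) : ℝ)| ≤ 1 := by
    exact_mod_cast ArithmeticFunction.abs_moebius_le_one
  have h2 : |((jacobiSym n d : ℤ) : ℝ)| ≤ 1 := by
    rcases jacobiSym.trichotomy (n : ℤ) d with h | h | h <;> rw [h] <;> norm_num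
  calc |((ArithmeticFunction.moebius n : ℤ) : ℝ)| * |((jacobiSym n d : ℤ) : ℝ)| ≤ 1 * 1 :=
        mul_le_mul h1 h2 (abs_nonneg _) zero_le_one
    _ = 1 := one_mul 1

lemma SUP_norm_e (n : ℕ) (x : ℝ) :
    ‖Complex.exp (2 * Real.pi * Complex.I * n * x)‖ = 1 := by
  have : (2 * Real.pi * Complex.I * n * x : ℂ) = ((2 * Real.pi * n * x : ℝ) : ℂ) * Complex.I := by
    push_cast; ring
  rw [this, Complex.norm_exp_ofReal_mul_I]

lemma SUP_e_sub (n : ℕ) (x y : ℝ) :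
    ‖Complex.exp (2 * Real.pi * Complex.I * n * x) - Complex.exp (2 * Real.pi * Complex.I * n * y)‖ ≤
      2 * Real.pi * n * |x - y| := by
  have h1 : Complex.exp (2 * Real.pi * Complex.I * n * x) =
      Complex.exp (2 * Real.pi * Complex.I * n * y) *
        Complex.exp (Complex.I * ((2 * Real.pi * n * (x - y) : ℝ) : ℂ)) := by
    rw [← Complex.exp_add]
    congr 1
    push_cast
    ring
  rw [h1]
  have h2 : Complex.exp (2 * Real.pi * Complex.I * n * y) *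
        Complex.exp (Complex.I * ((2 * Real.pi * n * (x - y) : ℝ) : ℂ)) -
        Complex.exp (2 * Real.pi * Complex.I * n * y) =
      Complex.exp (2 * Real.pi * Complex.I * n * y) *
        (Complex.exp (Complex.I * ((2 * Real.pi * n * (x - y) : ℝ) : ℂ)) - 1) := by ring
  rw [h2, norm_mul, SUP_norm_e, one_mul]
  refine Real.norm_exp_I_mul_ofReal_sub_one_le.trans ?_
  rw [Real.norm_eq_abs, abs_mul, abs_of_nonneg (by positivity)]

lemma SUP_lip (d R : ℕ) (x y : ℝ) :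
    ‖SUP_S d R x - SUP_S d R y‖ ≤ 2 * Real.pi * (R : ℝ) ^ 2 * |x - y| := by
  unfold SUP_S
  rw [← Finset.sum_sub_distrib]
  calc ‖∑ n ∈ Finset.Icc 1 R, (((fj d n : ℝ) : ℂ) * Complex.exp (2 * Real.pi * Complex.I * n * x) -
        ((fj d n : ℝ) : ℂ) * Complex.exp (2 * Real.pi * Complex.I * n * y))‖
      ≤ ∑ n ∈ Finset.Icc 1 R, 2 * Real.pi * R * |x - y| := by
        refine (norm_sum_le _ _).trans (Finset.sum_le_sum fun n hn => ?_)
        rw [← mul_sub, norm_mul, Complex.norm_real, Real.norm_eq_abs]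
        have h1 := SUP_fj_le d n
        have h2 := SUP_e_sub n x y
        have h3 : (n : ℝ) ≤ R := by exact_mod_cast (Finset.mem_Icc.1 hn).2
        have hpi := Real.pi_pos
        calc |fj d n| * ‖Complex.exp (2 * Real.pi * Complex.I * n * x) -
              Complex.exp (2 * Real.pi * Complex.I * n * y)‖
            ≤ 1 * (2 * Real.pi * n * |x - y|) := mul_le_mul h1 h2 (norm_nonneg _) zero_le_one
          _ ≤ 2 * Real.pi * R * |x - y| := by
            rw [one_mul]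
            gcongr
    _ = 2 * Real.pi * (R : ℝ) ^ 2 * |x - y| := by
        rw [Finset.sum_const, Nat.card_Icc, nsmul_eq_mul]
        push_cast
        ring

lemma SUP_per (d R : ℕ) (x : ℝ) : SUP_S d R x = SUP_S d R (Int.fract x) := by
  unfold SUP_S
  refine Finset.sum_congr rfl fun n _ => ?_
  congr 1
  have h1 : (2 * Real.pi * Complex.I * n * x : ℂ) =
      2 * Real.pi * Complex.I * n * ((Int.fract x : ℝ) : ℂ) +
        ((n * ⌊x⌋ : ℤ) : ℂ) * (2 * Real.pi * Complex.I) := by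
    have h2 : (x : ℂ) = ((Int.fract x : ℝ) : ℂ) + ((⌊x⌋ : ℤ) : ℂ) := by
      have h3 := Int.fract_add_floor x
      have h4 : ((Int.fract x + (⌊x⌋ : ℝ) : ℝ) : ℂ) = (x : ℂ) := by rw [h3]
      rw [← h4]
      push_cast
      ring
    rw [h2]
    push_cast
    ring
  rw [h1, Complex.exp_add, Complex.exp_int_mul_two_pi_mul_I, mul_one]

/-- the net -/
lemma SUP_net (d R : ℕ) (hR : 1 ≤ R) (x : ℝ) : ∃ j ∈ Finset.range (16 * R ^ 2),
    ‖SUP_S d R x‖ ≤ ‖SUP_S d R ((j : ℝ) / (16 * R ^ 2))‖ + 1 / 2 := by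
  have hR0 : (0 : ℝ) < R := by exact_mod_cast hR
  have hQ : (0 : ℝ) < 16 * (R : ℝ) ^ 2 := by positivity
  have hf0 := Int.fract_nonneg x
  have hf1 := Int.fract_lt_one x
  set y := Int.fract x with hy
  have hy0 : 0 ≤ y * (16 * (R : ℝ) ^ 2) := by positivity
  refine ⟨⌊y * (16 * (R : ℝ) ^ 2)⌋₊, ?_, ?_⟩
  · rw [Finset.mem_range, Nat.floor_lt hy0]
    push_cast
    nlinarith
  · rw [SUP_per, ← hy]
    have h1 := SUP_lip d R y ((⌊y * (16 * (R : ℝ) ^ 2)⌋₊ : ℝ) / (16 * R ^ 2))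
    have h2 : |y - (⌊y * (16 * (R : ℝ) ^ 2)⌋₊ : ℝ) / (16 * (R : ℝ) ^ 2)| ≤ (1 : ℝ) / (16 * (R : ℝ) ^ 2) := by
      have h3 := Nat.floor_le hy0
      have h4 := Nat.lt_floor_add_one (y * (16 * (R : ℝ) ^ 2))
      rw [abs_le]
      constructor
      · have : (⌊y * (16 * (R : ℝ) ^ 2)⌋₊ : ℝ) / (16 * R ^ 2) ≤ y := by
          rw [div_le_iff₀ hQ]; exact h3
        have h5 : 0 ≤ 1 / (16 * (R : ℝ) ^ 2) := by positivity
        linarith
      · rw [sub_le_iff_le_add, ← add_div, le_div_iff₀ hQ]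
        linarith
    have h6 : 2 * Real.pi * (R : ℝ) ^ 2 * |y - (⌊y * (16 * (R : ℝ) ^ 2)⌋₊ : ℝ) / (16 * R ^ 2)| ≤
        1 / 2 := by
      calc 2 * Real.pi * (R : ℝ) ^ 2 * |y - (⌊y * (16 * (R : ℝ) ^ 2)⌋₊ : ℝ) / (16 * R ^ 2)|
          ≤ 2 * Real.pi * (R : ℝ) ^ 2 * ((1 : ℝ) / (16 * (R : ℝ) ^ 2)) := by
            apply mul_le_mul_of_nonneg_left h2
            have := Real.pi_pos
            positivity
        _ = Real.pi / 8 := by field_simp; ring
        _ ≤ 1 / 2 := by have := Real.pi_lt_four; linarith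
    have h7 := norm_sub_norm_le (SUP_S d R y)
      (SUP_S d R ((⌊y * (16 * (R : ℝ) ^ 2)⌋₊ : ℝ) / (16 * R ^ 2)))
    linarith

/-! ## moments -/

lemma SUP_jac_prod {ι : Type} (s : Finset ι) (n : ι → ℕ) (d : ℕ) :
    jacobiSym ((∏ i ∈ s, n i : ℕ) : ℤ) d = ∏ i ∈ s, jacobiSym (n i : ℤ) d := by
  induction s using Finset.induction_on with
  | empty => simp [jacobiSym.one_left]
  | insert a s ha ih =>
    rw [Finset.prod_insert ha, Finset.prod_insert ha, Nat.cast_mul, jacobiSym.mul_left, ih]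

/-- sums of products of the values -/
lemma SUP_sum_fj (hJ : S_JAC) (K D R : ℕ) (n : Fin K → ℕ) (hn : ∀ i, 1 ≤ n i ∧ n i ≤ R) :
    |∑ d ∈ (Finset.Icc 1 D).filter (fun d => Odd d), ∏ i, fj d (n i)| ≤
      if IsSquare (∏ i, n i) then (D : ℝ) else 4 * (R : ℝ) ^ K := by
  have hpos : 0 < ∏ i, n i := Finset.prod_pos fun i _ => (hn i).1
  split_ifs with hsq
  · calc |∑ d ∈ (Finset.Icc 1 D).filter (fun d => Odd d), ∏ i, fj d (n i)|
        ≤ ∑ d ∈ (Finset.Icc 1 D).filter (fun d => Odd d), |∏ i, fj d (n i)| :=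
          Finset.abs_sum_le_sum_abs _ _
      _ ≤ ∑ d ∈ (Finset.Icc 1 D).filter (fun d => Odd d), (1 : ℝ) := by
          refine Finset.sum_le_sum fun d _ => ?_
          rw [Finset.abs_prod]
          exact Finset.prod_le_one (fun i _ => abs_nonneg _) fun i _ => SUP_fj_le d (n i)
      _ = (((Finset.Icc 1 D).filter (fun d => Odd d)).card : ℝ) := by
          rw [Finset.sum_const, nsmul_eq_mul, mul_one]
      _ ≤ D := by
          have := Finset.card_filter_le (Finset.Icc 1 D) (fun d => Odd d)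
          rw [Nat.card_Icc, Nat.add_sub_cancel] at this
          exact_mod_cast this
  · have h1 : ∀ d, ∏ i, fj d (n i) = (∏ i, ((ArithmeticFunction.moebius (n i) : ℤ) : ℝ)) *
        ((jacobiSym ((∏ i, n i : ℕ) : ℤ) d : ℤ) : ℝ) := by
      intro d
      unfold fj
      rw [Finset.prod_mul_distrib, SUP_jac_prod]
      push_cast
      rfl
    simp only [h1]
    rw [← Finset.mul_sum, abs_mul]
    have h2 : |∏ i, ((ArithmeticFunction.moebius (n i) : ℤ) : ℝ)| ≤ 1 := by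
      rw [Finset.abs_prod]
      refine Finset.prod_le_one (fun i _ => abs_nonneg _) fun i _ => ?_
      exact_mod_cast ArithmeticFunction.abs_moebius_le_one
    have h3 := hJ (∏ i, n i) D hpos hsq
    have h4 : ((∏ i, n i : ℕ) : ℝ) ≤ (R : ℝ) ^ K := by
      have : ∏ i, n i ≤ R ^ K := by
        calc ∏ i, n i ≤ ∏ _i : Fin K, R := Finset.prod_le_prod' fun i _ => (hn i).2
          _ = R ^ K := by simp
      exact_mod_cast this
    calc |∏ i, ((ArithmeticFunction.moebius (n i) : ℤ) : ℝ)| *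
        |∑ d ∈ (Finset.Icc 1 D).filter (fun d => Odd d),
          ((jacobiSym ((∏ i, n i : ℕ) : ℤ) d : ℤ) : ℝ)|
        ≤ 1 * (4 * ((∏ i, n i : ℕ) : ℝ)) := mul_le_mul h2 h3 (abs_nonneg _) zero_le_one
      _ ≤ 4 * (R : ℝ) ^ K := by linarith

/-- the weights -/
noncomputable def SUP_w (k : ℕ) (x : ℝ) (i n : ℕ) : ℂ :=
  if i < k then Complex.exp (2 * Real.pi * Complex.I * n * x)
  else (starRingEnd ℂ) (Complex.exp (2 * Real.pi * Complex.I * n * x))

lemma SUP_w_norm (k : ℕ) (x : ℝ) (i n : ℕ) : ‖SUP_w k x i n‖ = 1 := by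
  unfold SUP_w
  split_ifs
  · exact SUP_norm_e n x
  · rw [RCLike.norm_conj]
    exact SUP_norm_e n x

lemma SUP_pow (k d R : ℕ) (x : ℝ) : ((‖SUP_S d R x‖ ^ (2 * k) : ℝ) : ℂ) =
    ∑ n ∈ tup (2 * k) (Finset.Icc 1 R), ((∏ i, fj d (n i) : ℝ) : ℂ) *
      ∏ i : Fin (2 * k), SUP_w k x i (n i) := by
  have h1 : ((‖SUP_S d R x‖ ^ (2 * k) : ℝ) : ℂ) =
      ∏ i : Fin (2 * k), (if (i : ℕ) < k then SUP_S d R x else (starRingEnd ℂ) (SUP_S d R x)) := by
    rw [Fin.prod_univ_eq_prod_range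
      (fun i => if i < k then SUP_S d R x else (starRingEnd ℂ) (SUP_S d R x)) (2 * k), two_mul,
      Finset.prod_range_add]
    have e1 : ∏ i ∈ Finset.range k, (if i < k then SUP_S d R x else (starRingEnd ℂ) (SUP_S d R x)) =
        SUP_S d R x ^ k := by
      rw [Finset.prod_congr rfl fun i hi => if_pos (Finset.mem_range.1 hi), Finset.prod_const,
        Finset.card_range]
    have e2 : ∏ i ∈ Finset.range k, (if k + i < k then SUP_S d R x else
        (starRingEnd ℂ) (SUP_S d R x)) = (starRingEnd ℂ) (SUP_S d R x) ^ k := by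
      rw [Finset.prod_congr rfl fun i _ => if_neg (by omega), Finset.prod_const,
        Finset.card_range]
    rw [e1, e2, ← mul_pow, Complex.mul_conj, Complex.normSq_eq_norm_sq]
    push_cast
    rw [← pow_mul, two_mul]
  have h2 : ∀ i : Fin (2 * k), (if (i : ℕ) < k then SUP_S d R x else
      (starRingEnd ℂ) (SUP_S d R x)) =
      ∑ n ∈ Finset.Icc 1 R, ((fj d n : ℝ) : ℂ) * SUP_w k x i n := by
    intro i
    unfold SUP_w SUP_S
    split_ifs
    · rfl
    · rw [map_sum]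
      refine Finset.sum_congr rfl fun n _ => ?_
      rw [map_mul, Complex.conj_ofReal]
  rw [h1, Finset.prod_congr rfl fun i _ => h2 i, Finset.prod_univ_sum]
  refine Finset.sum_congr rfl fun n _ => ?_
  rw [Finset.prod_mul_distrib]
  push_cast
  rfl

lemma SUP_mom (hJ : S_JAC) (k D R : ℕ) (hk : 1 ≤ k) (hR : 1 ≤ R) (x : ℝ) :
    ∑ d ∈ (Finset.Icc 1 D).filter (fun d => Odd d), ‖SUP_S d R x‖ ^ (2 * k) ≤
      (((tup (2 * k) (Finset.Icc 1 R)).filter fun n => IsSquare (∏ i, n i)).card : ℝ) * D +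
        4 * (R : ℝ) ^ (4 * k) := by
  have h1 : ((∑ d ∈ (Finset.Icc 1 D).filter (fun d => Odd d), ‖SUP_S d R x‖ ^ (2 * k) : ℝ) : ℂ) =
      ∑ n ∈ tup (2 * k) (Finset.Icc 1 R),
        ((∑ d ∈ (Finset.Icc 1 D).filter (fun d => Odd d), ∏ i, fj d (n i) : ℝ) : ℂ) *
        ∏ i : Fin (2 * k), SUP_w k x i (n i) := by
    rw [Complex.ofReal_sum, Finset.sum_congr rfl fun d _ => SUP_pow k d R x, Finset.sum_comm]
    refine Finset.sum_congr rfl fun n _ => ?_
    rw [← Finset.sum_mul, Complex.ofReal_sum]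
  have h2 : 0 ≤ ∑ d ∈ (Finset.Icc 1 D).filter (fun d => Odd d), ‖SUP_S d R x‖ ^ (2 * k) :=
    Finset.sum_nonneg fun d _ => by positivity
  have h3 : ∑ d ∈ (Finset.Icc 1 D).filter (fun d => Odd d), ‖SUP_S d R x‖ ^ (2 * k) =
      ‖((∑ d ∈ (Finset.Icc 1 D).filter (fun d => Odd d), ‖SUP_S d R x‖ ^ (2 * k) : ℝ) : ℂ)‖ := by
    rw [Complex.norm_real, Real.norm_of_nonneg h2]
  rw [h3, h1]
  calc ‖∑ n ∈ tup (2 * k) (Finset.Icc 1 R),
        ((∑ d ∈ (Finset.Icc 1 D).filter (fun d => Odd d), ∏ i, fj d (n i) : ℝ) : ℂ) *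
        ∏ i : Fin (2 * k), SUP_w k x i (n i)‖
      ≤ ∑ n ∈ tup (2 * k) (Finset.Icc 1 R), (if IsSquare (∏ i, n i) then (D : ℝ) else
          4 * (R : ℝ) ^ (2 * k)) := by
        refine (norm_sum_le _ _).trans (Finset.sum_le_sum fun n hn => ?_)
        rw [norm_mul, norm_prod,
          Finset.prod_congr rfl fun (i : Fin (2 * k)) _ => SUP_w_norm k x i (n i),
          Finset.prod_const_one, mul_one, Complex.norm_real, Real.norm_eq_abs]
        refine SUP_sum_fj hJ (2 * k) D R n fun i => ?_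
        exact Finset.mem_Icc.1 ((Fintype.mem_piFinset.1 hn) i)
    _ ≤ ∑ n ∈ tup (2 * k) (Finset.Icc 1 R), ((if IsSquare (∏ i, n i) then (D : ℝ) else 0) +
          4 * (R : ℝ) ^ (2 * k)) := by
        refine Finset.sum_le_sum fun n _ => ?_
        have h5 : (0 : ℝ) ≤ 4 * (R : ℝ) ^ (2 * k) := by positivity
        split_ifs <;> linarith
    _ = _ := by
        rw [Finset.sum_add_distrib, ← Finset.sum_filter, Finset.sum_const, Finset.sum_const,
          nsmul_eq_mul, nsmul_eq_mul]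
        have h6 : (tup (2 * k) (Finset.Icc 1 R)).card = R ^ (2 * k) := by
          unfold tup
          rw [Fintype.card_piFinset]
          simp
        rw [h6]
        push_cast
        have h7 : (R : ℝ) ^ (4 * k) = (R : ℝ) ^ (2 * k) * (R : ℝ) ^ (2 * k) := by
          rw [← pow_add]; congr 1; omega
        rw [h7]
        ring

/-- one value of `R` -/
lemma SUP_one (hJ : S_JAC) (ε A : ℝ) (hε : 0 < ε) (hA : 0 < A) : ∃ (k : ℕ) (C : ℝ), 1 ≤ k ∧ 0 < C ∧
    ∀ D R : ℕ, 1 ≤ R → (R : ℝ) ^ (4 * k) ≤ D →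
      (((Finset.Icc 1 D).filter fun d => Odd d ∧ ∃ x : ℝ,
        (R : ℝ) ^ (1 / 2 + ε) < ‖SUP_S d R x‖).card : ℝ) ≤ C * D * (R : ℝ) ^ (-(A + 2)) := by
  set k : ℕ := ⌈(A + 5) / (2 * ε)⌉₊ with hk
  have hk1 : (A + 5) / (2 * ε) ≤ k := Nat.le_ceil _
  have hk2 : A + 5 ≤ 2 * k * ε := by
    rw [div_le_iff₀ (by positivity)] at hk1
    linarith
  have hk0 : 1 ≤ k := by
    by_contra hcon
    have : k = 0 := by omega
    rw [this] at hk2
    norm_num at hk2
    linarith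
  obtain ⟨C, hC, hTC⟩ := t_TC k 1 hk0 one_pos
  refine ⟨k, 16 * (C + 4) * 4 ^ k, hk0, by positivity, ?_⟩
  intro D R hR hRD
  have hR0 : (0 : ℝ) < R := by exact_mod_cast hR
  have hR1 : (1 : ℝ) ≤ R := by exact_mod_cast hR
  set B := (Finset.Icc 1 D).filter fun d => Odd d ∧ ∃ x : ℝ,
    (R : ℝ) ^ (1 / 2 + ε) < ‖SUP_S d R x‖ with hB
  set O := (Finset.Icc 1 D).filter (fun d => Odd d) with hO
  have hBO : B ⊆ O := by
    intro d hd
    rw [hB, Finset.mem_filter] at hd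
    rw [hO, Finset.mem_filter]
    exact ⟨hd.1, hd.2.1⟩
  set T : ℝ := (R : ℝ) ^ (1 / 2 + ε) with hT
  have hT1 : 1 ≤ T := Real.one_le_rpow hR1 (by linarith)
  have h1 : ∀ d ∈ B, (T / 2) ^ (2 * k) ≤ ∑ j ∈ Finset.range (16 * R ^ 2),
      ‖SUP_S d R ((j : ℝ) / (16 * R ^ 2))‖ ^ (2 * k) := by
    intro d hd
    rw [hB, Finset.mem_filter] at hd
    obtain ⟨-, -, x, hx⟩ := hd
    obtain ⟨j, hj, hj2⟩ := SUP_net d R hR x
    have h2 : T / 2 ≤ ‖SUP_S d R ((j : ℝ) / (16 * R ^ 2))‖ := by linarith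
    calc (T / 2) ^ (2 * k) ≤ ‖SUP_S d R ((j : ℝ) / (16 * R ^ 2))‖ ^ (2 * k) :=
          pow_le_pow_left₀ (by linarith) h2 _
      _ ≤ _ := Finset.single_le_sum
          (f := fun j : ℕ => ‖SUP_S d R ((j : ℝ) / (16 * R ^ 2))‖ ^ (2 * k))
          (fun _ _ => by positivity) hj
  have h3 : (B.card : ℝ) * (T / 2) ^ (2 * k) ≤ 16 * (R : ℝ) ^ 2 * ((C + 4) * D * (R : ℝ) ^ ((k : ℝ) + 1)) := by
    calc (B.card : ℝ) * (T / 2) ^ (2 * k) = ∑ d ∈ B, (T / 2) ^ (2 * k) := by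
          rw [Finset.sum_const, nsmul_eq_mul]
      _ ≤ ∑ d ∈ B, ∑ j ∈ Finset.range (16 * R ^ 2),
          ‖SUP_S d R ((j : ℝ) / (16 * R ^ 2))‖ ^ (2 * k) := Finset.sum_le_sum h1
      _ ≤ ∑ d ∈ O, ∑ j ∈ Finset.range (16 * R ^ 2),
          ‖SUP_S d R ((j : ℝ) / (16 * R ^ 2))‖ ^ (2 * k) :=
          Finset.sum_le_sum_of_subset_of_nonneg hBO fun d _ _ =>
            Finset.sum_nonneg fun j _ => by positivity
      _ = ∑ j ∈ Finset.range (16 * R ^ 2), ∑ d ∈ O,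
          ‖SUP_S d R ((j : ℝ) / (16 * R ^ 2))‖ ^ (2 * k) := Finset.sum_comm
      _ ≤ ∑ _j ∈ Finset.range (16 * R ^ 2), ((C + 4) * D * (R : ℝ) ^ ((k : ℝ) + 1)) := by
          refine Finset.sum_le_sum fun j _ => ?_
          refine (SUP_mom hJ k D R hk0 hR _).trans ?_
          have h4 := hTC R hR
          have h5 : (1 : ℝ) ≤ (R : ℝ) ^ ((k : ℝ) + 1) := Real.one_le_rpow hR1 (by positivity)
          have hD0 : (0 : ℝ) ≤ D := Nat.cast_nonneg D
          have h6 := mul_le_mul_of_nonneg_right h4 hD0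
          have h7 : 4 * (R : ℝ) ^ (4 * k) ≤ 4 * D * (R : ℝ) ^ ((k : ℝ) + 1) := by
            have h8 : (D : ℝ) * 1 ≤ D * (R : ℝ) ^ ((k : ℝ) + 1) := mul_le_mul_of_nonneg_left h5 hD0
            linarith
          calc _ ≤ C * (R : ℝ) ^ ((k : ℝ) + 1) * D + 4 * D * (R : ℝ) ^ ((k : ℝ) + 1) :=
                add_le_add h6 h7
            _ = _ := by ring
      _ = 16 * (R : ℝ) ^ 2 * ((C + 4) * D * (R : ℝ) ^ ((k : ℝ) + 1)) := by
          rw [Finset.sum_const, Finset.card_range, nsmul_eq_mul]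
          push_cast
          ring
  have h9 : (T / 2) ^ (2 * k) = (R : ℝ) ^ ((k : ℝ) + 2 * k * ε) / 4 ^ k := by
    rw [div_pow, hT, ← Real.rpow_natCast _ (2 * k), ← Real.rpow_mul hR0.le, pow_mul]
    congr 1
    · congr 1
      push_cast
      ring
    · norm_num
  rw [h9] at h3
  have h10 : (0 : ℝ) < (R : ℝ) ^ ((k : ℝ) + 2 * k * ε) := Real.rpow_pos_of_pos hR0 _
  have h11 : (B.card : ℝ) ≤ 16 * (R : ℝ) ^ 2 * ((C + 4) * D * (R : ℝ) ^ ((k : ℝ) + 1)) * 4 ^ k /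
      (R : ℝ) ^ ((k : ℝ) + 2 * k * ε) := by
    rw [le_div_iff₀ h10]
    have h12 : (0 : ℝ) < 4 ^ k := by positivity
    rw [mul_div_assoc', div_le_iff₀ h12] at h3
    exact h3
  refine h11.trans ?_
  have h13 : 16 * (R : ℝ) ^ 2 * ((C + 4) * D * (R : ℝ) ^ ((k : ℝ) + 1)) * 4 ^ k /
      (R : ℝ) ^ ((k : ℝ) + 2 * k * ε) = 16 * (C + 4) * 4 ^ k * D * (R : ℝ) ^ (3 - 2 * k * ε) := by
    have h14 : (R : ℝ) ^ (3 - 2 * k * ε) = (R : ℝ) ^ 2 * (R : ℝ) ^ ((k : ℝ) + 1) /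
        (R : ℝ) ^ ((k : ℝ) + 2 * k * ε) := by
      rw [← Real.rpow_natCast (R : ℝ) 2, ← Real.rpow_add hR0, ← Real.rpow_sub hR0]
      congr 1
      push_cast
      ring
    rw [h14]
    ring
  rw [h13]
  apply mul_le_mul_of_nonneg_left _ (by positivity)
  exact Real.rpow_le_rpow_of_exponent_le hR1 (by linarith)

lemma SUP_tail (R0 N : ℕ) (hR0 : 1 ≤ R0) : ∑ R ∈ Finset.Icc R0 N, 1 / (R : ℝ) ^ 2 ≤ 2 := by
  have h1 : ∑ R ∈ Finset.Icc R0 N, 1 / (R : ℝ) ^ 2 ≤ ∑ R ∈ Finset.Icc 1 N, 1 / (R : ℝ) ^ 2 :=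
    Finset.sum_le_sum_of_subset_of_nonneg (Finset.Icc_subset_Icc_left hR0) fun _ _ _ => by positivity
  refine h1.trans ?_
  have h2 : ∀ M : ℕ, ∑ R ∈ Finset.Icc 1 (M + 1), 1 / (R : ℝ) ^ 2 ≤ 2 - 1 / ((M : ℝ) + 1) := by
    intro M
    induction M with
    | zero => simp; norm_num
    | succ M ih =>
      rw [← Finset.insert_Icc_right_eq_Icc_add_one (by omega : 1 ≤ M + 1 + 1),
        Finset.sum_insert (by simp)]
      have h3 : 1 / ((M + 1 + 1 : ℕ) : ℝ) ^ 2 ≤ 1 / ((M : ℝ) + 1) - 1 / (((M + 1 : ℕ) : ℝ) + 1) := by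
        push_cast
        have h4 : (0 : ℝ) < (M : ℝ) + 1 := by positivity
        have h5 : (0 : ℝ) < (M : ℝ) + 1 + 1 := by positivity
        rw [div_sub_div _ _ h4.ne' h5.ne', div_le_div_iff₀ (by positivity) (by positivity)]
        nlinarith
      linarith
  rcases N with _ | M
  · simp
  · have h6 := h2 M
    have h7 : (0 : ℝ) ≤ 1 / ((M : ℝ) + 1) := by positivity
    linarith

theorem t_SUP (hJ : S_JAC) : S_SUP := by
  intro ε A hε hA
  obtain ⟨k, C, hk, hC, h1⟩ := SUP_one hJ ε A hε hA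
  have hk0 : (0 : ℝ) < k := by exact_mod_cast hk
  refine ⟨1 / (4 * k), 2 * C, by positivity, by positivity, ?_⟩
  intro D R0 hR0
  have hR00 : (0 : ℝ) < R0 := by exact_mod_cast hR0
  have hD0 : (0 : ℝ) ≤ D := Nat.cast_nonneg D
  set c : ℝ := 1 / (4 * k) with hc
  have hc0 : 0 < c := by positivity
  set N : ℕ := ⌊(D : ℝ) ^ c⌋₊ with hN
  set B : ℕ → Finset ℕ := fun R => (Finset.Icc 1 D).filter fun d => Odd d ∧ ∃ x : ℝ,
    (R : ℝ) ^ (1 / 2 + ε) < ‖SUP_S d R x‖ with hB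
  have hsub : ((Finset.Icc 1 D).filter fun d => Odd d ∧ ∃ R : ℕ, R0 ≤ R ∧ (R : ℝ) ≤ (D : ℝ) ^ c ∧
      ∃ x : ℝ, (R : ℝ) ^ (1 / 2 + ε) < ‖∑ n ∈ Finset.Icc 1 R, ((fj d n : ℝ) : ℂ) *
      Complex.exp (2 * Real.pi * Complex.I * n * x)‖) ⊆ (Finset.Icc R0 N).biUnion B := by
    intro d hd
    obtain ⟨h2, h3, R, h4, h5, x, h6⟩ := Finset.mem_filter.1 hd
    rw [Finset.mem_biUnion]
    refine ⟨R, Finset.mem_Icc.2 ⟨h4, Nat.le_floor h5⟩, ?_⟩
    exact Finset.mem_filter.2 ⟨h2, h3, x, h6⟩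
  have hone : ∀ R ∈ Finset.Icc R0 N, ((B R).card : ℝ) ≤ C * D * (R0 : ℝ) ^ (-A) * (1 / (R : ℝ) ^ 2) := by
    intro R hR
    rw [Finset.mem_Icc] at hR
    have hR1 : 1 ≤ R := hR0.trans hR.1
    have hRp : (0 : ℝ) < R := by exact_mod_cast hR1
    have hRD : (R : ℝ) ^ (4 * k) ≤ D := by
      have h2 : (R : ℝ) ≤ (D : ℝ) ^ c := (Nat.le_floor_iff (by positivity)).1 hR.2
      calc (R : ℝ) ^ (4 * k) ≤ ((D : ℝ) ^ c) ^ (4 * k) := pow_le_pow_left₀ hRp.le h2 _
        _ = D := by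
          rw [← Real.rpow_natCast, ← Real.rpow_mul hD0, hc]
          have : 1 / (4 * (k : ℝ)) * ((4 * k : ℕ) : ℝ) = 1 := by
            push_cast
            field_simp
          rw [this, Real.rpow_one]
    refine (h1 D R hR1 hRD).trans ?_
    have h3 : (R : ℝ) ^ (-(A + 2)) = (R : ℝ) ^ (-A) * (1 / (R : ℝ) ^ 2) := by
      rw [neg_add, Real.rpow_add hRp, Real.rpow_neg hRp.le 2]
      norm_num
    rw [h3, ← mul_assoc]
    have h4 : (R : ℝ) ^ (-A) ≤ (R0 : ℝ) ^ (-A) :=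
      Real.rpow_le_rpow_of_nonpos hR00 (by exact_mod_cast hR.1) (by linarith)
    gcongr
  calc (((Finset.Icc 1 D).filter fun d => Odd d ∧ ∃ R : ℕ, R0 ≤ R ∧ (R : ℝ) ≤ (D : ℝ) ^ c ∧
      ∃ x : ℝ, (R : ℝ) ^ (1 / 2 + ε) < ‖∑ n ∈ Finset.Icc 1 R, ((fj d n : ℝ) : ℂ) *
      Complex.exp (2 * Real.pi * Complex.I * n * x)‖).card : ℝ)
      ≤ (((Finset.Icc R0 N).biUnion B).card : ℝ) := by
        exact_mod_cast Finset.card_le_card hsub
    _ ≤ ∑ R ∈ Finset.Icc R0 N, ((B R).card : ℝ) := by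
        exact_mod_cast Finset.card_biUnion_le
    _ ≤ ∑ R ∈ Finset.Icc R0 N, C * D * (R0 : ℝ) ^ (-A) * (1 / (R : ℝ) ^ 2) := Finset.sum_le_sum hone
    _ = C * D * (R0 : ℝ) ^ (-A) * ∑ R ∈ Finset.Icc R0 N, 1 / (R : ℝ) ^ 2 := by
        rw [Finset.mul_sum]
    _ ≤ C * D * (R0 : ℝ) ^ (-A) * 2 := by
        apply mul_le_mul_of_nonneg_left (SUP_tail R0 N hR0) (by positivity)
    _ = 2 * C * D * (R0 : ℝ) ^ (-A) := by ring

end Pool.Agent.N282.GC
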