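import Pool.Agent.N282.GC.Stm

/-!
# Weighted count of tuples (S_W; helper130)
-/

set_option autoImplicit false

namespace Pool.Agent.N282.GC

open Finset

theorem W_mult (u L : ℝ) (hL : 0 < L) (D : ℕ) (hD : 0 < D) (A : Finset ℕ)
    (hA : ∀ n ∈ A, u ≤ n ∧ (n : ℝ) ≤ u + L ∧ D ∣ n) : (A.card : ℝ) ≤ L / D + 1 := by
  have hDr : (0 : ℝ) < D := by exact_mod_cast hD
  have h1 : A.card ≤ (Finset.Icc ⌈u / D⌉ ⌊(u + L) / D⌋).card := by
    apply Finset.card_le_card_of_injOn (fun n : ℕ => ((n / D : ℕ) : ℤ))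
    · intro n hn
      obtain ⟨h1, h2, m, rfl⟩ := hA n hn
      rw [Finset.mem_coe, Finset.mem_Icc]
      have h3 : ((D * m / D : ℕ) : ℤ) = (m : ℤ) := by rw [Nat.mul_div_cancel_left _ hD]
      show ⌈u / (D : ℝ)⌉ ≤ ((D * m / D : ℕ) : ℤ) ∧ ((D * m / D : ℕ) : ℤ) ≤ ⌊(u + L) / (D : ℝ)⌋
      rw [h3]
      push_cast at h1 h2
      constructor
      · rw [Int.ceil_le, div_le_iff₀ hDr]
        push_cast
        linarith
      · rw [Int.le_floor, le_div_iff₀ hDr]
        push_cast
        linarith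
    · intro n hn n' hn' h
      obtain ⟨_, _, m, rfl⟩ := hA n hn
      obtain ⟨_, _, m', rfl⟩ := hA n' hn'
      have h3 : ((D * m / D : ℕ) : ℤ) = ((D * m' / D : ℕ) : ℤ) := h
      rw [Nat.mul_div_cancel_left _ hD, Nat.mul_div_cancel_left _ hD] at h3
      have h4 : m = m' := by exact_mod_cast h3
      rw [h4]
  rw [Int.card_Icc] at h1
  have h2 : (((⌊(u + L) / D⌋ + 1 - ⌈u / D⌉).toNat : ℕ) : ℝ) ≤ L / D + 1 := by
    rcases le_or_gt 0 (⌊(u + L) / D⌋ + 1 - ⌈u / D⌉) with h | h
    · have h3 : (((⌊(u + L) / D⌋ + 1 - ⌈u / D⌉).toNat : ℕ) : ℤ) = ⌊(u + L) / D⌋ + 1 - ⌈u / D⌉ :=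
        Int.toNat_of_nonneg h
      have h4 : (((⌊(u + L) / D⌋ + 1 - ⌈u / D⌉).toNat : ℕ) : ℝ) =
          (⌊(u + L) / D⌋ : ℝ) + 1 - (⌈u / D⌉ : ℝ) := by exact_mod_cast h3
      rw [h4]
      have h5 := Int.floor_le ((u + L) / D)
      have h6 := Int.le_ceil (u / D)
      have h7 : (u + L) / D = u / D + L / D := add_div _ _ _
      linarith
    · rw [Int.toNat_of_nonpos h.le, Nat.cast_zero]
      positivity
  exact (Nat.cast_le.2 h1).trans h2

theorem W_inner (u L : ℝ) (hL : 0 < L) (P : ℕ) (hP : 0 < P) (A : Finset ℕ)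
    (hA : ∀ n ∈ A, u ≤ n ∧ (n : ℝ) ≤ u + L) :
    ∑ n ∈ A, (L / (Nat.gcd n P : ℝ) + 1)⁻¹ ≤ P.divisors.card := by
  classical
  have h1 : ∑ D ∈ P.divisors, ∑ n ∈ A with Nat.gcd n P = D, (L / (Nat.gcd n P : ℝ) + 1)⁻¹ =
      ∑ n ∈ A, (L / (Nat.gcd n P : ℝ) + 1)⁻¹ := by
    apply Finset.sum_fiberwise_of_maps_to
    intro n _
    exact Nat.mem_divisors.2 ⟨Nat.gcd_dvd_right _ _, by omega⟩
  rw [← h1]
  have h2 : ∀ D ∈ P.divisors, ∑ n ∈ A with Nat.gcd n P = D, (L / (Nat.gcd n P : ℝ) + 1)⁻¹ ≤ 1 := by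
    intro D hD
    have hD0 : 0 < D := Nat.pos_of_mem_divisors hD
    have hDr : (0 : ℝ) < D := by exact_mod_cast hD0
    have h3 : ∑ n ∈ A with Nat.gcd n P = D, (L / (Nat.gcd n P : ℝ) + 1)⁻¹ =
        ∑ n ∈ A with Nat.gcd n P = D, (L / (D : ℝ) + 1)⁻¹ := by
      refine Finset.sum_congr rfl fun n hn => ?_
      rw [(Finset.mem_filter.1 hn).2]
    rw [h3, Finset.sum_const, nsmul_eq_mul, ← div_eq_mul_inv, div_le_one (by positivity)]
    apply W_mult u L hL D hD0
    intro n hn
    obtain ⟨h4, h5⟩ := Finset.mem_filter.1 hn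
    exact ⟨(hA n h4).1, (hA n h4).2, h5 ▸ Nat.gcd_dvd_left _ _⟩
  calc _ ≤ ∑ D ∈ P.divisors, (1 : ℝ) := Finset.sum_le_sum h2
    _ = _ := by simp

/-- truncation -/
def W_tc {K : ℕ} (k : ℕ) (e : Fin K → ℕ) : Fin K → ℕ := fun i => if (i : ℕ) < k then e i else 0

theorem W_tc_lt {K : ℕ} {k : ℕ} (e : Fin K → ℕ) {i : Fin K} (h : (i : ℕ) < k) : W_tc k e i = e i := by
  unfold W_tc; rw [if_pos h]

theorem W_tc_ge {K : ℕ} {k : ℕ} (e : Fin K → ℕ) {i : Fin K} (h : ¬ (i : ℕ) < k) : W_tc k e i = 0 := by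
  unfold W_tc; rw [if_neg h]

theorem W_prod_congr {K : ℕ} (e f : Fin K → ℕ) (i : Fin K) (h : ∀ j < i, e j = f j) :
    ∏ j ∈ Finset.univ.filter (· < i), e j = ∏ j ∈ Finset.univ.filter (· < i), f j := by
  refine Finset.prod_congr rfl fun j hj => ?_
  exact h j (Finset.mem_filter.1 hj).2

theorem W_gd_congr {K : ℕ} (e f : Fin K → ℕ) (i : Fin K) (h : ∀ j ≤ i, e j = f j) :
    gd e i = gd f i := by
  unfold gd
  rw [h i le_rfl]
  congr 1
  refine Finset.prod_congr rfl fun j hj => ?_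
  exact h j (le_of_lt (Finset.mem_filter.1 hj).2)

open Classical in
theorem W_step (K : ℕ) (T : ℝ) (L : Fin K → ℝ) (E : Finset (Fin K → ℕ))
    (u : Fin K → (Fin K → ℕ) → ℝ) (hT : 1 ≤ T) (hL : ∀ i, 0 < L i)
    (hu : ∀ i e e', (∀ j < i, e j = e' j) → u i e = u i e')
    (hE : ∀ e ∈ E, ∀ i, 1 ≤ e i ∧ u i e ≤ e i ∧ (e i : ℝ) ≤ u i e + L i ∧
      ((∏ j ∈ Finset.univ.filter (· < i), e j).divisors.card : ℝ) ≤ T) : ∀ k, k ≤ K →
    ∑ e ∈ E.image (W_tc k), ∏ i ∈ Finset.univ.filter (fun i : Fin K => (i : ℕ) < k),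
      (L i / (gd e i : ℝ) + 1)⁻¹ ≤ T ^ k
  | 0, _ => by
    have h1 : (Finset.univ.filter (fun i : Fin K => (i : ℕ) < 0)) = ∅ := by
      ext i; simp
    have h2 : (E.image (W_tc 0)).card ≤ 1 := by
      rw [Finset.card_le_one]
      intro a ha b hb
      obtain ⟨a', -, rfl⟩ := Finset.mem_image.1 ha
      obtain ⟨b', -, rfl⟩ := Finset.mem_image.1 hb
      funext i
      rw [W_tc_ge _ (by omega), W_tc_ge _ (by omega)]
    rw [h1]
    simp only [Finset.prod_empty, Finset.sum_const, nsmul_eq_mul, mul_one, pow_zero]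
    exact_mod_cast h2
  | (k+1), hk => by
    have ih := W_step K T L E u hT hL hu hE k (by omega)
    set kk : Fin K := ⟨k, by omega⟩ with hkk
    have hfil : (Finset.univ.filter (fun i : Fin K => (i : ℕ) < k + 1)) =
        insert kk (Finset.univ.filter (fun i : Fin K => (i : ℕ) < k)) := by
      ext i
      rw [Finset.mem_insert, Finset.mem_filter, Finset.mem_filter]
      simp only [Finset.mem_univ, true_and]
      constructor
      · intro h
        by_cases h' : (i : ℕ) < k
        · exact Or.inr h'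
        · left
          apply Fin.ext
          rw [hkk]
          simp only
          omega
      · rintro (rfl | h)
        · rw [hkk]
          exact Nat.lt_succ_self k
        · omega
    have hnot : kk ∉ Finset.univ.filter (fun i : Fin K => (i : ℕ) < k) := by
      rw [Finset.mem_filter]
      rintro ⟨-, h⟩
      rw [hkk] at h
      simp at h
    have hmaps : ∀ e ∈ E.image (W_tc (k+1)), W_tc k e ∈ E.image (W_tc k) := by
      intro e he
      obtain ⟨e0, he0, rfl⟩ := Finset.mem_image.1 he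
      refine Finset.mem_image.2 ⟨e0, he0, ?_⟩
      funext i
      by_cases h : (i : ℕ) < k
      · rw [W_tc_lt _ h, W_tc_lt _ h, W_tc_lt _ (by omega)]
      · rw [W_tc_ge _ h, W_tc_ge _ h]
    rw [← Finset.sum_fiberwise_of_maps_to hmaps]
    have hinner : ∀ e' ∈ E.image (W_tc k),
        ∑ e ∈ E.image (W_tc (k+1)) with W_tc k e = e',
          ∏ i ∈ Finset.univ.filter (fun i : Fin K => (i : ℕ) < k + 1), (L i / (gd e i : ℝ) + 1)⁻¹ ≤
        T * ∏ i ∈ Finset.univ.filter (fun i : Fin K => (i : ℕ) < k), (L i / (gd e' i : ℝ) + 1)⁻¹ := by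
      intro e' he'
      obtain ⟨e0, he0, he0'⟩ := Finset.mem_image.1 he'
      set P : ℕ := ∏ j ∈ Finset.univ.filter (· < kk), e0 j with hP
      have hagree : ∀ e ∈ (E.image (W_tc (k+1))).filter (fun e => W_tc k e = e'),
          ∀ j : Fin K, (j : ℕ) < k → e j = e0 j := by
        intro e he j hj
        have h1 := congrFun (Finset.mem_filter.1 he).2 j
        rw [W_tc_lt _ hj, ← he0', W_tc_lt _ hj] at h1
        exact h1
      have h1 : ∀ e ∈ (E.image (W_tc (k+1))).filter (fun e => W_tc k e = e'),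
          ∏ i ∈ Finset.univ.filter (fun i : Fin K => (i : ℕ) < k + 1), (L i / (gd e i : ℝ) + 1)⁻¹ =
          (L kk / (Nat.gcd (e kk) P : ℝ) + 1)⁻¹ *
          ∏ i ∈ Finset.univ.filter (fun i : Fin K => (i : ℕ) < k), (L i / (gd e' i : ℝ) + 1)⁻¹ := by
        intro e he
        rw [hfil, Finset.prod_insert hnot]
        congr 1
        · have h2 : gd e kk = Nat.gcd (e kk) P := by
            unfold gd
            congr 1
            rw [hP]
            apply W_prod_congr
            intro j hj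
            exact hagree e he j hj
          rw [h2]
        · refine Finset.prod_congr rfl fun i hi => ?_
          have hi' : (i : ℕ) < k := (Finset.mem_filter.1 hi).2
          have h2 : gd e i = gd e' i := by
            apply W_gd_congr
            intro j hj
            have hj' : (j : ℕ) < k := lt_of_le_of_lt hj hi'
            rw [hagree e he j hj', ← he0', W_tc_lt _ hj']
          rw [h2]
      rw [Finset.sum_congr rfl h1, ← Finset.sum_mul]
      apply mul_le_mul_of_nonneg_right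
      · have hinj : Set.InjOn (fun e : Fin K → ℕ => e kk)
            ((E.image (W_tc (k+1))).filter (fun e => W_tc k e = e') : Finset (Fin K → ℕ)) := by
          intro a ha b hb hab
          have ha' := Finset.mem_coe.1 ha
          have hb' := Finset.mem_coe.1 hb
          funext i
          rcases lt_trichotomy (i : ℕ) k with h | h | h
          · rw [hagree a ha' i h, hagree b hb' i h]
          · have hi : i = kk := Fin.ext h
            rw [hi]
            exact hab
          · obtain ⟨a0, -, rfl⟩ := Finset.mem_image.1 (Finset.mem_filter.1 ha').1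
            obtain ⟨b0, -, rfl⟩ := Finset.mem_image.1 (Finset.mem_filter.1 hb').1
            rw [W_tc_ge _ (by omega), W_tc_ge _ (by omega)]
        have h3 : ∑ e ∈ (E.image (W_tc (k+1))).filter (fun e => W_tc k e = e'),
            (L kk / (Nat.gcd (e kk) P : ℝ) + 1)⁻¹ =
            ∑ n ∈ ((E.image (W_tc (k+1))).filter (fun e => W_tc k e = e')).image (fun e => e kk),
              (L kk / (Nat.gcd n P : ℝ) + 1)⁻¹ := by
          rw [Finset.sum_image hinj]
        rw [h3]
        have hP0 : 0 < P := by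
          rw [hP]
          exact Finset.prod_pos fun j _ => (hE e0 he0 j).1
        refine (W_inner (u kk e0) (L kk) (hL kk) P hP0 _ ?_).trans (hE e0 he0 kk).2.2.2
        intro n hn
        obtain ⟨e, he, rfl⟩ := Finset.mem_image.1 hn
        obtain ⟨e1, he1, he1'⟩ := Finset.mem_image.1 (Finset.mem_filter.1 he).1
        have h4 : e kk = e1 kk := by
          rw [← he1', W_tc_lt _ (show (kk : ℕ) < k + 1 from Nat.lt_succ_self k)]
        have h5 : u kk e0 = u kk e1 := by
          apply hu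
          intro j hj
          have hj' : (j : ℕ) < k := hj
          rw [← hagree e he j hj', ← he1', W_tc_lt _ (by omega)]
        rw [h5, h4]
        exact ⟨(hE e1 he1 kk).2.1, (hE e1 he1 kk).2.2.1⟩
      · apply Finset.prod_nonneg
        intro i _
        have := (hL i).le
        positivity
    calc _ ≤ ∑ e' ∈ E.image (W_tc k), T *
          ∏ i ∈ Finset.univ.filter (fun i : Fin K => (i : ℕ) < k), (L i / (gd e' i : ℝ) + 1)⁻¹ :=
          Finset.sum_le_sum hinner
      _ = T * ∑ e' ∈ E.image (W_tc k),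
          ∏ i ∈ Finset.univ.filter (fun i : Fin K => (i : ℕ) < k), (L i / (gd e' i : ℝ) + 1)⁻¹ := by
          rw [Finset.mul_sum]
      _ ≤ T * T ^ k := mul_le_mul_of_nonneg_left ih (by linarith)
      _ = T ^ (k+1) := by ring

theorem t_W : S_W := by
  classical
  intro K T L E u hT hL hu hE
  have h := W_step K T L E u hT hL hu hE K le_rfl
  have h1 : E.image (W_tc K) = E := by
    have h2 : (W_tc K : (Fin K → ℕ) → (Fin K → ℕ)) = id := by
      funext e i
      rw [W_tc_lt _ i.2]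
      rfl
    rw [h2, Finset.image_id]
  have h3 : (Finset.univ.filter (fun i : Fin K => (i : ℕ) < K)) = Finset.univ := by
    ext i; simp
  rw [h1, h3] at h
  exact h

end Pool.Agent.N282.GC
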